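import Pool.Agent.Lib.MP_8a3537_gt.AR.Defs
import Pool.Agent.Lib.MP_8a3537_gt.LL.Spec

/-!
# Every coefficient ring (MP_8a3537_gt, folder AR): lines over an infinite cyclic group (helper81)

`L = ⟨z⟩` infinite cyclic, normalized by `g` and `f`, `g²` and `f²` in `L`, no element of order two in
`L g`, `L f`: then `⟨z, g, f⟩` is the fundamental group of the Klein bottle and has a homomorphism to the
integers which is even on `L` and odd on `g`, `f`.
-/

set_option autoImplicit false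

namespace Pool.Agent.Lib.MP8a3537.AR

open Pool.Agent.Lib.MP8a3537.LL

namespace LCYM

variable {G : Type} [Group G]

/-- a flip of a line over `⟨z⟩` commutes with `z`, and a translate of it is a square root of `z` -/
theorem root (z g : G) (hz : ∀ n : ℤ, z ^ n = 1 → n = 0) (hg : Ns (Subgroup.zpowers z) g)
    (hgg : g * g ∈ Subgroup.zpowers z) (hg2 : ∀ k ∈ Subgroup.zpowers z, k * g * (k * g) ≠ 1) :
    ∃ (r : ℤ) (g1 : G), g = z ^ r * g1 ∧ g1 * g1 = z := by
  have hz1 : z ∈ Subgroup.zpowers z := Subgroup.mem_zpowers z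
  obtain ⟨⟨a, ha⟩, ⟨b, hb⟩⟩ := hg z hz1
  obtain ⟨m, hm⟩ := hgg
  simp only at ha hb hm
  -- `a b = 1`
  have hab : a * b = 1 := by
    have e1 : z = z ^ (a * b) := by
      calc z = g * (g⁻¹ * z * g) * g⁻¹ := by group
        _ = g * z ^ b * g⁻¹ := by rw [hb]
        _ = (g * z * g⁻¹) ^ b := by rw [conj_zpow]
        _ = (z ^ a) ^ b := by rw [ha]
        _ = z ^ (a * b) := by rw [zpow_mul]
    have e2 : z ^ (a * b - 1) = 1 := by
      rw [zpow_sub, zpow_one, ← e1, mul_inv_cancel]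
    have := hz _ e2
    omega
  -- `g` commutes with `z`
  have ha1 : a = 1 := by
    rcases Int.isUnit_iff.1 (IsUnit.of_mul_eq_one b hab) with h | h
    · exact h
    · exfalso
      have e1 : g * z ^ m * g⁻¹ = z ^ (-m) := by
        rw [← conj_zpow, ← ha, h]
        rw [← zpow_mul]
        congr 1
        ring
      have e2 : g * z ^ m * g⁻¹ = z ^ m := by rw [hm]; group
      have e3 : z ^ (m + m) = 1 := by
        rw [zpow_add]
        nth_rewrite 1 [← e2]
        rw [e1, zpow_neg, inv_mul_cancel]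
      have e4 := hz _ e3
      have e5 : m = 0 := by omega
      rw [e5, zpow_zero] at hm
      exact hg2 1 (Subgroup.one_mem _) (by rw [one_mul]; exact hm.symm)
  rw [ha1, zpow_one] at ha
  have hc : g * z = z * g := by
    have : g * z * g⁻¹ * g = z * g := by rw [← ha]
    simpa using this
  have hcg : Commute g z := hc
  have sq : ∀ r : ℤ, z ^ r * g * (z ^ r * g) = z ^ (2 * r + m) := by
    intro r
    have e1 : g * z ^ r = z ^ r * g := (hcg.zpow_right r).eq
    calc z ^ r * g * (z ^ r * g) = z ^ r * (g * z ^ r) * g := by group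
      _ = z ^ r * z ^ r * (g * g) := by rw [e1]; group
      _ = z ^ (2 * r + m) := by rw [← hm, ← zpow_add, ← zpow_add]; congr 1; ring
  rcases Int.even_or_odd' m with ⟨r, hr | hr⟩
  · exfalso
    refine hg2 (z ^ (-r)) ⟨-r, rfl⟩ ?_
    rw [sq (-r), hr]
    have : 2 * -r + 2 * r = 0 := by ring
    rw [this, zpow_zero]
  · refine ⟨r, z ^ (-r) * g, by group, ?_⟩
    rw [sq (-r), hr]
    have : 2 * -r + (2 * r + 1) = 1 := by ring
    rw [this, zpow_one]

end LCYM

/-- Lines over an infinite cyclic group have a homomorphism as in `lam_blk`. -/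
theorem lam_cyc {G : Type} [Group G] (z g f : G) (hz : ∀ n : ℤ, z ^ n = 1 → n = 0)
    (hg : Ns (Subgroup.zpowers z) g) (hf : Ns (Subgroup.zpowers z) f)
    (hgg : g * g ∈ Subgroup.zpowers z) (hff : f * f ∈ Subgroup.zpowers z)
    (hg2 : ∀ k ∈ Subgroup.zpowers z, k * g * (k * g) ≠ 1)
    (hf2 : ∀ k ∈ Subgroup.zpowers z, k * f * (k * f) ≠ 1) :
    ∃ (Q : Subgroup G) (hL : Subgroup.zpowers z ≤ Q) (hg : g ∈ Q) (hf : f ∈ Q)
      (lam : Q →* Multiplicative ℤ),
      (∀ l (hl : l ∈ Subgroup.zpowers z), Even (Multiplicative.toAdd (lam ⟨l, hL hl⟩))) ∧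
      Odd (Multiplicative.toAdd (lam ⟨g, hg⟩)) ∧ Odd (Multiplicative.toAdd (lam ⟨f, hf⟩)) := by
  classical
  obtain ⟨r, g1, hgr, hg1⟩ := LCYM.root z g hz hg hgg hg2
  obtain ⟨s, f1, hfs, hf1⟩ := LCYM.root z f hz hf hff hf2
  obtain ⟨y, hy⟩ : ∃ y : G, y = g1 * f1⁻¹ := ⟨_, rfl⟩
  have cg : Commute z g1 := by
    rw [← hg1]; exact (Commute.refl g1).mul_left (Commute.refl g1)
  have cf : Commute z f1 := by
    rw [← hf1]; exact (Commute.refl f1).mul_left (Commute.refl f1)
  have cy : Commute z y := by rw [hy]; exact cg.mul_right cf.inv_right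
  have gy : g1 * y * g1⁻¹ = y⁻¹ := by
    rw [hy]
    calc g1 * (g1 * f1⁻¹) * g1⁻¹ = g1 * g1 * f1⁻¹ * g1⁻¹ := by group
      _ = f1 * f1 * f1⁻¹ * g1⁻¹ := by rw [hg1, hf1]
      _ = (g1 * f1⁻¹)⁻¹ := by group
  have gyi : ∀ i : ℤ, g1 * y ^ i = y ^ (-i) * g1 := by
    intro i
    have e1 : g1 * y ^ i * g1⁻¹ = y ^ (-i) := by
      rw [← conj_zpow, gy, inv_zpow, zpow_neg]
    rw [← e1]; group
  have g2 : ∀ k : ℤ, g1 ^ (2 * k) = z ^ k := by
    intro k
    rw [zpow_mul]
    congr 1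
    rw [zpow_two, hg1]
  have g3 : ∀ k : ℤ, g1 ^ (2 * k + 1) = z ^ k * g1 := by
    intro k
    rw [zpow_add, g2, zpow_one]
  have swap : ∀ j i : ℤ, ∃ i' : ℤ, g1 ^ j * y ^ i = y ^ i' * g1 ^ j := by
    intro j i
    rcases Int.even_or_odd' j with ⟨k, hk | hk⟩
    · refine ⟨i, ?_⟩
      rw [hk, g2]
      exact ((cy.zpow_left k).zpow_right i).eq
    · refine ⟨-i, ?_⟩
      rw [hk, g3, mul_assoc, gyi, ← mul_assoc, ((cy.zpow_left k).zpow_right (-i)).eq, mul_assoc]
  have core : ∀ m n : ℤ, y ^ m = g1 ^ n → n = 0 := by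
    intro m n h
    have e1 : g1 * y ^ m = y ^ m * g1 := by
      rw [h]; exact ((Commute.refl g1).zpow_right n).eq
    rw [gyi m] at e1
    have e2 : y ^ (-m) = y ^ m := mul_right_cancel e1
    have e3 : y ^ m * y ^ m = 1 := by
      nth_rewrite 1 [← e2]
      rw [zpow_neg, inv_mul_cancel]
    rw [h, ← zpow_add] at e3
    have e4 : n + n = 2 * n := by ring
    rw [e4, g2] at e3
    exact hz _ e3
  have uniq : ∀ i j i' j' : ℤ, y ^ i * g1 ^ j = y ^ i' * g1 ^ j' → j = j' := by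
    intro i j i' j' h
    have e1 : y ^ (i - i') = g1 ^ (j' - j) := by
      have e2 : y ^ (-i') * (y ^ i * g1 ^ j) * g1 ^ (-j) =
          y ^ (-i') * (y ^ i' * g1 ^ j') * g1 ^ (-j) := by rw [h]
      calc y ^ (i - i') = y ^ (-i') * (y ^ i * g1 ^ j) * g1 ^ (-j) := by
            rw [zpow_neg, zpow_neg, zpow_sub]
            have : y ^ i * (y ^ i')⁻¹ = (y ^ i')⁻¹ * y ^ i :=
              (((Commute.refl y).zpow_left i).zpow_right i').inv_right.eq
            rw [this]; group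
        _ = _ := e2
        _ = g1 ^ (j' - j) := by
            rw [zpow_neg, zpow_neg, zpow_sub]; group
    have := core _ _ e1
    omega
  let Q : Subgroup G :=
    { carrier := {x | ∃ i j : ℤ, x = y ^ i * g1 ^ j}
      one_mem' := ⟨0, 0, by simp⟩
      mul_mem' := by
        rintro a b ⟨i, j, rfl⟩ ⟨i', j', rfl⟩
        obtain ⟨i'', h⟩ := swap j i'
        refine ⟨i + i'', j + j', ?_⟩
        rw [zpow_add, zpow_add]
        calc y ^ i * g1 ^ j * (y ^ i' * g1 ^ j') = y ^ i * (g1 ^ j * y ^ i') * g1 ^ j' := by group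
          _ = _ := by rw [h]; group
      inv_mem' := by
        rintro a ⟨i, j, rfl⟩
        obtain ⟨i'', h⟩ := swap (-j) (-i)
        refine ⟨i'', -j, ?_⟩
        rw [← h, mul_inv_rev, zpow_neg, zpow_neg] }
  have hQ : ∀ x : Q, ∃ j : ℤ, ∃ i : ℤ, (x : G) = y ^ i * g1 ^ j := by
    rintro ⟨x, i, j, h⟩
    exact ⟨j, i, h⟩
  choose J I hJI using hQ
  have hJ : ∀ (x : Q) (i j : ℤ), (x : G) = y ^ i * g1 ^ j → J x = j := by
    intro x i j h
    exact uniq _ _ _ _ ((hJI x).symm.trans h)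
  let lam : Q →* Multiplicative ℤ :=
    { toFun := fun x => Multiplicative.ofAdd (J x)
      map_one' := by
        rw [hJ 1 0 0 (by simp)]
        rfl
      map_mul' := by
        intro a b
        rw [← ofAdd_add]
        congr 1
        obtain ⟨i'', h⟩ := swap (J a) (I b)
        refine hJ _ (I a + i'') _ ?_
        change (a : G) * (b : G) = _
        rw [hJI a, hJI b, zpow_add, zpow_add]
        calc y ^ I a * g1 ^ J a * (y ^ I b * g1 ^ J b) =
            y ^ I a * (g1 ^ J a * y ^ I b) * g1 ^ J b := by group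
          _ = _ := by rw [h]; group }
  have hL : Subgroup.zpowers z ≤ Q := by
    rintro x ⟨k, rfl⟩
    exact ⟨0, 2 * k, by simp only; rw [g2, zpow_zero, one_mul]⟩
  have egg : g = y ^ (0 : ℤ) * g1 ^ (2 * r + 1) := by rw [g3, zpow_zero, one_mul]; exact hgr
  have eff : f = y ^ (-1 : ℤ) * g1 ^ (2 * s + 1) := by
    have e1 : f1 = y⁻¹ * g1 := by rw [hy]; group
    rw [g3, ← mul_assoc, ← ((cy.zpow_left s).zpow_right (-1)).eq, mul_assoc, zpow_neg_one, ← e1]
    exact hfs
  refine ⟨Q, hL, ⟨0, 2 * r + 1, egg⟩, ⟨-1, 2 * s + 1, eff⟩, lam, ?_, ?_, ?_⟩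
  · rintro l ⟨k, rfl⟩
    change Even (J _)
    rw [hJ _ 0 (2 * k) (by simp only; rw [g2, zpow_zero, one_mul])]
    exact even_two_mul k
  · change Odd (J _)
    rw [hJ _ 0 (2 * r + 1) egg]
    exact odd_two_mul_add_one r
  · change Odd (J _)
    rw [hJ _ (-1) (2 * s + 1) eff]
    exact odd_two_mul_add_one s

end Pool.Agent.Lib.MP8a3537.AR
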