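import Pool.Agent.Lib.MP_8a3537_gt.AR.LBK
import Pool.Agent.Lib.MP_8a3537_gt.AR.LCY

/-!
# Every coefficient ring (MP_8a3537_gt, folder AR): the local form of the homomorphism `lam` (helper30)

`Lam K g f`: for every finite part `F` of `K` there is a homomorphism from a subgroup which contains `F`, `g`,
`f` to the integers which is even on `F` and odd on `g`, `f`. Then the forms of the line `(K, g, f)` are zero in
`L^p`, for every ring. This holds if `K / A` is locally infinite cyclic (`lam_loc`) and if `K` is torsionfree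
abelian and centralized by `g` and `f` (`lam_ab`).
-/

set_option autoImplicit false
set_option linter.unusedSectionVars false

namespace Pool.Agent.Lib.MP8a3537.AR

open Matrix Pool.Agent.Lib.MP8a3537.UV Pool.Agent.Lib.MP8a3537.LL

/-- Locally there is a homomorphism to the integers, even on `K`, odd on `g` and `f`. -/
def Lam {G : Type} [Group G] (K : Subgroup G) (g f : G) : Prop :=
  ∀ F : Finset G, (∀ x ∈ F, x ∈ K) → ∃ (Q : Subgroup G) (hg : g ∈ Q) (hf : f ∈ Q)
    (lam : Q →* Multiplicative ℤ),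
    (∀ x ∈ F, ∃ hx : x ∈ Q, Even (Multiplicative.toAdd (lam ⟨x, hx⟩))) ∧
    Odd (Multiplicative.toAdd (lam ⟨g, hg⟩)) ∧ Odd (Multiplicative.toAdd (lam ⟨f, hf⟩))

/-- `K / A` is locally infinite cyclic (or trivial). -/
def LIC {G : Type} [Group G] (A K : Subgroup G) : Prop :=
  (∀ x ∈ K, ∀ y ∈ K, ∃ z ∈ K, ∃ i j : ℤ, (z ^ i)⁻¹ * x ∈ A ∧ (z ^ j)⁻¹ * y ∈ A) ∧
    ∀ x ∈ K, ∀ n : ℤ, x ^ n ∈ A → n = 0 ∨ x ∈ A

namespace LOCM

variable {G : Type} [Group G] {A K : Subgroup G} [A.Normal]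

theorem mk_eq {z x : G} {i : ℤ} (h : (z ^ i)⁻¹ * x ∈ A) :
    (QuotientGroup.mk' A) x = (QuotientGroup.mk' A) z ^ i := by
  have h1 : (QuotientGroup.mk' A) ((z ^ i)⁻¹ * x) = 1 := (QuotientGroup.eq_one_iff _).2 h
  rw [map_mul, map_inv, map_zpow] at h1
  exact (inv_mul_eq_one.1 h1).symm

theorem one_iff {x : G} : (QuotientGroup.mk' A) x = 1 ↔ x ∈ A := QuotientGroup.eq_one_iff _

theorem fin_gen (h : LIC A K) (F : Finset G) (hF : ∀ x ∈ F, x ∈ K) :
    ∃ z ∈ K, ∀ x ∈ F, (QuotientGroup.mk' A) x ∈ Subgroup.zpowers ((QuotientGroup.mk' A) z) := by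
  classical
  induction F using Finset.induction_on with
  | empty => exact ⟨1, K.one_mem, by simp⟩
  | insert a F ha ih =>
    obtain ⟨z', hz', h1⟩ := ih fun x hx => hF x (Finset.mem_insert_of_mem hx)
    obtain ⟨z, hz, i, j, h2, h3⟩ := h.1 a (hF a (Finset.mem_insert_self _ _)) z' hz'
    refine ⟨z, hz, ?_⟩
    intro x hx
    rcases Finset.mem_insert.1 hx with rfl | hx
    · exact ⟨i, (mk_eq h2).symm⟩
    · obtain ⟨k, hk⟩ := h1 x hx
      refine ⟨j * k, ?_⟩
      simp only at hk ⊢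
      rw [_root_.zpow_mul, ← mk_eq h3, hk]

/-- The same for a subgroup `K` of a group `H` which is locally infinite cyclic modulo `A`. -/
theorem comm' {H : Subgroup G} (h : LIC A H) (hKH : K ≤ H) {g : G} (hg : Ns K g) (hgg : g * g ∈ K)
    (hgA : g * g ∉ A) {z : G} (hz : z ∈ K) : Commute ((QuotientGroup.mk' A) g) ((QuotientGroup.mk' A) z) := by
  obtain ⟨w, hw, a, b, ha, hb⟩ := h.1 z (hKH hz) (g * z * g⁻¹) (hKH (hg z hz).1)
  obtain ⟨w', hw', c, d, hc, hd⟩ := h.1 (g * g) (hKH hgg) z (hKH hz)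
  have ea := mk_eq ha
  have eb := mk_eq hb
  have ec := mk_eq hc
  have ed := mk_eq hd
  obtain ⟨p, hp⟩ : ∃ p, p = QuotientGroup.mk' A := ⟨_, rfl⟩
  rw [← hp] at ea eb ec ed ⊢
  have hc0 : c ≠ 0 := by
    intro h0
    rw [h0, zpow_zero] at hc
    exact hgA (by simpa using hc)
  -- `z ^ c` is a power of `g g`
  have e1 : p z ^ c = p (g * g) ^ d := by
    rw [ec, ed, ← _root_.zpow_mul, ← _root_.zpow_mul, mul_comm]
  have e2 : p (g * z * g⁻¹) ^ c = p z ^ c := by
    have e3 : p (g * z * g⁻¹) ^ c = p g * p z ^ c * (p g)⁻¹ := by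
      rw [map_mul, map_mul, map_inv, conj_zpow]
    have e4 : Commute (p g) (p (g * g) ^ d) := by
      rw [map_mul]
      exact ((Commute.refl (p g)).mul_right (Commute.refl (p g))).zpow_right d
    rw [e3, e1, e4.eq, mul_inv_cancel_right]
  have e5 : w ^ ((b - a) * c) ∈ A := by
    rw [← one_iff, ← hp, map_zpow, _root_.zpow_mul, _root_.zpow_sub]
    rw [eb, ea, ← _root_.zpow_mul, ← _root_.zpow_mul] at e2
    have e6 : (p w ^ b * (p w ^ a)⁻¹) ^ c = p w ^ (b * c) * (p w ^ (a * c))⁻¹ := by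
      rw [← _root_.zpow_sub, ← _root_.zpow_mul, ← _root_.zpow_sub]
      congr 1
      ring
    rw [e6, e2, mul_inv_cancel]
  rcases h.2 w hw _ e5 with h0 | h0
  · have hab : b = a := by
      rcases mul_eq_zero.1 h0 with h1 | h1
      · omega
      · exact absurd h1 hc0
    rw [hab, ← ea] at eb
    rw [map_mul, map_mul, map_inv] at eb
    exact mul_inv_eq_iff_eq_mul.1 eb
  · have hw1 : p w = 1 := by rw [hp]; exact one_iff.2 h0
    rw [hw1, _root_.one_zpow] at ea
    rw [ea]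
    exact Commute.one_right _

theorem comm (h : LIC A K) {g : G} (hg : Ns K g) (hgg : g * g ∈ K) (hgA : g * g ∉ A) {z : G}
    (hz : z ∈ K) : Commute ((QuotientGroup.mk' A) g) ((QuotientGroup.mk' A) z) :=
  comm' h le_rfl hg hgg hgA hz

end LOCM

/-- **Lines over a group which is locally infinite cyclic modulo `A`.** -/
theorem lam_loc {G : Type} [Group G] (A K : Subgroup G) [A.Normal] (h : LIC A K) (g f : G)
    (hg : Ns K g) (hf : Ns K f) (hgg : g * g ∈ K) (hff : f * f ∈ K)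
    (hg2 : ∀ k ∈ K, k * g * (k * g) ∉ A) (hf2 : ∀ k ∈ K, k * f * (k * f) ∉ A) : Lam K g f := by
  classical
  intro F hF
  have hgA : g * g ∉ A := by simpa using hg2 1 K.one_mem
  have hfA : f * f ∉ A := by simpa using hf2 1 K.one_mem
  obtain ⟨z, hz, h1⟩ := LOCM.fin_gen h (insert (g * g) (insert (f * f) F)) (by
    intro x hx
    rcases Finset.mem_insert.1 hx with rfl | hx
    · exact hgg
    rcases Finset.mem_insert.1 hx with rfl | hx
    · exact hff
    · exact hF x hx)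
  have hzg := h1 (g * g) (by simp)
  have hzf := h1 (f * f) (by simp)
  have cg := LOCM.comm h hg hgg hgA hz
  have cf := LOCM.comm h hf hff hfA hz
  obtain ⟨p, hp⟩ : ∃ p, p = QuotientGroup.mk' A := ⟨_, rfl⟩
  have hone : ∀ x, p x = 1 ↔ x ∈ A := by
    intro x
    rw [hp]
    exact LOCM.one_iff
  rw [← hp] at hzg hzf cg cf h1
  have hzA : z ∉ A := by
    intro h0
    obtain ⟨i, hi⟩ := hzg
    simp only at hi
    rw [(hone z).2 h0, _root_.one_zpow] at hi
    exact hgA ((hone _).1 hi.symm)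
  have nsz : ∀ u, Commute (p u) (p z) → Ns (Subgroup.zpowers (p z)) (p u) := by
    rintro u hu x ⟨i, hi⟩
    simp only at hi
    have e1 : Commute (p u) x := by rw [← hi]; exact hu.zpow_right i
    refine ⟨?_, ?_⟩
    · rw [e1.eq, mul_inv_cancel_right]
      exact ⟨i, hi⟩
    · have e2 : (p u)⁻¹ * x = x * (p u)⁻¹ := (e1.inv_left).eq
      rw [e2, inv_mul_cancel_right]
      exact ⟨i, hi⟩
  have sq : ∀ u, (∀ k ∈ K, k * u * (k * u) ∉ A) →
      ∀ k ∈ Subgroup.zpowers (p z), k * p u * (k * p u) ≠ 1 := by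
    rintro u hu k ⟨i, hi⟩ h0
    simp only at hi
    refine hu (z ^ i) (K.zpow_mem hz i) ((hone _).1 ?_)
    rw [map_mul, map_mul, map_zpow, hi]
    exact h0
  obtain ⟨Q, hL, hgQ, hfQ, lam, h2, h3, h4⟩ := lam_cyc (p z) (p g) (p f) (by
      intro n hn
      rw [← map_zpow] at hn
      rcases h.2 z hz n ((hone _).1 hn) with h0 | h0
      · exact h0
      · exact absurd h0 hzA) (nsz g cg) (nsz f cf) (by rw [← map_mul]; exact hzg)
      (by rw [← map_mul]; exact hzf) (sq g hg2) (sq f hf2)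
  refine ⟨Q.comap p, hgQ, hfQ, lam.comp (p.subgroupComap Q), ?_, h3, h4⟩
  intro x hx
  have h5 : p x ∈ Subgroup.zpowers (p z) :=
    h1 x (Finset.mem_insert_of_mem (Finset.mem_insert_of_mem hx))
  exact ⟨hL h5, h2 _ h5⟩

end Pool.Agent.Lib.MP8a3537.AR
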