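import Pool.Agent.Lib.MP_8a3537_gt.AR.TRI
import Pool.Agent.Lib.MP_8a3537_gt.LL2.ABA

/-!
# Every coefficient ring (MP_8a3537_gt, folder AR): a normal subgroup which acts trivially (helper28)

`MainAb`: the theorem for every coefficient ring if the stabilizer of the edge is torsion-free abelian (`LL2.Ab`).
`mainA`: the same modulo a normal subgroup `A` of `G` which acts trivially on the tree. The coefficient ring is arbitrary, so this
follows from `vanP_quot`. `abA_of_lic`: the case that `H / A` is torsion-free and locally cyclic (`AR.LIC`, helper30).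
-/

set_option autoImplicit false
set_option linter.unusedSectionVars false

namespace Pool.Agent.Lib.MP8a3537.AR

open Matrix Pool.Agent.Lib.MP8a3537.UV Pool.Agent.Lib.MP8a3537.ROK Pool.Agent.Lib.MP8a3537.LL2

/-- The theorem for torsion-free abelian stabilizers. -/
def MainAb : Prop :=
  ∀ (R G V : Type) [Ring R] [StarRing R] [Group G] [MulAction G V] (T : SimpleGraph V) (v w : V),
    T.IsTree → (∀ (g : G) (x y : V), T.Adj x y → T.Adj (g • x) (g • y)) → T.Adj v w →
    (∀ g : G, ¬ (g • v = w ∧ g • w = v)) → (∀ g : G, g * g = 1 → (g • v = v ↔ g • w = w)) →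
    Ab G T.dist v w →
    VanP R G {g | g • v = v ∧ g • w ≠ w} {g | g • v = w} {g | g • w = w ∧ g • v ≠ v}

/-- Modulo `A` the group `G_v ∩ G_w` is torsion-free abelian, and every `g` which exchanges two vertices `x`, `y` with
`v`, `w` (in this order) on their path commutes with `G_x ∩ G_y` modulo `A`, if `(h g)²` is not in `A` for all
`h ∈ G_x ∩ G_y`. -/
def AbA {G V : Type} [Group G] [MulAction G V] (d : V → V → ℕ) (A : Subgroup G) (v w : V) : Prop :=
  (∀ a ∈ MulAction.stabilizer G v ⊓ MulAction.stabilizer G w,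
    ∀ b ∈ MulAction.stabilizer G v ⊓ MulAction.stabilizer G w, a * b * a⁻¹ * b⁻¹ ∈ A) ∧
  (∀ a ∈ MulAction.stabilizer G v ⊓ MulAction.stabilizer G w, ∀ n : ℕ, n ≠ 0 → a ^ n ∈ A → a ∈ A) ∧
  ∀ (x y : V) (g : G), d x y = d x v + d v w + d w y → g • x = y → g • y = x →
    (∀ h ∈ MulAction.stabilizer G x ⊓ MulAction.stabilizer G y, h * g * (h * g) ∉ A) →
    ∀ h ∈ MulAction.stabilizer G x ⊓ MulAction.stabilizer G y, g * h * g⁻¹ * h⁻¹ ∈ A

namespace ABAM

section

variable {G V : Type} [Group G] [MulAction G V] (A : Subgroup G) [A.Normal]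
  (hA : ∀ a ∈ A, ∀ x : V, a • x = x)

/-- The action of the quotient. -/
@[reducible] def actQ : MulAction (G ⧸ A) V :=
  MulAction.compHom V (QuotientGroup.lift A (MulAction.toPermHom G V) (by
    intro a ha
    ext x
    exact hA a ha x))

theorem one_iff {A : Subgroup G} [A.Normal] {g : G} : (QuotientGroup.mk' A) g = 1 ↔ g ∈ A := QuotientGroup.eq_one_iff _

include hA in
theorem key (R : Type) [Ring R] [StarRing R] (T : SimpleGraph V) (v w : V) (hT : T.IsTree)
    (hact : ∀ (g : G) (x y : V), T.Adj x y → T.Adj (g • x) (g • y)) (hvw : T.Adj v w)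
    (hinv : ∀ g : G, ¬ (g • v = w ∧ g • w = v))
    (htwo : ∀ g : G, g * g ∈ A → (g • v = v ↔ g • w = w)) (hM : MainAb)
    (hab : letI := actQ A hA; Ab (G ⧸ A) T.dist v w) :
    VanP R G {g | g • v = v ∧ g • w ≠ w} {g | g • v = w} {g | g • w = w ∧ g • v ≠ v} := by
  letI := actQ A hA
  have h1 := hM (MonoidAlgebra R G) (G ⧸ A) V T v w hT
    (by
      intro q x y
      obtain ⟨g, rfl⟩ := QuotientGroup.mk'_surjective A q
      exact hact g x y) hvw
    (by
      intro q
      obtain ⟨g, rfl⟩ := QuotientGroup.mk'_surjective A q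
      exact hinv g)
    (by
      intro q hq
      obtain ⟨g, rfl⟩ := QuotientGroup.mk'_surjective A q
      rw [← map_mul, one_iff] at hq
      exact htwo g hq) hab
  exact vanP_quot (QuotientGroup.mk' A) _ _ _ h1

end

end ABAM

open ABAM

/-- **The theorem modulo `A`**, torsion-free abelian. -/
theorem mainA (hM : MainAb) (R G V : Type) [Ring R] [StarRing R] [Group G] [MulAction G V]
    (T : SimpleGraph V) (v w : V) (hT : T.IsTree)
    (hact : ∀ (g : G) (x y : V), T.Adj x y → T.Adj (g • x) (g • y)) (hvw : T.Adj v w)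
    (hinv : ∀ g : G, ¬ (g • v = w ∧ g • w = v)) (A : Subgroup G) [A.Normal]
    (hA : ∀ a ∈ A, ∀ x : V, a • x = x)
    (htwo : ∀ g : G, g * g ∈ A → (g • v = v ↔ g • w = w)) (hab : AbA T.dist A v w) :
    VanP R G {g | g • v = v ∧ g • w ≠ w} {g | g • v = w} {g | g • w = w ∧ g • v ≠ v} := by
  refine key A hA R T v w hT hact hvw hinv htwo hM ?_
  letI := actQ A hA
  obtain ⟨h1, h2, h3⟩ := hab
  refine ⟨⟨?_, ?_⟩, ?_⟩
  · intro a ha b hb
    obtain ⟨a, rfl⟩ := QuotientGroup.mk'_surjective A a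
    obtain ⟨b, rfl⟩ := QuotientGroup.mk'_surjective A b
    have h4 := one_iff.2 (h1 a ha b hb)
    rw [map_mul, map_mul, map_mul, map_inv, map_inv, mul_inv_eq_one] at h4
    exact mul_inv_eq_iff_eq_mul.1 h4
  · intro a ha n hn h4
    obtain ⟨a, rfl⟩ := QuotientGroup.mk'_surjective A a
    rw [← map_pow, one_iff] at h4
    exact one_iff.2 (h2 a ha n hn h4)
  · intro x y g hxy hgx hgy hk h hh
    obtain ⟨g, rfl⟩ := QuotientGroup.mk'_surjective A g
    obtain ⟨h, rfl⟩ := QuotientGroup.mk'_surjective A h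
    have h4 := one_iff.2 (h3 x y g hxy hgx hgy (by
      intro k hk' h5
      refine hk (QuotientGroup.mk' A k) hk' ?_
      rw [← map_mul, ← map_mul, one_iff]
      exact h5) h hh)
    rw [map_mul, map_mul, map_mul, map_inv, map_inv, mul_inv_eq_one] at h4
    exact mul_inv_eq_iff_eq_mul.1 h4

/-- If `H / A` is torsion-free and locally cyclic then `AbA` holds. -/
theorem abA_of_lic {G V : Type} [Group G] [MulAction G V] {d : V → V → ℕ} (hd : TM G d) {v w : V}
    {A : Subgroup G} [A.Normal] (h : LIC A (MulAction.stabilizer G v ⊓ MulAction.stabilizer G w)) :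
    AbA d A v w := by
  refine ⟨?_, ?_, ?_⟩
  · intro a ha b hb
    obtain ⟨z, hz, i, j, h1, h2⟩ := h.1 a ha b hb
    refine LL2.ABAM.mk_cm ?_
    rw [LOCM.mk_eq h1, LOCM.mk_eq h2]
    exact ((Commute.refl _).zpow_left i).zpow_right j
  · intro a ha n hn hn1
    rcases h.2 a ha n (by rw [zpow_natCast]; exact hn1) with h0 | h0
    · exact absurd (Int.natCast_eq_zero.1 h0) hn
    · exact h0
  · intro x y g h1 hgx hgy hg2 k hk
    refine LL2.ABAM.mk_cm (LOCM.comm' h (LL2.ABAM.le_H hd h1) ?_ ?_ ?_ hk)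
    · have hgi : g⁻¹ • x = y := by rw [inv_smul_eq_iff]; exact hgy.symm
      have hgi' : g⁻¹ • y = x := by rw [inv_smul_eq_iff]; exact hgx.symm
      intro k hk
      rw [Subgroup.mem_inf, MulAction.mem_stabilizer_iff, MulAction.mem_stabilizer_iff] at hk
      constructor
      · rw [Subgroup.mem_inf, MulAction.mem_stabilizer_iff, MulAction.mem_stabilizer_iff, mul_smul,
          mul_smul, mul_smul, mul_smul, hgi, hgi', hk.1, hk.2, hgx, hgy]
        exact ⟨rfl, rfl⟩
      · rw [Subgroup.mem_inf, MulAction.mem_stabilizer_iff, MulAction.mem_stabilizer_iff, mul_smul,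
          mul_smul, mul_smul, mul_smul, hgx, hgy, hk.1, hk.2, hgi, hgi']
        exact ⟨rfl, rfl⟩
    · rw [Subgroup.mem_inf, MulAction.mem_stabilizer_iff, MulAction.mem_stabilizer_iff, mul_smul,
        mul_smul, hgx, hgy, hgx]
      exact ⟨rfl, rfl⟩
    · have h2 := hg2 1 (Subgroup.one_mem _)
      rwa [one_mul] at h2

end Pool.Agent.Lib.MP8a3537.AR
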