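import Pool.Agent.Lib.MP_8a3537_gt.AR.Lines
import Pool.Agent.Lib.MP_8a3537_gt.LL2.Spec

/-!
# Classes of forms (MP_8a3537_gt, folder AR): the barrier condition, Specs (helper28; the idea to stop the recursion
at any stage is by helper30)

`SP`, `SGV`, `STP`, `SPB` are the definitions and Specs of `LL2/Spec.lean` for a class `SS` of forms (`AR/FC.lean`); they are
proved by a script copy of `LL2/SGV.lean`, `LL2/STP.lean`, `LL2/SPB.lean`. NEW: `GS`, `SPS`, `CLS`, `CHT`, `FLT`. A module `XXX` is a file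
`Pool/Agent/Lib/MP_8a3537_gt/AR/XXX.lean` which imports this file and proves `theorem specXXX (deps, in this order) :
SpecXXX` in the namespace `Pool.Agent.Lib.MP8a3537.AR` (so `Blk`, `SE`, `Cl`, `SP`, `SpecDCM`, `mDCM`, .. are those of AR), own
lemmas in the namespace `XXXM`. Facts on forms: `AR.SGSMP.swapUF`, `AR.SGSMP.swap0`, `AR.SGSMP.Cl_swap` (see `AR/SGS.lean`), `AR.mNWT`, `AR.mDCM`,
`AR.mMNK` (`AR/Data.lean`, `AR/Lines.lean`). Facts on groups and trees: the lemmas of `LL2/SPC.lean` (`LL2.SPCM`), `LL2/CHS.lean`,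
`LL/SGS.lean` (`LL.SGSM.D2_flip`, ..), `LL.SGNM.ptA` may be imported.
-/

set_option autoImplicit false
set_option linter.unusedSectionVars false

namespace Pool.Agent.Lib.MP8a3537.AR

open Matrix Pool.Agent.Lib.MP8a3537.UV Pool.Agent.Lib.MP8a3537.AU Pool.Agent.Lib.MP8a3537.RO
open Pool.Agent.Lib.MP8a3537.ROK Pool.Agent.Lib.MP8a3537.LL
open Pool.Agent.Lib.MP8a3537.LL2 (NI Cnc Lng)

/-! ### Definitions -/

section Geometry

variable (R G : Type) {V : Type} [Ring R] [StarRing R] [Group G] [FC (MonoidAlgebra R G)]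
  [MulAction G V] (d : V → V → ℕ)

/-- The claim for the index `N` and the two pieces `D2 L x`, `D2 L y` of the pair `x1`, `x2`. -/
def SP (N : ℕ) (x1 x2 : V) (x y : G) : Prop :=
  ∀ (L : Subgroup G) (X1 X2 Yp Ym : Set G), PPK L X1 X2 ∅ Yp Ym → Geo d L X1 X2 ∅ x1 x2 →
    x ∈ X1 → y ∈ X2 → ∀ (ε : ℤˣ) (n : ℕ) (ψ χ : Matrix (Fin n) (Fin n) (MonoidAlgebra R G)),
    SuppIn (D2 L x) ψ → SuppIn (D2 L y) χ →
    (nu ε (ψ + (ε : ℤ) • ψᴴ) 0 (χ + (ε : ℤ) • χᴴ)) ^ N = 0 → SS ε (UF ψ 0 χ)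

/-- Good pairs of flips `x`, `y` of the pair `x1`, `x2`: the recursion may stop at a pair which is exchanged by one
of them. -/
inductive GS (Q : Subgroup G → Prop) : V → V → G → G → Prop
  | reg {x1 x2 : V} {x y : G} : Q (MulAction.stabilizer G x1 ⊓ MulAction.stabilizer G x2) →
      GS Q x1 x2 x y
  | bx {x1 x2 : V} {x y : G} : x • x1 = x2 → x • x2 = x1 →
      Blk R (La (MulAction.stabilizer G x1 ⊓ MulAction.stabilizer G x2) x)
        (La (Kg (MulAction.stabilizer G x1 ⊓ MulAction.stabilizer G x2) y) y) → GS Q x1 x2 x y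
  | by' {x1 x2 : V} {x y : G} : y • x1 = x2 → y • x2 = x1 →
      Blk R (La (MulAction.stabilizer G x1 ⊓ MulAction.stabilizer G x2) y)
        (La (Kg (MulAction.stabilizer G x1 ⊓ MulAction.stabilizer G x2) x) x) → GS Q x1 x2 x y
  | stx {x1 x2 : V} {x y : G} :
      (∀ y' ∈ dc (MulAction.stabilizer G x1 ⊓ MulAction.stabilizer G x2) y,
        y' * y' ∈ MulAction.stabilizer G x1 ⊓ MulAction.stabilizer G (x • x1) →
        GS Q x1 (x • x1) x y') → GS Q x1 x2 x y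
  | sty {x1 x2 : V} {x y : G} :
      (∀ x' ∈ dc (MulAction.stabilizer G x1 ⊓ MulAction.stabilizer G x2) x,
        x' * x' ∈ MulAction.stabilizer G (y • x2) ⊓ MulAction.stabilizer G x2 →
        GS Q (y • x2) x2 x' y) → GS Q x1 x2 x y

end Geometry

/-! ### Script copies of LL2 -/

/-- **SGV** (size 80, deps `SpecFAT`, `SpecIDX`; imports `UV/EMV`): a flip `g`, forms.

PROOF. FAT: `ψ = Ξᴴ ψ' Ξ`; `κ = Ξ χ Ξᴴ` is supported in `c` (`L c L ⊆ c`). IDX. `specEMV` (or its name in `UV/EMV.lean`) with `m' = 0`, `p = Ξ`: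
`UF ψ' (Ξ * 0) (Ξ * χ * Ξᴴ)` stably hyperbolic implies `UF (Ξᴴ * ψ' * Ξ) (0 * Ξ) χ` stably hyperbolic. -/
def SpecSGV : Prop :=
  ∀ (R G : Type) [Ring R] [StarRing R] [Group G]
    [FC (MonoidAlgebra R G)] (L : Subgroup G) (X1 X2 Yp Ym : Set G),
    PingPong L X1 X2 ∅ Yp Ym → ∀ g ∈ X1, g * g ∈ L → ∀ c : Set G, Pt L X2 c →
    ∀ (ε : ℤˣ) (n N : ℕ), 1 ≤ N → ∀ ψ χ : Matrix (Fin n) (Fin n) (MonoidAlgebra R G),
    SuppIn (dc L g) ψ → SuppIn c χ →
    (nu ε (ψ + (ε : ℤ) • ψᴴ) 0 (χ + (ε : ℤ) • χᴴ)) ^ N = 0 →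
    (∀ (r : ℕ) (ψ' κ : Matrix (Fin r) (Fin r) (MonoidAlgebra R G)),
      SuppIn (La (Kg L g) g) ψ' → SuppIn c κ →
      (nu ε (ψ' + (ε : ℤ) • ψ'ᴴ) 0 (κ + (ε : ℤ) • κᴴ)) ^ N = 0 →
      SS ε (UF ψ' 0 κ)) → SS ε (UF ψ 0 χ)

/-- **STP** (size 180, dep `SpecSGV`): the step from the pair `x1`, `x2` to the pair `x1`, `x x1`.

PROOF. `D2 L x = dc L x` (`x x ∈ L`; `SGSM.D2_flip` with `h = 1`, or `ELMAux.dc_inv`). SGV with `c = D2 L y` (`Pt L X2 c`: `DCMM.pt_D2` for the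
exchanged data, `specSYK`). `K' = Kg L x`. `mBLK`, `mBLG`: `PPK K' (La K' x) (BX L X1 X2 ∅ x) ∅ ..`, `Geo d K' (La K' x) (BX ..) ∅ x1 (x • x1)`. `c ⊆ X2 ⊆ BX ..`
(`mWDA` (5): words with one letter; `Sub1`: `mSBK` (4)). `Pt K' (BX ..) c` (`K' ≤ L`), `Pt K' (La K' x) (La K' x)` (`mSBK` (3)). `mDWP`, `specDWG` (second
parts): data `K'`, `La K' x`, `c`, ends `x1`, `x • x1`. `mDCM` for these data (index `N`): pieces `x' ∈ La K' x`, `y' ∈ c`: `D2 K' x' ⊆ D2 K' x`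
(`SGSM.dc_trans`), so `SP R G d N x1 (x • x1) x y'` applies (`x ∈ La K' x`). -/
def SpecSTP : Prop :=
  ∀ (R G V : Type) [Ring R] [StarRing R] [Group G]
    [FC (MonoidAlgebra R G)] [MulAction G V] (d : V → V → ℕ), TM G d →
    ∀ (N : ℕ) (x1 x2 : V), 1 ≤ N →
    ∀ (L : Subgroup G) (X1 X2 Yp Ym : Set G), PPK L X1 X2 ∅ Yp Ym → Geo d L X1 X2 ∅ x1 x2 →
    ∀ x ∈ X1, x * x ∈ L → ∀ y ∈ X2, (3 ≤ N → Cl R G d (N - 1) x1 (x • x1)) →
    (∀ y' ∈ D2 L y, SP R G d N x1 (x • x1) x y') →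
    ∀ (ε : ℤˣ) (n : ℕ) (ψ χ : Matrix (Fin n) (Fin n) (MonoidAlgebra R G)),
      SuppIn (D2 L x) ψ → SuppIn (D2 L y) χ →
      (nu ε (ψ + (ε : ℤ) • ψᴴ) 0 (χ + (ε : ℤ) • χᴴ)) ^ N = 0 → SS ε (UF ψ 0 χ)

/-- **SPB** (size 150, dep `SpecSTP`): a flip `x` and a non-flip `y`; and the exchange.

PROOF. Part 1: `specSYK` (3), (4), `SGSM.swapUF`, `SGSM.swap0` (as `SGSM.Cl_swap`). Part 2: data `L` with the ends `x1`, `x2`:
`L = stabilizer x1 ⊓ stabilizer x2` (`st`). STP; let `y' ∈ D2 L y`, and take data `L'`, `X1'`, .. with the ends `x1`, `x • x1`: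
`L' = stabilizer x1 ⊓ stabilizer (x • x1)`, which is `Kg L x` by `mBLG` (`st`), so `L' ≤ L`. `x x ∈ L'` (`x x` fixes `x1` and so
`x • x1`), `Ns L' x` (`x` exchanges `x1` and `x • x1`). `Flip L' y'` would imply `Flip L y'`, contradiction to `SGSM.D2_nonflip`. So
`LL.specSGN mDWP specDWG` for the ends `x1`, `x • x1` applies (`D2 L' x ⊆ dc L' x`; the elements of `D2 L' y'` are not flips: `D2_nonflip`). -/
def SpecSPB : Prop :=
  ∀ (R G V : Type) [Ring R] [StarRing R] [Group G]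
    [FC (MonoidAlgebra R G)] [MulAction G V] (d : V → V → ℕ), TM G d →
    ∀ (N : ℕ) (x1 x2 : V) (x y : G), 1 ≤ N →
    (SP R G d N x2 x1 y x → SP R G d N x1 x2 x y) ∧
    (x * x ∈ MulAction.stabilizer G x1 ⊓ MulAction.stabilizer G x2 →
      ¬ Flip (MulAction.stabilizer G x1 ⊓ MulAction.stabilizer G x2) y →
      (3 ≤ N → Cl R G d (N - 1) x1 (x • x1)) → SP R G d N x1 x2 x y)

/-! ### The barrier condition -/

/-- **SPS** (size 220, deps `SpecSGV`, `SpecSTP`, `SpecSPB`; copy of `LL2/SPC.lean` with `GS` for `GP`): good pairs of flips.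

PROOF. `reg`, `stx`, `sty` as in `LL2/SPC.lean`. `bx`: data `L` with the ends `x1`, `x2` (`L = K = stabilizer x1 ⊓ stabilizer x2`), `x ∈ X1`, `y ∈ X2`. `x` exchanges
`x1`, `x2`, so `Ns L x`; `D2 L x ⊆ La L x` (`D2_flip`, `SGSM.dc_La`), `D2 L y ⊆ dc L y`. Exchange (`SGSMP.swapUF`, `swap0`, `specSYK`): data `X2`, `X1` with the
ends `x2`, `x1`; SGV for `g := y`, `c := La L x` (`Pt L X1 (La L x)`: `LL.SGNM.ptA`): it remains `UF χ' 0 ψ'` with `χ'` in `La (Kg L y) y`, `ψ'` in `La L x`, index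
`N`: exchange, and the `Blk` of `bx`. `by'`: SGV for `g := x`, `c := La L y` (`LL.SGNM.ptA` for the exchanged data): `UF ψ' 0 χ'` with `ψ'` in
`La (Kg L x) x`, `χ'` in `La L y`: exchange, and the `Blk` of `by'`. -/
def SpecSPS : Prop :=
  ∀ (R G V : Type) [Ring R] [StarRing R] [Group G] [FC (MonoidAlgebra R G)] [MulAction G V]
    (d : V → V → ℕ), TM G d →
    ∀ (Q : Subgroup G → Prop) (P : V → V → Prop) (N : ℕ), 1 ≤ N →
    (∀ x1 x2 : V, Q (MulAction.stabilizer G x1 ⊓ MulAction.stabilizer G x2) →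
      Cl R G d N x1 x2) → Lng G d P → (3 ≤ N → ∀ x1 x2 : V, P x1 x2 → Cl R G d (N - 1) x1 x2) →
    ∀ (x1 x2 : V) (x y : G), GS R G Q x1 x2 x y → P x1 x2 →
      x * x ∈ MulAction.stabilizer G x1 ⊓ MulAction.stabilizer G x2 →
      y * y ∈ MulAction.stabilizer G x1 ⊓ MulAction.stabilizer G x2 → SP R G d N x1 x2 x y

/-- **CLS** (size 180, deps `SpecSPB`, `SpecSPS`; copy of `LL2/CLN.lean`): all pairs of the class `P`.

PROOF. As `LL2/CLN.lean`. The additional premise `¬ (x • x1 = x2 ∧ y • x2 = x1)` for flips `x ∈ X1`, `y ∈ X2` of data with the ends `x1`, `x2` is proved at the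
end of `LL.SGSM.lines` in `LL/SGS.lean` (extract it as a lemma). -/
def SpecCLS : Prop :=
  ∀ (R G V : Type) [Ring R] [StarRing R] [Group G] [FC (MonoidAlgebra R G)] [MulAction G V]
    (d : V → V → ℕ), TM G d →
    ∀ (Q : Subgroup G → Prop) (P : V → V → Prop),
    (∀ N : ℕ, 1 ≤ N → ∀ x1 x2 : V,
      Q (MulAction.stabilizer G x1 ⊓ MulAction.stabilizer G x2) → Cl R G d N x1 x2) →
    Lng G d P →
    (∀ (x1 x2 : V) (x y : G), P x1 x2 →
      x * x ∈ MulAction.stabilizer G x1 ⊓ MulAction.stabilizer G x2 →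
      y * y ∈ MulAction.stabilizer G x1 ⊓ MulAction.stabilizer G x2 →
      d x1 (x • x1) = d x1 x2 + d x2 (x • x1) → d x2 (y • x2) = d x2 x1 + d x1 (y • x2) →
      NI (MulAction.stabilizer G x1 ⊓ MulAction.stabilizer G x2) x →
      NI (MulAction.stabilizer G x1 ⊓ MulAction.stabilizer G x2) y →
      ¬ (x • x1 = x2 ∧ y • x2 = x1) → GS R G Q x1 x2 x y) →
    (∀ N : ℕ, 1 ≤ N → ∀ x1 x2 : V, P x1 x2 → Cl R G d N x1 x2) ∧
    ∀ x1 x2 : V, P x1 x2 → SE R G d x1 x2 ∧ SE R G d x2 x1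

/-- The barrier condition for the sequences of pairs whose paths contain `v`, `w`: at some stage the
stabilizer is in `Q`, or the forms with supports `K i * u i` and `K (i + 1) * u (i + 1)` are in the class. -/
def Bar (R G : Type) {V : Type} [Ring R] [StarRing R] [Group G] [FC (MonoidAlgebra R G)]
    [MulAction G V] (d : V → V → ℕ) (Q : Subgroup G → Prop) (v w : V) : Prop :=
  ∀ (x y : ℕ → V) (u : ℕ → G), (∀ i, d (x i) (y i) = d (x i) v + d v w + d w (y i)) →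
    (∀ i, u i • x i = y i ∧ u i • y i = x i) →
    (∀ i, x (i + 1) = x i ∨ y (i + 1) = y i) →
    (∀ i, d (x (i + 1)) (y (i + 1)) = d (x (i + 1)) (x i) + d (x i) (y i) + d (y i) (y (i + 1))) →
    (∀ i, d (x i) (y i) < d (x (i + 1)) (y (i + 1))) →
    (∀ i, ∃ h ∈ MulAction.stabilizer G (x i) ⊓ MulAction.stabilizer G (y i), u (i + 2) = h * u i) →
    (∀ i, ∀ h ∈ MulAction.stabilizer G (x i) ⊓ MulAction.stabilizer G (y i),
      h * u i * (h * u i) ≠ 1) →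
    ∃ i, Q (MulAction.stabilizer G (x i) ⊓ MulAction.stabilizer G (y i)) ∨
      Blk R (La (MulAction.stabilizer G (x i) ⊓ MulAction.stabilizer G (y i)) (u i))
        (La (MulAction.stabilizer G (x (i + 1)) ⊓ MulAction.stabilizer G (y (i + 1)))
          (u (i + 1)))

/-- **CHT** (size 300; copy of `LL2/CHS.lean` with changes): chains.

PROOF. `Bt p q r : d p r = d p q + d q r`, `K = stabilizer x ⊓ stabilizer y`. By contradiction. A STATE: (`x`, `y`, `side`, `u`, `w`) with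
`d x y = d x v + d v w0 + d w0 y`, `u • x = y`, `u • y = x`, `w * w ∈ K`, `NI K u`, `NI K w`; `side = true`: `Bt y x (w • y)`, `w • y ≠ x`, `¬ GS x y u w`; `side = false`:
`Bt x y (w • x)`, `w • x ≠ y`, `¬ GS x y w u`. STEP (`side = true`): `¬ Q K` (`reg`), `¬ Blk R (La K u) (La (Kg K w) w)` (`bx`), and `¬ sty`: `u' ∈ dc K u`,
`u' u' ∈ K' = stabilizer (w • y) ⊓ stabilizer y`, `¬ GS (w • y) y u' w`. New state: `w • y`, `y`, `false`, `w`, `u'`. The checks are those of `LL2/CHS.lean` (there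
`¬ Ns K w` and `K' < K`, not needed here), and: `u' ∈ K u` (`Ns K u`, `SGSM.dc_La`) exchanges `x`, `y`; `u' • (w • y) ≠ y`: otherwise `w • y = u'⁻¹ • y = x`. Strictly
longer: `d (w • y) y = d (w • y) x + d x y` and `w • y ≠ x`. `K' = Kg K w` (`mem_Kg`): if `k` fixes `w y` and `y` it fixes `x` (`specTFA` (1)), and `w⁻¹ k w` fixes
`y` and `w⁻¹ y = w y` (`w w` fixes `y`), so `x`; conversely if `k ∈ K`, `w⁻¹ k w ∈ K` then `k` fixes `y` and `w y`. `side = false`: the same with the roles exchanged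
(`by'`, `¬ stx`). FIRST STATE from `¬ GS x1 x2 x y`: `¬ stx`: `y' ∈ dc K y`, `y' y' ∈ stabilizer x1 ⊓ stabilizer (x • x1)`, `¬ GS x1 (x • x1) x y'`: state `x1`, `x • x1`, `true`, `x`, `y'`;
`Bt (x • x1) x1 (y' • x • x1)`, more precisely (`LL2/CHS.lean`) with `q = x • x1`, `p = y' • x2`: `d q (y' q) = d q x2 + d x2 x1 + d x1 p + d p (y' q)`. `y' q ≠ x1`: otherwise
`d q x1 = d q (y' q)` gives `d x1 p = 0`, `d p (y' q) = 0`, so `y' x2 = x1`, `q = x2`, and (`y' = h y h'`, `h, h' ∈ K`) `y x2 = x1`: excluded. The sequence of the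
states contradicts `Bar`. -/
def SpecCHT : Prop :=
  ∀ (R G V : Type) [Ring R] [StarRing R] [Group G] [FC (MonoidAlgebra R G)] [MulAction G V]
    (d : V → V → ℕ), TM G d → ∀ (Q : Subgroup G → Prop) (v w : V), v ≠ w → Bar R G d Q v w →
    ∀ (x1 x2 : V) (x y : G), d x1 x2 = d x1 v + d v w + d w x2 →
      (∃ g : G, g • x1 = x2 ∧ g • x2 = x1) →
      x * x ∈ MulAction.stabilizer G x1 ⊓ MulAction.stabilizer G x2 →
      y * y ∈ MulAction.stabilizer G x1 ⊓ MulAction.stabilizer G x2 →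
      d x1 (x • x1) = d x1 x2 + d x2 (x • x1) → d x2 (y • x2) = d x2 x1 + d x1 (y • x2) →
      NI (MulAction.stabilizer G x1 ⊓ MulAction.stabilizer G x2) x →
      NI (MulAction.stabilizer G x1 ⊓ MulAction.stabilizer G x2) y →
      ¬ (x • x1 = x2 ∧ y • x2 = x1) → GS R G Q x1 x2 x y

/-- **FLT** (size 120, deps `SpecCLS`, `SpecCHT`; copy of `LL2/FLS.lean`, without `hln`): the theorem for trees. -/
def SpecFLT : Prop :=
  ∀ (R G V : Type) [Ring R] [StarRing R] [Group G] [FC (MonoidAlgebra R G)] [MulAction G V]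
    (Q : Subgroup G → Prop) (T : SimpleGraph V) (v w : V),
    (∀ N : ℕ, 1 ≤ N → ∀ x y : V,
      Q (MulAction.stabilizer G x ⊓ MulAction.stabilizer G y) → Cl R G T.dist N x y) →
    T.IsTree → (∀ (g : G) (x y : V), T.Adj x y → T.Adj (g • x) (g • y)) → T.Adj v w →
    (∀ g : G, ¬ (g • v = w ∧ g • w = v)) →
    (∀ g : G, g * g = 1 → (g • v = v ↔ g • w = w)) → Bar R G T.dist Q v w →
    ∀ (ε : ℤˣ) (n : ℕ) (ψ μ χ : Matrix (Fin n) (Fin n) (MonoidAlgebra R G)),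
      SuppIn {g | g • v = v ∧ g • w ≠ w} ψ → SuppIn {g | g • v = w} μ →
      SuppIn {g | g • w = w ∧ g • v ≠ v} χ →
      IsNilpotent (nu ε (ψ + (ε : ℤ) • ψᴴ) μ (χ + (ε : ℤ) • χᴴ)) → SS ε (UF ψ μ χ)

end Pool.Agent.Lib.MP8a3537.AR
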