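import Pool.Agent.Lib.MP_8a3537_gt.AR.LAB
import Pool.Agent.Lib.MP_8a3537_gt.AR.ABA
import Pool.Agent.Lib.MP_8a3537_gt.AR.SpecS
import Pool.Agent.Lib.MP_8a3537_gt.ROK.TFA
import Pool.Agent.Lib.MP_8a3537_gt.ROK.FPT

/-!
# Every coefficient ring (MP_8a3537_gt, folder AR): torsion-free abelian stabilizers (helper30)

`mainAb`: the theorem `MainAb` from `SpecFLT`. In a sequence as in `Bar` the element `u 2` commutes with `K 1`, so
`K 1 = K 2`, and the forms with supports in `K 1 * u 1`, `K 2 * u 2` are zero in `L^p` by Theorem Λ.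
`licAb`: the stabilizer of the edge is locally infinite cyclic. `mainL`: the same modulo `A`.
-/

set_option autoImplicit false
set_option linter.unusedSectionVars false

namespace Pool.Agent.Lib.MP8a3537.AR

open Matrix Pool.Agent.Lib.MP8a3537.UV Pool.Agent.Lib.MP8a3537.AU Pool.Agent.Lib.MP8a3537.RO
open Pool.Agent.Lib.MP8a3537.ROK Pool.Agent.Lib.MP8a3537.LL

namespace ALLM

section

variable {G V : Type} [Group G] [MulAction G V] {d : V → V → ℕ}

/-- The stabilizer of a longer path is smaller. -/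
theorem le_of (hd : TM G d) {x y x' y' : V} (h : d x' y' = d x' x + d x y + d y y') :
    MulAction.stabilizer G x' ⊓ MulAction.stabilizer G y' ≤
      MulAction.stabilizer G x ⊓ MulAction.stabilizer G y := by
  intro g hg
  rw [Subgroup.mem_inf, MulAction.mem_stabilizer_iff, MulAction.mem_stabilizer_iff] at hg ⊢
  have t1 := hd.tri x' x y'
  have t2 := hd.tri x y y'
  have t3 := hd.tri x' y y'
  have t4 := hd.tri x' x y
  exact ⟨(specTFA G V d hd).1 g x' x y' (by omega) hg.1 hg.2,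
    (specTFA G V d hd).1 g x' y y' (by omega) hg.1 hg.2⟩

theorem sq_mem {x y : V} {u : G} (h1 : u • x = y) (h2 : u • y = x) :
    u * u ∈ MulAction.stabilizer G x ⊓ MulAction.stabilizer G y := by
  rw [Subgroup.mem_inf, MulAction.mem_stabilizer_iff, MulAction.mem_stabilizer_iff, mul_smul,
    mul_smul, h1, h2, h1]
  exact ⟨rfl, rfl⟩

end

end ALLM

open ALLM

/-- **Torsion-free abelian stabilizers**, every coefficient ring. -/
theorem mainAb (hFLT : SpecFLT) : MainAb := by
  intro R G V _ _ _ _ T v w hT hact hvw hinv htwo hAb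
  have hd : TM G (V := V) T.dist := specFPT G V T hT hact
  letI := fcSHp (MonoidAlgebra R G)
  refine hFLT R G V (fun _ => False) T v w (fun N hN x y h => h.elim) hT hact hvw hinv htwo ?_
  intro x y u h1 h2 h3 h4 h5 h6 h7
  refine ⟨1, Or.inr ?_⟩
  obtain ⟨⟨hab, htf⟩, hex⟩ := hAb
  have hH : ∀ i, MulAction.stabilizer G (x i) ⊓ MulAction.stabilizer G (y i) ≤
      MulAction.stabilizer G v ⊓ MulAction.stabilizer G w := fun i => le_of hd (h1 i)
  have h10 : MulAction.stabilizer G (x 1) ⊓ MulAction.stabilizer G (y 1) ≤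
      MulAction.stabilizer G (x 0) ⊓ MulAction.stabilizer G (y 0) := le_of hd (h4 0)
  have h21 : MulAction.stabilizer G (x 2) ⊓ MulAction.stabilizer G (y 2) ≤
      MulAction.stabilizer G (x 1) ⊓ MulAction.stabilizer G (y 1) := le_of hd (h4 1)
  -- `u 2` commutes with `K 1`
  have hc2 : ∀ k ∈ MulAction.stabilizer G (x 1) ⊓ MulAction.stabilizer G (y 1),
      u 2 * k = k * u 2 := by
    intro k hk
    obtain ⟨h, hh, hu⟩ := h6 0
    have e1 := hex (x 0) (y 0) (u 0) (h1 0) (h2 0).1 (h2 0).2 (h7 0) k (h10 hk)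
    have e2 := hab h (hH 0 hh) k (hH 1 hk)
    have e3 : u 2 = h * u 0 := hu
    rw [e3]
    calc h * u 0 * k = h * (u 0 * k) := mul_assoc _ _ _
      _ = h * k * u 0 := by rw [e1, mul_assoc]
      _ = k * (h * u 0) := by rw [e2, mul_assoc]
  have hc1 : ∀ k ∈ MulAction.stabilizer G (x 1) ⊓ MulAction.stabilizer G (y 1),
      u 1 * k = k * u 1 := fun k hk =>
    hex (x 1) (y 1) (u 1) (h1 1) (h2 1).1 (h2 1).2 (h7 1) k hk
  have h12 : MulAction.stabilizer G (x 1) ⊓ MulAction.stabilizer G (y 1) ≤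
      MulAction.stabilizer G (x 2) ⊓ MulAction.stabilizer G (y 2) := by
    intro k hk
    have hc := hc2 k hk
    rw [Subgroup.mem_inf, MulAction.mem_stabilizer_iff, MulAction.mem_stabilizer_iff] at hk ⊢
    rcases h3 1 with e | e
    · have e' : x 2 = x 1 := e
      refine ⟨by rw [e']; exact hk.1, ?_⟩
      rw [← (h2 2).1, e', ← mul_smul, ← hc, mul_smul, hk.1]
    · have e' : y 2 = y 1 := e
      refine ⟨?_, by rw [e']; exact hk.2⟩
      rw [← (h2 2).2, e', ← mul_smul, ← hc, mul_smul, hk.2]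
  have e12 : MulAction.stabilizer G (x (1 + 1)) ⊓ MulAction.stabilizer G (y (1 + 1)) =
      MulAction.stabilizer G (x 1) ⊓ MulAction.stabilizer G (y 1) := le_antisymm h21 h12
  rw [e12]
  refine lam_blk_loc _ (u 1) (u (1 + 1)) (lam_ab _ (u 1) (u (1 + 1)) ⟨?_, ?_⟩ hc1 hc2
    (sq_mem (h2 1).1 (h2 1).2) ?_ (h7 1) ?_)
  · exact fun a ha b hb => hab a (hH 1 ha) b (hH 1 hb)
  · exact fun a ha n hn h => htf a (hH 1 ha) n hn h
  · rw [← e12]
    exact sq_mem (h2 2).1 (h2 2).2
  · intro k hk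
    rw [← e12] at hk
    exact h7 2 k hk

/-- The stabilizer of the edge is locally infinite cyclic. -/
theorem licAb {G V : Type} [Group G] [MulAction G V] {d : V → V → ℕ} (hd : TM G d) {v w : V}
    (h : LIC (⊥ : Subgroup G) (MulAction.stabilizer G v ⊓ MulAction.stabilizer G w)) :
    LL2.Ab G d v w := by
  have cm : ∀ a b : G, Commute ((QuotientGroup.mk' (⊥ : Subgroup G)) a)
      ((QuotientGroup.mk' (⊥ : Subgroup G)) b) → a * b = b * a := by
    intro a b hc
    have h1 : a * b * a⁻¹ * b⁻¹ ∈ (⊥ : Subgroup G) := by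
      rw [← LOCM.one_iff, map_mul, map_mul, map_mul, map_inv, map_inv, hc.eq]
      group
    rw [Subgroup.mem_bot, mul_inv_eq_one] at h1
    exact mul_inv_eq_iff_eq_mul.1 h1
  refine ⟨⟨?_, ?_⟩, ?_⟩
  · intro a ha b hb
    obtain ⟨z, hz, i, j, h1, h2⟩ := h.1 a ha b hb
    refine cm a b ?_
    rw [LOCM.mk_eq h1, LOCM.mk_eq h2]
    exact ((Commute.refl _).zpow_left i).zpow_right j
  · intro a ha n hn hn1
    rcases h.2 a ha n (by rw [zpow_natCast, hn1]; exact Subgroup.one_mem _) with h0 | h0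
    · exact absurd (Int.natCast_eq_zero.1 h0) hn
    · exact Subgroup.mem_bot.1 h0
  · intro x y g h1 hgx hgy hn k hk
    refine cm g k (LOCM.comm' h (le_of hd h1) ?_ (sq_mem hgx hgy) ?_ hk)
    · -- `g` normalizes the stabilizer
      have hgi : g⁻¹ • x = y := by rw [inv_smul_eq_iff]; exact hgy.symm
      have hgi' : g⁻¹ • y = x := by rw [inv_smul_eq_iff]; exact hgx.symm
      intro k hk
      rw [Subgroup.mem_inf, MulAction.mem_stabilizer_iff, MulAction.mem_stabilizer_iff] at hk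
      constructor
      · rw [Subgroup.mem_inf, MulAction.mem_stabilizer_iff, MulAction.mem_stabilizer_iff, mul_smul,
          mul_smul, mul_smul, mul_smul, hgi, hgi', hk.1, hk.2, hgx, hgy]
        exact ⟨rfl, rfl⟩
      · rw [Subgroup.mem_inf, MulAction.mem_stabilizer_iff, MulAction.mem_stabilizer_iff, mul_smul,
          mul_smul, mul_smul, mul_smul, hgx, hgy, hk.1, hk.2, hgi, hgi']
        exact ⟨rfl, rfl⟩
    · rw [Subgroup.mem_bot]
      have h8 := hn 1 (Subgroup.one_mem _)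
      rwa [one_mul] at h8

open ABAM in
/-- **The theorem modulo `A`**, locally infinite cyclic (or trivial). -/
theorem mainL (hM : MainAb) (R G V : Type) [Ring R] [StarRing R] [Group G] [MulAction G V]
    (T : SimpleGraph V) (v w : V) (hT : T.IsTree)
    (hact : ∀ (g : G) (x y : V), T.Adj x y → T.Adj (g • x) (g • y)) (hvw : T.Adj v w)
    (hinv : ∀ g : G, ¬ (g • v = w ∧ g • w = v)) (A : Subgroup G) [A.Normal]
    (hA : ∀ a ∈ A, ∀ x : V, a • x = x)
    (htwo : ∀ g : G, g * g ∈ A → (g • v = v ↔ g • w = w))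
    (hcy : LIC A (MulAction.stabilizer G v ⊓ MulAction.stabilizer G w)) :
    VanP R G {g | g • v = v ∧ g • w ≠ w} {g | g • v = w} {g | g • w = w ∧ g • v ≠ v} := by
  have hd : TM G (V := V) T.dist := specFPT G V T hT hact
  refine key A hA R T v w hT hact hvw hinv htwo hM ?_
  letI := actQ A hA
  have hd' : TM (G ⧸ A) (V := V) T.dist := ⟨hd.d0, hd.cm, hd.tri, hd.four, by
    intro q x y
    obtain ⟨g, rfl⟩ := QuotientGroup.mk'_surjective A q
    exact hd.iso g x y⟩
  refine licAb hd' ⟨?_, ?_⟩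
  · intro a ha b hb
    obtain ⟨a, rfl⟩ := QuotientGroup.mk'_surjective A a
    obtain ⟨b, rfl⟩ := QuotientGroup.mk'_surjective A b
    obtain ⟨z, hz, i, j, h1, h2⟩ := hcy.1 a ha b hb
    refine ⟨QuotientGroup.mk' A z, hz, i, j, ?_, ?_⟩
    · rw [Subgroup.mem_bot, ← map_zpow, ← map_inv, ← map_mul, LOCM.one_iff]
      exact h1
    · rw [Subgroup.mem_bot, ← map_zpow, ← map_inv, ← map_mul, LOCM.one_iff]
      exact h2
  · intro a ha n hn
    obtain ⟨a, rfl⟩ := QuotientGroup.mk'_surjective A a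
    rw [Subgroup.mem_bot, ← map_zpow, LOCM.one_iff] at hn
    rcases hcy.2 a ha n hn with h0 | h0
    · exact Or.inl h0
    · right
      rw [Subgroup.mem_bot, LOCM.one_iff]
      exact h0

end Pool.Agent.Lib.MP8a3537.AR
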