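import Pool.Agent.Lib.MP_8a3537_gt.AR.Spec
import Pool.Agent.Lib.MP_8a3537_gt.RO.NWC
import Pool.Agent.Lib.MP_8a3537_gt.RO.SCH

/-!
# Classes of forms (MP_8a3537_gt, folder AR): SWP, SCH (helper76)
-/

set_option autoImplicit false
set_option linter.unusedSectionVars false

namespace Pool.Agent.Lib.MP8a3537.AR

open Matrix Pool.Agent.Lib.MP8a3537.UV Pool.Agent.Lib.MP8a3537.RO

namespace SWPP

variable {A : Type} [Ring A] [StarRing A] [FC A] {ε : ℤˣ}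

theorem stab_of_isom {ι κ : Type} [Fintype ι] [DecidableEq ι] [Fintype κ] [DecidableEq κ]
    {Ψ : Matrix ι ι A} {Φ : Matrix κ κ A} (h : Isometric ε Ψ Φ) (hΦ : SS ε Φ) : SS ε Ψ :=
  ss_of_isom h hΦ

theorem trivial_form (n : ℕ) : SS ε (UF (0 : Matrix (Fin n) (Fin n) A) 0 0) :=
  ss_of_sh (SWPAux.trivial_form n)

omit [FC A] in
theorem change {n : ℕ} (ψ μ χ c d : Matrix (Fin n) (Fin n) A) :
    Isometric ε (UF (ψ + c - (ε : ℤ) • cᴴ) μ (χ + d - (ε : ℤ) • dᴴ)) (UF ψ μ χ) :=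
  SWPAux.change ψ μ χ c d

omit [FC A] in
theorem swap {n : ℕ} (ψ μ χ : Matrix (Fin n) (Fin n) A) :
    Isometric ε (UF ψ μ χ) (UF χ μᴴ ψ) :=
  SWPAux.swap ψ μ χ

end SWPP

theorem specSwpP : SpecSWPP := by
  intro A _ _ _ ε n ψ μ χ
  exact ⟨fun h => SWPP.stab_of_isom (SWPP.swap ψ μ χ) h,
    fun c d h => SWPP.stab_of_isom (SWPP.change ψ μ χ c d) h, SWPP.trivial_form n⟩

theorem specSCH : SpecSCH := by
  intro A _ _ _ ε M N _ _ _ _ Λ Φi Ξ ψ' h1 _ hΛ hK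
  have hm := SCHM.main ε Λ (Φi * Ξᴴ) Ξ ψ' (by rw [← Matrix.mul_assoc, h1, Matrix.one_mul])
  exact ss_destab N (ss_of_isom hm (ss_sum hΛ hK))

end Pool.Agent.Lib.MP8a3537.AR
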