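import Pool.Agent.Lib.MP_8a3537_gt.AR.SpecS
import Pool.Agent.Lib.MP_8a3537_gt.LL2.CHS

/-! # folder AR, module CHT: chains of states, the barrier condition (helper21) -/

set_option autoImplicit false

namespace Pool.Agent.Lib.MP8a3537.AR

open Matrix Pool.Agent.Lib.MP8a3537.UV Pool.Agent.Lib.MP8a3537.AU Pool.Agent.Lib.MP8a3537.RO
open Pool.Agent.Lib.MP8a3537.ROK Pool.Agent.Lib.MP8a3537.LL
open Pool.Agent.Lib.MP8a3537.LL2 (NI Cnc Lng)

namespace CHTM

section

variable {G V : Type} [Group G] [MulAction G V] {d : V → V → ℕ}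

/-- the path of the first state -/
theorem firstBt (hd : TM G d) {x1 x2 q : V} {y y' k k' : G} (hne : x1 ≠ x2)
    (hq : d x1 q = d x1 x2 + d x2 q) (hy : d x2 (y • x2) = d x2 x1 + d x1 (y • x2))
    (hk1 : k • x1 = x1) (hk2 : k • x2 = x2) (hk'2 : k' • x2 = x2)
    (he : y' = k * y * k') (hyx : (y' * y') • x1 = x1) (hyq : (y' * y') • q = q) :
    d q (y' • q) = d q x2 + d x2 x1 + d x1 (y' • x2) + d (y' • x2) (y' • q) := by
  have hp : y' • x2 = k • (y • x2) := by
    rw [he, mul_smul, mul_smul, hk'2]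
  have hb : d x2 (y' • x2) = d x2 x1 + d x1 (y' • x2) := by
    have e1 := hd.iso k x2 (y • x2)
    have e2 := hd.iso k x1 (y • x2)
    rw [hk2] at e1
    rw [hk1] at e2
    rw [hp]
    omega
  have hyy2 : (y' * y') • x2 = x2 := (specTFA G V d hd).1 (y' * y') x1 x2 q hq hyx hyq
  rw [mul_smul] at hyy2
  -- `y'` applied to the two paths
  have ha1 : d (y' • x1) (y' • q) = d (y' • x1) (y' • x2) + d (y' • x2) (y' • q) := by
    rw [hd.iso, hd.iso, hd.iso]
    exact hq
  have ha2 : d (y' • x2) x2 = d (y' • x2) (y' • x1) + d (y' • x1) x2 := by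
    have e1 := hd.iso y' x2 (y' • x2)
    have e2 := hd.iso y' x2 x1
    have e3 := hd.iso y' x1 (y' • x2)
    rw [hyy2] at e1 e3
    omega
  have hne' : y' • x1 ≠ y' • x2 := by
    intro h
    exact hne (MulAction.injective y' h)
  have ht1 := (specTFA G V d hd).2.1 x1 x2 q (y' • x2) hne hq hb
  have ht2 := (specTFA G V d hd).2.1 (y' • x1) (y' • x2) (y' • q) x2 hne' ha1 ha2
  have hne'' : x2 ≠ y' • x2 := by
    intro h
    have e1 := (hd.d0 x2 (y' • x2)).2 h
    have e2 : d x2 x1 = 0 := by omega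
    exact hne ((hd.d0 x2 x1).1 e2).symm
  have c1 := hd.cm x2 (y' • x2)
  have c2 := hd.cm (y' • q) x2
  have c3 := hd.cm (y' • q) (y' • x2)
  have c4 := hd.cm q (y' • x2)
  have c5 := hd.cm x2 q
  have hf1 : d x2 (y' • q) = d x2 (y' • x2) + d (y' • x2) (y' • q) := by omega
  have hf2 : d (y' • x2) q = d (y' • x2) x2 + d x2 q := by omega
  have ht3 := (specTFA G V d hd).2.1 x2 (y' • x2) (y' • q) q hne'' hf1 hf2
  have c6 := hd.cm (y' • q) q
  omega

/-- the stabilizer of a longer exchanged pair -/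
theorem kg_eq (hd : TM G d) {a b : V} {w : G} (hB : d a (w • a) = d a b + d b (w • a))
    (hww : w • w • a = a) :
    MulAction.stabilizer G a ⊓ MulAction.stabilizer G (w • a) =
      Kg (MulAction.stabilizer G a ⊓ MulAction.stabilizer G b) w := by
  have hi : w⁻¹ • a = w • a := by
    rw [inv_smul_eq_iff]
    exact hww.symm
  ext k
  rw [RO.mem_Kg]
  simp only [Subgroup.mem_inf, MulAction.mem_stabilizer_iff]
  constructor
  · rintro ⟨h1, h2⟩
    have h3 : (w⁻¹ * k * w) • a = a := by
      rw [mul_smul, mul_smul, h2, inv_smul_smul]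
    have h4 : (w⁻¹ * k * w) • (w • a) = w • a := by
      rw [mul_smul, mul_smul, hww, h1, hi]
    exact ⟨⟨h1, (specTFA G V d hd).1 k a b (w • a) hB h1 h2⟩, h3,
      (specTFA G V d hd).1 (w⁻¹ * k * w) a b (w • a) hB h3 h4⟩
  · rintro ⟨⟨h1, h2⟩, h3, h4⟩
    refine ⟨h1, ?_⟩
    rw [mul_smul, mul_smul, inv_smul_eq_iff] at h3
    exact h3

end

section

variable (R G : Type) {V : Type} [Ring R] [StarRing R] [Group G] [FC (MonoidAlgebra R G)]
  [MulAction G V] (d : V → V → ℕ) (Q : Subgroup G → Prop) (v w0 : V)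

/-- a state of the chain -/
structure St where
  x : V
  y : V
  s : Bool
  u : G
  w : G
  path : d x y = d x v + d v w0 + d w0 y
  ux : u • x = y
  uy : u • y = x
  ww : w * w ∈ MulAction.stabilizer G x ⊓ MulAction.stabilizer G y
  nu : NI (MulAction.stabilizer G x ⊓ MulAction.stabilizer G y) u
  nw : NI (MulAction.stabilizer G x ⊓ MulAction.stabilizer G y) w
  tr : s = true → d y (w • y) = d y x + d x (w • y) ∧ w • y ≠ x ∧ ¬ GS R G Q x y u w
  fl : s = false → d x (w • x) = d x y + d y (w • x) ∧ w • x ≠ y ∧ ¬ GS R G Q x y w u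

end

section

variable {R G V : Type} [Ring R] [StarRing R] [Group G] [FC (MonoidAlgebra R G)] [MulAction G V]
  {d : V → V → ℕ} {Q : Subgroup G → Prop} {v w0 : V}

/-- the stabilizer of a state is not in `Q` -/
theorem not_Q (b : St R G d Q v w0) :
    ¬ Q (MulAction.stabilizer G b.x ⊓ MulAction.stabilizer G b.y) := by
  intro h
  cases hs : b.s with
  | true => exact (b.tr hs).2.2 (GS.reg h)
  | false => exact (b.fl hs).2.2 (GS.reg h)

/-- the step -/
theorem step (hd : TM G d) (hvw : v ≠ w0) (b : St R G d Q v w0) :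
    ∃ b' : St R G d Q v w0, b'.u = b.w ∧
      (∃ h ∈ MulAction.stabilizer G b.x ⊓ MulAction.stabilizer G b.y, b'.w = h * b.u) ∧
      (b'.x = b.x ∨ b'.y = b.y) ∧
      d b'.x b'.y = d b'.x b.x + d b.x b.y + d b.y b'.y ∧
      d b.x b.y < d b'.x b'.y ∧
      ¬ Blk R (La (MulAction.stabilizer G b.x ⊓ MulAction.stabilizer G b.y) b.u)
        (La (MulAction.stabilizer G b'.x ⊓ MulAction.stabilizer G b'.y) b'.u) := by
  obtain ⟨x, y, s, u, w, path, ux, uy, ww, hnu, hnw, tr, fl⟩ := b
  have hvw0 : d v w0 ≠ 0 := fun h => hvw ((hd.d0 v w0).1 h)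
  have hxy : x ≠ y := by
    intro h
    have := (hd.d0 x y).2 h
    omega
  have hNu : Ns (MulAction.stabilizer G x ⊓ MulAction.stabilizer G y) u := LL2.CHSM.ns_of ux uy
  have hwx : w • w • x = x := by
    have := ww
    rw [Subgroup.mem_inf, MulAction.mem_stabilizer_iff, mul_smul] at this
    exact this.1
  have hwy : w • w • y = y := by
    have := ww
    rw [Subgroup.mem_inf, MulAction.mem_stabilizer_iff, MulAction.mem_stabilizer_iff, mul_smul,
      mul_smul] at this
    exact this.2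
  -- elements of the double coset of `u` exchange `x` and `y`
  have hex : ∀ u' ∈ dc (MulAction.stabilizer G x ⊓ MulAction.stabilizer G y) u,
      (∃ h ∈ MulAction.stabilizer G x ⊓ MulAction.stabilizer G y, u' = h * u) ∧
      u' • x = y ∧ u' • y = x := by
    intro u' hu'
    obtain ⟨h, hh, e⟩ := SGSM.dc_La hNu hu'
    refine ⟨⟨h, hh, e⟩, ?_, ?_⟩
    · rw [e, mul_smul, ux]
      exact (Subgroup.mem_inf.1 hh).2
    · rw [e, mul_smul, uy]
      exact (Subgroup.mem_inf.1 hh).1
  cases s with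
  | true =>
    obtain ⟨hB, hne, hn⟩ := tr rfl
    have hK : MulAction.stabilizer G (w • y) ⊓ MulAction.stabilizer G y =
        Kg (MulAction.stabilizer G x ⊓ MulAction.stabilizer G y) w := by
      rw [inf_comm (MulAction.stabilizer G (w • y)), inf_comm (MulAction.stabilizer G x)]
      exact kg_eq hd hB hwy
    have hle : MulAction.stabilizer G (w • y) ⊓ MulAction.stabilizer G y ≤
        MulAction.stabilizer G x ⊓ MulAction.stabilizer G y := by
      rw [inf_comm (MulAction.stabilizer G (w • y)), inf_comm (MulAction.stabilizer G x)]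
      exact LL2.CHSM.le_of hd hB
    have hblk : ¬ Blk R (La (MulAction.stabilizer G x ⊓ MulAction.stabilizer G y) u)
        (La (MulAction.stabilizer G (w • y) ⊓ MulAction.stabilizer G y) w) := by
      rw [hK]
      exact fun h => hn (GS.bx ux uy h)
    have hsty : ¬ ∀ x' ∈ dc (MulAction.stabilizer G x ⊓ MulAction.stabilizer G y) u,
        x' * x' ∈ MulAction.stabilizer G (w • y) ⊓ MulAction.stabilizer G y →
        GS R G Q (w • y) y x' w := fun h => hn (GS.sty h)
    push Not at hsty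
    obtain ⟨u', hu', huu, hg⟩ := hsty
    obtain ⟨⟨h, hh, e⟩, hu1, hu2⟩ := hex u' hu'
    have hpos : 0 < d (w • y) x := by
      rcases Nat.eq_zero_or_pos (d (w • y) x) with h0 | h0
      · exact absurd ((hd.d0 _ _).1 h0) hne
      · exact h0
    refine ⟨⟨w • y, y, false, w, u', ?_, hwy, rfl, huu, ?_, ?_, ?_, ?_⟩, rfl, ⟨h, hh, e⟩,
      Or.inr rfl, ?_, ?_, hblk⟩
    · have t1 := hd.tri (w • y) x v
      have t2 := hd.tri (w • y) v y
      have t3 := hd.tri v w0 y
      have c1 := hd.cm (w • y) y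
      have c2 := hd.cm y x
      have c3 := hd.cm x (w • y)
      omega
    · exact LL2.CHSM.ni_mono hle (LL2.CHSM.self_dc _ _) hnw
    · exact LL2.CHSM.ni_mono hle hu' hnu
    · intro h
      exact absurd h (by decide)
    · intro _
      refine ⟨LL2.CHSM.stepBt hd hxy hB hu1 hu2, ?_, hg⟩
      intro h0
      exact hne (MulAction.injective u' (h0.trans hu1.symm))
    · show d (w • y) y = d (w • y) x + d x y + d y y
      have t1 := (hd.d0 y y).2 rfl
      have c1 := hd.cm (w • y) y
      have c2 := hd.cm y x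
      have c3 := hd.cm x (w • y)
      omega
    · show d x y < d (w • y) y
      have c1 := hd.cm (w • y) y
      have c2 := hd.cm y x
      have c3 := hd.cm x (w • y)
      omega
  | false =>
    obtain ⟨hB, hne, hn⟩ := fl rfl
    have hK : MulAction.stabilizer G x ⊓ MulAction.stabilizer G (w • x) =
        Kg (MulAction.stabilizer G x ⊓ MulAction.stabilizer G y) w := kg_eq hd hB hwx
    have hle : MulAction.stabilizer G x ⊓ MulAction.stabilizer G (w • x) ≤
        MulAction.stabilizer G x ⊓ MulAction.stabilizer G y := LL2.CHSM.le_of hd hB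
    have hblk : ¬ Blk R (La (MulAction.stabilizer G x ⊓ MulAction.stabilizer G y) u)
        (La (MulAction.stabilizer G x ⊓ MulAction.stabilizer G (w • x)) w) := by
      rw [hK]
      exact fun h => hn (GS.by' ux uy h)
    have hstx : ¬ ∀ y' ∈ dc (MulAction.stabilizer G x ⊓ MulAction.stabilizer G y) u,
        y' * y' ∈ MulAction.stabilizer G x ⊓ MulAction.stabilizer G (w • x) →
        GS R G Q x (w • x) w y' := fun h => hn (GS.stx h)
    push Not at hstx
    obtain ⟨u', hu', huu, hg⟩ := hstx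
    obtain ⟨⟨h, hh, e⟩, hu1, hu2⟩ := hex u' hu'
    have hpos : 0 < d y (w • x) := by
      rcases Nat.eq_zero_or_pos (d y (w • x)) with h0 | h0
      · exact absurd ((hd.d0 _ _).1 h0).symm hne
      · exact h0
    refine ⟨⟨x, w • x, true, w, u', ?_, rfl, hwx, huu, ?_, ?_, ?_, ?_⟩, rfl, ⟨h, hh, e⟩,
      Or.inl rfl, ?_, ?_, hblk⟩
    · have t1 := hd.tri w0 y (w • x)
      have t2 := hd.tri x v (w • x)
      have t3 := hd.tri v w0 (w • x)
      omega
    · exact LL2.CHSM.ni_mono hle (LL2.CHSM.self_dc _ _) hnw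
    · exact LL2.CHSM.ni_mono hle hu' hnu
    · intro _
      refine ⟨LL2.CHSM.stepBt hd hxy.symm hB hu2 hu1, ?_, hg⟩
      intro h0
      exact hne (MulAction.injective u' (h0.trans hu2.symm))
    · intro h
      exact absurd h (by decide)
    · show d x (w • x) = d x x + d x y + d y (w • x)
      have t1 := (hd.d0 x x).2 rfl
      omega
    · show d x y < d x (w • x)
      omega

/-- the first state -/
theorem first (hd : TM G d) (hvw : v ≠ w0)
    {x1 x2 : V} {x y : G} (path : d x1 x2 = d x1 v + d v w0 + d w0 x2)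
    (hxx : x * x ∈ MulAction.stabilizer G x1 ⊓ MulAction.stabilizer G x2)
    (hx : d x1 (x • x1) = d x1 x2 + d x2 (x • x1)) (hy : d x2 (y • x2) = d x2 x1 + d x1 (y • x2))
    (hnx : NI (MulAction.stabilizer G x1 ⊓ MulAction.stabilizer G x2) x)
    (hny : NI (MulAction.stabilizer G x1 ⊓ MulAction.stabilizer G x2) y)
    (hne : ¬ (x • x1 = x2 ∧ y • x2 = x1))
    (hn : ¬ GS R G Q x1 x2 x y) : Nonempty (St R G d Q v w0) := by
  have hvw0 : d v w0 ≠ 0 := fun h => hvw ((hd.d0 v w0).1 h)
  have hxy : x1 ≠ x2 := by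
    intro h
    have := (hd.d0 x1 x2).2 h
    omega
  have hxx1 : x • x • x1 = x1 := by
    have := hxx
    rw [Subgroup.mem_inf, MulAction.mem_stabilizer_iff, mul_smul] at this
    exact this.1
  have hstx : ¬ ∀ y' ∈ dc (MulAction.stabilizer G x1 ⊓ MulAction.stabilizer G x2) y,
      y' * y' ∈ MulAction.stabilizer G x1 ⊓ MulAction.stabilizer G (x • x1) →
      GS R G Q x1 (x • x1) x y' := fun h => hn (GS.stx h)
  push Not at hstx
  obtain ⟨y', hy', hyy', hg⟩ := hstx
  have hle : MulAction.stabilizer G x1 ⊓ MulAction.stabilizer G (x • x1) ≤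
      MulAction.stabilizer G x1 ⊓ MulAction.stabilizer G x2 := LL2.CHSM.le_of hd hx
  obtain ⟨k, hk, k', hk', e⟩ := hy'
  have hy'' : y' ∈ dc (MulAction.stabilizer G x1 ⊓ MulAction.stabilizer G x2) y :=
    ⟨k, hk, k', hk', e⟩
  have hP := firstBt hd hxy hx hy (Subgroup.mem_inf.1 hk).1 (Subgroup.mem_inf.1 hk).2
    (Subgroup.mem_inf.1 hk').2 e (Subgroup.mem_inf.1 hyy').1 (Subgroup.mem_inf.1 hyy').2
  refine ⟨⟨x1, x • x1, true, x, y', ?_, rfl, hxx1, hyy', ?_, ?_, ?_, ?_⟩⟩
  · have t1 := hd.tri w0 x2 (x • x1)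
    have t2 := hd.tri x1 v (x • x1)
    have t3 := hd.tri v w0 (x • x1)
    omega
  · exact LL2.CHSM.ni_mono hle (LL2.CHSM.self_dc _ _) hnx
  · exact LL2.CHSM.ni_mono hle hy'' hny
  · intro _
    refine ⟨?_, ?_, hg⟩
    · have c1 := hd.cm x2 x1
      have c2 := hd.cm (x • x1) x1
      have c3 := hd.cm (x • x1) x2
      have t2 := hd.tri x1 (y' • x2) (y' • x • x1)
      have t3 := hd.tri (x • x1) x1 (y' • x • x1)
      omega
    · intro h0
      rw [h0] at hP
      have c1 := hd.cm x2 x1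
      have c2 := hd.cm (x • x1) x1
      have c3 := hd.cm (x • x1) x2
      have hz : d x1 (y' • x2) = 0 := by omega
      have hp : x1 = y' • x2 := (hd.d0 _ _).1 hz
      apply hne
      constructor
      · exact MulAction.injective y' (h0.trans hp)
      · have h1 : k • (y • x2) = x1 := by
          have h2 : (k' : G) • x2 = x2 := (Subgroup.mem_inf.1 hk').2
          rw [e, mul_smul, mul_smul, h2] at hp
          exact hp.symm
        have h3 : k • x1 = x1 := (Subgroup.mem_inf.1 hk).1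
        exact MulAction.injective k (h1.trans h3.symm)
  · intro h
    exact absurd h (by decide)

end

end CHTM

open CHTM in
theorem specCHT : SpecCHT := by
  intro R G V _ _ _ _ _ d hd Q v w hvw hbar x1 x2 x y path _ hxx _ hx hy hnx hny hne
  by_contra hn
  obtain ⟨b0⟩ := first (R := R) hd hvw path hxx hx hy hnx hny hne hn
  choose nx hn1 hn2 hn3 hn4 hn5 hn6 using step (R := R) (Q := Q) hd hvw
  let s : ℕ → St R G d Q v w := fun n => Nat.rec b0 (fun _ b => nx b) n
  obtain ⟨i, hi⟩ := hbar (fun n => (s n).x) (fun n => (s n).y) (fun n => (s n).u)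
    (fun n => (s n).path) (fun n => ⟨(s n).ux, (s n).uy⟩) (fun n => hn3 (s n)) (fun n => hn4 (s n))
    (fun n => hn5 (s n))
    (fun n => by
      obtain ⟨h, hh, e⟩ := hn2 (s n)
      refine ⟨h, hh, ?_⟩
      have e1 : (s (n + 2)).u = (s (n + 1)).w := hn1 (s (n + 1))
      have e2 : (s (n + 1)).w = h * (s n).u := e
      show (s (n + 2)).u = h * (s n).u
      rw [e1, e2])
    (fun n h hh => (s n).nu _ ⟨h, hh, 1, Subgroup.one_mem _, by group⟩)
  rcases hi with hi | hi
  · exact not_Q (s i) hi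
  · exact hn6 (s i) hi

end Pool.Agent.Lib.MP8a3537.AR
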