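import Pool.Agent.Lib.MP_8a3537_gt.AR.SpecS
import Pool.Agent.Lib.MP_8a3537_gt.LL2.CLN

/-! # Classes of forms (MP_8a3537_gt, folder AR), module CLS: all pairs of the class `P` (copy of `LL2/CLN.lean`) -/

set_option autoImplicit false
set_option linter.unusedSectionVars false

namespace Pool.Agent.Lib.MP8a3537.AR

open Matrix Pool.Agent.Lib.MP8a3537.UV Pool.Agent.Lib.MP8a3537.AU Pool.Agent.Lib.MP8a3537.RO
open Pool.Agent.Lib.MP8a3537.ROK Pool.Agent.Lib.MP8a3537.LL
open Pool.Agent.Lib.MP8a3537.LL2 (NI Cnc Lng)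
open Pool.Agent.Lib.MP8a3537

namespace CLSM

section

variable {G V : Type} [Group G] [MulAction G V] {d : V → V → ℕ} {x1 x2 : V}

/-- A flip of `X1` and a flip of `X2` do not both exchange the ends. -/
theorem nexch {L : Subgroup G} {X1 X2 Yp Ym : Set G} (P : PPK L X1 X2 ∅ Yp Ym)
    (hg : Geo d L X1 X2 ∅ x1 x2) {g f : G} (hg1 : g ∈ X1) (hf2 : f ∈ X2) (hgg : g * g ∈ L)
    (hff : f * f ∈ L) : ¬ (g • x1 = x2 ∧ f • x2 = x1) := by
  rintro ⟨e1, e2⟩
  have g2 : g • x2 = x1 := by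
    rw [← e1, ← mul_smul]
    exact ((hg.st _).1 hgg).1
  have f1 : f • x1 = x2 := by
    rw [← e2, ← mul_smul]
    exact ((hg.st _).1 hff).2
  have hl : g⁻¹ * f ∈ L := by
    refine (hg.st _).2 ⟨?_, ?_⟩
    · rw [mul_smul, f1, ← e1, inv_smul_smul]
    · rw [mul_smul, e2]
      nth_rewrite 1 [← g2]
      rw [inv_smul_smul]
  have hf1 : f ∈ X1 := by
    have := P.X1r _ hl g hg1
    rwa [mul_inv_cancel_left] at this
  have y1 : f ∈ Ym := by
    have := P.X1Y f hf1 1 P.Yp1
    rwa [mul_one] at this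
  have y2 : f ∈ Yp := by
    have := P.X2Y f hf2 1 P.Ym1
    rwa [mul_one] at this
  exact P.xh true false f hf2 (P.yy f y2 y1)

variable {R : Type} [Ring R] [StarRing R] [FC (MonoidAlgebra R G)]

/-- the claims for all indices give `SE` -/
theorem se_of' (h : ∀ N : ℕ, 1 ≤ N → Cl R G d N x1 x2) : SE R G d x1 x2 := by
  intro L g Xb Yp Ym P hg _ _ ε n ψ χ hψ hχ hν
  obtain ⟨N, hN⟩ := hν
  refine h (N + 1) (by omega) L (La L g) Xb Yp Ym P hg ε n ψ χ hψ hχ ?_
  rw [pow_succ, hN, zero_mul]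

end

end CLSM

open CLSM LL2.CLNM SGSM in
/-- **CLS**: all pairs of the class `P`. -/
theorem specCLS (hSPB : SpecSPB) (hSPS : SpecSPS) : SpecCLS := by
  intro R G V _ _ _ _ _ d hT Q P hQ hP hGP
  have hCl : ∀ N : ℕ, 1 ≤ N → ∀ x1 x2 : V, P x1 x2 → Cl R G d N x1 x2 := by
    intro N
    induction N with
    | zero => intro h; omega
    | succ N ih =>
      intro hN x1 x2 hx
      have hc : 3 ≤ N + 1 → ∀ x1 x2 : V, P x1 x2 → Cl R G d (N + 1 - 1) x1 x2 := fun h => by
        rw [Nat.add_sub_cancel]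
        exact ih (by omega)
      intro L X1 X2 Yp Ym PP hg ε n ψ χ hψ hχ hν
      refine mDCM R G V d hT (N + 1) x1 x2 hN (fun h => hc h x1 x2 hx) L X1 X2 Yp Ym PP hg ?_
        ε n ψ χ hψ hχ hν
      clear hψ hχ hν ψ χ n ε
      intro x hx1 y hy2 ε n ψ χ hψ hχ hν
      have hL := stab hg
      subst hL
      have sm : ∀ g : G, g * g ∈ MulAction.stabilizer G x1 ⊓ MulAction.stabilizer G x2 →
          g • g • x1 = x1 ∧ g • g • x2 = x2 := by
        intro g h
        rw [← mul_smul, ← mul_smul]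
        exact (hg.st _).1 h
      by_cases fx : Flip (MulAction.stabilizer G x1 ⊓ MulAction.stabilizer G x2) x
      · obtain ⟨h, hh, hgg, hxd⟩ := ROTAux.exists_flip fx
        have hgX : x * h ∈ X1 := PP.X1r h hh x hx1
        have hψg : SuppIn (D2 (MulAction.stabilizer G x1 ⊓ MulAction.stabilizer G x2) (x * h)) ψ :=
          fun i j z hz => Or.inl (D2_flip hgg hxd (hψ i j z hz))
        by_cases fy : Flip (MulAction.stabilizer G x1 ⊓ MulAction.stabilizer G x2) y
        · obtain ⟨k, hk, hff, hyd⟩ := ROTAux.exists_flip fy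
          have hfX : y * k ∈ X2 := PP.X2r k hk y hy2
          have hχf : SuppIn (D2 (MulAction.stabilizer G x1 ⊓ MulAction.stabilizer G x2) (y * k)) χ :=
            fun i j z hz => Or.inl (D2_flip hff hyd (hχ i j z hz))
          exact hSPS R G V d hT Q P (N + 1) hN (hQ (N + 1) hN) hP hc x1 x2 (x * h) (y * k)
            (hGP x1 x2 (x * h) (y * k) hx hgg hff (mv1 hT hg hgX) (mv2 hT hg hfX) (ni1 PP hgX)
              (ni2 PP hfX) (nexch PP hg hgX hfX hgg hff)) hx hgg hff _ X1 X2 Yp Ym PP hg hgX hfX ε n ψ χ hψg hχf hν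
        · exact (hSPB R G V d hT (N + 1) x1 x2 (x * h) y hN).2 hgg fy
            (fun h3 => hc h3 x1 _ (hP.r x1 x2 (x * h) hx (sm _ hgg).1 (mv1 hT hg hgX)))
            _ X1 X2 Yp Ym PP hg hgX hy2 ε n ψ χ hψg hχ hν
      · by_cases fy : Flip (MulAction.stabilizer G x1 ⊓ MulAction.stabilizer G x2) y
        · obtain ⟨k, hk, hff, hyd⟩ := ROTAux.exists_flip fy
          have hfX : y * k ∈ X2 := PP.X2r k hk y hy2
          have hχf : SuppIn (D2 (MulAction.stabilizer G x1 ⊓ MulAction.stabilizer G x2) (y * k)) χ :=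
            fun i j z hz => Or.inl (D2_flip hff hyd (hχ i j z hz))
          have hff' : y * k * (y * k) ∈ MulAction.stabilizer G x2 ⊓ MulAction.stabilizer G x1 := by
            rw [inf_comm]
            exact hff
          have fx' : ¬ Flip (MulAction.stabilizer G x2 ⊓ MulAction.stabilizer G x1) x := by
            rw [inf_comm]
            exact fx
          exact (hSPB R G V d hT (N + 1) x1 x2 x (y * k) hN).1
            ((hSPB R G V d hT (N + 1) x2 x1 (y * k) x hN).2 hff' fx' (fun h3 => SGSMP.Cl_swap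
              (hc h3 _ x2 (hP.l x1 x2 (y * k) hx (sm _ hff).2 (mv2 hT hg hfX)))))
            _ X1 X2 Yp Ym PP hg hx1 hfX ε n ψ χ hψ hχf hν
        · have h0 : SuppIn (∅ : Set G) (0 : Matrix (Fin n) (Fin n) (MonoidAlgebra R G)) := by
            intro i j z hz
            exact absurd rfl hz
          exact mNWT R G _ X1 X2 ∅ Yp Ym PP.toPingPong ε n ψ 0 χ
            (fun i j z hz => DCMM.D2_sub PP hx1 z (hψ i j z hz)) h0
            (fun i j z hz => sub2 PP hy2 z (hχ i j z hz)) ⟨N + 1, hν⟩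
            (fun i j z hz => D2_nonflip fx (hψ i j z hz))
            (fun i j z hz => D2_nonflip fy (hχ i j z hz))
  refine ⟨hCl, fun x1 x2 hx => ⟨se_of' fun N hN => hCl N hN x1 x2 hx, se_of' fun N hN => ?_⟩⟩
  exact SGSMP.Cl_swap (hCl N hN x1 x2 hx)

end Pool.Agent.Lib.MP8a3537.AR
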