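import Pool.Agent.Lib.MP_8a3537_gt.AR.Base
import Pool.Agent.Lib.MP_8a3537_gt.LL.Main

/-!
# Classes of forms (MP_8a3537_gt, folder AR): decomposition into pieces (copy of LL/DCM, LL/CLM)
-/

set_option autoImplicit false
set_option linter.unusedSectionVars false
set_option linter.unusedSimpArgs false

namespace Pool.Agent.Lib.MP8a3537.AR

open Matrix Pool.Agent.Lib.MP8a3537.UV Pool.Agent.Lib.MP8a3537.AU Pool.Agent.Lib.MP8a3537.RO
open Pool.Agent.Lib.MP8a3537.ROK Pool.Agent.Lib.MP8a3537.LL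

/-! ## From `LL/DCM.lean` -/

open Matrix Pool.Agent.Lib.MP8a3537.UV Pool.Agent.Lib.MP8a3537.AU Pool.Agent.Lib.MP8a3537.RO
open Pool.Agent.Lib.MP8a3537.ROK

namespace DCMMP

open Pool.Agent.Lib.MP8a3537.RO.ELMAux

section Sets

variable {G : Type} [Group G] {L : Subgroup G}

theorem self_mem (x : G) : x ∈ D2 L x :=
  Or.inl ⟨1, L.one_mem, 1, L.one_mem, by rw [one_mul, mul_one]⟩

theorem bi_D2 (x : G) : Bi L (D2 L x) := by
  constructor
  · rintro h hh y (hy | hy)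
    · exact Or.inl (dc_left L x hh hy)
    · exact Or.inr (dc_left L x⁻¹ hh hy)
  · rintro h hh y (hy | hy)
    · exact Or.inl (dc_right L x hh hy)
    · exact Or.inr (dc_right L x⁻¹ hh hy)

theorem dc_inv' {x y : G} (h : y ∈ dc L x) : y⁻¹ ∈ dc L x⁻¹ := by
  obtain ⟨a, ha, b, hb, rfl⟩ := h
  exact ⟨b⁻¹, L.inv_mem hb, a⁻¹, L.inv_mem ha, by group⟩

theorem inv_D2 (x : G) : ∀ y ∈ D2 L x, y⁻¹ ∈ D2 L x := by
  rintro y (hy | hy)
  · exact Or.inr (dc_inv' hy)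
  · have := dc_inv' hy
    rw [inv_inv] at this
    exact Or.inl this

theorem D2_sub {X1 X2 Yp Ym : Set G} (P : PPK L X1 X2 ∅ Yp Ym) {x : G} (hx : x ∈ X1) :
    ∀ y ∈ D2 L x, y ∈ X1 := by
  have h : ∀ x ∈ X1, ∀ y ∈ dc L x, y ∈ X1 := by
    rintro x hx y ⟨a, ha, b, hb, rfl⟩
    exact P.X1r b hb _ (P.X1l a ha x hx)
  rintro y (hy | hy)
  · exact h x hx y hy
  · exact h _ (P.X1i x hx) y hy

theorem pt_D2 {X1 X2 Yp Ym : Set G} (P : PPK L X1 X2 ∅ Yp Ym) {x : G} (hx : x ∈ X1) :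
    Pt L X1 (D2 L x) := ⟨D2_sub P hx, bi_D2 x, inv_D2 x⟩

theorem bi_not {c : Set G} (h : Bi L c) {l y : G} (hl : l ∈ L) :
    (l * y ∈ c → y ∈ c) ∧ (y * l ∈ c → y ∈ c) := by
  constructor
  · intro hy
    have := h.1 _ (L.inv_mem hl) _ hy
    simpa using this
  · intro hy
    have := h.2 _ (L.inv_mem hl) _ hy
    simpa using this

theorem pt_c1 {X1 X2 Yp Ym : Set G} (P : PPK L X1 X2 ∅ Yp Ym) (x : G) :
    Pt L X1 {y | y ∈ X1 ∧ y ∉ D2 L x} := by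
  refine ⟨fun y hy => hy.1, ⟨fun l hl y hy => ⟨P.X1l l hl y hy.1, fun h => hy.2 ?_⟩,
    fun l hl y hy => ⟨P.X1r l hl y hy.1, fun h => hy.2 ?_⟩⟩,
    fun y hy => ⟨P.X1i y hy.1, fun h => hy.2 ?_⟩⟩
  · exact (bi_not (bi_D2 x) hl).1 h
  · exact (bi_not (bi_D2 x) hl).2 h
  · have := inv_D2 x _ h
    rwa [inv_inv] at this

/-- `D2 L y` and `D2 L x` are disjoint if `y` is not in `D2 L x`. -/
theorem D2_disj {x y z : G} (hy : y ∉ D2 L x) (hz : z ∈ D2 L y) : z ∉ D2 L x := by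
  have h1 : ∀ z ∈ dc L y, z ∉ D2 L x := by
    rintro z ⟨a, ha, b, hb, rfl⟩ h
    exact hy ((bi_not (bi_D2 x) ha).1 ((bi_not (bi_D2 x) hb).2 h))
  rcases hz with hz | hz
  · exact h1 z hz
  · intro h
    have h2 := dc_inv' hz
    rw [inv_inv] at h2
    exact h1 _ h2 (inv_D2 x z h)

end Sets

section Mat

variable {R G : Type} [Ring R] [StarRing R] [Group G]

theorem supp_sym {X : Set G} (hi : ∀ x ∈ X, x⁻¹ ∈ X) (ε : ℤˣ) {n : ℕ}
    {ψ : Matrix (Fin n) (Fin n) (MonoidAlgebra R G)} (hψ : SuppIn X ψ) :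
    SuppIn X (ψ + (ε : ℤ) • ψᴴ) := by
  intro i j x hx
  rw [Matrix.add_apply, MonoidAlgebra.coeff_add, Finsupp.add_apply] at hx
  by_cases h1 : (ψ i j).coeff x = 0
  · rw [h1, zero_add, Matrix.smul_apply, conjTranspose_apply] at hx
    have h2 : (star (ψ j i)).coeff x ≠ 0 := by
      intro h0
      apply hx
      rcases unit_cases ε (star (ψ j i)) with h | h
      · rw [h, h0]
      · rw [h, MonoidAlgebra.coeff_neg, Finsupp.neg_apply, h0, neg_zero]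
    rw [star_coeff] at h2
    have h3 : (ψ j i).coeff x⁻¹ ≠ 0 := by
      intro h0
      apply h2
      rw [h0, star_zero]
    have := hi _ (hψ j i _ h3)
    simpa using this
  · exact hψ i j x h1

/-- Restriction to a biinvariant set closed under inverses does not change the index. -/
theorem nil_cut {L : Subgroup G} {X1 X2 Yp Ym : Set G} (P : PPK L X1 X2 ∅ Yp Ym) (ε : ℤˣ)
    {n N : ℕ} (hN : 1 ≤ N) {ψ χ : Matrix (Fin n) (Fin n) (MonoidAlgebra R G)}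
    (hψ : SuppIn X1 ψ) (hχ : SuppIn X2 χ)
    (hν : (nu ε (ψ + (ε : ℤ) • ψᴴ) 0 (χ + (ε : ℤ) • χᴴ)) ^ N = 0) {c : Set G} (hc : Bi L c)
    (hi : ∀ x ∈ c, x⁻¹ ∈ c) :
    (nu ε (cutM c ψ + (ε : ℤ) • (cutM c ψ)ᴴ) 0 (χ + (ε : ℤ) • χᴴ)) ^ N = 0 := by
  have h0 : SuppIn (∅ : Set G) (0 : Matrix (Fin n) (Fin n) (MonoidAlgebra R G)) := by
    intro i j x hx
    exact absurd rfl hx
  obtain ⟨hE, hcut, hblk⟩ := mEFA R G L X1 X2 ∅ Yp Ym P.toPingPong ε n _ 0 _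
    (supp_sym P.X1i ε hψ) h0 (supp_sym P.X2i ε hχ) (herm ε ψ) (herm ε χ) N hν
  have h1 : cutM c (ψ + (ε : ℤ) • ψᴴ) = cutM c ψ + (ε : ℤ) • (cutM c ψ)ᴴ := by
    rw [cutM_add, cutM_smul, cutM_star _ hi]
  have e1 := hcut false true c hc
  rw [blk_ft, h1] at e1
  have e4 : χ + (ε : ℤ) • χᴴ ∈
      EE L (nu ε (ψ + (ε : ℤ) • ψᴴ) 0 (χ + (ε : ℤ) • χᴴ)) 1 true false := by
    have h2 := hblk true false
    rw [blk_tf] at h2
    have h3 := AddSubgroup.zsmul_mem _ h2 (ε : ℤ)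
    rwa [smul_smul_self] at h3
  exact (RO.specKNA (MonoidAlgebra R G) ε n 0 N _ hE hN _ 0 0 _ e1 (AddSubgroup.zero_mem _)
    (AddSubgroup.zero_mem _) e4).1

open Classical in
/-- The number of the nonzero coefficients. -/
noncomputable def cnt {n : ℕ} (M : Matrix (Fin n) (Fin n) (MonoidAlgebra R G)) : ℕ :=
  ∑ i, ∑ j, (M i j).coeff.support.card

theorem coeff_cut_ne {n : ℕ} {M : Matrix (Fin n) (Fin n) (MonoidAlgebra R G)} {W : Set G}
    {i j : Fin n} {x : G} (h : (cutM W M i j).coeff x ≠ 0) : x ∈ W ∧ (M i j).coeff x ≠ 0 := by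
  classical
  rw [cutM_coeff] at h
  by_cases hx : x ∈ W
  · rw [if_pos hx] at h
    exact ⟨hx, h⟩
  · rw [if_neg hx] at h
    exact absurd rfl h

theorem cnt_lt {n : ℕ} (M : Matrix (Fin n) (Fin n) (MonoidAlgebra R G)) (W : Set G)
    {i j : Fin n} {x : G} (hx : (M i j).coeff x ≠ 0) (hW : x ∉ W) : cnt (cutM W M) < cnt M := by
  have hsub : ∀ a b, (cutM W M a b).coeff.support ⊆ (M a b).coeff.support := by
    intro a b y hy
    rw [Finsupp.mem_support_iff] at hy ⊢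
    exact (coeff_cut_ne hy).2
  unfold cnt
  refine Finset.sum_lt_sum (fun a _ => Finset.sum_le_sum fun b _ => Finset.card_le_card (hsub a b))
    ⟨i, Finset.mem_univ i, Finset.sum_lt_sum (fun b _ => Finset.card_le_card (hsub i b))
      ⟨j, Finset.mem_univ j, Finset.card_lt_card
        ((Finset.ssubset_iff_of_subset (hsub i j)).mpr ⟨x, ?_, ?_⟩)⟩⟩
  · exact Finsupp.mem_support_iff.2 hx
  · intro h
    exact hW (coeff_cut_ne (Finsupp.mem_support_iff.1 h)).1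

theorem UF_zero_left [FC (MonoidAlgebra R G)] (hFML : SpecFML) (ε : ℤˣ) {n : ℕ}
    (χ : Matrix (Fin n) (Fin n) (MonoidAlgebra R G)) : SS ε (UF 0 0 χ) := by
  apply (specSwpP (MonoidAlgebra R G) ε n 0 0 χ).1
  rw [conjTranspose_zero]
  exact (hFML (MonoidAlgebra R G) ε n).2 χ

theorem swap0 (ε : ℤˣ) {n N : ℕ} {a b : Matrix (Fin n) (Fin n) (MonoidAlgebra R G)}
    (h : (nu ε a 0 b) ^ N = 0) : (nu ε b 0 a) ^ N = 0 := by
  have := INDAux.swap_zero ε a 0 b N h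
  rwa [conjTranspose_zero] at this

theorem swapUF [FC (MonoidAlgebra R G)] {ε : ℤˣ} {n : ℕ} {ψ χ : Matrix (Fin n) (Fin n) (MonoidAlgebra R G)}
    (h : SS ε (UF χ 0 ψ)) : SS ε (UF ψ 0 χ) := by
  apply (specSwpP (MonoidAlgebra R G) ε n ψ 0 χ).1
  rwa [conjTranspose_zero]

end Mat

theorem Cl_swap {R G V : Type} [Ring R] [StarRing R] [Group G] [FC (MonoidAlgebra R G)] [MulAction G V] {d : V → V → ℕ}
    {N : ℕ} {x1 x2 : V} (h : Cl R G d N x1 x2) : Cl R G d N x2 x1 := by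
  intro L X1 X2 Yp Ym P hg ε n ψ χ hψ hχ hν
  obtain ⟨-, -, s3, s4⟩ := specSYK G L X1 X2 ∅ Yp Ym
  exact swapUF (h L X2 X1 Ym Yp (s3 P) (s4 V d x2 x1 hg) ε n χ ψ hχ hψ (swap0 ε hν))

/-- (A): the decomposition of `ψ`. -/
theorem partA (hFML : SpecFML) (hLNR : SpecLNR) {R G V : Type} [Ring R] [StarRing R] [Group G]
    [FC (MonoidAlgebra R G)] [MulAction G V] {d : V → V → ℕ} (hT : TM G d) {N : ℕ} {x1 x2 : V} (hN : 1 ≤ N)
    (hCl : 3 ≤ N → Cl R G d (N - 1) x1 x2) {L : Subgroup G} {X1 X2 Yp Ym : Set G}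
    (P : PPK L X1 X2 ∅ Yp Ym) (hg : Geo d L X1 X2 ∅ x1 x2) (ε : ℤˣ) {n : ℕ}
    (χ : Matrix (Fin n) (Fin n) (MonoidAlgebra R G)) (hχ : SuppIn X2 χ) (m : ℕ) :
    ∀ ψ : Matrix (Fin n) (Fin n) (MonoidAlgebra R G), SuppIn X1 ψ → cnt ψ = m →
    (nu ε (ψ + (ε : ℤ) • ψᴴ) 0 (χ + (ε : ℤ) • χᴴ)) ^ N = 0 →
    (∀ i j x, (ψ i j).coeff x ≠ 0 → SS ε (UF (cutM (D2 L x) ψ) 0 χ)) →
    SS ε (UF ψ 0 χ) := by
  induction m using Nat.strong_induction_on with
  | _ m ih =>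
    intro ψ hψ hm hν hp
    by_cases h0 : ∀ i j x, (ψ i j).coeff x = 0
    · have h1 : ψ = 0 := mat_ext fun i j x => h0 i j x
      rw [h1]
      exact UF_zero_left hFML ε χ
    · push Not at h0
      obtain ⟨i, j, x, hx⟩ := h0
      have hxX : x ∈ X1 := hψ i j x hx
      have p1 := pt_c1 P x
      have p2 := pt_D2 P hxX
      have hs1 : SuppIn {y | y ∈ X1 ∧ y ∉ D2 L x} (cutM {y | y ∈ X1 ∧ y ∉ D2 L x} ψ) :=
        fun i j y hy => (coeff_cut_ne hy).1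
      have hs2 : SuppIn (D2 L x) (cutM (D2 L x) ψ) := fun i j y hy => (coeff_cut_ne hy).1
      have hsum : cutM {y | y ∈ X1 ∧ y ∉ D2 L x} ψ + cutM (D2 L x) ψ = ψ := by
        classical
        refine mat_ext fun i j y => ?_
        rw [Matrix.add_apply, MonoidAlgebra.coeff_add, Finsupp.add_apply, cutM_coeff, cutM_coeff]
        by_cases h1 : (ψ i j).coeff y = 0
        · rw [h1, ite_self, ite_self, add_zero]
        · have h2 : y ∈ X1 := hψ i j y h1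
          by_cases h3 : y ∈ D2 L x
          · rw [if_pos h3, if_neg (fun h => h.2 h3), zero_add]
          · rw [if_neg h3, if_pos ⟨h2, h3⟩, add_zero]
      have hν1 := nil_cut P ε hN hψ hχ hν p1.bi p1.inv
      have h1 : SS ε (UF (cutM {y | y ∈ X1 ∧ y ∉ D2 L x} ψ) 0 χ) := by
        refine ih (cnt (cutM {y | y ∈ X1 ∧ y ∉ D2 L x} ψ)) ?_ _ (fun i j y hy => (hs1 i j y hy).1)
          rfl hν1 ?_
        · rw [← hm]
          exact cnt_lt ψ _ hx fun h => h.2 (self_mem x)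
        · intro i' j' y hy
          obtain ⟨h2, h3⟩ := coeff_cut_ne hy
          have h4 : cutM (D2 L y) (cutM {y | y ∈ X1 ∧ y ∉ D2 L x} ψ) = cutM (D2 L y) ψ := by
            classical
            refine mat_ext fun i j z => ?_
            rw [cutM_coeff, cutM_coeff, cutM_coeff]
            by_cases h5 : z ∈ D2 L y
            · rw [if_pos h5, if_pos h5]
              by_cases h6 : (ψ i j).coeff z = 0
              · rw [h6, ite_self]
              · rw [if_pos ⟨hψ i j z h6, D2_disj h2.2 h5⟩]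
            · rw [if_neg h5, if_neg h5]
          rw [h4]
          exact hp i' j' y h3
      have h2 := hLNR R G V d hT N x1 x2 hN hCl L X1 X2 Yp Ym P hg _ _ p1 p2 (fun y hy => hy.2) ε n
        _ _ χ hs1 hs2 hχ (by rw [hsum]; exact hν) h1 (hp i j x hx)
      rwa [hsum] at h2

end DCMMP

open DCMMP in
/-- **DCM**: the decomposition into pieces. -/
theorem specDCM (hFML : SpecFML) (hLNR : SpecLNR) : SpecDCM := by
  intro R G V _ _ _ _ _ d hT N x1 x2 hN hCl L X1 X2 Yp Ym P hg hpc ε n ψ χ hψ hχ hν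
  obtain ⟨-, -, s3, s4⟩ := specSYK G L X1 X2 ∅ Yp Ym
  have P' := s3 P
  have hg' := s4 V d x1 x2 hg
  refine partA hFML hLNR hT hN hCl P hg ε χ hχ _ ψ hψ rfl hν fun i j x hx => ?_
  have hxX : x ∈ X1 := hψ i j x hx
  have p2 := pt_D2 P hxX
  have hν1 := nil_cut P ε hN hψ hχ hν p2.bi p2.inv
  have hs1 : SuppIn (D2 L x) (cutM (D2 L x) ψ) := fun i j y hy => (RO.ELMAux.supp_cutM X1 _ ψ hψ i j y hy).2
  have hs2 : SuppIn X1 (cutM (D2 L x) ψ) := fun i j y hy => p2.sub y (hs1 i j y hy)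
  apply swapUF
  refine partA hFML hLNR hT hN (fun h => Cl_swap (hCl h)) P' hg' ε _ hs2 _ χ hχ rfl
    (swap0 ε hν1) fun i' j' y hy => ?_
  have hyX : y ∈ X2 := hχ i' j' y hy
  have p3 := pt_D2 P' hyX
  have hν2 := nil_cut P' ε hN hχ hs2 (swap0 ε hν1) p3.bi p3.inv
  apply swapUF
  exact hpc x hxX y hyX ε n _ _ hs1
    (fun i j z hz => (RO.ELMAux.supp_cutM X2 _ χ hχ i j z hz).2) (swap0 ε hν2)


/-! ## From `LL/CLM.lean` -/

open Matrix Pool.Agent.Lib.MP8a3537.UV Pool.Agent.Lib.MP8a3537.AU Pool.Agent.Lib.MP8a3537.RO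
open Pool.Agent.Lib.MP8a3537.ROK

/-- **CLM**: the claim for all indices, and `SE`. -/
theorem specCLM (hDCM : SpecDCM) (hSGS : SpecSGS) : SpecCLM := by
  intro R G V _ _ _ _ _ d hT x1 x2 h12 h21 hs
  have hCl : ∀ N, 1 ≤ N → Cl R G d N x1 x2 := by
    intro N
    induction N with
    | zero => intro h; omega
    | succ N ih =>
      intro hN L X1 X2 Yp Ym P hg ε n ψ χ hψ hχ hν
      have hc : 3 ≤ N + 1 → Cl R G d (N + 1 - 1) x1 x2 := fun h => by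
        rw [Nat.add_sub_cancel]
        exact ih (by omega)
      exact hDCM R G V d hT (N + 1) x1 x2 hN hc L X1 X2 Yp Ym P hg
        (hSGS R G V d hT (N + 1) x1 x2 hN hc h12 h21 hs L X1 X2 Yp Ym P hg)
        ε n ψ χ hψ hχ hν
  refine ⟨hCl, ?_⟩
  intro L g Xb Yp Ym P hg _ _ ε n ψ χ hψ hχ hν
  obtain ⟨N, hN⟩ := hν
  refine hCl (N + 1) (by omega) L (La L g) Xb Yp Ym P hg ε n ψ χ hψ hχ ?_
  rw [pow_succ, hN, zero_mul]


end Pool.Agent.Lib.MP8a3537.AR
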