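import Pool.Agent.Lib.MP_8a3537_gt.AR.Base
import Pool.Agent.Lib.MP_8a3537_gt.LL.Main

/-!
# Classes of forms (MP_8a3537_gt, folder AR): the formula, additivity (copy of LL/FML, LL/LNR)
-/

set_option autoImplicit false
set_option linter.unusedSectionVars false
set_option linter.unusedSimpArgs false

namespace Pool.Agent.Lib.MP8a3537.AR

open Matrix Pool.Agent.Lib.MP8a3537.UV Pool.Agent.Lib.MP8a3537.AU Pool.Agent.Lib.MP8a3537.RO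
open Pool.Agent.Lib.MP8a3537.ROK Pool.Agent.Lib.MP8a3537.LL

/-! ## From `LL/FML.lean` -/

open Matrix Pool.Agent.Lib.MP8a3537.UV Pool.Agent.Lib.MP8a3537.AU Pool.Agent.Lib.MP8a3537.RO
open Pool.Agent.Lib.MP8a3537.ROK

namespace FMLMP

section

variable {A : Type} [Ring A] {n : ℕ}

theorem esq (ε : ℤˣ) {m k : Type} (X : Matrix m k A) : (ε : ℤ) • (ε : ℤ) • X = X := by
  rcases Int.units_eq_one_or ε with h | h <;> simp [h]

theorem star_smul' [StarRing A] (ε : ℤˣ) {m k : Type} (X : Matrix m k A) :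
    ((ε : ℤ) • X)ᴴ = (ε : ℤ) • Xᴴ := by
  rcases Int.units_eq_one_or ε with h | h <;> simp [h]

theorem Tn_inv (ε : ℤˣ) (N : ℕ) (a b : Matrix (Fin n) (Fin n) A)
    (h : ((ε : ℤ) • (a * b)) ^ N = 0) :
    Tn ε N a b * (1 - (ε : ℤ) • (a * b)) = 1 ∧ (1 - (ε : ℤ) • (a * b)) * Tn ε N a b = 1 := by
  have h1 := geom_sum_mul_neg ((ε : ℤ) • (a * b)) N
  have h2 := mul_neg_geom_sum ((ε : ℤ) • (a * b)) N
  rw [h, sub_zero] at h1 h2
  exact ⟨h1, h2⟩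

theorem pow_comm (ε : ℤˣ) (a b : Matrix (Fin n) (Fin n) A) (i : ℕ) :
    ((ε : ℤ) • (b * a)) ^ i * b = b * ((ε : ℤ) • (a * b)) ^ i := by
  induction i with
  | zero => simp
  | succ i ih =>
    have h : ((ε : ℤ) • (b * a)) * b = b * ((ε : ℤ) • (a * b)) := by
      rw [Matrix.smul_mul, Matrix.mul_smul, Matrix.mul_assoc]
    rw [pow_succ, Matrix.mul_assoc, h, ← Matrix.mul_assoc, ih, Matrix.mul_assoc, ← pow_succ]

theorem Tn_comm (ε : ℤˣ) (N : ℕ) (a b : Matrix (Fin n) (Fin n) A) :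
    Tn ε N b a * b = b * Tn ε N a b := by
  unfold Tn
  rw [Finset.sum_mul, Finset.mul_sum]
  exact Finset.sum_congr rfl fun i _ => pow_comm ε a b i

theorem Tn_star [StarRing A] (ε : ℤˣ) (N : ℕ) (a b : Matrix (Fin n) (Fin n) A)
    (ha : aᴴ = (ε : ℤ) • a) (hb : bᴴ = (ε : ℤ) • b) : (Tn ε N a b)ᴴ = Tn ε N b a := by
  unfold Tn
  rw [conjTranspose_sum]
  refine Finset.sum_congr rfl fun i _ => ?_
  rw [conjTranspose_pow, star_smul', conjTranspose_mul, ha, hb, Matrix.smul_mul, Matrix.mul_smul,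
    esq]

theorem nu_pow [StarRing A] (ε : ℤˣ) (a b : Matrix (Fin n) (Fin n) A) (k : ℕ) :
    ((nu ε a 0 b) ^ 2) ^ k =
      fromBlocks (((ε : ℤ) • (b * a)) ^ k) 0 0 (((ε : ℤ) • (a * b)) ^ k) := by
  have h2 : (nu ε a 0 b) ^ 2 = fromBlocks ((ε : ℤ) • (b * a)) 0 0 ((ε : ℤ) • (a * b)) := by
    unfold nu
    rw [pow_two, fromBlocks_multiply]
    rcases Int.units_eq_one_or ε with h | h <;> simp [h]
  induction k with
  | zero => simp [fromBlocks_one]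
  | succ k ih =>
    rw [pow_succ, ih, h2, fromBlocks_multiply, pow_succ, pow_succ]
    simp

theorem pow_zero_of_nu [StarRing A] (ε : ℤˣ) (N : ℕ) (a b : Matrix (Fin n) (Fin n) A)
    (h : (nu ε a 0 b) ^ N = 0) :
    ((ε : ℤ) • (a * b)) ^ N = 0 ∧ ((ε : ℤ) • (b * a)) ^ N = 0 := by
  have h1 : ((nu ε a 0 b) ^ 2) ^ N = 0 := by
    rw [← pow_mul, mul_comm, pow_mul, h]
    exact zero_pow two_ne_zero
  rw [nu_pow, ← fromBlocks_zero, fromBlocks_inj] at h1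
  exact ⟨h1.2.2.2, h1.1⟩

/-- The second part. -/
theorem half [StarRing A] [FC A] (ε : ℤˣ) (σ : Matrix (Fin n) (Fin n) A) :
    SS ε (UF σ 0 0) := by
  refine SWPP.stab_of_isom (Φ := UF 0 0 0) ?_ (SWPP.trivial_form n)
  refine ⟨fromBlocks 1 0 (-σ) 1, fromBlocks 1 0 σ 1, 0, ?_, ?_, ?_⟩
  · rw [fromBlocks_multiply]
    simp [fromBlocks_one]
  · rw [fromBlocks_multiply]
    simp [fromBlocks_one]
  · unfold UF
    rw [fromBlocks_conjTranspose, fromBlocks_multiply, fromBlocks_multiply]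
    simp

end

end FMLMP

open FMLMP in
theorem specFML : SpecFML := by
  intro A _ _ _ ε n
  refine ⟨?_, fun σ => half ε σ⟩
  intro N ψ1 ψ2 χ hν h1 h2
  set a := ψ1 + (ε : ℤ) • ψ1ᴴ with ha
  set b := χ + (ε : ℤ) • χᴴ with hb
  have hae : aᴴ = (ε : ℤ) • a := by
    rw [ha, conjTranspose_add, star_smul', conjTranspose_conjTranspose, smul_add, esq, add_comm]
  have hbe : bᴴ = (ε : ℤ) • b := by
    rw [hb, conjTranspose_add, star_smul', conjTranspose_conjTranspose, smul_add, esq, add_comm]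
  obtain ⟨hab, hba⟩ := pow_zero_of_nu ε N a b hν
  set T := Tn ε N a b with hT
  set T' := Tn ε N b a with hT'
  obtain ⟨hT1, hT2⟩ := Tn_inv ε N a b hab
  obtain ⟨hT'1, hT'2⟩ := Tn_inv ε N b a hba
  rw [← hT] at hT1 hT2
  rw [← hT'] at hT'1 hT'2
  have hTs : Tᴴ = T' := Tn_star ε N a b hae hbe
  have hc1 : T' * b = b * T := Tn_comm ε N a b
  have hc2 : T * a = a * T' := Tn_comm ε N b a
  have hT2e : (ε : ℤ) • (a * (b * T)) = T - 1 := by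
    rw [Matrix.sub_mul, Matrix.one_mul, Matrix.smul_mul, Matrix.mul_assoc] at hT2
    rw [← hT2]; abel
  have hT1e : (ε : ℤ) • (T * (a * b)) = T - 1 := by
    rw [Matrix.mul_sub, Matrix.mul_one, Matrix.mul_smul] at hT1
    rw [← hT1]; abel
  have hT'2e : (ε : ℤ) • (b * (a * T')) = T' - 1 := by
    rw [Matrix.sub_mul, Matrix.one_mul, Matrix.smul_mul, Matrix.mul_assoc] at hT'2
    rw [← hT'2]; abel
  have hT'1e : (ε : ℤ) • (T' * (b * a)) = T' - 1 := by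
    rw [Matrix.mul_sub, Matrix.mul_one, Matrix.mul_smul] at hT'1
    rw [← hT'1]; abel
  have hΛ : UF ψ1 0 χ + (ε : ℤ) • (UF ψ1 0 χ)ᴴ = fromBlocks a 1 ((ε : ℤ) • 1) b := by
    unfold UF
    rw [fromBlocks_conjTranspose, fromBlocks_smul, fromBlocks_add]
    simp [ha, hb]
  set Φi : Matrix (Fin n ⊕ Fin n) (Fin n ⊕ Fin n) A :=
    fromBlocks (-((ε : ℤ) • (b * T))) ((ε : ℤ) • T') T (-((ε : ℤ) • (a * T'))) with hΦi
  have hΦ1 : (UF ψ1 0 χ + (ε : ℤ) • (UF ψ1 0 χ)ᴴ) * Φi = 1 := by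
    rw [hΛ, hΦi, fromBlocks_multiply, ← fromBlocks_one]
    congr 1
    · rw [Matrix.mul_neg, Matrix.mul_smul, hT2e, Matrix.one_mul]; abel
    · rw [Matrix.mul_smul, Matrix.one_mul]; abel
    · rw [Matrix.smul_mul, Matrix.one_mul, smul_neg, esq]; abel
    · rw [Matrix.smul_mul, Matrix.one_mul, esq, Matrix.mul_neg, Matrix.mul_smul, hT'2e]; abel
  have hΦ2 : Φi * (UF ψ1 0 χ + (ε : ℤ) • (UF ψ1 0 χ)ᴴ) = 1 := by
    rw [hΛ, hΦi, fromBlocks_multiply, ← fromBlocks_one]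
    congr 1
    · rw [Matrix.neg_mul, Matrix.smul_mul, ← hc1, Matrix.mul_assoc, hT'1e, Matrix.mul_smul,
        Matrix.mul_one, esq]; abel
    · rw [Matrix.mul_one, Matrix.smul_mul, hc1]; abel
    · rw [Matrix.mul_smul, Matrix.mul_one, smul_neg, esq, hc2]; abel
    · rw [Matrix.mul_one, Matrix.neg_mul, Matrix.smul_mul, ← hc2, Matrix.mul_assoc, hT1e]; abel
  let Ξ : Matrix (Fin n) (Fin n ⊕ Fin n) A := fromCols 1 0
  have hΞ : Ξᴴ = fromRows 1 0 := by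
    change (fromCols 1 0)ᴴ = _
    rw [conjTranspose_fromCols_eq_fromRows_conjTranspose, conjTranspose_zero, conjTranspose_one]
  have hZ : Φi * Ξᴴ = fromRows (-((ε : ℤ) • (b * T))) T := by
    rw [hΞ, hΦi, fromBlocks_mul_fromRows]
    simp
  have hz1 : (-((ε : ℤ) • (b * T)))ᴴ = -(T' * b) := by
    rw [conjTranspose_neg, star_smul', conjTranspose_mul, hTs, hbe, Matrix.mul_smul, esq]
  have hκ : -((Φi * Ξᴴ)ᴴ * UF ψ1 0 χ * (Φi * Ξᴴ)) =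
      χ + rho ε N ψ1 χ + (ε : ℤ) • χᴴ - (ε : ℤ) • ((ε : ℤ) • χᴴ)ᴴ := by
    rw [hZ]
    unfold UF
    rw [EMVAux.rows_form, hz1, hTs, star_smul', conjTranspose_conjTranspose, esq]
    unfold rho
    rw [← ha, ← hb, ← hT, ← hT']
    have e1 : -(T' * b) * ψ1 * -((ε : ℤ) • (b * T)) = (ε : ℤ) • (T' * b * ψ1 * b * T) := by
      rw [Matrix.mul_neg, Matrix.neg_mul, Matrix.neg_mul, neg_neg, Matrix.mul_smul]
      simp only [Matrix.mul_assoc]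
    have e2 : (ε : ℤ) • (T' * χᴴ * T) = T' * b * T - T' * χ * T := by
      rw [hb, Matrix.mul_add, Matrix.add_mul, Matrix.mul_smul, Matrix.smul_mul]
      abel
    have e3 : -(T' * b) * (1 + (0 : Matrix (Fin n) (Fin n) A)ᴴ) * T = -(T' * b * T) := by
      simp
    rw [e1, e3, smul_sub, e2]
    simp
    abel
  have h3 := (specSwpP A ε n ψ2 0 (χ + rho ε N ψ1 χ)).2.1 0 ((ε : ℤ) • χᴴ) h2
  have h4 := specSCH A ε (Fin n ⊕ Fin n) (Fin n) (UF ψ1 0 χ) Φi Ξ ψ2 hΦ1 hΦ2 h1 (by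
    rw [hκ]
    have h5 : UF (ψ2 + 0 - (ε : ℤ) • (0 : Matrix (Fin n) (Fin n) A)ᴴ) 0
        (χ + rho ε N ψ1 χ + (ε : ℤ) • χᴴ - (ε : ℤ) • ((ε : ℤ) • χᴴ)ᴴ) =
        fromBlocks ψ2 1 0
          (χ + rho ε N ψ1 χ + (ε : ℤ) • χᴴ - (ε : ℤ) • ((ε : ℤ) • χᴴ)ᴴ) := by
      unfold UF
      simp
    rw [← h5]
    exact h3)
  have h7 : UF ψ1 0 χ + Ξᴴ * ψ2 * Ξ = UF (ψ1 + ψ2) 0 χ := by
    rw [hΞ]
    change UF ψ1 0 χ + fromRows 1 0 * ψ2 * fromCols 1 0 = _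
    rw [fromRows_mul, fromRows_mul_fromCols]
    unfold UF
    rw [fromBlocks_add]
    simp
  rw [h7] at h4
  exact h4


/-! ## From `LL/LNR.lean` -/

open Matrix Pool.Agent.Lib.MP8a3537.UV Pool.Agent.Lib.MP8a3537.AU Pool.Agent.Lib.MP8a3537.RO
open Pool.Agent.Lib.MP8a3537.ROK

namespace LNRMP

section

variable {A : Type} [Ring A] [StarRing A] [FC A] {n : ℕ}

/-- Exchange. -/
theorem swap (ε : ℤˣ) (ψ χ : Matrix (Fin n) (Fin n) A) (h : SS ε (UF χ 0 ψ)) :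
    SS ε (UF ψ 0 χ) := by
  refine (specSwpP A ε n ψ 0 χ).1 ?_
  rw [conjTranspose_zero]
  exact h

end

section

variable {R G : Type} [Ring R] [StarRing R] [Group G] {n : ℕ}

theorem supp_pol (ε : ℤˣ) {c : Set G} (hi : ∀ x ∈ c, x⁻¹ ∈ c)
    {ψ : Matrix (Fin n) (Fin n) (MonoidAlgebra R G)} (hψ : SuppIn c ψ) :
    SuppIn c (ψ + (ε : ℤ) • ψᴴ) := by
  intro i j x h
  rw [NWTAux.coeff_sym] at h
  by_cases h1 : (ψ i j).coeff x = 0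
  · have h2 : (ψ j i).coeff x⁻¹ ≠ 0 := by
      intro h2
      apply h
      rw [h1, h2, star_zero, smul_zero, add_zero]
    have h3 := hi _ (hψ j i x⁻¹ h2)
    rwa [inv_inv] at h3
  · exact hψ i j x h1

theorem supp_mono {c X : Set G} (h : ∀ x ∈ c, x ∈ X)
    {ψ : Matrix (Fin n) (Fin n) (MonoidAlgebra R G)} (hψ : SuppIn c ψ) : SuppIn X ψ :=
  fun i j x hx => h x (hψ i j x hx)

theorem supp_add {X : Set G} {ψ ψ' : Matrix (Fin n) (Fin n) (MonoidAlgebra R G)}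
    (hψ : SuppIn X ψ) (hψ' : SuppIn X ψ') : SuppIn X (ψ + ψ') := by
  intro i j x h
  by_cases h1 : (ψ i j).coeff x = 0
  · refine hψ' i j x fun h2 => h ?_
    rw [Matrix.add_apply, MonoidAlgebra.coeff_add, Finsupp.add_apply, h1, h2, add_zero]
  · exact hψ i j x h1

/-- The part of a sum of two matrices with disjoint supports. -/
theorem cut_part {c c' : Set G} {a a' : Matrix (Fin n) (Fin n) (MonoidAlgebra R G)}
    (ha : SuppIn c a) (ha' : SuppIn c' a') (h : ∀ x ∈ c, x ∉ c') : cutM c (a + a') = a := by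
  classical
  refine Matrix.ext fun i j => ?_
  ext x
  have e : (cutM c (a + a') i j).coeff x = (cut c ((a + a') i j)).coeff x := rfl
  rw [e, cut_coeff, Matrix.add_apply, MonoidAlgebra.coeff_add, Finsupp.add_apply]
  by_cases hx : x ∈ c
  · have h1 : (a' i j).coeff x = 0 := by
      by_contra h2
      exact h x hx (ha' i j x h2)
    rw [if_pos hx, h1, add_zero]
  · rw [if_neg hx]
    by_contra h2
    exact hx (ha i j x (Ne.symm h2))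

end

end LNRMP

open LNRMP in
theorem specLNR (hFML : SpecFML) (hFMR : SpecFMR) (hSPR : SpecSPR) (hDWP : SpecDWP)
    (hDWG : SpecDWG) : SpecLNR := by
  intro R G V _ _ _ _ _ d hTM N x1 x2 hN hCl L X1 X2 Yp Ym hP hGeo c1 c2 hc1 hc2 hdis ε n ψ1 ψ2 χ
    hψ1 hψ2 hχ hnil hs1 hs2
  have hεε : (ε : ℤ) * (ε : ℤ) = 1 := by
    rcases Int.units_eq_one_or ε with h | h <;> simp [h]
  -- the parts
  have ha1 : SuppIn c1 (ψ1 + (ε : ℤ) • ψ1ᴴ) := supp_pol ε hc1.inv hψ1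
  have ha2 : SuppIn c2 (ψ2 + (ε : ℤ) • ψ2ᴴ) := supp_pol ε hc2.inv hψ2
  have hb : SuppIn X2 (χ + (ε : ℤ) • χᴴ) := supp_pol ε hP.X2i hχ
  have hsum : ψ1 + ψ2 + (ε : ℤ) • (ψ1 + ψ2)ᴴ =
      (ψ1 + (ε : ℤ) • ψ1ᴴ) + (ψ2 + (ε : ℤ) • ψ2ᴴ) := by
    rw [conjTranspose_add, smul_add]
    abel
  have ha : SuppIn X1 (ψ1 + ψ2 + (ε : ℤ) • (ψ1 + ψ2)ᴴ) := by
    rw [hsum]
    exact supp_add (supp_mono hc1.sub ha1) (supp_mono hc2.sub ha2)
  have h03 : SuppIn (∅ : Set G) (0 : Matrix (Fin n) (Fin n) (MonoidAlgebra R G)) := by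
    intro i j x h
    exact absurd rfl h
  obtain ⟨hE, hlet, hblk⟩ := mEFA R G L X1 X2 ∅ Yp Ym hP.toPingPong ε n
    (ψ1 + ψ2 + (ε : ℤ) • (ψ1 + ψ2)ᴴ) 0 (χ + (ε : ℤ) • χᴴ) ha h03 hb (NWTAux.sym_symm ε _)
    (NWTAux.sym_symm ε χ) N hnil
  generalize hEE : EE L (nu ε (ψ1 + ψ2 + (ε : ℤ) • (ψ1 + ψ2)ᴴ) 0 (χ + (ε : ℤ) • χᴴ)) = E
    at hE hlet hblk
  have hE1 : ψ1 + (ε : ℤ) • ψ1ᴴ ∈ E 1 false true := by
    have h : cutM c1 (ψ1 + ψ2 + (ε : ℤ) • (ψ1 + ψ2)ᴴ) ∈ E 1 false true :=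
      hlet false true c1 hc1.bi
    rwa [hsum, cut_part ha1 ha2 hdis] at h
  have hE2 : ψ2 + (ε : ℤ) • ψ2ᴴ ∈ E 1 false true := by
    have h : cutM c2 (ψ1 + ψ2 + (ε : ℤ) • (ψ1 + ψ2)ᴴ) ∈ E 1 false true :=
      hlet false true c2 hc2.bi
    rwa [hsum, add_comm (ψ1 + (ε : ℤ) • ψ1ᴴ), cut_part ha2 ha1 fun x hx hx' => hdis x hx' hx]
      at h
  have hEb : χ + (ε : ℤ) • χᴴ ∈ E 1 true false := by
    have h : (ε : ℤ) • (χ + (ε : ℤ) • χᴴ) ∈ E 1 true false := hblk true false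
    have h5 := AddSubgroup.zsmul_mem _ h (ε : ℤ)
    rwa [smul_smul, hεε, one_smul] at h5
  have hE0 : (0 : Matrix (Fin n) (Fin n) (MonoidAlgebra R G)) ∈ E 1 true true :=
    AddSubgroup.zero_mem _
  -- nilpotency
  have hn1 : (nu ε (ψ1 + (ε : ℤ) • ψ1ᴴ) 0 (χ + (ε : ℤ) • χᴴ)) ^ N = 0 :=
    (RO.specKNA (MonoidAlgebra R G) ε n n N E hE hN _ _ 0 _ hE1 hE2 hE0 hEb).1
  have hn2 : (nu ε (ψ2 + (ε : ℤ) • ψ2ᴴ) 0 (χ + (ε : ℤ) • χᴴ)) ^ N = 0 :=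
    (RO.specKNA (MonoidAlgebra R G) ε n n N E hE hN _ _ 0 _ hE2 hE1 hE0 hEb).1
  have hn3 : (nu ε (χ + (ε : ℤ) • χᴴ) 0 (ψ2 + (ε : ℤ) • ψ2ᴴ)) ^ N = 0 := by
    have h := INDAux.swap_zero ε _ _ _ N hn2
    rwa [conjTranspose_zero] at h
  -- the two eliminations
  obtain ⟨hF1, hF2⟩ := hFML (MonoidAlgebra R G) ε n
  refine hF1 N ψ1 ψ2 χ hn1 hs1 (swap ε _ _ (hF1 N χ (rho ε N ψ1 χ) ψ2 hn3 (swap ε _ _ hs2)
    (swap ε _ _ ?_)))
  -- the polarizations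
  obtain ⟨hR1, hR2⟩ := hFMR (MonoidAlgebra R G) ε n N
  obtain ⟨hR3, hR4⟩ := hR2 E hE hN
  have hr : rho ε N ψ1 χ + (ε : ℤ) • (rho ε N ψ1 χ)ᴴ ∈ E 3 true false := by
    rw [hR1 ψ1 χ hn1]
    exact hR3 true _ hE1 _ hEb
  have hs : (ψ2 + rho ε N χ ψ2) + (ε : ℤ) • (ψ2 + rho ε N χ ψ2)ᴴ ∈ E 1 false true := by
    have h1 : rho ε N χ ψ2 + (ε : ℤ) • (rho ε N χ ψ2)ᴴ ∈ E 1 false true := by
      rw [hR1 χ ψ2 hn3]
      exact hE.mono 1 3 false true (by omega) (hR3 false _ hEb _ hE2)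
    have h2 := AddSubgroup.add_mem _ hE2 h1
    have e : (ψ2 + rho ε N χ ψ2) + (ε : ℤ) • (ψ2 + rho ε N χ ψ2)ᴴ =
        ψ2 + (ε : ℤ) • ψ2ᴴ + (rho ε N χ ψ2 + (ε : ℤ) • (rho ε N χ ψ2)ᴴ) := by
      rw [conjTranspose_add, smul_add]
      abel
    rw [e]
    exact h2
  -- supports
  have hS1 : SuppIn (V3 L c1 X2) (rho ε N ψ1 χ) :=
    (hSPR R G L X1 X2 Yp Ym c1 hP hc1 ε n N hN ψ1 χ hψ1 hχ).1
  have hS2 : SuppIn (V1 L c2 X2) (ψ2 + rho ε N χ ψ2) :=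
    (hSPR R G L X1 X2 Yp Ym c2 hP hc2 ε n N hN ψ2 χ hψ2 hχ).2
  have hPd := (hDWP G L X1 X2 Yp Ym hP).1 c1 c2 hc1 hc2 hdis
  have hGd := (hDWG G V d hTM L X1 X2 x1 x2 hGeo).1 c1 c2 hc1 hc2
  by_cases h3 : 3 ≤ N
  · exact hCl h3 L _ _ _ _ hPd hGd ε n _ _ hS2 hS1 (hR4 h3 _ hs _ hr)
  · have hr0 : rho ε N ψ1 χ + (ε : ℤ) • (rho ε N ψ1 χ)ᴴ = 0 :=
      hE.zero true false _ (hE.mono N 3 true false (by omega) hr)
    have hr1 : rho ε N ψ1 χ = ((-ε : ℤˣ) : ℤ) • (rho ε N ψ1 χ)ᴴ := by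
      rw [Units.val_neg, neg_smul]
      exact eq_neg_of_add_eq_zero_left hr0
    obtain ⟨c0, -, hc0⟩ := specTat R G (V3 L c1 X2) (-ε) n _ hPd.X2i hPd.X2n hS1 hr1
    have h5 := (specSwpP (MonoidAlgebra R G) ε n (ψ2 + rho ε N χ ψ2) 0 0).2.1 0 c0
      (hF2 (ψ2 + rho ε N χ ψ2))
    rw [Units.val_neg, neg_smul, ← sub_eq_add_neg] at hc0
    rw [add_zero, conjTranspose_zero, smul_zero, sub_zero, zero_add, ← hc0] at h5
    exact h5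


end Pool.Agent.Lib.MP8a3537.AR
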