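import Pool.Agent.Lib.MP_8a3537_gt.AR.GEN
import Pool.Agent.Lib.MP_8a3537_gt.AR.Lines

/-!
# Decomposition into line forms (MP_8a3537_gt, folder AR, helper73)

`fcGen P`: the class of forms which is generated by the forms `UF ψ 0 χ` with `P ε n ψ χ`. `LineP`: the
nilpotent forms `UF ψ 0 χ` whose entries are supported in `K g`, `K f`, for the lines `(K, g, f)` of a tree
which contain a given edge. `dec`: every nilpotent form plus a hyperbolic form is isometric to an orthogonal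
sum of hyperbolic forms and line forms.
-/

set_option autoImplicit false
set_option linter.unusedSectionVars false

namespace Pool.Agent.Lib.MP8a3537.AR

open Matrix Pool.Agent.Lib.MP8a3537.UV Pool.Agent.Lib.MP8a3537.AU Pool.Agent.Lib.MP8a3537.RO
open Pool.Agent.Lib.MP8a3537.ROK
open Pool.Agent.Lib.MP8a3537.LL (Ns)

/-- The class of forms which is generated by the forms `UF ψ 0 χ` with `P ε n ψ χ`. -/
@[reducible] def fcGen (A : Type) [Ring A] [StarRing A]
    (P : ℤˣ → ∀ n : ℕ, Matrix (Fin n) (Fin n) A → Matrix (Fin n) (Fin n) A → Prop) : FC A where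
  S := fun ε _ _ _ Ψ => SGen (P ε) ε Ψ
  iso := fun h h' => sgen_iso h h'
  hyp := fun _ n => sgen_hyp n
  sum := fun h h' => sgen_sum h h'
  destab := fun n h => sgen_destab n h

/-- The line forms: `g` exchanges `x` and `y`, the path from `x` to `y` passes through `v`, `w`,
`K = G_x ∩ G_y`, `f` normalizes `K`, `f² ∈ K`, `x ≠ f y` is between `y` and `f y`, there is no element of
order two in `K g`, `K f`, and `ψ`, `χ` are supported in `K g`, `K f`. -/
def LineP (R G : Type) {V : Type} [Ring R] [StarRing R] [Group G] [MulAction G V] (d : V → V → ℕ)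
    (v w : V) (Q : Subgroup G → Prop) (ε : ℤˣ) (n : ℕ)
    (ψ χ : Matrix (Fin n) (Fin n) (MonoidAlgebra R G)) : Prop :=
  ∃ (x y : V) (g f : G), d x y = d x v + 1 + d w y ∧ g • x = y ∧ g • y = x ∧
    Ns (MulAction.stabilizer G x ⊓ MulAction.stabilizer G y) f ∧
    f * f ∈ MulAction.stabilizer G x ⊓ MulAction.stabilizer G y ∧
    d y (f • y) = d y x + d x (f • y) ∧ f • y ≠ x ∧
    (∀ h ∈ MulAction.stabilizer G x ⊓ MulAction.stabilizer G y,
      h * g * (h * g) ≠ 1 ∧ h * f * (h * f) ≠ 1) ∧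
    ¬ Q (MulAction.stabilizer G x ⊓ MulAction.stabilizer G y) ∧
    SuppIn (La (MulAction.stabilizer G x ⊓ MulAction.stabilizer G y) g) ψ ∧
    SuppIn (La (MulAction.stabilizer G x ⊓ MulAction.stabilizer G y) f) χ ∧
    IsNilpotent (nu ε (ψ + (ε : ℤ) • ψᴴ) 0 (χ + (ε : ℤ) • χᴴ))

/-- **The decomposition theorem.** -/
theorem dec (R G V : Type) [Ring R] [StarRing R] [Group G] [MulAction G V]
    (Q : Subgroup G → Prop) (T : SimpleGraph V) (v w : V)
    (hQ : ∀ x y : V, Q (MulAction.stabilizer G x ⊓ MulAction.stabilizer G y) →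
      ROK.SE R G T.dist x y)
    (hT : T.IsTree) (hact : ∀ (g : G) (x y : V), T.Adj x y → T.Adj (g • x) (g • y))
    (hvw : T.Adj v w) (hinv : ∀ g : G, ¬ (g • v = w ∧ g • w = v))
    (htwo : ∀ g : G, g * g = 1 → (g • v = v ↔ g • w = w))
    (hchain : ∀ x y : ℕ → V,
      (∀ i, T.dist (x i) (y i) = T.dist (x i) v + 1 + T.dist w (y i)) →
      (∀ i, ∃ g : G, g • x i = y i ∧ g • y i = x i) →
      (∀ i, T.dist (x (i + 1)) (y (i + 1)) =
        T.dist (x (i + 1)) (x i) + T.dist (x i) (y i) + T.dist (y i) (y (i + 1))) →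
      (∀ i, MulAction.stabilizer G (x (i + 1)) ⊓ MulAction.stabilizer G (y (i + 1)) <
        MulAction.stabilizer G (x i) ⊓ MulAction.stabilizer G (y i)) →
      ∃ i, Q (MulAction.stabilizer G (x i) ⊓ MulAction.stabilizer G (y i)))
    (ε : ℤˣ) (n : ℕ) (ψ μ χ : Matrix (Fin n) (Fin n) (MonoidAlgebra R G))
    (hψ : SuppIn {g | g • v = v ∧ g • w ≠ w} ψ) (hμ : SuppIn {g | g • v = w} μ)
    (hχ : SuppIn {g | g • w = w ∧ g • v ≠ v} χ)
    (hnil : IsNilpotent (nu ε (ψ + (ε : ℤ) • ψᴴ) μ (χ + (ε : ℤ) • χᴴ))) :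
    ∃ (κ : Type) (_ : Fintype κ) (_ : DecidableEq κ) (Λ : Matrix κ κ (MonoidAlgebra R G)) (m : ℕ),
      FSum (LineP R G T.dist v w Q ε) Λ ∧
      Isometric ε (fromBlocks (UF ψ μ χ) 0 0 (UV.hyp (Fin m) (MonoidAlgebra R G))) Λ := by
  let F : FC (MonoidAlgebra R G) := fcGen (MonoidAlgebra R G) (LineP R G T.dist v w Q)
  refine AR.main R G V Q T v w ?_ hT hact hvw hinv htwo ?_ hchain ε n ψ μ χ hψ hμ hχ hnil
  · intro x y hxy L g Xb Yp Ym hP hG h1 h2 ε' m ψ' χ' hs1 hs2 hn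
    exact ss_of_sh (hQ x y hxy L g Xb Yp Ym hP hG h1 h2 ε' m ψ' χ' hs1 hs2 hn)
  · intro x y g f h1 h2 h3 h4 h5 h6 h7 h8 h9
    by_cases hq : Q (MulAction.stabilizer G x ⊓ MulAction.stabilizer G y)
    · exact Or.inl hq
    · refine Or.inr ?_
      intro ε' m ψ' χ' hs1 hs2 hn
      exact sgen_gen ⟨x, y, g, f, h1, h2, h3, h4, h5, h6, h7, fun k hk => ⟨h8 k hk, h9 k hk⟩, hq, hs1,
        hs2, hn⟩

end Pool.Agent.Lib.MP8a3537.AR
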