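import Pool.Agent.Lib.MP_8a3537_gt.AR.DIH

/-!
# Extensions of the infinite dihedral group (MP_8a3537_gt, folder AR, helper81): the geometry

`dih_blk`: if `Dih R` then the nilpotent forms with supports in `K g` and `(K ∩ f K f⁻¹) f` are zero in `L^p`, for a pair
`x`, `y` exchanged by `g`, `K = G_x ∩ G_y`, `f f ∈ K`, `x` on the path from `y` to `f y`.
-/

set_option autoImplicit false
set_option linter.unusedSectionVars false

namespace Pool.Agent.Lib.MP8a3537.AR

open Matrix Monoid Pool.Agent.Lib.MP8a3537.UV Pool.Agent.Lib.MP8a3537.RO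
open Pool.Agent.Lib.MP8a3537.ROK Pool.Agent.Lib.MP8a3537.LL

namespace DHBM

variable {G V : Type} [Group G] [MulAction G V] {d : V → V → ℕ} (hd : TM G d)

include hd

/-- two points at the same distance on a path -/
theorem uniq {y a b p : V} (ha : d y p = d y a + d a p) (hb : d y p = d y b + d b p)
    (hab : d y a = d y b) : a = b := by
  rw [← hd.d0]
  have h1 := hd.four a b y p
  have h2 := hd.cm a y
  have h3 := hd.cm b y
  omega

/-- the basic configuration -/
structure Cf (d : V → V → ℕ) (x y : V) (g f : G) : Prop where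
  ne : x ≠ y
  gx : g • x = y
  gy : g • y = x
  ffx : f • f • x = x
  ffy : f • f • y = y
  hb : d y (f • y) = d y x + d x (f • y)

theorem far {x y : V} {g f : G} (c : Cf d x y g f) {v : V} (hv : d x v = d x y + d y v) :
    d y (f • v) = d y (f • y) + d (f • y) (f • v) ∧ d y (f • v) = d y x + d x (f • v) := by
  have n0 : d x y ≠ 0 := fun h => c.ne ((hd.d0 x y).1 h)
  have i1 := hd.iso f x v
  have i2 := hd.iso f x y
  have i3 := hd.iso f y v
  have i4 := hd.iso f y (f • y)
  have i5 := hd.iso f y x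
  have i6 := hd.iso f x (f • y)
  rw [c.ffy] at i4 i6
  have hb := c.hb
  have c1 := hd.cm y x
  have c2 := hd.cm (f • y) (f • x)
  have c3 := hd.cm (f • y) y
  have c4 := hd.cm (f • x) y
  have h4 := hd.four y (f • y) (f • x) (f • v)
  have t1 := hd.tri y (f • y) (f • v)
  have t2 := hd.tri y x (f • v)
  have t3 := hd.tri x (f • y) (f • v)
  omega

theorem fx {x y : V} {g f : G} (c : Cf d x y g f) :
    d y (f • y) = d y (f • x) + d (f • x) (f • y) := by
  have i4 := hd.iso f y (f • y)
  have i5 := hd.iso f y x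
  have i6 := hd.iso f x (f • y)
  rw [c.ffy] at i4 i6
  have hb := c.hb
  have c2 := hd.cm (f • y) (f • x)
  have c3 := hd.cm (f • y) y
  have c4 := hd.cm (f • x) y
  omega

/-- an element of `K` which keeps a point beyond `f y` is in `K ∩ f K f⁻¹` -/
theorem key {x y : V} {g f : G} (c : Cf d x y g f) {h : G} (hx : h • x = x) (hy : h • y = y)
    {p : V} (h1 : d y p = d y (f • y) + d (f • y) p)
    (h2 : d y p = d y (f • y) + d (h • f • y) p) : h • f • y = f • y ∧ h • f • x = f • x := by
  have i1 := hd.iso h y (f • y)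
  rw [hy] at i1
  have e1 : h • f • y = f • y := (uniq hd h1 (by omega) i1.symm).symm
  refine ⟨e1, ?_⟩
  have h3 := fx hd c
  have i2 := hd.iso h y (f • x)
  have i3 := hd.iso h (f • x) (f • y)
  rw [hy] at i2
  rw [e1] at i3
  exact (uniq hd h3 (by omega) i2.symm).symm

end DHBM

open DHBM in
/-- Forms with supports in `K g` and `(K ∩ f K f⁻¹) f`. -/
theorem dih_blk {R : Type} [Ring R] [StarRing R] {G V : Type} [Group G]
    (hR : ∀ X : DIHM.Dt G, DihX R X.D X.q) [MulAction G V] (d : V → V → ℕ) (hd : TM G d) (x y : V) (g f : G) (hgx : g • x = y)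
    (hgy : g • y = x)
    (hff : f * f ∈ MulAction.stabilizer G x ⊓ MulAction.stabilizer G y)
    (hb : d y (f • y) = d y x + d x (f • y))
    (hNg : ∀ h ∈ MulAction.stabilizer G x ⊓ MulAction.stabilizer G y, h * g * (h * g) ≠ 1)
    (hNf : ∀ h ∈ Kg (MulAction.stabilizer G x ⊓ MulAction.stabilizer G y) f,
      h * f * (h * f) ≠ 1)
    (ε : ℤˣ) (n : ℕ) (ψ χ : Matrix (Fin n) (Fin n) (MonoidAlgebra R G))
    (hψ : SuppIn (La (MulAction.stabilizer G x ⊓ MulAction.stabilizer G y) g) ψ)
    (hχ : SuppIn (La (Kg (MulAction.stabilizer G x ⊓ MulAction.stabilizer G y) f) f) χ)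
    (h : IsNilpotent (nu ε (ψ + (ε : ℤ) • ψᴴ) 0 (χ + (ε : ℤ) • χᴴ))) : SHp ε (UF ψ 0 χ) := by
  obtain ⟨K, hK⟩ : ∃ K : Subgroup G, K = MulAction.stabilizer G x ⊓ MulAction.stabilizer G y :=
    ⟨_, rfl⟩
  rw [← hK] at hff hNg hNf hψ hχ
  have mK : ∀ k : G, k ∈ K ↔ k • x = x ∧ k • y = y := by
    intro k
    rw [hK, Subgroup.mem_inf, MulAction.mem_stabilizer_iff, MulAction.mem_stabilizer_iff]
  have ffx := ((mK _).1 hff).1
  have ffy := ((mK _).1 hff).2
  rw [mul_smul] at ffx ffy
  have gi : g⁻¹ • x = y ∧ g⁻¹ • y = x :=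
    ⟨by rw [inv_smul_eq_iff, hgy], by rw [inv_smul_eq_iff, hgx]⟩
  have ne : x ≠ y := by
    intro h0
    have hg : g ∈ K := (mK g).2 ⟨by rw [hgx, h0], by rw [hgy, h0]⟩
    have := hNg _ (inv_mem hg)
    simp at this
  have cf : Cf d x y g f := ⟨ne, hgx, hgy, ffx, ffy, hb⟩
  have hN1 : Ns K g := by
    intro k hk
    rw [mK] at hk
    constructor
    · rw [mK]
      simp only [mul_smul]
      rw [gi.1, gi.2, hk.1, hk.2]
      exact ⟨hgy, hgx⟩
    · rw [mK]
      simp only [mul_smul]
      rw [hgx, hgy, hk.1, hk.2]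
      exact ⟨gi.2, gi.1⟩
  have hLK : Kg K f ≤ K := inf_le_left
  have hN2 : Ns (Kg K f) f := by
    intro k hk
    rw [mem_Kg] at hk
    refine ⟨(mem_Kg _ _ _).2 ⟨?_, ?_⟩, (mem_Kg _ _ _).2 ⟨hk.2, ?_⟩⟩
    · have e : f * k * f⁻¹ = (f * f) * (f⁻¹ * k * f) * (f * f)⁻¹ := by group
      rw [e]
      exact mul_mem (mul_mem hff hk.2) (inv_mem hff)
    · have e : f⁻¹ * (f * k * f⁻¹) * f = k := by group
      rw [e]
      exact hk.1
    · have e : f⁻¹ * (f⁻¹ * k * f) * f = (f * f)⁻¹ * k * (f * f) := by group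
      rw [e]
      exact mul_mem (mul_mem (inv_mem hff) hk.1) hff
  have hff2 : f * f ∈ Kg K f := by
    refine (mem_Kg _ _ _).2 ⟨hff, ?_⟩
    have e : f⁻¹ * (f * f) * f = f * f := by group
    rw [e]
    exact hff
  have hg2 : g * g ∈ K := by
    rw [mK, mul_smul, mul_smul]
    exact ⟨by rw [hgx, hgy], by rw [hgy, hgx]⟩
  obtain ⟨X, hX1, hX2, hX3, hX4, hX5⟩ : ∃ X : DIHM.Dt G, X.K true = K ∧ X.K false = Kg K f ∧
      X.g true = g ∧ X.g false = f ∧ X.L = Kg K f :=
    ⟨{ K := fun b => match b with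
        | true => K
        | false => Kg K f
       g := fun b => match b with
        | true => g
        | false => f
       L := Kg K f
       hL := fun b => by
        cases b
        · exact le_rfl
        · exact hLK
       hN := fun b => by
        cases b
        · exact hN2
        · exact hN1
       h2 := fun b => by
        cases b
        · exact hff2
        · exact hg2
       ni := fun b => by
        cases b
        · exact hNf
        · exact hNg }, rfl, rfl, rfl, rfl, rfl⟩
  obtain ⟨P, hPt, hPf⟩ : ∃ P : Bool → Set V, P true = {p | d x p = d x y + d y p} ∧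
      P false = {p | d y p = d y x + d x p} :=
    ⟨fun b => match b with
      | true => {p | d x p = d x y + d y p}
      | false => {p | d y p = d y x + d x p}, rfl, rfl⟩
  have pl : ∀ s, ∀ z ∈ X.LD s, ∃ k ∈ X.K s, X.p z = k * X.g s := by
    rintro s z ⟨a, ha, rfl⟩
    refine ⟨_, ha, ?_⟩
    rw [X.p_of]
    group
  -- letters of the second kind
  have fr : ∀ z ∈ X.LD false, ∀ v ∈ P true,
      d y (X.p z • v) = d y (f • y) + d (f • y) (X.p z • v) ∧
      d y (X.p z • v) = d y x + d x (X.p z • v) := by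
    intro z hz v hv
    obtain ⟨k, hk, e⟩ := pl false z hz
    rw [hX2, mem_Kg] at hk
    rw [hX4] at e
    rw [hPt] at hv
    have h1 := far hd cf hv
    have k1 := (mK _).1 hk.1
    have k2 := ((mK _).1 hk.2).2
    have k3 : k • f • y = f • y := by
      rw [mul_smul, mul_smul, inv_smul_eq_iff] at k2
      exact k2
    have i1 := hd.iso k y (f • v)
    have i2 := hd.iso k (f • y) (f • v)
    have i3 := hd.iso k x (f • v)
    rw [k1.2] at i1
    rw [k3] at i2
    rw [k1.1] at i3
    rw [e, mul_smul]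
    omega
  refine DIHM.blk X (hR X) (P := P) (by rw [hX2, hX5]) ?_ ?_ ?_ ε n ψ χ (by rw [hX1, hX3]; exact hψ)
    (by rw [hX2, hX4]; exact hχ) h
  · intro s z hz v hv
    cases s with
    | false =>
      rw [hPf]
      exact (fr z hz v hv).2
    | true =>
      obtain ⟨k, hk, e⟩ := pl true z hz
      rw [hX1, mK] at hk
      rw [hX3] at e
      have hv' : d y v = d y x + d x v := by
        have : v ∈ P false := hv
        rw [hPf] at this
        exact this
      rw [hPt, e]
      show d x ((k * g) • v) = d x y + d y ((k * g) • v)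
      have i1 := hd.iso (k * g) y v
      have i2 := hd.iso (k * g) x v
      have e1 : (k * g) • y = x := by rw [mul_smul, hgy, hk.1]
      have e2 : (k * g) • x = y := by rw [mul_smul, hgx, hk.2]
      rw [e1] at i1
      rw [e2] at i2
      have := hd.cm x y
      omega
  · intro s
    cases s with
    | false =>
      refine ⟨x, ?_⟩
      rw [hPf]
      show d y x = d y x + d x x
      rw [(hd.d0 x x).2 rfl, add_zero]
    | true =>
      refine ⟨y, ?_⟩
      rw [hPt]
      show d x y = d x y + d y y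
      rw [(hd.d0 y y).2 rfl, add_zero]
  · intro a ha a' ha' v hv v' hv' k hk he
    rw [hX1, mK] at hk
    have h1 := (fr a ha v hv).1
    have h2 := (fr a' ha' v' hv').1
    have i1 := hd.iso k y (X.p a' • v')
    have i2 := hd.iso k (f • y) (X.p a' • v')
    rw [hk.2, ← he] at i1
    rw [← he] at i2
    have h3 := key hd cf hk.1 hk.2 h1 (by omega)
    rw [hX5, mem_Kg]
    refine ⟨(mK k).2 hk, (mK _).2 ⟨?_, ?_⟩⟩
    · rw [mul_smul, mul_smul, inv_smul_eq_iff]
      exact h3.2
    · rw [mul_smul, mul_smul, inv_smul_eq_iff]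
      exact h3.1

end Pool.Agent.Lib.MP8a3537.AR
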