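import Mathlib.GroupTheory.PushoutI
import Mathlib.Tactic.Group

/-!
# Torsion in amalgamated products (MP_8a3537_gt, folder AR) (helper76)

An element of finite order of a pushout of groups over injective maps is conjugate to an element of a factor.
-/

set_option autoImplicit false

namespace Pool.Agent.Lib.MP8a3537.AR

open Monoid Monoid.PushoutI

namespace TORM

universe u

variable {ι : Type} {G : ι → Type u} {H : Type u} [∀ i, Group (G i)] [Group H] {φ : ∀ i, H →* G i}

/-- Alternating words without letters in the base group. -/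
def Alt (φ : ∀ i, H →* G i) (l : List (Σ i, G i)) : Prop :=
  l.IsChain (fun a b => a.1 ≠ b.1) ∧ ∀ a ∈ l, a.2 ∉ (φ a.1).range

/-- The product of a word. -/
def pr (φ : ∀ i, H →* G i) (l : List (Σ i, G i)) : PushoutI φ :=
  (l.map fun a => (of a.1 a.2 : PushoutI φ)).prod

theorem pr_nil : pr φ [] = 1 := rfl

theorem pr_cons (a : Σ i, G i) (l : List (Σ i, G i)) : pr φ (a :: l) = of a.1 a.2 * pr φ l := by
  unfold pr
  rw [List.map_cons, List.prod_cons]

theorem pr_append (l l' : List (Σ i, G i)) : pr φ (l ++ l') = pr φ l * pr φ l' := by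
  unfold pr
  rw [List.map_append, List.prod_append]

theorem pr_not_base (hφ : ∀ i, Function.Injective (φ i)) {l : List (Σ i, G i)} (h : Alt φ l)
    (hl : l ≠ []) : pr φ l ∉ (base φ).range := by
  intro hm
  let w : CoprodI.Word G := ⟨l, fun a ha e => h.2 a ha (e ▸ one_mem _), h.1⟩
  have hw : Reduced φ w := fun a ha => h.2 a ha
  have hp : (ofCoprodI w.prod : PushoutI φ) = pr φ l := by
    unfold CoprodI.Word.prod pr
    rw [map_list_prod, List.map_map]
    congr 1
  have h1 := hw.eq_empty_of_mem_range hφ (by rw [hp]; exact hm)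
  exact hl (congrArg CoprodI.Word.toList h1)

theorem base_eq (i : ι) (h : H) : (base φ h : PushoutI φ) = of i (φ i h) :=
  (of_apply_eq_base φ i h).symm

theorem left_absorb (h : H) {i : ι} {x : G i} {l : List (Σ i, G i)} (hA : Alt φ (⟨i, x⟩ :: l)) :
    Alt φ (⟨i, φ i h * x⟩ :: l) ∧ pr φ (⟨i, φ i h * x⟩ :: l) = base φ h * pr φ (⟨i, x⟩ :: l) := by
  refine ⟨⟨?_, ?_⟩, ?_⟩
  · have h1 := hA.1
    rw [List.isChain_cons] at h1 ⊢
    exact h1
  · intro a ha
    rw [List.mem_cons] at ha
    rcases ha with rfl | ha
    · rintro ⟨k, hk⟩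
      refine hA.2 ⟨i, x⟩ List.mem_cons_self ⟨h⁻¹ * k, ?_⟩
      rw [map_mul, hk, map_inv]
      exact inv_mul_cancel_left _ _
    · exact hA.2 a (List.mem_cons_of_mem _ ha)
  · rw [pr_cons, pr_cons, base_eq i, ← mul_assoc]
    exact congrArg (· * pr φ l) (map_mul (of i) (φ i h) x)

theorem right_absorb (h : H) {i : ι} {x : G i} {l : List (Σ i, G i)}
    (hA : Alt φ (l ++ [⟨i, x⟩])) :
    Alt φ (l ++ [⟨i, x * φ i h⟩]) ∧
      pr φ (l ++ [⟨i, x * φ i h⟩]) = pr φ (l ++ [⟨i, x⟩]) * base φ h := by
  refine ⟨⟨?_, ?_⟩, ?_⟩
  · have h1 := hA.1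
    rw [List.isChain_append] at h1 ⊢
    refine ⟨h1.1, List.isChain_singleton _, ?_⟩
    intro a ha b hb
    have h2 := h1.2.2 a ha ⟨i, x⟩ rfl
    have h3 : b = ⟨i, x * φ i h⟩ := by
      have h4 : some ⟨i, x * φ i h⟩ = some b := hb
      exact (Option.some.inj h4).symm
    rw [h3]
    exact h2
  · intro a ha
    rw [List.mem_append, List.mem_singleton] at ha
    rcases ha with ha | rfl
    · exact hA.2 a (List.mem_append_left _ ha)
    · rintro ⟨k, hk⟩
      refine hA.2 ⟨i, x⟩ (List.mem_append_right _ (List.mem_singleton_self _)) ⟨k * h⁻¹, ?_⟩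
      rw [map_mul, hk, map_inv]
      exact mul_inv_cancel_right _ _
  · rw [pr_append, pr_append, mul_assoc, base_eq i, pr_cons, pr_cons, pr_nil, mul_one, mul_one]
    exact congrArg (pr φ l * ·) (map_mul (of i) x (φ i h))

/-- Elements with a reduced word. -/
def Q (φ : ∀ i, H →* G i) (z : PushoutI φ) : Prop :=
  z ∈ (base φ).range ∨ ∃ l : List (Σ i, G i), l ≠ [] ∧ Alt φ l ∧ pr φ l = z

theorem q_base (h : H) {z : PushoutI φ} (hz : Q φ z) : Q φ (base φ h * z) := by
  rcases hz with ⟨k, rfl⟩ | ⟨l, hl, hA, rfl⟩
  · exact Or.inl ⟨h * k, map_mul _ _ _⟩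
  · rcases l with _ | ⟨⟨i, x⟩, l⟩
    · exact absurd rfl hl
    · obtain ⟨h1, h2⟩ := left_absorb h hA
      exact Or.inr ⟨_, List.cons_ne_nil _ _, h1, h2⟩

theorem q_of (i : ι) (g : G i) {z : PushoutI φ} (hz : Q φ z) : Q φ (of i g * z) := by
  by_cases hg : g ∈ (φ i).range
  · obtain ⟨h, rfl⟩ := hg
    rw [of_apply_eq_base]
    exact q_base h hz
  · rcases hz with ⟨k, rfl⟩ | ⟨l, hl, hA, rfl⟩
    · refine Or.inr ⟨[⟨i, g * φ i k⟩], List.cons_ne_nil _ _, ⟨List.isChain_singleton _, ?_⟩, ?_⟩
      · intro a ha
        rw [List.mem_singleton] at ha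
        subst ha
        rintro ⟨m, hm⟩
        refine hg ⟨m * k⁻¹, ?_⟩
        rw [map_mul, hm, map_inv]
        exact mul_inv_cancel_right _ _
      · rw [pr_cons, pr_nil, mul_one, base_eq i]
        exact map_mul (of i) g (φ i k)
    · rcases l with _ | ⟨⟨j, x⟩, l⟩
      · exact absurd rfl hl
      · by_cases hij : i = j
        · subst hij
          by_cases hgx : g * x ∈ (φ i).range
          · obtain ⟨h, hh⟩ := hgx
            have e : (of i g * pr φ (⟨i, x⟩ :: l) : PushoutI φ) = base φ h * pr φ l := by
              rw [pr_cons, base_eq i, hh, ← mul_assoc]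
              exact congrArg (· * pr φ l) (map_mul (of i) g x).symm
            rw [e]
            rcases l with _ | ⟨⟨j, y⟩, l⟩
            · rw [pr_nil, mul_one]
              exact Or.inl ⟨h, rfl⟩
            · refine q_base h (Or.inr ⟨⟨j, y⟩ :: l, List.cons_ne_nil _ _, ⟨?_, ?_⟩, rfl⟩)
              · have h1 := hA.1
                rw [List.isChain_cons_cons] at h1
                exact h1.2
              · exact fun a ha => hA.2 a (List.mem_cons_of_mem _ ha)
          · refine Or.inr ⟨⟨i, g * x⟩ :: l, List.cons_ne_nil _ _, ⟨?_, ?_⟩, ?_⟩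
            · have h1 := hA.1
              rw [List.isChain_cons] at h1 ⊢
              exact h1
            · intro a ha
              rw [List.mem_cons] at ha
              rcases ha with rfl | ha
              · exact hgx
              · exact hA.2 a (List.mem_cons_of_mem _ ha)
            · rw [pr_cons, pr_cons, ← mul_assoc]
              exact congrArg (· * pr φ l) (map_mul (of i) g x)
        · refine Or.inr ⟨⟨i, g⟩ :: ⟨j, x⟩ :: l, List.cons_ne_nil _ _, ⟨?_, ?_⟩, ?_⟩
          · rw [List.isChain_cons_cons]
            exact ⟨hij, hA.1⟩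
          · intro a ha
            rw [List.mem_cons] at ha
            rcases ha with rfl | ha
            · exact hg
            · exact hA.2 a ha
          · rw [pr_cons]

theorem q_mul (z z' : PushoutI φ) (hz' : Q φ z') : Q φ (z * z') := by
  induction z using PushoutI.induction_on generalizing z' with
  | of i g => exact q_of i g hz'
  | base h => exact q_base h hz'
  | mul x y hx hy =>
    rw [mul_assoc]
    exact hx _ (hy _ hz')

theorem q_all (z : PushoutI φ) : Q φ z := by
  have h1 := q_mul z 1 (Or.inl (one_mem _))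
  rwa [mul_one] at h1

/-- Cyclically reduced words have infinite order. -/
theorem pow_word {i j : ι} (x : G i) (y : G j)
    (m : List (Σ i, G i)) (hA : Alt φ (⟨i, x⟩ :: (m ++ [⟨j, y⟩]))) (hij : i ≠ j) :
    ∀ n : ℕ, ∃ t : List (Σ i, G i), Alt φ (⟨i, x⟩ :: t) ∧
      pr φ (⟨i, x⟩ :: t) = pr φ (⟨i, x⟩ :: (m ++ [⟨j, y⟩])) ^ (n + 1) := by
  intro n
  induction n with
  | zero => exact ⟨m ++ [⟨j, y⟩], hA, by rw [zero_add, pow_one]⟩
  | succ n ih =>
    obtain ⟨t, ht, hp⟩ := ih
    refine ⟨(m ++ [⟨j, y⟩]) ++ (⟨i, x⟩ :: t), ⟨?_, ?_⟩, ?_⟩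
    · rw [← List.cons_append, List.isChain_append]
      refine ⟨hA.1, ht.1, ?_⟩
      intro a ha b hb
      have h1 : a = ⟨j, y⟩ := by
        rw [← List.cons_append, List.getLast?_append] at ha
        have h2 : some (⟨j, y⟩ : Σ i, G i) = some a := by simpa using ha
        exact (Option.some.inj h2).symm
      have h2 : b = ⟨i, x⟩ := by
        have h3 : some (⟨i, x⟩ : Σ i, G i) = some b := hb
        exact (Option.some.inj h3).symm
      rw [h1, h2]
      exact fun h => hij h.symm
    · intro a ha
      rw [← List.cons_append, List.mem_append] at ha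
      rcases ha with ha | ha
      · exact hA.2 a ha
      · exact ht.2 a ha
    · rw [← List.cons_append, pr_append, hp, ← pow_succ']

theorem tors_aux (hφ : ∀ i, Function.Injective (φ i)) (k : ℕ) : ∀ (n : ℕ)
    (l : List (Σ i, G i)), l.length ≤ n → Alt φ l → pr φ l ^ (k + 1) = 1 → l ≠ [] →
    ∃ (d : PushoutI φ) (i : ι) (a : G i), pr φ l = d * of i a * d⁻¹ := by
  intro n
  induction n with
  | zero =>
    intro l hn _ _ hl
    exact absurd (List.length_eq_zero_iff.1 (Nat.le_zero.1 hn)) hl
  | succ n ih =>
    intro l hn hA hz hl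
    have key : ∀ {i j : ι} (x : G i) (y : G j) (m : List (Σ i, G i)),
        Alt φ (⟨i, x⟩ :: (m ++ [⟨j, y⟩])) → i ≠ j →
        pr φ (⟨i, x⟩ :: (m ++ [⟨j, y⟩])) ^ (k + 1) ≠ 1 := by
      intro i j x y m hA' hij e
      obtain ⟨t, ht, hp⟩ := pow_word x y m hA' hij k
      exact pr_not_base hφ ht (List.cons_ne_nil _ _) (by rw [hp, e]; exact one_mem _)
    rcases l with _ | ⟨⟨i, x⟩, t⟩
    · exact absurd rfl hl
    · rcases List.eq_nil_or_concat t with rfl | ⟨m, ⟨j, y⟩, rfl⟩
      · refine ⟨1, i, x, ?_⟩
        rw [pr_cons, pr_nil, mul_one, one_mul, inv_one, mul_one]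
      · rw [List.concat_eq_append] at *
        have hc := hA.1
        have hm := hA.2
        by_cases hij : i = j
        · subst hij
          have e1 : pr φ (⟨i, x⟩ :: (m ++ [⟨i, y⟩])) = of i x * pr φ m * of i y := by
            rw [pr_cons, pr_append, pr_cons, pr_nil, mul_one, mul_assoc]
          rcases m with _ | ⟨⟨j, w⟩, m⟩
          · have h1 := hc
            rw [List.nil_append, List.isChain_cons_cons] at h1
            exact absurd rfl h1.1
          · have hij : i ≠ j := by
              have h1 := hc
              rw [List.cons_append, List.isChain_cons_cons] at h1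
              exact h1.1
            by_cases hyx : y * x ∈ (φ i).range
            · obtain ⟨h, hh⟩ := hyx
              rcases List.eq_nil_or_concat (⟨j, w⟩ :: m) with h0 | ⟨m', ⟨k', w'⟩, hm'⟩
              · exact absurd h0 (List.cons_ne_nil _ _)
              · rw [List.concat_eq_append] at hm'
                rw [hm'] at e1 hc hm hz hn hA ⊢
                have hA' : Alt φ (m' ++ [⟨k', w'⟩]) := by
                  refine ⟨?_, fun a ha => hm a ?_⟩
                  · have h1 := hc
                    rw [List.isChain_cons] at h1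
                    have h2 := h1.2
                    rw [List.isChain_append] at h2
                    exact h2.1
                  · exact List.mem_cons_of_mem _ (List.mem_append_left _ ha)
                obtain ⟨h3, h4⟩ := right_absorb h hA'
                have e2 : pr φ (m' ++ [⟨k', w' * φ k' h⟩]) =
                    (of i x)⁻¹ * pr φ (⟨i, x⟩ :: (m' ++ [⟨k', w'⟩] ++ [⟨i, y⟩])) * of i x := by
                  rw [h4, e1, base_eq i, hh, map_mul]
                  group
                have e5 : pr φ (⟨i, x⟩ :: (m' ++ [⟨k', w'⟩] ++ [⟨i, y⟩])) =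
                    of i x * pr φ (m' ++ [⟨k', w' * φ k' h⟩]) * (of i x)⁻¹ := by
                  rw [e2]; group
                have e3 : pr φ (m' ++ [⟨k', w' * φ k' h⟩]) ^ (k + 1) = 1 := by
                  have h5 := hz
                  rw [e5, conj_pow] at h5
                  have h6 := mul_inv_eq_one.1 h5
                  exact mul_eq_left.1 h6
                have hlen : (m' ++ [(⟨k', w' * φ k' h⟩ : Σ i, G i)]).length ≤ n := by
                  simp only [List.length_cons, List.length_append, List.length_nil] at hn ⊢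
                  omega
                obtain ⟨d, i', a, e4⟩ := ih _ hlen h3 e3 (by simp)
                refine ⟨of i x * d, i', a, ?_⟩
                rw [e5, e4]
                group
            · exfalso
              refine key w (y * x) m ⟨?_, ?_⟩ hij.symm ?_
              · have h2 := hc
                rw [List.isChain_cons] at h2
                have h3 := h2.2
                rw [List.cons_append, ← List.cons_append, List.isChain_append] at h3
                rw [← List.cons_append, List.isChain_append]
                refine ⟨h3.1, List.isChain_singleton _, ?_⟩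
                intro a ha b hb
                have h4 := h3.2.2 a ha ⟨i, y⟩ rfl
                have h5 : b = ⟨i, y * x⟩ := by
                  have h6 : some ⟨i, y * x⟩ = some b := hb
                  exact (Option.some.inj h6).symm
                rw [h5]
                exact h4
              · intro a ha
                simp only [List.mem_cons, List.mem_append, List.not_mem_nil, or_false] at ha hm
                rcases ha with rfl | ha | rfl
                · exact hm _ (Or.inr (Or.inl (Or.inl rfl)))
                · exact hm a (Or.inr (Or.inl (Or.inr ha)))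
                · exact hyx
              · have e6 : pr φ (⟨j, w⟩ :: (m ++ [⟨i, y * x⟩])) =
                    (of i x)⁻¹ * pr φ (⟨i, x⟩ :: (⟨j, w⟩ :: m ++ [⟨i, y⟩])) * (of i x)⁻¹⁻¹ := by
                  rw [e1, pr_cons, pr_cons, pr_append, pr_cons, pr_nil, map_mul]
                  group
                rw [e6, conj_pow, hz]
                group
        · exact absurd hz (key x y m hA hij)

/-- Elements of finite order of an amalgamated product are conjugate into a factor. -/
theorem tors (hφ : ∀ i, Function.Injective (φ i)) [hι : Nonempty ι] (z : PushoutI φ) (k : ℕ)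
    (hz : z ^ (k + 1) = 1) : ∃ (d : PushoutI φ) (i : ι) (a : G i), z = d * of i a * d⁻¹ := by
  rcases q_all z with ⟨h, rfl⟩ | ⟨l, hl, hA, rfl⟩
  · obtain ⟨i⟩ := hι
    refine ⟨1, i, φ i h, ?_⟩
    rw [one_mul, inv_one, mul_one, of_apply_eq_base]
  · exact tors_aux hφ k _ l le_rfl hA hz hl

end TORM

/-- No element of finite order except `1`. -/
def TF (G : Type) [Group G] : Prop := ∀ (z : G) (n : ℕ), 1 ≤ n → z ^ n = 1 → z = 1

/-- An amalgamated product of torsionfree groups is torsionfree. -/
theorem tf_pushout {ι : Type} [Nonempty ι] {G : ι → Type} {H : Type} [∀ i, Group (G i)]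
    [Group H] {φ : ∀ i, H →* G i} (hφ : ∀ i, Function.Injective (φ i)) (hG : ∀ i, TF (G i)) :
    TF (PushoutI φ) := by
  intro z n hn hz
  obtain ⟨k, rfl⟩ : ∃ k, n = k + 1 := ⟨n - 1, by omega⟩
  obtain ⟨d, i, a, rfl⟩ := TORM.tors hφ z k hz
  rw [conj_pow] at hz
  have h6 := mul_inv_eq_one.1 hz
  have h7 : (of i a : PushoutI φ) ^ (k + 1) = 1 := mul_eq_left.1 h6
  have h8 : a ^ (k + 1) = 1 := by
    apply of_injective hφ i
    rw [map_pow, h7, map_one]
  rw [hG i a (k + 1) hn h8, map_one]
  group

end Pool.Agent.Lib.MP8a3537.AR
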