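import Pool.Agent.Lib.MP_8a3537_gt.AR.TRI
import Pool.Agent.Lib.MP_8a3537_gt.AR.TOR
import Mathlib.Combinatorics.SimpleGraph.Acyclic
import Mathlib.GroupTheory.SpecificGroups.Dihedral

/-!
# Extensions of the infinite dihedral group are edges of trees (MP_8a3537_gt, folder AR) (helper76)

A group `E` with a homomorphism to the infinite dihedral group acts on the line with vertices `ℤ`. So a vanishing theorem
for all trees contains the vanishing theorem for all extensions of the infinite dihedral group.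
-/

set_option autoImplicit false
set_option linter.unusedSectionVars false

namespace Pool.Agent.Lib.MP8a3537.AR

open Matrix Pool.Agent.Lib.MP8a3537.UV

/-- All nilpotent forms of all edges of trees are zero in `L^p`. -/
def TreesP (R : Type) [Ring R] [StarRing R] : Prop :=
  ∀ (G V : Type) [Group G] [MulAction G V] (T : SimpleGraph V) (v w : V), T.IsTree →
    (∀ (g : G) (x y : V), T.Adj x y → T.Adj (g • x) (g • y)) → T.Adj v w →
    (∀ g : G, ¬ (g • v = w ∧ g • w = v)) →
    (∀ g : G, g * g = 1 → (g • v = v ↔ g • w = w)) →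
    VanP R G {g | g • v = v ∧ g • w ≠ w} {g | g • v = w} {g | g • w = w ∧ g • v ≠ v}

namespace LINM

/-- The line. -/
def line : SimpleGraph ℤ where
  Adj i j := i = j + 1 ∨ j = i + 1
  symm := ⟨fun _ _ h => h.symm⟩
  loopless := ⟨fun i h => by rcases h with h | h <;> omega⟩

theorem line_adj (i j : ℤ) : line.Adj i j ↔ (i = j + 1 ∨ j = i + 1) := Iff.rfl

theorem reach (n : ℕ) : line.Reachable 0 (n : ℤ) ∧ line.Reachable 0 (-(n : ℤ)) := by
  induction n with
  | zero => simp
  | succ n ih =>
    refine ⟨ih.1.trans (SimpleGraph.Adj.reachable ?_), ih.2.trans (SimpleGraph.Adj.reachable ?_)⟩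
    · rw [line_adj]; push_cast; omega
    · rw [line_adj]; push_cast; omega

theorem reach' (i : ℤ) : line.Reachable 0 i := by
  rcases Int.eq_nat_or_neg i with ⟨n, rfl | rfl⟩
  · exact (reach n).1
  · exact (reach n).2

theorem isTree : line.IsTree := by
  constructor
  · haveI : Nonempty ℤ := ⟨0⟩
    exact ⟨fun i j => (reach' i).symm.trans (reach' j)⟩
  · rw [SimpleGraph.isAcyclic_iff_forall_adj_isBridge]
    have key : ∀ i : ℤ, line.IsBridge s(i, i + 1) := by
      intro i
      rw [SimpleGraph.isBridge_iff]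
      rintro ⟨p⟩
      have h : ∀ (a b : ℤ) (q : (line.deleteEdges {s(i, i + 1)}).Walk a b), a ≤ i → b ≤ i := by
        intro a b q
        induction q with
        | nil => exact id
        | @cons a b c hab q ih =>
          intro ha
          refine ih ?_
          rw [SimpleGraph.deleteEdges_adj] at hab
          obtain ⟨h1, h2⟩ := hab
          rcases h1 with h1 | h1
          · omega
          · by_contra hb
            have e1 : a = i := by omega
            have e2 : b = i + 1 := by omega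
            subst e1; subst e2
            exact h2 rfl
      have := h i (i + 1) p le_rfl
      omega
    intro a b hab
    rcases hab with h | h
    · subst h
      rw [Sym2.eq_swap]
      exact key b
    · subst h
      exact key a

/-- `ZMod 0` is `ℤ`. -/
def zi (i : ZMod 0) : ℤ := i

theorem zi_add (i j : ZMod 0) : zi (i + j) = zi i + zi j := rfl

theorem zi_sub (i j : ZMod 0) : zi (i - j) = zi i - zi j := rfl

theorem zi_zero : zi 0 = 0 := rfl

theorem zi_one : zi 1 = 1 := rfl

theorem zi_inj {i j : ZMod 0} (h : zi i = zi j) : i = j := h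

/-- The action of the infinite dihedral group on the line. -/
def act : DihedralGroup 0 → ℤ → ℤ
  | DihedralGroup.r i, k => k - 2 * zi i
  | DihedralGroup.sr i, k => 2 * zi i - k

theorem act_r (i : ZMod 0) (k : ℤ) : act (DihedralGroup.r i) k = k - 2 * zi i := rfl

theorem act_sr (i : ZMod 0) (k : ℤ) : act (DihedralGroup.sr i) k = 2 * zi i - k := rfl

theorem act_one (k : ℤ) : act 1 k = k := by
  rw [DihedralGroup.one_def, act_r, zi_zero]
  ring

theorem act_mul (a b : DihedralGroup 0) (k : ℤ) : act (a * b) k = act a (act b k) := by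
  rcases a with i | i <;> rcases b with j | j
  · rw [DihedralGroup.r_mul_r, act_r, act_r, act_r, zi_add]
    ring
  · rw [DihedralGroup.r_mul_sr, act_sr, act_sr, act_r, zi_sub]
    ring
  · rw [DihedralGroup.sr_mul_r, act_sr, act_sr, act_r, zi_add]
    ring
  · rw [DihedralGroup.sr_mul_sr, act_r, act_sr, act_sr, zi_sub]
    ring

theorem act_zero {a : DihedralGroup 0} : act a 0 = 0 ∧ act a 1 ≠ 1 ↔ a = DihedralGroup.sr 0 := by
  rcases a with i | i
  · rw [act_r, act_r]
    constructor
    · rintro ⟨h1, h2⟩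
      omega
    · rintro h
      cases h
  · rw [act_sr, act_sr]
    constructor
    · rintro ⟨h1, -⟩
      have h3 : zi i = zi 0 := by rw [zi_zero]; omega
      rw [zi_inj h3]
    · rintro h
      injection h with h
      rw [h, zi_zero]
      omega

theorem act_one' {a : DihedralGroup 0} : act a 1 = 1 ∧ act a 0 ≠ 0 ↔ a = DihedralGroup.sr 1 := by
  rcases a with i | i
  · rw [act_r, act_r]
    constructor
    · rintro ⟨h1, h2⟩
      omega
    · rintro h
      cases h
  · rw [act_sr, act_sr]
    constructor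
    · rintro ⟨h1, -⟩
      have h3 : zi i = zi 1 := by rw [zi_one]; omega
      rw [zi_inj h3]
    · rintro h
      injection h with h
      rw [h, zi_one]
      omega

end LINM

open LINM in
/-- The theorem for all trees on which `E` acts contains the theorem for the extension `E` of the infinite dihedral
group. -/
theorem dih_core {R : Type} [Ring R] [StarRing R] (E : Type) [Group E]
    (h : ∀ (V : Type) [MulAction E V] (T : SimpleGraph V) (v w : V), T.IsTree →
      (∀ (g : E) (x y : V), T.Adj x y → T.Adj (g • x) (g • y)) → T.Adj v w →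
      (∀ g : E, ¬ (g • v = w ∧ g • w = v)) →
      (∀ g : E, g * g = 1 → (g • v = v ↔ g • w = w)) →
      VanP R E {g | g • v = v ∧ g • w ≠ w} {g | g • v = w} {g | g • w = w ∧ g • v ≠ v})
    (φ : E →* DihedralGroup 0) (hφ : ∀ z : E, z * z = 1 → ∀ i, φ z ≠ DihedralGroup.sr i) (ε : ℤˣ)
    (n : ℕ) (ψ χ : Matrix (Fin n) (Fin n) (MonoidAlgebra R E))
    (hψ : SuppIn {x | φ x = DihedralGroup.sr 0} ψ) (hχ : SuppIn {x | φ x = DihedralGroup.sr 1} χ)
    (hnil : IsNilpotent (nu ε (ψ + (ε : ℤ) • ψᴴ) 0 (χ + (ε : ℤ) • χᴴ))) : SHp ε (UF ψ 0 χ) := by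
  let _ : MulAction E ℤ :=
    { smul := fun g k => act (φ g) k
      one_smul := fun k => by
        change act (φ 1) k = k
        rw [map_one, act_one]
      mul_smul := fun g g' k => by
        change act (φ (g * g')) k = act (φ g) (act (φ g') k)
        rw [map_mul, act_mul] }
  have hsm : ∀ (g : E) (k : ℤ), g • k = act (φ g) k := fun _ _ => rfl
  have hcase : ∀ (g : E), (∃ i : ℤ, ∀ k : ℤ, g • k = k - 2 * i) ∨ (∃ i : ZMod 0, φ g = DihedralGroup.sr i ∧
      ∀ k : ℤ, g • k = 2 * zi i - k) := by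
    intro g
    rcases hg : φ g with i | i
    · exact Or.inl ⟨zi i, fun k => by rw [hsm, hg, act_r]⟩
    · exact Or.inr ⟨i, rfl, fun k => by rw [hsm, hg, act_sr]⟩
  refine h ℤ line 0 1 isTree ?_ (Or.inr rfl) ?_ ?_ ε n ψ 0 χ ?_ ?_ ?_ hnil
  · intro g x y hxy
    rw [line_adj] at hxy ⊢
    rcases hcase g with ⟨i, hi⟩ | ⟨i, -, hi⟩
    · rw [hi, hi]; omega
    · rw [hi, hi]; omega
  · rintro g ⟨h1, h2⟩
    rcases hcase g with ⟨i, hi⟩ | ⟨i, -, hi⟩
    · rw [hi] at h1 h2; omega
    · rw [hi] at h1 h2; omega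
  · intro g hg
    rcases hcase g with ⟨i, hi⟩ | ⟨i, hs, -⟩
    · rw [hi, hi]; omega
    · exact absurd hs (hφ g hg i)
  · intro i j x hx
    have h1 : φ x = DihedralGroup.sr 0 := hψ i j x hx
    exact act_zero.2 h1
  · intro i j x hx
    exact absurd rfl hx
  · intro i j x hx
    have h1 : φ x = DihedralGroup.sr 1 := hχ i j x hx
    exact act_one'.2 h1

/-- The theorem for all trees contains the theorem for all extensions of the infinite dihedral group. -/
theorem dih_of_trees {R : Type} [Ring R] [StarRing R] (h : TreesP R) (E : Type) [Group E]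
    (φ : E →* DihedralGroup 0) (hφ : ∀ z : E, z * z = 1 → ∀ i, φ z ≠ DihedralGroup.sr i) (ε : ℤˣ)
    (n : ℕ) (ψ χ : Matrix (Fin n) (Fin n) (MonoidAlgebra R E))
    (hψ : SuppIn {x | φ x = DihedralGroup.sr 0} ψ) (hχ : SuppIn {x | φ x = DihedralGroup.sr 1} χ)
    (hnil : IsNilpotent (nu ε (ψ + (ε : ℤ) • ψᴴ) 0 (χ + (ε : ℤ) • χᴴ))) : SHp ε (UF ψ 0 χ) :=
  dih_core E (fun V _ T v w h1 h2 h3 h4 h5 => h E V T v w h1 h2 h3 h4 h5) φ hφ ε n ψ χ hψ hχ hnil

/-- All nilpotent forms of all edges of trees with an action of a torsionfree group are zero in `L^p`. -/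
def TreesTF (R : Type) [Ring R] [StarRing R] : Prop :=
  ∀ (G V : Type) [Group G] [MulAction G V] (T : SimpleGraph V) (v w : V), TF G → T.IsTree →
    (∀ (g : G) (x y : V), T.Adj x y → T.Adj (g • x) (g • y)) → T.Adj v w →
    (∀ g : G, ¬ (g • v = w ∧ g • w = v)) →
    VanP R G {g | g • v = v ∧ g • w ≠ w} {g | g • v = w} {g | g • w = w ∧ g • v ≠ v}

/-- The same for all torsionfree extensions of the infinite dihedral group. -/
def DihTF (R : Type) [Ring R] [StarRing R] : Prop :=
  ∀ (E : Type) [Group E] (φ : E →* DihedralGroup 0), TF E → Function.Surjective φ →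
    ∀ (ε : ℤˣ) (n : ℕ) (ψ χ : Matrix (Fin n) (Fin n) (MonoidAlgebra R E)),
      SuppIn {x | φ x = DihedralGroup.sr 0} ψ → SuppIn {x | φ x = DihedralGroup.sr 1} χ →
      IsNilpotent (nu ε (ψ + (ε : ℤ) • ψᴴ) 0 (χ + (ε : ℤ) • χᴴ)) → SHp ε (UF ψ 0 χ)

theorem dihTF_of_treesTF {R : Type} [Ring R] [StarRing R] (h : TreesTF R) : DihTF R := by
  intro E _ φ hE _ ε n ψ χ hψ hχ hnil
  refine dih_core E (fun V _ T v w h1 h2 h3 h4 _ => h E V T v w hE h1 h2 h3 h4) φ ?_ ε n ψ χ hψ hχ
    hnil
  intro z hz i
  rw [hE z 2 (by norm_num) (by rw [pow_two]; exact hz), map_one, DihedralGroup.one_def]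
  intro hc
  cases hc

end Pool.Agent.Lib.MP8a3537.AR
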