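import Pool.Agent.Lib.MP_8a3537_gt.AR.FinD
import Pool.Agent.Lib.MP_8a3537_gt.AR.LIN
import Pool.Agent.Lib.MP_8a3537_gt.AR.DHB

/-!
# Reduction to the extensions of the infinite dihedral group (MP_8a3537_gt, folder AR, helper81)

For every ring `R` with involution: the nilpotent forms of all edges of trees with an action of a torsionfree
group are zero in `L^p` if and only if this holds for the torsionfree groups with a homomorphism onto the
infinite dihedral group (acting on the line).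
-/

set_option autoImplicit false
set_option linter.unusedSectionVars false

namespace Pool.Agent.Lib.MP8a3537.AR

open Matrix Monoid Pool.Agent.Lib.MP8a3537.UV Pool.Agent.Lib.MP8a3537.RO
open Pool.Agent.Lib.MP8a3537.ROK Pool.Agent.Lib.MP8a3537.LL

namespace DHAM

/-- One stage of an admissible sequence. -/
theorem stage {R : Type} [Ring R] [StarRing R] {G V : Type} [Group G] [MulAction G V]
    (hX : ∀ X : DIHM.Dt G, DihX R X.D X.q) (d : V → V → ℕ) (hd : TM G d) (x0 y0 x1 y1 : V)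
    (u0 u1 : G) (a0 : u0 • x0 = y0) (b0 : u0 • y0 = x0) (a1 : u1 • x1 = y1) (b1 : u1 • y1 = x1)
    (h3 : x1 = x0 ∨ y1 = y0) (h4 : d x1 y1 = d x1 x0 + d x0 y0 + d y0 y1)
    (n0 : ∀ h ∈ MulAction.stabilizer G x0 ⊓ MulAction.stabilizer G y0, h * u0 * (h * u0) ≠ 1)
    (n1 : ∀ h ∈ MulAction.stabilizer G x1 ⊓ MulAction.stabilizer G y1, h * u1 * (h * u1) ≠ 1)
    (ε : ℤˣ) (n : ℕ) (ψ χ : Matrix (Fin n) (Fin n) (MonoidAlgebra R G))
    (hψ : SuppIn (La (MulAction.stabilizer G x0 ⊓ MulAction.stabilizer G y0) u0) ψ)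
    (hχ : SuppIn (La (MulAction.stabilizer G x1 ⊓ MulAction.stabilizer G y1) u1) χ)
    (h : IsNilpotent (nu ε (ψ + (ε : ℤ) • ψᴴ) 0 (χ + (ε : ℤ) • χᴴ))) : SHp ε (UF ψ 0 χ) := by
  have hle : MulAction.stabilizer G x1 ⊓ MulAction.stabilizer G y1 ≤
      MulAction.stabilizer G x0 ⊓ MulAction.stabilizer G y0 := ALLM.le_of hd h4
  have hsq : u1 * u1 ∈ MulAction.stabilizer G x1 ⊓ MulAction.stabilizer G y1 :=
    ALLM.sq_mem a1 b1
  have hKg : MulAction.stabilizer G x1 ⊓ MulAction.stabilizer G y1 ≤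
      Kg (MulAction.stabilizer G x0 ⊓ MulAction.stabilizer G y0) u1 := by
    intro k hk
    refine (mem_Kg _ _ _).2 ⟨hle hk, hle ?_⟩
    rw [Subgroup.mem_inf, MulAction.mem_stabilizer_iff, MulAction.mem_stabilizer_iff] at hk ⊢
    have c1 : u1⁻¹ • x1 = y1 := by rw [inv_smul_eq_iff, b1]
    have c2 : u1⁻¹ • y1 = x1 := by rw [inv_smul_eq_iff, a1]
    simp only [mul_smul]
    rw [a1, b1, hk.1, hk.2]
    exact ⟨c2, c1⟩
  have hKg' : Kg (MulAction.stabilizer G x0 ⊓ MulAction.stabilizer G y0) u1 ≤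
      MulAction.stabilizer G x1 ⊓ MulAction.stabilizer G y1 := by
    intro k hk
    rw [mem_Kg, Subgroup.mem_inf, Subgroup.mem_inf, MulAction.mem_stabilizer_iff,
      MulAction.mem_stabilizer_iff, MulAction.mem_stabilizer_iff, MulAction.mem_stabilizer_iff] at hk
    rw [Subgroup.mem_inf, MulAction.mem_stabilizer_iff, MulAction.mem_stabilizer_iff]
    rcases h3 with h3 | h3
    · have c1 := hk.2.1
      rw [mul_smul, mul_smul, ← h3, a1, inv_smul_eq_iff, a1] at c1
      exact ⟨by rw [h3]; exact hk.1.1, c1⟩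
    · have c1 := hk.2.2
      rw [mul_smul, mul_smul, ← h3, b1, inv_smul_eq_iff, b1] at c1
      exact ⟨c1, by rw [h3]; exact hk.1.2⟩
  have hm : ∀ h ∈ Kg (MulAction.stabilizer G x0 ⊓ MulAction.stabilizer G y0) u1,
      h * u1 * (h * u1) ≠ 1 := fun h hh => n1 h (hKg' hh)
  have hχ' : SuppIn (La (Kg (MulAction.stabilizer G x0 ⊓ MulAction.stabilizer G y0) u1) u1) χ := by
    intro i j q hq
    obtain ⟨l, hl, e⟩ := hχ i j q hq
    exact ⟨l, hKg hl, e⟩
  rcases h3 with h3 | h3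
  · have hc := inf_comm (MulAction.stabilizer G x0) (MulAction.stabilizer G y0)
    rw [hc] at n0 hm hψ hχ' hle
    refine dih_blk hX d hd y0 x0 u0 u1 b0 a0 (hle hsq) ?_ n0 hm ε n ψ χ hψ hχ' h
    rw [← h3, a1, h4, h3, (hd.d0 x0 x0).2 rfl]
    omega
  · refine dih_blk hX d hd x0 y0 u0 u1 a0 b0 (hle hsq) ?_ n0 hm ε n ψ χ hψ hχ' h
    rw [← h3, b1]
    have c1 := hd.cm y1 x1
    have c2 := hd.cm y1 x0
    have c3 := hd.cm x0 x1
    have c4 := (hd.d0 y1 y1).2 rfl
    rw [← h3] at h4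
    omega

theorem tf_sub {G : Type} [Group G] (hG : TF G) (H : Subgroup G) : TF H := by
  intro z n hn hz
  apply Subtype.ext
  exact hG z n hn (by rw [← Subgroup.coe_pow, hz, Subgroup.coe_one])

end DHAM

open DHAM in
/-- From the torsionfree extensions of the infinite dihedral group to all trees. -/
theorem treesTF_of_dihTF {R : Type} [Ring R] [StarRing R] (h : DihTF R) : TreesTF R := by
  intro G V _ _ T v w hG hT hact hvw hinv
  have hd : TM G (V := V) T.dist := specFPT G V T hT hact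
  letI := fcSHp (MonoidAlgebra R G)
  have htwo : ∀ g : G, g * g = 1 → (g • v = v ↔ g • w = w) := by
    intro g hg
    have e : g = 1 := hG g 2 (by norm_num) (by rw [pow_two]; exact hg)
    rw [e, one_smul, one_smul]
    exact ⟨fun _ => rfl, fun _ => rfl⟩
  have hX : ∀ X : DIHM.Dt G, DihX R X.D X.q := fun X =>
    h X.D X.q (tf_pushout X.f_inj fun b => tf_sub hG (X.S b)) X.surj
  refine mFLT R G V (fun _ => False) T v w (fun N hN x y h => h.elim) hT hact hvw hinv htwo ?_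
  intro x y u h1 h2 h3 h4 h5 h6 h7
  exact ⟨0, Or.inr fun ε n ψ χ hψ hχ hn => stage hX T.dist hd (x 0) (y 0) (x 1) (y 1) (u 0) (u 1)
    (h2 0).1 (h2 0).2 (h2 1).1 (h2 1).2 (h3 0) (h4 0) (h7 0) (h7 1) ε n ψ χ hψ hχ hn⟩

/-- **Reduction to the extensions of the infinite dihedral group.** -/
theorem treesTF_iff (R : Type) [Ring R] [StarRing R] : TreesTF R ↔ DihTF R :=
  ⟨dihTF_of_treesTF, treesTF_of_dihTF⟩

end Pool.Agent.Lib.MP8a3537.AR
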