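import Pool.Agent.Lib.MP_8a3537_gt.CR.Basic
import Pool.Agent.Lib.MP_8a3537_gt.UV.RES
import Pool.Agent.Lib.MP_8a3537_gt.ROK.Defs

/-!
# The lift of nilpotent forms to amalgams, groups with elements of order two (helper81)

The files `AR/DIH.lean`, `AR/DHB.lean`, `AR/LFT.lean` without the conditions on elements of order two. `AdmT`: the
admissible sequences. `AmalT K L h u f`: the amalgam of `⟨K, u⟩` and `⟨L, f⟩` over `L`. `LiftT`: the form `UF ψ 0 χ` is the
image of a nilpotent form over the group ring of the amalgam with supports in `K u`, `L f`. `lift_admT`: this is true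
for the nilpotent forms with supports in `K i * u i`, `K (i + 1) * u (i + 1)` of an admissible sequence.
-/

set_option autoImplicit false
set_option linter.unusedSectionVars false

namespace Pool.Agent.Lib.MP8a3537.AR

open Matrix Monoid Pool.Agent.Lib.MP8a3537.UV Pool.Agent.Lib.MP8a3537.RO
open Pool.Agent.Lib.MP8a3537.ROK

section Defs

variable {G : Type} [Group G]

/-- The two groups `⟨K, u⟩` and `⟨L, f⟩`. -/
def FacT (K L : Subgroup G) (u f : G) : Bool → Subgroup G
  | true => K ⊔ Subgroup.zpowers u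
  | false => L ⊔ Subgroup.zpowers f

theorem facT_le {K L : Subgroup G} (h : L ≤ K) (u f : G) : ∀ b, L ≤ FacT K L u f b
  | true => h.trans le_sup_left
  | false => le_sup_left

/-- The amalgam of `⟨K, u⟩` and `⟨L, f⟩` over `L`. -/
abbrev AmalT (K L : Subgroup G) (h : L ≤ K) (u f : G) : Type :=
  PushoutI fun b => Subgroup.inclusion (facT_le h u f b)

/-- The homomorphism from the amalgam to `G`. -/
def toGT (K L : Subgroup G) (h : L ≤ K) (u f : G) : AmalT K L h u f →* G :=
  PushoutI.lift (fun b => (FacT K L u f b).subtype) L.subtype fun _ => rfl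

/-- The subset `F` of a factor, as a subset of the amalgam. -/
def InFT (K L : Subgroup G) (h : L ≤ K) (u f : G) (b : Bool) (F : Set G) : Set (AmalT K L h u f) :=
  {z | ∃ s : FacT K L u f b, (s : G) ∈ F ∧ z = PushoutI.of b s}

/-- The pair `ψ`, `χ` is the image of a nilpotent pair over the group ring of the amalgam. -/
def LiftT {R : Type} [Ring R] [StarRing R] (K L : Subgroup G) (h : L ≤ K) (u f : G) (ε : ℤˣ)
    (n : ℕ) (ψ χ : Matrix (Fin n) (Fin n) (MonoidAlgebra R G)) : Prop :=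
  ∃ ψ' χ' : Matrix (Fin n) (Fin n) (MonoidAlgebra R (AmalT K L h u f)),
    SuppIn (InFT K L h u f true {a | ∃ k ∈ K, a = k * u}) ψ' ∧
    SuppIn (InFT K L h u f false {a | ∃ k ∈ L, a = k * f}) χ' ∧
    IsNilpotent (nu ε (ψ' + (ε : ℤ) • ψ'ᴴ) 0 (χ' + (ε : ℤ) • χ'ᴴ)) ∧
    ψ'.map (MonoidAlgebra.mapDomainRingHom R (toGT K L h u f)) = ψ ∧
    χ'.map (MonoidAlgebra.mapDomainRingHom R (toGT K L h u f)) = χ

end Defs

section AdmD

/-- The stabilizer of `x` and `y`. -/
abbrev SbT (G : Type) {V : Type} [Group G] [MulAction G V] (x y : V) : Subgroup G :=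
  MulAction.stabilizer G x ⊓ MulAction.stabilizer G y

/-- Admissible sequences. -/
structure AdmT {G V : Type} [Group G] [MulAction G V] (T : SimpleGraph V) (v w : V) (x y : ℕ → V)
    (u : ℕ → G) : Prop where
  x0 : x 0 = v
  y0 : y 0 = w
  path : ∀ i, T.dist (x (i + 1)) (y (i + 1)) =
    T.dist (x (i + 1)) (x i) + T.dist (x i) (y i) + T.dist (y i) (y (i + 1))
  grow : ∀ i, T.dist (x i) (y i) < T.dist (x (i + 1)) (y (i + 1))
  exch : ∀ i, 1 ≤ i → u i • x i = y i ∧ u i • y i = x i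
  one : ∀ i, 1 ≤ i → x (i + 1) = x i ∨ y (i + 1) = y i
  rep : ∀ i, 1 ≤ i → ∃ k ∈ SbT G (x i) (y i), u (i + 2) = k * u i

end AdmD

namespace DI2M

section Supp

variable {R Q : Type} [Ring R] [StarRing R] [Group Q]

theorem supp_mul {l m n : Type} [Fintype m] (M : Matrix l m (MonoidAlgebra R Q))
    (N : Matrix m n (MonoidAlgebra R Q)) (i : l) (j : n) (q : Q) (hq : ((M * N) i j).coeff q ≠ 0) :
    ∃ k x, (M i k).coeff x ≠ 0 ∧ (N k j).coeff (x⁻¹ * q) ≠ 0 := by
  classical
  rw [Matrix.mul_apply, MonoidAlgebra.coeff_sum, Finsupp.finsetSum_apply] at hq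
  obtain ⟨k, -, hk⟩ := Finset.exists_ne_zero_of_sum_ne_zero hq
  rw [MonoidAlgebra.coeff_mul_apply_left, Finsupp.sum] at hk
  obtain ⟨a, ha, h2⟩ := Finset.exists_ne_zero_of_sum_ne_zero hk
  exact ⟨k, a, Finsupp.mem_support_iff.1 ha, fun h0 => h2 (by rw [h0, mul_zero])⟩

/-- the pull back to a subgroup -/
noncomputable def pull {G : Type} [Group G] (K : Subgroup G) {m n : Type}
    (M : Matrix m n (MonoidAlgebra R G)) : Matrix m n (MonoidAlgebra R K) :=
  fun i j => MonoidAlgebra.comapDomain K.subtype K.subtype_injective (M i j)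

theorem pull_map {G : Type} [Group G] (K : Subgroup G) {m n : Type}
    (M : Matrix m n (MonoidAlgebra R G)) (h : ∀ i j g, (M i j).coeff g ≠ 0 → g ∈ K) :
    (pull K M).map (emb R K) = M := by
  ext1 i j
  refine MonoidAlgebra.mapDomain_comapDomain ?_ K.subtype_injective
  intro g hg
  have h1 : g ∈ K := h i j g (Finsupp.mem_support_iff.1 (Finset.mem_coe.1 hg))
  exact ⟨⟨g, h1⟩, rfl⟩

theorem pull_coeff {G : Type} [Group G] (K : Subgroup G) {m n : Type}
    (M : Matrix m n (MonoidAlgebra R G)) (h : ∀ i j g, (M i j).coeff g ≠ 0 → g ∈ K) (i : m) (j : n)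
    (q : K) : (pull K M i j).coeff q = (M i j).coeff (q : G) := by
  have h1 := congrFun (congrFun (pull_map K M h) i) j
  rw [← RESAux.emb_coeff_mem K (pull K M i j) q]
  exact congrArg (fun x : MonoidAlgebra R G => x.coeff (q : G)) h1

end Supp

/-! ### Groups with a subgroup of index two -/

section Ix

variable {G : Type} [Group G]

/-- `f` normalizes `L`. -/
def Ns (L : Subgroup G) (f : G) : Prop := ∀ h ∈ L, f * h * f⁻¹ ∈ L ∧ f⁻¹ * h * f ∈ L

/-- `K ∪ K g`. -/
def AG (K : Subgroup G) (g : G) (hN : Ns K g) (h2 : g * g ∈ K) : Subgroup G where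
  carrier := {x | x ∈ K ∨ x * g⁻¹ ∈ K}
  one_mem' := Or.inl K.one_mem
  mul_mem' := by
    intro x y hx hy
    rcases hx with hx | hx <;> rcases hy with hy | hy
    · exact Or.inl (mul_mem hx hy)
    · right
      rw [mul_assoc]
      exact mul_mem hx hy
    · right
      have e : x * y * g⁻¹ = (x * g⁻¹) * (g * y * g⁻¹) := by group
      rw [e]
      exact mul_mem hx (hN y hy).1
    · left
      have e : x * y = (x * g⁻¹) * (g * (y * g⁻¹) * g⁻¹) * (g * g) := by group
      rw [e]
      exact mul_mem (mul_mem hx (hN _ hy).1) h2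
  inv_mem' := by
    intro x hx
    rcases hx with hx | hx
    · exact Or.inl (inv_mem hx)
    · right
      have e : x⁻¹ * g⁻¹ = (g⁻¹ * (x * g⁻¹)⁻¹ * g) * (g * g)⁻¹ := by group
      rw [e]
      exact mul_mem (hN _ (inv_mem hx)).2 (inv_mem h2)

variable {K : Subgroup G} {g : G} {hN : Ns K g} {h2 : g * g ∈ K}

theorem mem_AG {x : G} : x ∈ AG K g hN h2 ↔ x ∈ K ∨ x * g⁻¹ ∈ K := Iff.rfl

theorem two {x y : G} (hx : x * g⁻¹ ∈ K) (hy : y * g⁻¹ ∈ K) (hN : Ns K g) (h2 : g * g ∈ K) :
    x * y ∈ K := by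
  have e : x * y = (x * g⁻¹) * (g * (y * g⁻¹) * g⁻¹) * (g * g) := by group
  rw [e]
  exact mul_mem (mul_mem hx (hN _ hy).1) h2

end Ix

/-! ### The amalgam -/

/-- Two groups `⟨K b, g b⟩` with a common subgroup `L`. -/
structure Dt (G : Type) [Group G] where
  /-- the subgroups of index two -/
  K : Bool → Subgroup G
  /-- the elements outside -/
  g : Bool → G
  /-- the common subgroup -/
  L : Subgroup G
  hL : ∀ b, L ≤ K b
  hN : ∀ b, Ns (K b) (g b)
  h2 : ∀ b, g b * g b ∈ K b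

section Am

variable {G : Type} [Group G] (X : Dt G)

/-- `⟨K b, g b⟩`. -/
def Dt.S (b : Bool) : Subgroup G := AG (X.K b) (X.g b) (X.hN b) (X.h2 b)

/-- The inclusion of `L`. -/
def Dt.f (b : Bool) : X.L →* X.S b := Subgroup.inclusion fun _ hx => Or.inl (X.hL b hx)

theorem Dt.f_inj (b : Bool) : Function.Injective (X.f b) := Subgroup.inclusion_injective _

/-- The amalgam. -/
abbrev Dt.D : Type := PushoutI X.f

/-- The homomorphism to `G`. -/
def Dt.p : X.D →* G := PushoutI.lift (fun b => (X.S b).subtype) X.L.subtype fun _ => rfl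

/-- The letters. -/
def Dt.LD (b : Bool) : Set X.D :=
  {z | ∃ x : X.S b, (x : G) * (X.g b)⁻¹ ∈ X.K b ∧ z = PushoutI.of b x}

theorem Dt.p_of (b : Bool) (x : X.S b) : X.p (PushoutI.of b x) = x :=
  PushoutI.lift_of (fun b => (X.S b).subtype) _ _ x

theorem Dt.p_base (x : X.L) : X.p (PushoutI.base X.f x) = x :=
  PushoutI.lift_base (fun b => (X.S b).subtype) X.L.subtype _ x

/-- The alternating products of `k` letters, the first of type `s`. -/
def Dt.W : ℕ → Bool → Set X.D
  | 0, _ => {1}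
  | k + 1, s => {z | ∃ x ∈ X.LD s, ∃ z1 ∈ Dt.W k (!s), z = x * z1}

theorem Dt.LD_inv {b : Bool} {z : X.D} (h : z ∈ X.LD b) : z⁻¹ ∈ X.LD b := by
  obtain ⟨x, hx, rfl⟩ := h
  refine ⟨x⁻¹, ?_, by rw [map_inv]⟩
  have e : ((x⁻¹ : X.S b) : G) * (X.g b)⁻¹ =
      ((X.g b)⁻¹ * ((x : G) * (X.g b)⁻¹)⁻¹ * X.g b) * (X.g b * X.g b)⁻¹ := by
    show (x : G)⁻¹ * (X.g b)⁻¹ = _
    group
  rw [e]
  exact mul_mem (X.hN b _ (inv_mem hx)).2 (inv_mem (X.h2 b))

theorem Dt.base_W (h : X.L) {k : ℕ} {s : Bool} {z : X.D} (hz : z ∈ X.W (k + 1) s) :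
    PushoutI.base X.f h * z ∈ X.W (k + 1) s := by
  obtain ⟨x, ⟨a, ha, rfl⟩, z1, hz1, rfl⟩ := hz
  refine ⟨PushoutI.of s (X.f s h * a), ⟨_, ?_, rfl⟩, z1, hz1, ?_⟩
  · have e : ((X.f s h * a : X.S s) : G) * (X.g s)⁻¹ = h * ((a : G) * (X.g s)⁻¹) := by
      show ((h : G) * a) * _ = _
      group
    rw [e]
    exact mul_mem (X.hL s h.2) ha
  · rw [map_mul, PushoutI.of_apply_eq_base, mul_assoc]

variable {V : Type} [MulAction G V] {P : Bool → Set V}

theorem Dt.act (hP : ∀ s, ∀ z ∈ X.LD s, ∀ v ∈ P (!s), X.p z • v ∈ P s) (hne : ∀ s, (P s).Nonempty)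
    (k : ℕ) : ∀ s, ∃ v : V, ∀ z ∈ X.W k s, X.p z • v ∈ P s := by
  induction k with
  | zero =>
    intro s
    obtain ⟨v, hv⟩ := hne s
    refine ⟨v, fun z hz => ?_⟩
    rw [show z = 1 from hz, map_one, one_smul]
    exact hv
  | succ k ih =>
    intro s
    obtain ⟨v, hv⟩ := ih (!s)
    refine ⟨v, fun z hz => ?_⟩
    obtain ⟨x, hx, z1, hz1, rfl⟩ := hz
    rw [map_mul, mul_smul]
    exact hP s x hx _ (hv z1 hz1)

theorem Dt.inj (hKL : X.K false = X.L)
    (hP : ∀ s, ∀ z ∈ X.LD s, ∀ v ∈ P (!s), X.p z • v ∈ P s) (hne : ∀ s, (P s).Nonempty)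
    (hU : ∀ a ∈ X.LD false, ∀ a' ∈ X.LD false, ∀ v ∈ P true, ∀ v' ∈ P true, ∀ h ∈ X.K true,
      X.p a • v = h • X.p a' • v' → h ∈ X.L) (k : ℕ) :
    ∀ s, Set.InjOn X.p (X.W k s) := by
  induction k with
  | zero =>
    intro s z hz z' hz' _
    rw [show z = 1 from hz, show z' = 1 from hz']
  | succ k ih =>
    rintro s z ⟨x, ⟨a, ha, rfl⟩, z1, hz1, rfl⟩ z' ⟨x', ⟨a', ha', rfl⟩, z1', hz1', rfl⟩ heq
    rw [map_mul, map_mul, X.p_of, X.p_of] at heq
    obtain ⟨h0, hh0⟩ : ∃ h0 : X.S s, h0 = a⁻¹ * a' := ⟨_, rfl⟩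
    have hc : (h0 : G) = (a : G)⁻¹ * a' := by rw [hh0]; rfl
    have h0K : (h0 : G) ∈ X.K s := by
      have e : (h0 : G) = (X.g s)⁻¹ * (((a : G) * (X.g s)⁻¹)⁻¹ * ((a' : G) * (X.g s)⁻¹)) * X.g s := by
        rw [hc]
        group
      rw [e]
      exact (X.hN s _ (mul_mem (inv_mem ha) ha')).2
    have heq1 : X.p z1 = h0 * X.p z1' := by
      rw [hc, mul_assoc, ← heq]
      group
    have h0L : (h0 : G) ∈ X.L := by
      cases s with
      | false => rw [← hKL]; exact h0K
      | true =>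
        cases k with
        | zero =>
          rw [show z1 = 1 from hz1, show z1' = 1 from hz1', map_one, mul_one] at heq1
          rw [← heq1]
          exact one_mem _
        | succ k =>
          obtain ⟨y, hy, z2, hz2, rfl⟩ := hz1
          obtain ⟨y', hy', z2', hz2', rfl⟩ := hz1'
          obtain ⟨v, hv⟩ := X.act hP hne k (!(!true))
          refine hU y hy y' hy' _ (hv z2 hz2) _ (hv z2' hz2') _ h0K ?_
          rw [← mul_smul, ← map_mul, heq1, map_mul]
          simp only [mul_smul]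
    have hz : z1 = PushoutI.base X.f ⟨h0, h0L⟩ * z1' := by
      cases k with
      | zero =>
        have e1 : z1 = 1 := hz1
        have e2 : z1' = 1 := hz1'
        rw [e1, e2, map_one, mul_one] at heq1
        have e3 : (⟨h0, h0L⟩ : X.L) = 1 := Subtype.ext heq1.symm
        rw [e1, e2, e3, map_one, mul_one]
      | succ k =>
        refine ih _ hz1 (X.base_W _ hz1') ?_
        rw [map_mul, X.p_base, heq1]
    rw [hz, ← mul_assoc, ← PushoutI.of_apply_eq_base X.f s, ← map_mul]
    congr 2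
    apply Subtype.ext
    show (a : G) * h0 = a'
    rw [hc]
    group

end Am

/-! ### The lift of the forms -/

section Forms

variable {R : Type} [Ring R] [StarRing R]

theorem mr_star {E F : Type} [Group E] [Group F] (f : E →* F) (x : MonoidAlgebra R E) :
    MonoidAlgebra.mapDomainRingHom R f (star x) = star (MonoidAlgebra.mapDomainRingHom R f x) := by
  induction x using MonoidAlgebra.induction_linear with
  | zero => simp
  | add f g hf hg => simp only [star_add, map_add, hf, hg]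
  | single a r => simp [star_single]

theorem supp_map {E F : Type} [Group E] [Group F] (f : E →* F) (x : MonoidAlgebra R E) (z : F)
    (hz : (MonoidAlgebra.mapDomainRingHom R f x).coeff z ≠ 0) : ∃ y, x.coeff y ≠ 0 ∧ z = f y := by
  classical
  have h1 : z ∈ (Finsupp.mapDomain f x.coeff).support := Finsupp.mem_support_iff.2 hz
  have h2 := Finsupp.mapDomain_support h1
  rw [Finset.mem_image] at h2
  obtain ⟨y, hy, hyz⟩ := h2
  exact ⟨y, Finsupp.mem_support_iff.1 hy, hyz.symm⟩

variable {G : Type} [Group G] (X : Dt G)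

/-- A matrix with supports in `K g`, lifted to the amalgam. -/
noncomputable def lf (b : Bool) {m n : Type} (M : Matrix m n (MonoidAlgebra R G)) :
    Matrix m n (MonoidAlgebra R X.D) :=
  (pull (X.S b) M).map (MonoidAlgebra.mapDomainRingHom R (PushoutI.of (φ := X.f) b))

theorem mem_S {b : Bool} {g : G} (h : g ∈ La (X.K b) (X.g b)) :
    g ∈ X.S b ∧ g * (X.g b)⁻¹ ∈ X.K b := by
  obtain ⟨l, hl, rfl⟩ := h
  have e : l * X.g b * (X.g b)⁻¹ = l := by group
  exact ⟨Or.inr (by rw [e]; exact hl), by rw [e]; exact hl⟩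

theorem lf_map {b : Bool} {m n : Type} {M : Matrix m n (MonoidAlgebra R G)}
    (h : SuppIn (La (X.K b) (X.g b)) M) :
    (lf X b M).map (MonoidAlgebra.mapDomainRingHom R X.p) = M := by
  have h1 := pull_map (X.S b) M fun i j g hg => (mem_S X (h i j g hg)).1
  conv_rhs => rw [← h1]
  ext1 i j
  show MonoidAlgebra.mapDomainRingHom R X.p
    (MonoidAlgebra.mapDomainRingHom R (PushoutI.of (φ := X.f) b) (pull (X.S b) M i j)) =
    emb R (X.S b) (pull (X.S b) M i j)
  generalize pull (X.S b) M i j = x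
  induction x using MonoidAlgebra.induction_linear with
  | zero => simp
  | add f g hf hg => rw [map_add, map_add, map_add, hf, hg]
  | single a r =>
    simp only [MonoidAlgebra.mapDomainRingHom_apply, MonoidAlgebra.mapDomain_single]
    rw [X.p_of]
    rfl

theorem lf_supp {b : Bool} {m n : Type} {M : Matrix m n (MonoidAlgebra R G)}
    (h : SuppIn (La (X.K b) (X.g b)) M) : SuppIn (X.LD b) (lf X b M) := by
  intro i j z hz
  obtain ⟨y, hy, rfl⟩ := supp_map _ _ _ hz
  rw [pull_coeff (X.S b) M fun i j g hg => (mem_S X (h i j g hg)).1] at hy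
  exact ⟨y, (mem_S X (h i j _ hy)).2, rfl⟩

/-- the type of the first letter -/
def ty {n : ℕ} : Fin n ⊕ Fin n → Bool
  | .inl _ => false
  | .inr _ => true

theorem supp_add {m n : Type} {b : Bool} {M : Matrix m n (MonoidAlgebra R X.D)}
    {N : Matrix m n (MonoidAlgebra R X.D)} (hM : SuppIn (X.LD b) M) (hN : SuppIn (X.LD b) N) :
    SuppIn (X.LD b) (M + N) := by
  intro i j z hz
  by_cases h1 : (M i j).coeff z = 0
  · refine hN i j z fun h2 => hz ?_
    rw [Matrix.add_apply, MonoidAlgebra.coeff_add, Finsupp.add_apply, h1, h2, add_zero]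
  · exact hM i j z h1

theorem supp_zsmul {m n : Type} {b : Bool} (ε : ℤˣ) {M : Matrix m n (MonoidAlgebra R X.D)}
    (hM : SuppIn (X.LD b) M) : SuppIn (X.LD b) ((ε : ℤ) • M) := by
  intro i j z hz
  rcases Int.units_eq_one_or ε with h | h
  · rw [h] at hz
    exact hM i j z (by simpa using hz)
  · rw [h] at hz
    exact hM i j z (by simpa using hz)

theorem supp_star {m n : Type} {b : Bool} {M : Matrix m n (MonoidAlgebra R X.D)}
    (hM : SuppIn (X.LD b) M) : SuppIn (X.LD b) Mᴴ := by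
  intro i j z hz
  rw [conjTranspose_apply, star_coeff] at hz
  have h1 := hM j i z⁻¹ fun h => hz (by rw [h, star_zero])
  simpa using X.LD_inv h1

theorem pow_supp {n : ℕ} {a b : Matrix (Fin n) (Fin n) (MonoidAlgebra R X.D)} {ε : ℤˣ}
    (ha : SuppIn (X.LD true) a) (hb : SuppIn (X.LD false) b) (k : ℕ) :
    ∀ i j z, ((nu ε a 0 b ^ k) i j).coeff z ≠ 0 → z ∈ X.W k (ty i) := by
  classical
  induction k with
  | zero =>
    intro i j z hz
    rw [pow_zero, Matrix.one_apply] at hz
    split_ifs at hz with h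
    · rw [MonoidAlgebra.one_def, MonoidAlgebra.coeff_single, Finsupp.single_apply] at hz
      split_ifs at hz with h2
      · exact h2.symm
      · exact absurd rfl hz
    · simp at hz
  | succ k ih =>
    intro i j z hz
    rw [pow_succ'] at hz
    obtain ⟨m, x, h1, h2⟩ := supp_mul _ _ _ _ _ hz
    have h3 := ih m j _ h2
    have hx : x ∈ X.LD (ty i) ∧ ty m = !(ty i) := by
      rcases i with i | i <;> rcases m with m | m
      · exfalso
        apply h1
        simp [nu]
      · exact ⟨supp_zsmul X ε hb i m x h1, rfl⟩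
      · exact ⟨ha i m x h1, rfl⟩
      · exfalso
        apply h1
        simp [nu]
    refine ⟨x, hx.1, x⁻¹ * z, ?_, by group⟩
    rw [← hx.2]
    exact h3

/-- The main point: nilpotent forms lift to the amalgam. -/
theorem nil {V : Type} [MulAction G V] {P : Bool → Set V} (hKL : X.K false = X.L)
    (hP : ∀ s, ∀ z ∈ X.LD s, ∀ v ∈ P (!s), X.p z • v ∈ P s) (hne : ∀ s, (P s).Nonempty)
    (hU : ∀ a ∈ X.LD false, ∀ a' ∈ X.LD false, ∀ v ∈ P true, ∀ v' ∈ P true, ∀ h ∈ X.K true,
      X.p a • v = h • X.p a' • v' → h ∈ X.L) {n : ℕ} {ε : ℤˣ}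
    {a b : Matrix (Fin n) (Fin n) (MonoidAlgebra R X.D)}
    (ha : SuppIn (X.LD true) a) (hb : SuppIn (X.LD false) b)
    (h : IsNilpotent (nu ε (a.map (MonoidAlgebra.mapDomainRingHom R X.p)) 0
      (b.map (MonoidAlgebra.mapDomainRingHom R X.p)))) : IsNilpotent (nu ε a 0 b) := by
  obtain ⟨k, hk⟩ := h
  refine ⟨k, ?_⟩
  have e : (nu ε (a.map (MonoidAlgebra.mapDomainRingHom R X.p)) 0
      (b.map (MonoidAlgebra.mapDomainRingHom R X.p))) ^ k =
      (nu ε a 0 b ^ k).map (MonoidAlgebra.mapDomainRingHom R X.p) := by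
    have e1 := CR.map_nu (MonoidAlgebra.mapDomainRingHom R X.p) (mr_star X.p) ε a 0 b
    have e2 : (0 : Matrix (Fin n) (Fin n) (MonoidAlgebra R X.D)).map
        (MonoidAlgebra.mapDomainRingHom R X.p) = 0 := by
      ext1 i j
      exact map_zero (MonoidAlgebra.mapDomainRingHom R X.p)
    rw [e2] at e1
    rw [← e1]
    exact (map_pow (MonoidAlgebra.mapDomainRingHom R X.p).mapMatrix _ k).symm
  rw [e] at hk
  ext1 i j
  have h1 := congrFun (congrFun hk i) j
  have h2 : Finsupp.mapDomain X.p ((nu ε a 0 b ^ k) i j).coeff = Finsupp.mapDomain X.p 0 := by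
    rw [Finsupp.mapDomain_zero]
    exact congrArg MonoidAlgebra.coeff h1
  have h3 := Finsupp.mapDomain_injOn (M := R) (X.W k (ty i)) (X.inj hKL hP hne hU k (ty i))
    (fun z hz => pow_supp X ha hb k i j z (Finsupp.mem_support_iff.1 (Finset.mem_coe.1 hz)))
    (by simp) h2
  exact MonoidAlgebra.coeff_injective h3


end Forms

section Geo

variable {G V : Type} [Group G] [MulAction G V] {d : V → V → ℕ} (hd : TM G d)

include hd

/-- two points at the same distance on a path -/
theorem uniq {y a b p : V} (ha : d y p = d y a + d a p) (hb : d y p = d y b + d b p)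
    (hab : d y a = d y b) : a = b := by
  rw [← hd.d0]
  have h1 := hd.four a b y p
  have h2 := hd.cm a y
  have h3 := hd.cm b y
  omega

/-- the basic configuration -/
structure Cf (d : V → V → ℕ) (x y : V) (g f : G) : Prop where
  ne : x ≠ y
  gx : g • x = y
  gy : g • y = x
  ffx : f • f • x = x
  ffy : f • f • y = y
  hb : d y (f • y) = d y x + d x (f • y)

theorem far {x y : V} {g f : G} (c : Cf d x y g f) {v : V} (hv : d x v = d x y + d y v) :
    d y (f • v) = d y (f • y) + d (f • y) (f • v) ∧ d y (f • v) = d y x + d x (f • v) := by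
  have n0 : d x y ≠ 0 := fun h => c.ne ((hd.d0 x y).1 h)
  have i1 := hd.iso f x v
  have i2 := hd.iso f x y
  have i3 := hd.iso f y v
  have i4 := hd.iso f y (f • y)
  have i5 := hd.iso f y x
  have i6 := hd.iso f x (f • y)
  rw [c.ffy] at i4 i6
  have hb := c.hb
  have c1 := hd.cm y x
  have c2 := hd.cm (f • y) (f • x)
  have c3 := hd.cm (f • y) y
  have c4 := hd.cm (f • x) y
  have h4 := hd.four y (f • y) (f • x) (f • v)
  have t1 := hd.tri y (f • y) (f • v)
  have t2 := hd.tri y x (f • v)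
  have t3 := hd.tri x (f • y) (f • v)
  omega

theorem fx {x y : V} {g f : G} (c : Cf d x y g f) :
    d y (f • y) = d y (f • x) + d (f • x) (f • y) := by
  have i4 := hd.iso f y (f • y)
  have i5 := hd.iso f y x
  have i6 := hd.iso f x (f • y)
  rw [c.ffy] at i4 i6
  have hb := c.hb
  have c2 := hd.cm (f • y) (f • x)
  have c3 := hd.cm (f • y) y
  have c4 := hd.cm (f • x) y
  omega

/-- an element of `K` which keeps a point beyond `f y` is in `K ∩ f K f⁻¹` -/
theorem key {x y : V} {g f : G} (c : Cf d x y g f) {h : G} (_ : h • x = x) (hy : h • y = y)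
    {p : V} (h1 : d y p = d y (f • y) + d (f • y) p)
    (h2 : d y p = d y (f • y) + d (h • f • y) p) : h • f • y = f • y ∧ h • f • x = f • x := by
  have i1 := hd.iso h y (f • y)
  rw [hy] at i1
  have e1 : h • f • y = f • y := (uniq hd h1 (by omega) i1.symm).symm
  refine ⟨e1, ?_⟩
  have h3 := fx hd c
  have i2 := hd.iso h y (f • x)
  have i3 := hd.iso h (f • x) (f • y)
  rw [hy] at i2
  rw [e1] at i3
  exact (uniq hd h3 (by omega) i2.symm).symm


end Geo

section Lift

/-- A point on the path from `x` to `z` is fixed by the elements which fix `x`, `z`. -/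
theorem fix_of {G V : Type} [Group G] [MulAction G V] {d : V → V → ℕ} (hd : TM G d) (g : G)
    (x y z : V) (h : d x z = d x y + d y z) (hx : g • x = x) (hz : g • z = z) : g • y = y := by
  have i1 := hd.iso g x y
  have i2 := hd.iso g y z
  rw [hx] at i1
  rw [hz] at i2
  rw [← hd.d0]
  have h3 := hd.four (g • y) y x z
  have h4 := hd.cm (g • y) x
  have h5 := hd.cm y x
  omega

/-- The stabilizer of a longer path is smaller. -/
theorem le_of {G V : Type} [Group G] [MulAction G V] {d : V → V → ℕ} (hd : TM G d) {x y x' y' : V}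
    (h : d x' y' = d x' x + d x y + d y y') :
    MulAction.stabilizer G x' ⊓ MulAction.stabilizer G y' ≤
      MulAction.stabilizer G x ⊓ MulAction.stabilizer G y := by
  intro g hg
  rw [Subgroup.mem_inf, MulAction.mem_stabilizer_iff, MulAction.mem_stabilizer_iff] at hg ⊢
  have t1 := hd.tri x' x y'
  have t2 := hd.tri x y y'
  have t3 := hd.tri x' y y'
  have t4 := hd.tri x' x y
  exact ⟨fix_of hd g x' x y' (by omega) hg.1 hg.2, fix_of hd g x' y y' (by omega) hg.1 hg.2⟩


variable {G : Type} [Group G]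

theorem ag_eq {K : Subgroup G} {g : G} (hN : Ns K g) (h2 : g * g ∈ K) :
    K ⊔ Subgroup.zpowers g = AG K g hN h2 := by
  apply le_antisymm
  · refine sup_le (fun k hk => Or.inl hk) ?_
    rw [Subgroup.zpowers_le]
    right
    rw [mul_inv_cancel]
    exact K.one_mem
  · intro x hx
    rcases hx with hx | hx
    · exact Subgroup.mem_sup_left hx
    · have e : x = x * g⁻¹ * g := by group
      rw [e]
      exact mul_mem (Subgroup.mem_sup_left hx)
        (Subgroup.mem_sup_right (Subgroup.mem_zpowers g))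

theorem lift_X {R : Type} [Ring R] [StarRing R] (X : Dt G) {V : Type} [MulAction G V]
    {P : Bool → Set V} (hKL : X.K false = X.L)
    (hP : ∀ s, ∀ z ∈ X.LD s, ∀ v ∈ P (!s), X.p z • v ∈ P s) (hne : ∀ s, (P s).Nonempty)
    (hU : ∀ a ∈ X.LD false, ∀ a' ∈ X.LD false, ∀ v ∈ P true, ∀ v' ∈ P true, ∀ h ∈ X.K true,
      X.p a • v = h • X.p a' • v' → h ∈ X.L) (S : Bool → Subgroup G) (hS : S = X.S)
    (hLS : ∀ b, X.L ≤ S b) (ε : ℤˣ) (n : ℕ)
    (ψ χ : Matrix (Fin n) (Fin n) (MonoidAlgebra R G))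
    (hψ : SuppIn (La (X.K true) (X.g true)) ψ) (hχ : SuppIn (La (X.K false) (X.g false)) χ)
    (h : IsNilpotent (nu ε (ψ + (ε : ℤ) • ψᴴ) 0 (χ + (ε : ℤ) • χᴴ))) :
    ∃ ψ' χ' : Matrix (Fin n) (Fin n) (MonoidAlgebra R (PushoutI fun b =>
        Subgroup.inclusion (hLS b))),
      SuppIn {z | ∃ s : S true, (s : G) * (X.g true)⁻¹ ∈ X.K true ∧ z = PushoutI.of true s} ψ' ∧
      SuppIn {z | ∃ s : S false, (s : G) * (X.g false)⁻¹ ∈ X.K false ∧ z = PushoutI.of false s} χ' ∧
      IsNilpotent (nu ε (ψ' + (ε : ℤ) • ψ'ᴴ) 0 (χ' + (ε : ℤ) • χ'ᴴ)) ∧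
      ψ'.map (MonoidAlgebra.mapDomainRingHom R
        (PushoutI.lift (fun b => (S b).subtype) X.L.subtype fun _ => rfl)) = ψ ∧
      χ'.map (MonoidAlgebra.mapDomainRingHom R
        (PushoutI.lift (fun b => (S b).subtype) X.L.subtype fun _ => rfl)) = χ := by
  subst hS
  have s1 := lf_supp X hψ
  have s2 := lf_supp X hχ
  have m1 := lf_map X hψ
  have m2 := lf_map X hχ
  have hstar := mr_star (R := R) X.p
  have p1 : (lf X true ψ + (ε : ℤ) • (lf X true ψ)ᴴ).map
      (MonoidAlgebra.mapDomainRingHom R X.p) = ψ + (ε : ℤ) • ψᴴ := by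
    rw [Matrix.map_add _ (fun a b => map_add _ a b), CR.map_zsmul', CR.map_conj _ hstar, m1]
  have p2 : (lf X false χ + (ε : ℤ) • (lf X false χ)ᴴ).map
      (MonoidAlgebra.mapDomainRingHom R X.p) = χ + (ε : ℤ) • χᴴ := by
    rw [Matrix.map_add _ (fun a b => map_add _ a b), CR.map_zsmul', CR.map_conj _ hstar, m2]
  have hn : IsNilpotent (nu ε (lf X true ψ + (ε : ℤ) • (lf X true ψ)ᴴ) 0
      (lf X false χ + (ε : ℤ) • (lf X false χ)ᴴ)) := by
    refine nil X hKL hP hne hU
      (supp_add X s1 (supp_zsmul X ε (supp_star X s1)))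
      (supp_add X s2 (supp_zsmul X ε (supp_star X s2))) ?_
    rw [p1, p2]
    exact h
  exact ⟨lf X true ψ, lf X false χ, s1, s2, hn, m1, m2⟩

/-- The lift, for `g` which exchanges `x`, `y`, and `f` which exchanges `y` and `f y`, `x` between them. -/
theorem lift_cf {R : Type} [Ring R] [StarRing R] {V : Type} [MulAction G V] (d : V → V → ℕ)
    (hd : TM G d) (x y : V) (g f : G) (K L : Subgroup G) (mK : ∀ k, k ∈ K ↔ k • x = x ∧ k • y = y)
    (mL : ∀ k, k ∈ L ↔ k • y = y ∧ k • f • y = f • y) (hLK : L ≤ K) (hgx : g • x = y)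
    (hgy : g • y = x) (ffy : f • f • y = y) (hb : d y (f • y) = d y x + d x (f • y))
    (ne : x ≠ y) (ε : ℤˣ) (n : ℕ)
    (ψ χ : Matrix (Fin n) (Fin n) (MonoidAlgebra R G)) (hψ : SuppIn {a | ∃ k ∈ K, a = k * g} ψ)
    (hχ : SuppIn {a | ∃ k ∈ L, a = k * f} χ)
    (h : IsNilpotent (nu ε (ψ + (ε : ℤ) • ψᴴ) 0 (χ + (ε : ℤ) • χᴴ))) :
    LiftT K L hLK g f ε n ψ χ := by
  have hff2 : f * f ∈ L := by
    rw [mL, mul_smul, mul_smul, ffy]
    exact ⟨rfl, rfl⟩
  have ffx : f • f • x = x := by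
    have := ((mK _).1 (hLK hff2)).1
    rwa [mul_smul] at this
  have gi : g⁻¹ • x = y ∧ g⁻¹ • y = x :=
    ⟨by rw [inv_smul_eq_iff, hgy], by rw [inv_smul_eq_iff, hgx]⟩
  have fi : f⁻¹ • y = f • y := by rw [inv_smul_eq_iff, ffy]
  have cf : Cf d x y g f := ⟨ne, hgx, hgy, ffx, ffy, hb⟩
  have hN1 : Ns K g := by
    intro k hk
    rw [mK] at hk
    constructor
    · rw [mK]
      simp only [mul_smul]
      rw [gi.1, gi.2, hk.1, hk.2]
      exact ⟨hgy, hgx⟩
    · rw [mK]
      simp only [mul_smul]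
      rw [hgx, hgy, hk.1, hk.2]
      exact ⟨gi.2, gi.1⟩
  have hN2 : Ns L f := by
    intro k hk
    rw [mL] at hk
    constructor
    · rw [mL]
      simp only [mul_smul]
      rw [fi, hk.2, ffy, inv_smul_smul, hk.1]
      exact ⟨rfl, rfl⟩
    · rw [mL]
      simp only [mul_smul]
      rw [ffy, hk.1, hk.2, inv_smul_smul, fi]
      exact ⟨rfl, rfl⟩
  have hg2 : g * g ∈ K := by
    rw [mK, mul_smul, mul_smul]
    exact ⟨by rw [hgx, hgy], by rw [hgy, hgx]⟩
  obtain ⟨X, hX1, hX2, hX3, hX4, hX5⟩ : ∃ X : Dt G, X.K true = K ∧ X.K false = L ∧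
      X.g true = g ∧ X.g false = f ∧ X.L = L :=
    ⟨{ K := fun b => match b with
        | true => K
        | false => L
       g := fun b => match b with
        | true => g
        | false => f
       L := L
       hL := fun b => by
        cases b
        · exact le_rfl
        · exact hLK
       hN := fun b => by
        cases b
        · exact hN2
        · exact hN1
       h2 := fun b => by
        cases b
        · exact hff2
        · exact hg2 }, rfl, rfl, rfl, rfl, rfl⟩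
  obtain ⟨P, hPt, hPf⟩ : ∃ P : Bool → Set V, P true = {p | d x p = d x y + d y p} ∧
      P false = {p | d y p = d y x + d x p} :=
    ⟨fun b => match b with
      | true => {p | d x p = d x y + d y p}
      | false => {p | d y p = d y x + d x p}, rfl, rfl⟩
  subst hX1
  subst hX5
  subst hX3
  subst hX4
  have pl : ∀ s, ∀ z ∈ X.LD s, ∃ k ∈ X.K s, X.p z = k * X.g s := by
    rintro s z ⟨a, ha, rfl⟩
    refine ⟨_, ha, ?_⟩
    rw [X.p_of]
    group
  -- letters of the second kind
  have fr : ∀ z ∈ X.LD false, ∀ v ∈ P true,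
      d y (X.p z • v) = d y (X.g false • y) + d (X.g false • y) (X.p z • v) ∧
      d y (X.p z • v) = d y x + d x (X.p z • v) := by
    intro z hz v hv
    obtain ⟨k, hk, e⟩ := pl false z hz
    rw [hX2] at hk
    have k3 := ((mL k).1 hk).2
    have k1 := (mK _).1 (hLK hk)
    rw [hPt] at hv
    have h1 := far hd cf hv
    have i1 := hd.iso k y (X.g false • v)
    have i2 := hd.iso k (X.g false • y) (X.g false • v)
    have i3 := hd.iso k x (X.g false • v)
    rw [k1.2] at i1
    rw [k3] at i2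
    rw [k1.1] at i3
    rw [e, mul_smul]
    omega
  have hfac : FacT (X.K true) X.L (X.g true) (X.g false) = X.S := by
    funext b
    cases b with
    | true => exact ag_eq (X.hN true) (X.h2 true)
    | false =>
      show X.L ⊔ Subgroup.zpowers (X.g false) = _
      rw [← hX2]
      exact ag_eq (X.hN false) (X.h2 false)
  have hK := lift_X (R := R) X (P := P) hX2 ?_ ?_ ?_ _ hfac
    (facT_le hLK (X.g true) (X.g false)) ε n ψ χ hψ (by rw [hX2]; exact hχ) h
  · obtain ⟨ψ', χ', h1, h2, h3, h4, h5⟩ := hK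
    refine ⟨ψ', χ', ?_, ?_, h3, h4, h5⟩
    · intro i j z hz
      obtain ⟨s, hs, rfl⟩ := h1 i j z hz
      exact ⟨s, ⟨_, hs, by group⟩, rfl⟩
    · intro i j z hz
      obtain ⟨s, hs, rfl⟩ := h2 i j z hz
      exact ⟨s, ⟨_, by rw [← hX2]; exact hs, by group⟩, rfl⟩
  · intro s z hz v hv
    cases s with
    | false =>
      rw [hPf]
      exact (fr z hz v hv).2
    | true =>
      obtain ⟨k, hk, e⟩ := pl true z hz
      rw [mK] at hk
      have hv' : d y v = d y x + d x v := by
        have : v ∈ P false := hv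
        rw [hPf] at this
        exact this
      rw [hPt, e]
      show d x ((k * X.g true) • v) = d x y + d y ((k * X.g true) • v)
      have i1 := hd.iso (k * X.g true) y v
      have i2 := hd.iso (k * X.g true) x v
      have e1 : (k * X.g true) • y = x := by rw [mul_smul, hgy, hk.1]
      have e2 : (k * X.g true) • x = y := by rw [mul_smul, hgx, hk.2]
      rw [e1] at i1
      rw [e2] at i2
      have := hd.cm x y
      omega
  · intro s
    cases s with
    | false =>
      refine ⟨x, ?_⟩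
      rw [hPf]
      show d y x = d y x + d x x
      rw [(hd.d0 x x).2 rfl, add_zero]
    | true =>
      refine ⟨y, ?_⟩
      rw [hPt]
      show d x y = d x y + d y y
      rw [(hd.d0 y y).2 rfl, add_zero]
  · intro a ha a' ha' v hv v' hv' k hk he
    rw [mK] at hk
    have h1 := (fr a ha v hv).1
    have h2 := (fr a' ha' v' hv').1
    have i1 := hd.iso k y (X.p a' • v')
    have i2 := hd.iso k (X.g false • y) (X.p a' • v')
    rw [hk.2, ← he] at i1
    rw [← he] at i2
    have h3 := key hd cf hk.1 hk.2 h1 (by omega)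
    rw [mL]
    exact ⟨hk.2, h3.1⟩

end Lift

end DI2M

section AdmT

variable {G V : Type} [Group G] [MulAction G V] {T : SimpleGraph V} {v w : V} {x y : ℕ → V}
  {u : ℕ → G}

theorem DI2M.ne_of (hd : TM G (V := V) T.dist) (h : AdmT T v w x y u) (i : ℕ) (hi : 1 ≤ i) :
    x i ≠ y i := by
  obtain ⟨j, rfl⟩ : ∃ j, i = j + 1 := ⟨i - 1, by omega⟩
  intro h0
  have h1 := h.grow j
  have h2 := (hd.d0 (x (j + 1)) (y (j + 1))).2 h0
  omega

/-- The stabilizers of an admissible sequence decrease. -/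
theorem AdmT.le (hd : TM G (V := V) T.dist) (h : AdmT T v w x y u) (i : ℕ) :
    SbT G (x (i + 1)) (y (i + 1)) ≤ SbT G (x i) (y i) :=
  DI2M.le_of hd (h.path i)

open DI2M in
/-- **The lift.** -/
theorem lift_admT {R : Type} [Ring R] [StarRing R] (hd : TM G (V := V) T.dist)
    (h : AdmT T v w x y u) (i : ℕ) (hi : 1 ≤ i)
    (hle : SbT G (x (i + 1)) (y (i + 1)) ≤ SbT G (x i) (y i)) (ε : ℤˣ) (n : ℕ)
    (ψ χ : Matrix (Fin n) (Fin n) (MonoidAlgebra R G))
    (hψ : SuppIn {a | ∃ k ∈ SbT G (x i) (y i), a = k * u i} ψ)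
    (hχ : SuppIn {a | ∃ k ∈ SbT G (x (i + 1)) (y (i + 1)), a = k * u (i + 1)} χ)
    (hn : IsNilpotent (nu ε (ψ + (ε : ℤ) • ψᴴ) 0 (χ + (ε : ℤ) • χᴴ))) :
    LiftT (SbT G (x i) (y i)) (SbT G (x (i + 1)) (y (i + 1))) hle (u i) (u (i + 1)) ε n ψ χ := by
  obtain ⟨e1, e2⟩ := h.exch i hi
  obtain ⟨e3, e4⟩ := h.exch (i + 1) (by omega)
  have hp := h.path i
  rcases h.one i hi with e | e
  · -- `x (i + 1) = x i`
    rw [e] at e3 e4 hp
    refine lift_cf T.dist hd (y i) (x i) (u i) (u (i + 1)) _ _ ?_ ?_ hle e2 e1 ?_ ?_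
      (ne_of hd h i hi).symm ε n ψ χ hψ hχ hn
    · intro k
      rw [Subgroup.mem_inf, MulAction.mem_stabilizer_iff, MulAction.mem_stabilizer_iff, and_comm]
    · intro k
      rw [Subgroup.mem_inf, MulAction.mem_stabilizer_iff, MulAction.mem_stabilizer_iff, e, e3]
    · rw [e3, e4]
    · rw [e3]
      have := hd.d0 (x i) (x i)
      have h0 : T.dist (x i) (x i) = 0 := this.2 rfl
      omega
  · -- `y (i + 1) = y i`
    rw [e] at e3 e4 hp
    refine lift_cf T.dist hd (x i) (y i) (u i) (u (i + 1)) _ _ ?_ ?_ hle e1 e2 ?_ ?_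
      (ne_of hd h i hi) ε n ψ χ hψ hχ hn
    · intro k
      rw [Subgroup.mem_inf, MulAction.mem_stabilizer_iff, MulAction.mem_stabilizer_iff]
    · intro k
      rw [Subgroup.mem_inf, MulAction.mem_stabilizer_iff, MulAction.mem_stabilizer_iff, e, e4,
        and_comm]
    · rw [e4, e3]
    · rw [e4]
      have h0 : T.dist (y i) (y i) = 0 := (hd.d0 (y i) (y i)).2 rfl
      have h1 := hd.cm (x (i + 1)) (y i)
      have h2 := hd.cm (x (i + 1)) (x i)
      have h3 := hd.cm (x i) (y i)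
      omega

end AdmT

end Pool.Agent.Lib.MP8a3537.AR
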