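import Pool.Agent.Lib.MP_8a3537_gt.AR.DI3

/-!
# The lift of nilpotent forms to amalgams, short definitions (helper81, after `AR/LFU.lean` of helper31)

The same as `AmalT`, `toGT`, `InFT`, `LiftT` of `AR/DI2.lean`, with a constant for each step, so that every term is
short: `AmE K L h u f` is the amalgam of `⟨K, u⟩` and `⟨L, f⟩` over `L`, `ofE` are the inclusions of the two factors, `toE`
is the homomorphism to `G`. `injE_admT`: `toE` is injective if `K i = K (i + 1)`.
-/

set_option autoImplicit false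

namespace Pool.Agent.Lib.MP8a3537.AR

open Matrix Monoid Pool.Agent.Lib.MP8a3537.UV

/-- The nilpotent forms over `R[E]` with supports in `C`, `D`: `UF ψ 0 χ` with `nu` nilpotent. -/
def NilE {R E : Type} [Ring R] [StarRing R] [Group E] (C D : Set E) (ε : ℤˣ) (n : ℕ)
    (ψ χ : Matrix (Fin n) (Fin n) (MonoidAlgebra R E)) : Prop :=
  SuppIn C ψ ∧ SuppIn D χ ∧ IsNilpotent (nu ε (ψ + (ε : ℤ) • ψᴴ) 0 (χ + (ε : ℤ) • χᴴ))

/-- The image of a matrix under the homomorphism `R[E] → R[G]` of a homomorphism `E → G`. -/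
noncomputable def mapE {R E G : Type} [Ring R] [Group E] [Group G] (φ : E →* G) {n : ℕ}
    (M : Matrix (Fin n) (Fin n) (MonoidAlgebra R E)) : Matrix (Fin n) (Fin n) (MonoidAlgebra R G) :=
  M.map (MonoidAlgebra.mapDomainRingHom R φ)

/-- The images of the nilpotent forms over `R[E]` with supports in `C`, `D`. -/
def ImgE {R E G : Type} [Ring R] [StarRing R] [Group E] [Group G] (φ : E →* G) (C D : Set E)
    (ε : ℤˣ) (n : ℕ) (ψ χ : Matrix (Fin n) (Fin n) (MonoidAlgebra R G)) : Prop :=
  ∃ ψ' χ' : Matrix (Fin n) (Fin n) (MonoidAlgebra R E),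
    NilE C D ε n ψ' χ' ∧ mapE φ ψ' = ψ ∧ mapE φ χ' = χ

/-- The group structure of an amalgam. -/
noncomputable def grpE {ι H : Type} {G : ι → Type} [∀ i, Group (G i)] [Group H]
    (φ : ∀ i, H →* G i) : Group (PushoutI φ) :=
  inferInstance

section

variable {G : Type} [Group G]

/-- The inclusion of `L` in `⟨K, u⟩` and `⟨L, f⟩`. -/
def incE (K L : Subgroup G) (h : L ≤ K) (u f : G) (b : Bool) : L →* FacT K L u f b :=
  Subgroup.inclusion (facT_le h u f b)

/-- The amalgam of `⟨K, u⟩` and `⟨L, f⟩` over `L`. -/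
def AmE (K L : Subgroup G) (h : L ≤ K) (u f : G) : Type :=
  PushoutI (incE K L h u f)

noncomputable instance instGroupAmE (K L : Subgroup G) (h : L ≤ K) (u f : G) :
    Group (AmE K L h u f) :=
  grpE (incE K L h u f)

/-- The homomorphisms of the two factors to the amalgam. -/
noncomputable def ofE (K L : Subgroup G) (h : L ≤ K) (u f : G) (b : Bool) :
    FacT K L u f b →* AmE K L h u f :=
  PushoutI.of (φ := incE K L h u f) b

/-- The homomorphism from the amalgam to `G` which is the inclusion on the factors. -/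
noncomputable def toE (K L : Subgroup G) (h : L ≤ K) (u f : G) : AmE K L h u f →* G :=
  PushoutI.lift (φ := incE K L h u f) (fun b => (FacT K L u f b).subtype) L.subtype fun _ => rfl

/-- The subset `F` of a factor, as a subset of the amalgam. -/
def InE (K L : Subgroup G) (h : L ≤ K) (u f : G) (b : Bool) (F : Set G) : Set (AmE K L h u f) :=
  {z | ∃ s : FacT K L u f b, (s : G) ∈ F ∧ z = ofE K L h u f b s}

/-- The coset `K u`. -/
def CstE (K : Subgroup G) (u : G) : Set G := {a | ∃ k ∈ K, a = k * u}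

/-- The pair `ψ`, `χ` is the image of a nilpotent pair over the group ring of the amalgam, with supports in `K u`
(in the first factor) and `L f` (in the second factor). -/
def LiftE {R : Type} [Ring R] [StarRing R] (K L : Subgroup G) (h : L ≤ K) (u f : G) (ε : ℤˣ)
    (n : ℕ) (ψ χ : Matrix (Fin n) (Fin n) (MonoidAlgebra R G)) : Prop :=
  ImgE (toE K L h u f) (InE K L h u f true (CstE K u)) (InE K L h u f false (CstE L f)) ε n ψ χ

theorem liftE_of_liftT {R : Type} [Ring R] [StarRing R] {K L : Subgroup G} {h : L ≤ K} {u f : G}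
    {ε : ℤˣ} {n : ℕ} {ψ χ : Matrix (Fin n) (Fin n) (MonoidAlgebra R G)}
    (hF : LiftT K L h u f ε n ψ χ) : LiftE K L h u f ε n ψ χ := by
  obtain ⟨ψ', χ', h1, h2, h3, h4, h5⟩ := hF
  exact ⟨ψ', χ', ⟨h1, h2, h3⟩, h4, h5⟩

open Pool.Agent.Lib.MP8a3537.ROK in
/-- The amalgam is a subgroup of `G` if `K i = K (i + 1)`. -/
theorem injE_admT {V : Type} [MulAction G V] {T : SimpleGraph V} {v w : V} {x y : ℕ → V}
    {u : ℕ → G} (hd : TM G (V := V) T.dist) (h : AdmT T v w x y u) (i : ℕ) (hi : 1 ≤ i)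
    (hle : SbT G (x (i + 1)) (y (i + 1)) ≤ SbT G (x i) (y i))
    (hge : SbT G (x i) (y i) ≤ SbT G (x (i + 1)) (y (i + 1))) :
    Function.Injective (toE (SbT G (x i) (y i)) (SbT G (x (i + 1)) (y (i + 1))) hle (u i)
      (u (i + 1))) :=
  inj_admT hd h i hi hle hge

end

end Pool.Agent.Lib.MP8a3537.AR
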