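import Pool.Agent.Lib.MP_8a3537_gt.AR.LAM
import Pool.Agent.Lib.MP_8a3537_gt.CR.Basic
import Pool.Agent.Lib.MP_8a3537_gt.UV.RES
import Pool.Agent.Lib.MP_8a3537_gt.RO.SUB
import Pool.Agent.Lib.MP_8a3537_gt.ROK.Defs

/-!
# Every coefficient ring (MP_8a3537_gt, folder AR): the lines with a homomorphism `lam` (helper81)
-/

set_option autoImplicit false
set_option linter.unusedSectionVars false

namespace Pool.Agent.Lib.MP8a3537.AR

open Matrix Pool.Agent.Lib.MP8a3537.UV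

namespace LBKM

section Map

variable {A A' : Type} [Ring A] [StarRing A] [Ring A'] [StarRing A'] (F : A →+* A')

theorem hypP_ring (hF : ∀ a, F (star a) = star (F a)) {ε : ℤˣ} {ι : Type} [Fintype ι]
    [DecidableEq ι] {Ψ : Matrix ι ι A} (h : HypP ε Ψ) : HypP ε (Ψ.map F) := by
  obtain ⟨Θ, e, Z₁, Z₂, h1, h2, h3, h4, h5⟩ := h
  have hpol : Ψ.map F + (ε : ℤ) • (Ψ.map F)ᴴ = (Ψ + (ε : ℤ) • Ψᴴ).map F := by
    rw [Matrix.map_add _ (fun a b => map_add F a b), CR.map_zsmul', CR.map_conj F hF]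
  have hone : (1 : Matrix ι ι A).map F = 1 := Matrix.map_one _ F.map_zero F.map_one
  refine ⟨Θ.map F, e.map F, Z₁.map F, Z₂.map F, ?_, ?_, ?_, ?_, ?_⟩
  · rw [hpol, ← Matrix.map_mul, h1, hone]
  · rw [hpol, ← Matrix.map_mul, h2, hone]
  · rw [← Matrix.map_mul, h3]
  · rw [← CR.map_conj F hF, ← Matrix.map_mul, ← Matrix.map_mul, h4,
      Matrix.map_sub _ (fun a b => map_sub F a b), CR.map_zsmul', CR.map_conj F hF]
  · have e1 : (1 : Matrix ι ι A') - e.map F = (1 - e).map F := by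
      rw [Matrix.map_sub _ (fun a b => map_sub F a b), hone]
    rw [e1, ← CR.map_conj F hF, ← Matrix.map_mul, ← Matrix.map_mul, h5,
      Matrix.map_sub _ (fun a b => map_sub F a b), CR.map_zsmul', CR.map_conj F hF]

theorem shp_ring (hF : ∀ a, F (star a) = star (F a)) {ε : ℤˣ} {ι : Type} [Fintype ι]
    [DecidableEq ι] {Ψ : Matrix ι ι A} (h : SHp ε Ψ) : SHp ε (Ψ.map F) := by
  obtain ⟨m, hm⟩ := h
  refine ⟨m, ?_⟩
  have h1 := hypP_ring F hF hm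
  rw [fromBlocks_map, CR.map_hyp] at h1
  simpa using h1

end Map

section Pol

variable {A : Type} [Ring A] [StarRing A] {n : Type} [Fintype n] [DecidableEq n]

theorem inv_uf (ε : ℤˣ) (ψ χ : Matrix n n A)
    (h : IsNilpotent (nu ε (ψ + (ε : ℤ) • ψᴴ) 0 (χ + (ε : ℤ) • χᴴ))) :
    LAMM.Inv ε (UF ψ 0 χ) := by
  obtain ⟨w, hw⟩ := h.isUnit_one_add
  obtain ⟨J, hJ⟩ : ∃ J : Matrix (n ⊕ n) (n ⊕ n) A, J = fromBlocks 0 1 ((ε : ℤ) • 1) 0 := ⟨_, rfl⟩
  obtain ⟨J', hJ'⟩ : ∃ J' : Matrix (n ⊕ n) (n ⊕ n) A, J' = fromBlocks 0 ((ε : ℤ) • 1) 1 0 :=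
    ⟨_, rfl⟩
  have h1 : J * J' = 1 := by
    rw [hJ, hJ', fromBlocks_multiply]
    rcases Int.units_eq_one_or ε with h | h <;> simp [h, fromBlocks_one]
  have h2 : J' * J = 1 := by
    rw [hJ, hJ', fromBlocks_multiply]
    rcases Int.units_eq_one_or ε with h | h <;> simp [h, fromBlocks_one]
  have h3 : UF ψ 0 χ + (ε : ℤ) • (UF ψ 0 χ)ᴴ = J * w := by
    rw [hw, hJ]
    unfold UF nu
    rw [← fromBlocks_one, fromBlocks_add, fromBlocks_conjTranspose, fromBlocks_smul, fromBlocks_add,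
      fromBlocks_multiply]
    rcases Int.units_eq_one_or ε with h | h
    · simp [h]
    · simp [h]
      abel
  obtain ⟨v, hv⟩ : ∃ v : Matrix (n ⊕ n) (n ⊕ n) A, v = ↑w⁻¹ := ⟨_, rfl⟩
  obtain ⟨x, hx⟩ : ∃ x : Matrix (n ⊕ n) (n ⊕ n) A, x = ↑w := ⟨_, rfl⟩
  have h4 : x * v = 1 := by rw [hx, hv]; exact w.mul_inv
  have h5 : v * x = 1 := by rw [hx, hv]; exact w.inv_mul
  rw [← hx] at h3
  refine ⟨v * J', ?_, ?_⟩
  · rw [h3]
    calc J * x * (v * J') = J * (x * v) * J' := by simp only [Matrix.mul_assoc]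
      _ = 1 := by rw [h4, Matrix.mul_one, h1]
  · rw [h3]
    calc v * J' * (J * x) = v * (J' * J) * x := by simp only [Matrix.mul_assoc]
      _ = 1 := by rw [h2, Matrix.mul_one, h5]

end Pol

section Supp

variable {R Q : Type} [Ring R] [StarRing R] [Group Q]

theorem supp_mul {l m n : Type} [Fintype m] (M : Matrix l m (MonoidAlgebra R Q))
    (N : Matrix m n (MonoidAlgebra R Q)) (i : l) (j : n) (q : Q) (hq : ((M * N) i j).coeff q ≠ 0) :
    ∃ k x, (M i k).coeff x ≠ 0 ∧ (N k j).coeff (x⁻¹ * q) ≠ 0 := by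
  classical
  rw [Matrix.mul_apply, MonoidAlgebra.coeff_sum, Finsupp.finsetSum_apply] at hq
  obtain ⟨k, -, hk⟩ := Finset.exists_ne_zero_of_sum_ne_zero hq
  rw [MonoidAlgebra.coeff_mul_apply_left, Finsupp.sum] at hk
  obtain ⟨a, ha, h2⟩ := Finset.exists_ne_zero_of_sum_ne_zero hk
  exact ⟨k, a, Finsupp.mem_support_iff.1 ha, fun h0 => h2 (by rw [h0, mul_zero])⟩

/-- the pull back to a subgroup -/
noncomputable def pull {G : Type} [Group G] (K : Subgroup G) {m n : Type}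
    (M : Matrix m n (MonoidAlgebra R G)) : Matrix m n (MonoidAlgebra R K) :=
  fun i j => MonoidAlgebra.comapDomain K.subtype K.subtype_injective (M i j)

theorem pull_map {G : Type} [Group G] (K : Subgroup G) {m n : Type}
    (M : Matrix m n (MonoidAlgebra R G)) (h : ∀ i j g, (M i j).coeff g ≠ 0 → g ∈ K) :
    (pull K M).map (emb R K) = M := by
  ext1 i j
  refine MonoidAlgebra.mapDomain_comapDomain ?_ K.subtype_injective
  intro g hg
  have h1 : g ∈ K := h i j g (Finsupp.mem_support_iff.1 (Finset.mem_coe.1 hg))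
  exact ⟨⟨g, h1⟩, rfl⟩

theorem pull_coeff {G : Type} [Group G] (K : Subgroup G) {m n : Type}
    (M : Matrix m n (MonoidAlgebra R G)) (h : ∀ i j g, (M i j).coeff g ≠ 0 → g ∈ K) (i : m) (j : n)
    (q : K) : (pull K M i j).coeff q = (M i j).coeff (q : G) := by
  have h1 := congrFun (congrFun (pull_map K M h) i) j
  rw [← RESAux.emb_coeff_mem K (pull K M i j) q]
  exact congrArg (fun x : MonoidAlgebra R G => x.coeff (q : G)) h1

theorem emb_inj {G : Type} [Group G] (K : Subgroup G) {m : Type}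
    {M : Matrix m m (MonoidAlgebra R K)} (h : M.map (emb R K) = 0) : M = 0 := by
  ext i j q
  rw [← RESAux.emb_coeff_mem K (M i j) q]
  have h1 := congrFun (congrFun h i) j
  change emb R K (M i j) = 0 at h1
  rw [h1]
  simp

end Supp

end LBKM

/-- Forms supported in a subgroup `Q` in elements of odd degree, `a ∈ Q` of odd degree. -/
theorem lam_core {R G : Type} [Ring R] [StarRing R] [Group G] (Q : Subgroup G)
    (lam : Q →* Multiplicative ℤ) (a : Q) (hgo : Odd (Multiplicative.toAdd (lam a)))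
    (ε : ℤˣ) (n : ℕ) (ψ χ : Matrix (Fin n) (Fin n) (MonoidAlgebra R G))
    (hψ : ∀ i j q, (ψ i j).coeff q ≠ 0 → ∃ hq : q ∈ Q, Odd (Multiplicative.toAdd (lam ⟨q, hq⟩)))
    (hχ : ∀ i j q, (χ i j).coeff q ≠ 0 → ∃ hq : q ∈ Q, Odd (Multiplicative.toAdd (lam ⟨q, hq⟩)))
    (hnil : IsNilpotent (nu ε (ψ + (ε : ℤ) • ψᴴ) 0 (χ + (ε : ℤ) • χᴴ))) : SHp ε (UF ψ 0 χ) := by
  classical
  have hψQ : ∀ i j q, (ψ i j).coeff q ≠ 0 → q ∈ Q := fun i j q hq => (hψ i j q hq).1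
  have hχQ : ∀ i j q, (χ i j).coeff q ≠ 0 → q ∈ Q := fun i j q hq => (hχ i j q hq).1
  have mψ := LBKM.pull_map Q ψ hψQ
  have mχ := LBKM.pull_map Q χ hχQ
  have cψ := LBKM.pull_coeff Q ψ hψQ
  have cχ := LBKM.pull_coeff Q χ hχQ
  obtain ⟨ψ', hψ'⟩ : ∃ ψ', ψ' = LBKM.pull Q ψ := ⟨_, rfl⟩
  obtain ⟨χ', hχ'⟩ : ∃ χ', χ' = LBKM.pull Q χ := ⟨_, rfl⟩
  rw [← hψ'] at mψ cψ
  rw [← hχ'] at mχ cχ
  have hstar : ∀ a : MonoidAlgebra R Q, emb R Q (star a) = star (emb R Q a) :=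
    fun a => RO.SUBM.emb_star a
  have oψ : ∀ i j (q : Q), (ψ' i j).coeff q ≠ 0 → Odd (Multiplicative.toAdd (lam q)) := by
    intro i j q hq
    rw [cψ i j q] at hq
    exact (hψ i j q hq).2
  have oχ : ∀ i j (q : Q), (χ' i j).coeff q ≠ 0 → Odd (Multiplicative.toAdd (lam q)) := by
    intro i j q hq
    rw [cχ i j q] at hq
    exact (hχ i j q hq).2
  -- nilpotency over `R[Q]`
  have hnil' : IsNilpotent (nu ε (ψ' + (ε : ℤ) • ψ'ᴴ) 0 (χ' + (ε : ℤ) • χ'ᴴ)) := by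
    obtain ⟨k, hk⟩ := hnil
    refine ⟨k, LBKM.emb_inj Q ?_⟩
    have e1 : (nu ε (ψ' + (ε : ℤ) • ψ'ᴴ) 0 (χ' + (ε : ℤ) • χ'ᴴ)).map (emb R Q) =
        nu ε (ψ + (ε : ℤ) • ψᴴ) 0 (χ + (ε : ℤ) • χᴴ) := by
      rw [CR.map_nu _ hstar, Matrix.map_add _ (fun a b => map_add (emb R Q) a b),
        Matrix.map_add _ (fun a b => map_add (emb R Q) a b), CR.map_zsmul', CR.map_zsmul',
        CR.map_conj _ hstar, CR.map_conj _ hstar, mψ, mχ]
      simp
    have h2 : ((nu ε (ψ' + (ε : ℤ) • ψ'ᴴ) 0 (χ' + (ε : ℤ) • χ'ᴴ)) ^ k).map (emb R Q) =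
        ((nu ε (ψ' + (ε : ℤ) • ψ'ᴴ) 0 (χ' + (ε : ℤ) • χ'ᴴ)).map (emb R Q)) ^ k :=
      map_pow (emb R Q).mapMatrix _ k
    rw [h2, e1, hk]
  have hI := LBKM.inv_uf ε ψ' χ' hnil'
  -- the change of basis
  have s1 : LAMM.sc R (Fin n) a * LAMM.sc R (Fin n) a⁻¹ = 1 := by
    rw [LAMM.sc_mul, mul_inv_cancel, LAMM.sc_one]
  have s2 : LAMM.sc R (Fin n) a⁻¹ * LAMM.sc R (Fin n) a = 1 := by
    rw [LAMM.sc_mul, inv_mul_cancel, LAMM.sc_one]
  have iso : Isometric ε (UF ψ' 0 χ') (fromBlocks ψ' (LAMM.sc R (Fin n) a) 0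
      (LAMM.sc R (Fin n) a⁻¹ * χ' * LAMM.sc R (Fin n) a)) := by
    refine ⟨fromBlocks 1 0 0 (LAMM.sc R (Fin n) a), fromBlocks 1 0 0 (LAMM.sc R (Fin n) a⁻¹), 0,
      ?_, ?_, ?_⟩
    · rw [fromBlocks_multiply]
      simp [s1, fromBlocks_one]
    · rw [fromBlocks_multiply]
      simp [s2, fromBlocks_one]
    · unfold UF
      rw [fromBlocks_conjTranspose, fromBlocks_multiply, fromBlocks_multiply]
      simp [LAMM.sc_star]
  obtain ⟨Θ, t1, t2⟩ := LAMM.inv_map iso hI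
  have hs : ∀ (b : Q) (i j : Fin n) (q : Q), (LAMM.sc R (Fin n) b i j).coeff q ≠ 0 → q = b := by
    intro b i j q hq
    unfold LAMM.sc at hq
    rw [Matrix.diagonal_apply] at hq
    split_ifs at hq with h
    · rw [MonoidAlgebra.coeff_single, Finsupp.single_apply] at hq
      split_ifs at hq with h2
      · exact h2.symm
      · exact absurd rfl hq
    · simp at hq
  have hΨ : SHp ε (fromBlocks ψ' (LAMM.sc R (Fin n) a) 0
      (LAMM.sc R (Fin n) a⁻¹ * χ' * LAMM.sc R (Fin n) a)) := by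
    refine lam_odd lam ε _ Θ ?_ t1 t2
    rintro (i | i) (j | j) q hq
    · exact oψ i j q hq
    · rw [fromBlocks_apply₁₂] at hq
      rw [hs a i j q hq]
      exact hgo
    · rw [fromBlocks_apply₂₁] at hq
      simp at hq
    · rw [fromBlocks_apply₂₂] at hq
      obtain ⟨k, x, h3, h4⟩ := LBKM.supp_mul _ _ _ _ _ hq
      obtain ⟨k', y, h5, h6⟩ := LBKM.supp_mul _ _ _ _ _ h3
      have e1 := hs _ _ _ _ h4
      have e2 := hs _ _ _ _ h5
      have e3 := oχ _ _ _ h6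
      have e4 : Multiplicative.toAdd (lam q) = Multiplicative.toAdd (lam y) +
          Multiplicative.toAdd (lam (y⁻¹ * x)) + Multiplicative.toAdd (lam (x⁻¹ * q)) := by
        rw [← toAdd_mul, ← toAdd_mul, ← map_mul, ← map_mul]
        congr 2
        group
      have e5 : Multiplicative.toAdd (lam y) = -Multiplicative.toAdd (lam a) := by
        rw [e2, map_inv, toAdd_inv]
      rw [e4, e1, e5]
      obtain ⟨c, hc⟩ := hgo
      obtain ⟨d, hd⟩ := e3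
      exact ⟨d, by rw [hc, hd]; ring⟩
  have h9 := LBKM.shp_ring (emb R Q) hstar (stab_of_isom iso hΨ)
  rw [CR.map_UF _ hstar, mψ, mχ] at h9
  simpa using h9

/-- A line `(L, g, f)` with a homomorphism `lam : Q → ℤ`, even on `L`, odd on `g`, `f`: the nilpotent
forms are zero in `L^p`, for every ring. -/
theorem lam_blk {R G : Type} [Ring R] [StarRing R] [Group G] (L Q : Subgroup G) (g f : G)
    (hL : L ≤ Q) (hg : g ∈ Q) (hf : f ∈ Q) (lam : Q →* Multiplicative ℤ)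
    (hLe : ∀ l (hl : l ∈ L), Even (Multiplicative.toAdd (lam ⟨l, hL hl⟩)))
    (hgo : Odd (Multiplicative.toAdd (lam ⟨g, hg⟩)))
    (hfo : Odd (Multiplicative.toAdd (lam ⟨f, hf⟩))) :
    ∀ (ε : ℤˣ) (n : ℕ) (ψ χ : Matrix (Fin n) (Fin n) (MonoidAlgebra R G)),
      SuppIn (ROK.La L g) ψ → SuppIn (ROK.La L f) χ →
      IsNilpotent (nu ε (ψ + (ε : ℤ) • ψᴴ) 0 (χ + (ε : ℤ) • χᴴ)) → SHp ε (UF ψ 0 χ) := by
  intro ε n ψ χ hψ hχ hnil
  refine lam_core Q lam ⟨g, hg⟩ hgo ε n ψ χ (fun i j q hq => ?_) (fun i j q hq => ?_) hnil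
  · obtain ⟨l, hl, rfl⟩ := hψ i j q hq
    refine ⟨Q.mul_mem (hL hl) hg, ?_⟩
    have e : (⟨l * g, Q.mul_mem (hL hl) hg⟩ : Q) = ⟨l, hL hl⟩ * ⟨g, hg⟩ := rfl
    rw [e, map_mul, toAdd_mul]
    exact (hLe l hl).add_odd hgo
  · obtain ⟨l, hl, rfl⟩ := hχ i j q hq
    refine ⟨Q.mul_mem (hL hl) hf, ?_⟩
    have e : (⟨l * f, Q.mul_mem (hL hl) hf⟩ : Q) = ⟨l, hL hl⟩ * ⟨f, hf⟩ := rfl
    rw [e, map_mul, toAdd_mul]
    exact (hLe l hl).add_odd hfo

/-- The local form: it is enough to have `lam` for every finite subset of `L`. -/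
theorem lam_blk_loc {R G : Type} [Ring R] [StarRing R] [Group G] (L : Subgroup G) (g f : G)
    (hlam : ∀ F : Finset G, (∀ x ∈ F, x ∈ L) → ∃ (Q : Subgroup G) (hg : g ∈ Q) (hf : f ∈ Q)
      (lam : Q →* Multiplicative ℤ),
      (∀ x ∈ F, ∃ hx : x ∈ Q, Even (Multiplicative.toAdd (lam ⟨x, hx⟩))) ∧
      Odd (Multiplicative.toAdd (lam ⟨g, hg⟩)) ∧ Odd (Multiplicative.toAdd (lam ⟨f, hf⟩))) :
    ∀ (ε : ℤˣ) (n : ℕ) (ψ χ : Matrix (Fin n) (Fin n) (MonoidAlgebra R G)),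
      SuppIn (ROK.La L g) ψ → SuppIn (ROK.La L f) χ →
      IsNilpotent (nu ε (ψ + (ε : ℤ) • ψᴴ) 0 (χ + (ε : ℤ) • χᴴ)) → SHp ε (UF ψ 0 χ) := by
  classical
  intro ε n ψ χ hψ hχ hnil
  obtain ⟨F, hF⟩ : ∃ F : Finset G, F =
      (Finset.univ.biUnion fun i : Fin n => Finset.univ.biUnion fun j : Fin n =>
        (ψ i j).coeff.support.image fun q => q * g⁻¹) ∪
      (Finset.univ.biUnion fun i : Fin n => Finset.univ.biUnion fun j : Fin n =>
        (χ i j).coeff.support.image fun q => q * f⁻¹) := ⟨_, rfl⟩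
  have m1 : ∀ i j q, (ψ i j).coeff q ≠ 0 → q * g⁻¹ ∈ F := by
    intro i j q hq
    rw [hF]
    refine Finset.mem_union_left _ ?_
    rw [Finset.mem_biUnion]
    refine ⟨i, Finset.mem_univ _, ?_⟩
    rw [Finset.mem_biUnion]
    exact ⟨j, Finset.mem_univ _, Finset.mem_image_of_mem _ (Finsupp.mem_support_iff.2 hq)⟩
  have m2 : ∀ i j q, (χ i j).coeff q ≠ 0 → q * f⁻¹ ∈ F := by
    intro i j q hq
    rw [hF]
    refine Finset.mem_union_right _ ?_
    rw [Finset.mem_biUnion]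
    refine ⟨i, Finset.mem_univ _, ?_⟩
    rw [Finset.mem_biUnion]
    exact ⟨j, Finset.mem_univ _, Finset.mem_image_of_mem _ (Finsupp.mem_support_iff.2 hq)⟩
  have hFL : ∀ x ∈ F, x ∈ L := by
    intro x hx
    rw [hF, Finset.mem_union] at hx
    rcases hx with hx | hx
    · rw [Finset.mem_biUnion] at hx
      obtain ⟨i, -, hx⟩ := hx
      rw [Finset.mem_biUnion] at hx
      obtain ⟨j, -, hx⟩ := hx
      rw [Finset.mem_image] at hx
      obtain ⟨q, hq, rfl⟩ := hx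
      obtain ⟨l, hl, rfl⟩ := hψ i j q (Finsupp.mem_support_iff.1 hq)
      simpa using hl
    · rw [Finset.mem_biUnion] at hx
      obtain ⟨i, -, hx⟩ := hx
      rw [Finset.mem_biUnion] at hx
      obtain ⟨j, -, hx⟩ := hx
      rw [Finset.mem_image] at hx
      obtain ⟨q, hq, rfl⟩ := hx
      obtain ⟨l, hl, rfl⟩ := hχ i j q (Finsupp.mem_support_iff.1 hq)
      simpa using hl
  obtain ⟨Q, hg, hf, lam, h1, h2, h3⟩ := hlam F hFL
  refine lam_core Q lam ⟨g, hg⟩ h2 ε n ψ χ (fun i j q hq => ?_) (fun i j q hq => ?_) hnil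
  · obtain ⟨hx, he⟩ := h1 _ (m1 i j q hq)
    have hq' : q ∈ Q := by
      have := Q.mul_mem hx hg
      simpa using this
    refine ⟨hq', ?_⟩
    have e : (⟨q, hq'⟩ : Q) = ⟨q * g⁻¹, hx⟩ * ⟨g, hg⟩ := Subtype.ext (by simp)
    rw [e, map_mul, toAdd_mul]
    exact he.add_odd h2
  · obtain ⟨hx, he⟩ := h1 _ (m2 i j q hq)
    have hq' : q ∈ Q := by
      have := Q.mul_mem hx hf
      simpa using this
    refine ⟨hq', ?_⟩
    have e : (⟨q, hq'⟩ : Q) = ⟨q * f⁻¹, hx⟩ * ⟨f, hf⟩ := Subtype.ext (by simp)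
    rw [e, map_mul, toAdd_mul]
    exact he.add_odd h3

end Pool.Agent.Lib.MP8a3537.AR
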