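import Pool.Agent.Lib.MP_8a3537_gt.AR.PTO
import Pool.Agent.Lib.MP_8a3537_gt.AR.LBK
import Pool.Agent.Lib.MP_8a3537_gt.LL.Spec

/-!
# Extensions of the infinite dihedral group (MP_8a3537_gt, folder AR, helper81)

`Dih R`: for all groups `E` with a homomorphism `φ` onto the infinite dihedral group such that no element of
order two of `E` is mapped to a reflection, the nilpotent forms with supports in `φ⁻¹ (sr 0)`, `φ⁻¹ (sr 1)` are zero in
`L^p`. THEOREM (`dih_blk`): then the forms with supports in `K g` and `(K ∩ f K f⁻¹) f` for a pair `x`, `y` of vertices of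
a tree, exchanged by `g`, `K = G_x ∩ G_y`, `f f ∈ K`, `x` on the path from `y` to `f y`, are zero in `L^p` too.

The form lifts to the group ring of the amalgam of `⟨K, g⟩` and `⟨L, f⟩` over `L = K ∩ f K f⁻¹`.
-/

set_option autoImplicit false
set_option linter.unusedSectionVars false

namespace Pool.Agent.Lib.MP8a3537.AR

open Matrix Monoid Pool.Agent.Lib.MP8a3537.UV Pool.Agent.Lib.MP8a3537.RO
open Pool.Agent.Lib.MP8a3537.ROK Pool.Agent.Lib.MP8a3537.LL

/-- The nilpotent forms over an extension `φ : E → D_∞` of the infinite dihedral group are zero in `L^p`. -/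
def DihX (R E : Type) [Ring R] [StarRing R] [Group E] (φ : E →* DihedralGroup 0) : Prop :=
  ∀ (ε : ℤˣ) (n : ℕ) (ψ χ : Matrix (Fin n) (Fin n) (MonoidAlgebra R E)),
    SuppIn {x | φ x = DihedralGroup.sr 0} ψ → SuppIn {x | φ x = DihedralGroup.sr 1} χ →
    IsNilpotent (nu ε (ψ + (ε : ℤ) • ψᴴ) 0 (χ + (ε : ℤ) • χᴴ)) → SHp ε (UF ψ 0 χ)

/-- The nilpotent forms over the extensions of the infinite dihedral group, without reflections of order
two, are zero in `L^p`. -/
def Dih (R : Type) [Ring R] [StarRing R] : Prop :=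
  ∀ (E : Type) [Group E] (φ : E →* DihedralGroup 0), Function.Surjective φ →
    (∀ z : E, z * z = 1 → ∀ i, φ z ≠ DihedralGroup.sr i) → DihX R E φ

namespace DIHM

/-! ### Groups with a subgroup of index two -/

section Ix

variable {G : Type} [Group G]

/-- `K ∪ K g`. -/
def AG (K : Subgroup G) (g : G) (hN : Ns K g) (h2 : g * g ∈ K) : Subgroup G where
  carrier := {x | x ∈ K ∨ x * g⁻¹ ∈ K}
  one_mem' := Or.inl K.one_mem
  mul_mem' := by
    intro x y hx hy
    rcases hx with hx | hx <;> rcases hy with hy | hy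
    · exact Or.inl (mul_mem hx hy)
    · right
      rw [mul_assoc]
      exact mul_mem hx hy
    · right
      have e : x * y * g⁻¹ = (x * g⁻¹) * (g * y * g⁻¹) := by group
      rw [e]
      exact mul_mem hx (hN y hy).1
    · left
      have e : x * y = (x * g⁻¹) * (g * (y * g⁻¹) * g⁻¹) * (g * g) := by group
      rw [e]
      exact mul_mem (mul_mem hx (hN _ hy).1) h2
  inv_mem' := by
    intro x hx
    rcases hx with hx | hx
    · exact Or.inl (inv_mem hx)
    · right
      have e : x⁻¹ * g⁻¹ = (g⁻¹ * (x * g⁻¹)⁻¹ * g) * (g * g)⁻¹ := by group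
      rw [e]
      exact mul_mem (hN _ (inv_mem hx)).2 (inv_mem h2)

variable {K : Subgroup G} {g : G} {hN : Ns K g} {h2 : g * g ∈ K}

theorem mem_AG {x : G} : x ∈ AG K g hN h2 ↔ x ∈ K ∨ x * g⁻¹ ∈ K := Iff.rfl

theorem two {x y : G} (hx : x * g⁻¹ ∈ K) (hy : y * g⁻¹ ∈ K) (hN : Ns K g) (h2 : g * g ∈ K) :
    x * y ∈ K := by
  have e : x * y = (x * g⁻¹) * (g * (y * g⁻¹) * g⁻¹) * (g * g) := by group
  rw [e]
  exact mul_mem (mul_mem hx (hN _ hy).1) h2

open Classical in
/-- The homomorphism to the infinite dihedral group with kernel `K`. -/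
noncomputable def par (K : Subgroup G) (g : G) (hN : Ns K g) (h2 : g * g ∈ K) (s : ZMod 0) :
    AG K g hN h2 →* DihedralGroup 0 where
  toFun x := if (x : G) ∈ K then 1 else DihedralGroup.sr s
  map_one' := if_pos K.one_mem
  map_mul' x y := by
    show (if ((x : G) * (y : G)) ∈ K then (1 : DihedralGroup 0) else DihedralGroup.sr s) = _
    by_cases hx : (x : G) ∈ K <;> by_cases hy : (y : G) ∈ K
    · rw [if_pos hx, if_pos hy, if_pos (mul_mem hx hy), one_mul]
    · rw [if_pos hx, if_neg hy, if_neg (fun h => hy ((Subgroup.mul_mem_cancel_left K hx).1 h)),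
        one_mul]
    · rw [if_neg hx, if_pos hy, if_neg (fun h => hx ((Subgroup.mul_mem_cancel_right K hy).1 h)),
        mul_one]
    · have h3 : (x : G) * y ∈ K := two (x.2.resolve_left hx) (y.2.resolve_left hy) hN h2
      rw [if_neg hx, if_neg hy, if_pos h3, DihedralGroup.sr_mul_sr, sub_self,
        DihedralGroup.r_zero]

theorem par_pos {s : ZMod 0} {x : AG K g hN h2} (hx : (x : G) ∈ K) : par K g hN h2 s x = 1 := by
  classical exact if_pos hx

theorem par_neg {s : ZMod 0} {x : AG K g hN h2} (hx : (x : G) ∉ K) :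
    par K g hN h2 s x = DihedralGroup.sr s := by
  classical exact if_neg hx

end Ix

/-! ### The amalgam -/

/-- Two groups `⟨K b, g b⟩` with a common subgroup `L`. -/
structure Dt (G : Type) [Group G] where
  /-- the subgroups of index two -/
  K : Bool → Subgroup G
  /-- the elements outside -/
  g : Bool → G
  /-- the common subgroup -/
  L : Subgroup G
  hL : ∀ b, L ≤ K b
  hN : ∀ b, Ns (K b) (g b)
  h2 : ∀ b, g b * g b ∈ K b
  ni : ∀ b, ∀ h ∈ K b, h * g b * (h * g b) ≠ 1

/-- The indices of the two reflections. -/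
def sg : Bool → ZMod 0
  | true => 0
  | false => 1

section Am

variable {G : Type} [Group G] (X : Dt G)

/-- `⟨K b, g b⟩`. -/
def Dt.S (b : Bool) : Subgroup G := AG (X.K b) (X.g b) (X.hN b) (X.h2 b)

/-- The inclusion of `L`. -/
def Dt.f (b : Bool) : X.L →* X.S b := Subgroup.inclusion fun _ hx => Or.inl (X.hL b hx)

theorem Dt.f_inj (b : Bool) : Function.Injective (X.f b) := Subgroup.inclusion_injective _

/-- The amalgam. -/
abbrev Dt.D : Type := PushoutI X.f

/-- The homomorphism to `G`. -/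
def Dt.p : X.D →* G := PushoutI.lift (fun b => (X.S b).subtype) X.L.subtype fun _ => rfl

/-- The homomorphism to the infinite dihedral group. -/
noncomputable def Dt.q : X.D →* DihedralGroup 0 :=
  PushoutI.lift (fun b => par (X.K b) (X.g b) (X.hN b) (X.h2 b) (sg b)) 1 fun b => by
    ext x
    exact par_pos (X.hL b x.2)

/-- The letters. -/
def Dt.LD (b : Bool) : Set X.D :=
  {z | ∃ x : X.S b, (x : G) * (X.g b)⁻¹ ∈ X.K b ∧ z = PushoutI.of b x}

theorem Dt.p_of (b : Bool) (x : X.S b) : X.p (PushoutI.of b x) = x :=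
  PushoutI.lift_of (fun b => (X.S b).subtype) _ _ x

theorem Dt.p_base (x : X.L) : X.p (PushoutI.base X.f x) = x :=
  PushoutI.lift_base (fun b => (X.S b).subtype) X.L.subtype _ x

theorem Dt.q_of (b : Bool) (x : X.S b) :
    X.q (PushoutI.of b x) = par (X.K b) (X.g b) (X.hN b) (X.h2 b) (sg b) x :=
  PushoutI.lift_of (fun b => par (X.K b) (X.g b) (X.hN b) (X.h2 b) (sg b)) _ _ x

theorem Dt.g_not (b : Bool) : X.g b ∉ X.K b := by
  intro h
  have := X.ni b _ (inv_mem h)
  simp at this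

theorem Dt.not_mem {b : Bool} {x : G} (h : x * (X.g b)⁻¹ ∈ X.K b) : x ∉ X.K b := by
  intro hx
  have e : X.g b = (x * (X.g b)⁻¹)⁻¹ * x := by group
  exact X.g_not b (e ▸ mul_mem (inv_mem h) hx)

theorem Dt.q_LD {b : Bool} {z : X.D} (h : z ∈ X.LD b) : X.q z = DihedralGroup.sr (sg b) := by
  obtain ⟨x, hx, rfl⟩ := h
  rw [X.q_of]
  exact par_neg (X.not_mem hx)

theorem Dt.surj : Function.Surjective X.q := by
  obtain ⟨u, hu⟩ : ∃ u : X.D, X.q u = DihedralGroup.sr 0 := by
    refine ⟨PushoutI.of true ⟨X.g true, Or.inr ?_⟩, X.q_LD ⟨_, ?_, rfl⟩⟩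
    · rw [mul_inv_cancel]
      exact one_mem _
    · show X.g true * (X.g true)⁻¹ ∈ _
      rw [mul_inv_cancel]
      exact one_mem _
  obtain ⟨v, hv⟩ : ∃ v : X.D, X.q v = DihedralGroup.sr 1 := by
    refine ⟨PushoutI.of false ⟨X.g false, Or.inr ?_⟩, X.q_LD ⟨_, ?_, rfl⟩⟩
    · rw [mul_inv_cancel]
      exact one_mem _
    · show X.g false * (X.g false)⁻¹ ∈ _
      rw [mul_inv_cancel]
      exact one_mem _
  have hr : ∀ i : ZMod 0, X.q ((u * v) ^ (show ℤ from i)) = DihedralGroup.r i := by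
    intro i
    rw [map_zpow, map_mul, hu, hv, DihedralGroup.sr_mul_sr, sub_zero, DihedralGroup.r_one_zpow]
    rfl
  intro d
  cases d with
  | r i => exact ⟨_, hr i⟩
  | sr i =>
    refine ⟨u * (u * v) ^ (show ℤ from i), ?_⟩
    rw [map_mul, hu, hr, DihedralGroup.sr_mul_r, zero_add]

theorem Dt.no_inv (z : X.D) (hz : z * z = 1) (i : ZMod 0) : X.q z ≠ DihedralGroup.sr i := by
  obtain ⟨d, b, x, rfl⟩ := PTOM.conj X.f_inj z hz
  have h1 : x * x = 1 := by
    apply PushoutI.of_injective X.f_inj b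
    rw [map_mul, map_one]
    have e : d⁻¹ * (d * PushoutI.of b x * d⁻¹ * (d * PushoutI.of b x * d⁻¹)) * d =
        PushoutI.of b x * PushoutI.of b x := by group
    rw [← e, hz]
    group
  by_cases hx : (x : G) ∈ X.K b
  · rw [map_mul, map_mul, X.q_of, par_pos hx, mul_one, map_inv, mul_inv_cancel]
    intro h
    rw [DihedralGroup.one_def] at h
    cases h
  · exfalso
    have h2 := x.2.resolve_left hx
    refine X.ni b _ h2 ?_
    have e : (x : G) * (X.g b)⁻¹ * X.g b * ((x : G) * (X.g b)⁻¹ * X.g b) = ((x * x : X.S b) : G) := by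
      show _ = (x : G) * x
      group
    rw [e, h1]
    rfl

/-- The alternating products of `k` letters, the first of type `s`. -/
def Dt.W : ℕ → Bool → Set X.D
  | 0, _ => {1}
  | k + 1, s => {z | ∃ x ∈ X.LD s, ∃ z1 ∈ Dt.W k (!s), z = x * z1}

theorem Dt.LD_inv {b : Bool} {z : X.D} (h : z ∈ X.LD b) : z⁻¹ ∈ X.LD b := by
  obtain ⟨x, hx, rfl⟩ := h
  refine ⟨x⁻¹, ?_, by rw [map_inv]⟩
  have e : ((x⁻¹ : X.S b) : G) * (X.g b)⁻¹ =
      ((X.g b)⁻¹ * ((x : G) * (X.g b)⁻¹)⁻¹ * X.g b) * (X.g b * X.g b)⁻¹ := by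
    show (x : G)⁻¹ * (X.g b)⁻¹ = _
    group
  rw [e]
  exact mul_mem (X.hN b _ (inv_mem hx)).2 (inv_mem (X.h2 b))

theorem Dt.base_W (h : X.L) {k : ℕ} {s : Bool} {z : X.D} (hz : z ∈ X.W (k + 1) s) :
    PushoutI.base X.f h * z ∈ X.W (k + 1) s := by
  obtain ⟨x, ⟨a, ha, rfl⟩, z1, hz1, rfl⟩ := hz
  refine ⟨PushoutI.of s (X.f s h * a), ⟨_, ?_, rfl⟩, z1, hz1, ?_⟩
  · have e : ((X.f s h * a : X.S s) : G) * (X.g s)⁻¹ = h * ((a : G) * (X.g s)⁻¹) := by
      show ((h : G) * a) * _ = _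
      group
    rw [e]
    exact mul_mem (X.hL s h.2) ha
  · rw [map_mul, PushoutI.of_apply_eq_base, mul_assoc]

variable {V : Type} [MulAction G V] {P : Bool → Set V}

theorem Dt.act (hP : ∀ s, ∀ z ∈ X.LD s, ∀ v ∈ P (!s), X.p z • v ∈ P s) (hne : ∀ s, (P s).Nonempty)
    (k : ℕ) : ∀ s, ∃ v : V, ∀ z ∈ X.W k s, X.p z • v ∈ P s := by
  induction k with
  | zero =>
    intro s
    obtain ⟨v, hv⟩ := hne s
    refine ⟨v, fun z hz => ?_⟩
    rw [show z = 1 from hz, map_one, one_smul]
    exact hv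
  | succ k ih =>
    intro s
    obtain ⟨v, hv⟩ := ih (!s)
    refine ⟨v, fun z hz => ?_⟩
    obtain ⟨x, hx, z1, hz1, rfl⟩ := hz
    rw [map_mul, mul_smul]
    exact hP s x hx _ (hv z1 hz1)

theorem Dt.inj (hKL : X.K false = X.L)
    (hP : ∀ s, ∀ z ∈ X.LD s, ∀ v ∈ P (!s), X.p z • v ∈ P s) (hne : ∀ s, (P s).Nonempty)
    (hU : ∀ a ∈ X.LD false, ∀ a' ∈ X.LD false, ∀ v ∈ P true, ∀ v' ∈ P true, ∀ h ∈ X.K true,
      X.p a • v = h • X.p a' • v' → h ∈ X.L) (k : ℕ) :
    ∀ s, Set.InjOn X.p (X.W k s) := by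
  induction k with
  | zero =>
    intro s z hz z' hz' _
    rw [show z = 1 from hz, show z' = 1 from hz']
  | succ k ih =>
    rintro s z ⟨x, ⟨a, ha, rfl⟩, z1, hz1, rfl⟩ z' ⟨x', ⟨a', ha', rfl⟩, z1', hz1', rfl⟩ heq
    rw [map_mul, map_mul, X.p_of, X.p_of] at heq
    obtain ⟨h0, hh0⟩ : ∃ h0 : X.S s, h0 = a⁻¹ * a' := ⟨_, rfl⟩
    have hc : (h0 : G) = (a : G)⁻¹ * a' := by rw [hh0]; rfl
    have h0K : (h0 : G) ∈ X.K s := by
      have e : (h0 : G) = (X.g s)⁻¹ * (((a : G) * (X.g s)⁻¹)⁻¹ * ((a' : G) * (X.g s)⁻¹)) * X.g s := by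
        rw [hc]
        group
      rw [e]
      exact (X.hN s _ (mul_mem (inv_mem ha) ha')).2
    have heq1 : X.p z1 = h0 * X.p z1' := by
      rw [hc, mul_assoc, ← heq]
      group
    have h0L : (h0 : G) ∈ X.L := by
      cases s with
      | false => rw [← hKL]; exact h0K
      | true =>
        cases k with
        | zero =>
          rw [show z1 = 1 from hz1, show z1' = 1 from hz1', map_one, mul_one] at heq1
          rw [← heq1]
          exact one_mem _
        | succ k =>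
          obtain ⟨y, hy, z2, hz2, rfl⟩ := hz1
          obtain ⟨y', hy', z2', hz2', rfl⟩ := hz1'
          obtain ⟨v, hv⟩ := X.act hP hne k (!(!true))
          refine hU y hy y' hy' _ (hv z2 hz2) _ (hv z2' hz2') _ h0K ?_
          rw [← mul_smul, ← map_mul, heq1, map_mul]
          simp only [mul_smul]
    have hz : z1 = PushoutI.base X.f ⟨h0, h0L⟩ * z1' := by
      cases k with
      | zero =>
        have e1 : z1 = 1 := hz1
        have e2 : z1' = 1 := hz1'
        rw [e1, e2, map_one, mul_one] at heq1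
        have e3 : (⟨h0, h0L⟩ : X.L) = 1 := Subtype.ext heq1.symm
        rw [e1, e2, e3, map_one, mul_one]
      | succ k =>
        refine ih _ hz1 (X.base_W _ hz1') ?_
        rw [map_mul, X.p_base, heq1]
    rw [hz, ← mul_assoc, ← PushoutI.of_apply_eq_base X.f s, ← map_mul]
    congr 2
    apply Subtype.ext
    show (a : G) * h0 = a'
    rw [hc]
    group

end Am

/-! ### The lift of the forms -/

section Forms

variable {R : Type} [Ring R] [StarRing R]

theorem mr_star {E F : Type} [Group E] [Group F] (f : E →* F) (x : MonoidAlgebra R E) :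
    MonoidAlgebra.mapDomainRingHom R f (star x) = star (MonoidAlgebra.mapDomainRingHom R f x) := by
  induction x using MonoidAlgebra.induction_linear with
  | zero => simp
  | add f g hf hg => simp only [star_add, map_add, hf, hg]
  | single a r => simp [star_single]

theorem supp_map {E F : Type} [Group E] [Group F] (f : E →* F) (x : MonoidAlgebra R E) (z : F)
    (hz : (MonoidAlgebra.mapDomainRingHom R f x).coeff z ≠ 0) : ∃ y, x.coeff y ≠ 0 ∧ z = f y := by
  classical
  have h1 : z ∈ (Finsupp.mapDomain f x.coeff).support := Finsupp.mem_support_iff.2 hz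
  have h2 := Finsupp.mapDomain_support h1
  rw [Finset.mem_image] at h2
  obtain ⟨y, hy, hyz⟩ := h2
  exact ⟨y, Finsupp.mem_support_iff.1 hy, hyz.symm⟩

variable {G : Type} [Group G] (X : Dt G)

/-- A matrix with supports in `K g`, lifted to the amalgam. -/
noncomputable def lf (b : Bool) {m n : Type} (M : Matrix m n (MonoidAlgebra R G)) :
    Matrix m n (MonoidAlgebra R X.D) :=
  (LBKM.pull (X.S b) M).map (MonoidAlgebra.mapDomainRingHom R (PushoutI.of (φ := X.f) b))

theorem mem_S {b : Bool} {g : G} (h : g ∈ La (X.K b) (X.g b)) :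
    g ∈ X.S b ∧ g * (X.g b)⁻¹ ∈ X.K b := by
  obtain ⟨l, hl, rfl⟩ := h
  have e : l * X.g b * (X.g b)⁻¹ = l := by group
  exact ⟨Or.inr (by rw [e]; exact hl), by rw [e]; exact hl⟩

theorem lf_map {b : Bool} {m n : Type} {M : Matrix m n (MonoidAlgebra R G)}
    (h : SuppIn (La (X.K b) (X.g b)) M) :
    (lf X b M).map (MonoidAlgebra.mapDomainRingHom R X.p) = M := by
  have h1 := LBKM.pull_map (X.S b) M fun i j g hg => (mem_S X (h i j g hg)).1
  conv_rhs => rw [← h1]
  ext1 i j
  show MonoidAlgebra.mapDomainRingHom R X.p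
    (MonoidAlgebra.mapDomainRingHom R (PushoutI.of (φ := X.f) b) (LBKM.pull (X.S b) M i j)) =
    emb R (X.S b) (LBKM.pull (X.S b) M i j)
  generalize LBKM.pull (X.S b) M i j = x
  induction x using MonoidAlgebra.induction_linear with
  | zero => simp
  | add f g hf hg => rw [map_add, map_add, map_add, hf, hg]
  | single a r =>
    simp only [MonoidAlgebra.mapDomainRingHom_apply, MonoidAlgebra.mapDomain_single]
    rw [X.p_of]
    rfl

theorem lf_supp {b : Bool} {m n : Type} {M : Matrix m n (MonoidAlgebra R G)}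
    (h : SuppIn (La (X.K b) (X.g b)) M) : SuppIn (X.LD b) (lf X b M) := by
  intro i j z hz
  obtain ⟨y, hy, rfl⟩ := supp_map _ _ _ hz
  rw [LBKM.pull_coeff (X.S b) M fun i j g hg => (mem_S X (h i j g hg)).1] at hy
  exact ⟨y, (mem_S X (h i j _ hy)).2, rfl⟩

/-- the type of the first letter -/
def ty {n : ℕ} : Fin n ⊕ Fin n → Bool
  | .inl _ => false
  | .inr _ => true

theorem supp_add {m n : Type} {b : Bool} {M : Matrix m n (MonoidAlgebra R X.D)}
    {N : Matrix m n (MonoidAlgebra R X.D)} (hM : SuppIn (X.LD b) M) (hN : SuppIn (X.LD b) N) :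
    SuppIn (X.LD b) (M + N) := by
  intro i j z hz
  by_cases h1 : (M i j).coeff z = 0
  · refine hN i j z fun h2 => hz ?_
    rw [Matrix.add_apply, MonoidAlgebra.coeff_add, Finsupp.add_apply, h1, h2, add_zero]
  · exact hM i j z h1

theorem supp_zsmul {m n : Type} {b : Bool} (ε : ℤˣ) {M : Matrix m n (MonoidAlgebra R X.D)}
    (hM : SuppIn (X.LD b) M) : SuppIn (X.LD b) ((ε : ℤ) • M) := by
  intro i j z hz
  rcases Int.units_eq_one_or ε with h | h
  · rw [h] at hz
    exact hM i j z (by simpa using hz)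
  · rw [h] at hz
    exact hM i j z (by simpa using hz)

theorem supp_star {m n : Type} {b : Bool} {M : Matrix m n (MonoidAlgebra R X.D)}
    (hM : SuppIn (X.LD b) M) : SuppIn (X.LD b) Mᴴ := by
  intro i j z hz
  rw [conjTranspose_apply, star_coeff] at hz
  have h1 := hM j i z⁻¹ fun h => hz (by rw [h, star_zero])
  simpa using X.LD_inv h1

theorem pow_supp {n : ℕ} {a b : Matrix (Fin n) (Fin n) (MonoidAlgebra R X.D)} {ε : ℤˣ}
    (ha : SuppIn (X.LD true) a) (hb : SuppIn (X.LD false) b) (k : ℕ) :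
    ∀ i j z, ((nu ε a 0 b ^ k) i j).coeff z ≠ 0 → z ∈ X.W k (ty i) := by
  classical
  induction k with
  | zero =>
    intro i j z hz
    rw [pow_zero, Matrix.one_apply] at hz
    split_ifs at hz with h
    · rw [MonoidAlgebra.one_def, MonoidAlgebra.coeff_single, Finsupp.single_apply] at hz
      split_ifs at hz with h2
      · exact h2.symm
      · exact absurd rfl hz
    · simp at hz
  | succ k ih =>
    intro i j z hz
    rw [pow_succ'] at hz
    obtain ⟨m, x, h1, h2⟩ := LBKM.supp_mul _ _ _ _ _ hz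
    have h3 := ih m j _ h2
    have hx : x ∈ X.LD (ty i) ∧ ty m = !(ty i) := by
      rcases i with i | i <;> rcases m with m | m
      · exfalso
        apply h1
        simp [nu]
      · exact ⟨supp_zsmul X ε hb i m x h1, rfl⟩
      · exact ⟨ha i m x h1, rfl⟩
      · exfalso
        apply h1
        simp [nu]
    refine ⟨x, hx.1, x⁻¹ * z, ?_, by group⟩
    rw [← hx.2]
    exact h3

/-- The main point: nilpotent forms lift to the amalgam. -/
theorem nil {V : Type} [MulAction G V] {P : Bool → Set V} (hKL : X.K false = X.L)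
    (hP : ∀ s, ∀ z ∈ X.LD s, ∀ v ∈ P (!s), X.p z • v ∈ P s) (hne : ∀ s, (P s).Nonempty)
    (hU : ∀ a ∈ X.LD false, ∀ a' ∈ X.LD false, ∀ v ∈ P true, ∀ v' ∈ P true, ∀ h ∈ X.K true,
      X.p a • v = h • X.p a' • v' → h ∈ X.L) {n : ℕ} {ε : ℤˣ}
    {a b : Matrix (Fin n) (Fin n) (MonoidAlgebra R X.D)}
    (ha : SuppIn (X.LD true) a) (hb : SuppIn (X.LD false) b)
    (h : IsNilpotent (nu ε (a.map (MonoidAlgebra.mapDomainRingHom R X.p)) 0
      (b.map (MonoidAlgebra.mapDomainRingHom R X.p)))) : IsNilpotent (nu ε a 0 b) := by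
  obtain ⟨k, hk⟩ := h
  refine ⟨k, ?_⟩
  have e : (nu ε (a.map (MonoidAlgebra.mapDomainRingHom R X.p)) 0
      (b.map (MonoidAlgebra.mapDomainRingHom R X.p))) ^ k =
      (nu ε a 0 b ^ k).map (MonoidAlgebra.mapDomainRingHom R X.p) := by
    have e1 := CR.map_nu (MonoidAlgebra.mapDomainRingHom R X.p) (mr_star X.p) ε a 0 b
    have e2 : (0 : Matrix (Fin n) (Fin n) (MonoidAlgebra R X.D)).map
        (MonoidAlgebra.mapDomainRingHom R X.p) = 0 := by
      ext1 i j
      exact map_zero (MonoidAlgebra.mapDomainRingHom R X.p)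
    rw [e2] at e1
    rw [← e1]
    exact (map_pow (MonoidAlgebra.mapDomainRingHom R X.p).mapMatrix _ k).symm
  rw [e] at hk
  ext1 i j
  have h1 := congrFun (congrFun hk i) j
  have h2 : Finsupp.mapDomain X.p ((nu ε a 0 b ^ k) i j).coeff = Finsupp.mapDomain X.p 0 := by
    rw [Finsupp.mapDomain_zero]
    exact congrArg MonoidAlgebra.coeff h1
  have h3 := Finsupp.mapDomain_injOn (M := R) (X.W k (ty i)) (X.inj hKL hP hne hU k (ty i))
    (fun z hz => pow_supp X ha hb k i j z (Finsupp.mem_support_iff.1 (Finset.mem_coe.1 hz)))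
    (by simp) h2
  exact MonoidAlgebra.coeff_injective h3

/-- Forms with supports in the two double cosets. -/
theorem blk (hR : DihX R X.D X.q) {V : Type} [MulAction G V] {P : Bool → Set V} (hKL : X.K false = X.L)
    (hP : ∀ s, ∀ z ∈ X.LD s, ∀ v ∈ P (!s), X.p z • v ∈ P s) (hne : ∀ s, (P s).Nonempty)
    (hU : ∀ a ∈ X.LD false, ∀ a' ∈ X.LD false, ∀ v ∈ P true, ∀ v' ∈ P true, ∀ h ∈ X.K true,
      X.p a • v = h • X.p a' • v' → h ∈ X.L) (ε : ℤˣ) (n : ℕ)
    (ψ χ : Matrix (Fin n) (Fin n) (MonoidAlgebra R G))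
    (hψ : SuppIn (La (X.K true) (X.g true)) ψ) (hχ : SuppIn (La (X.K false) (X.g false)) χ)
    (h : IsNilpotent (nu ε (ψ + (ε : ℤ) • ψᴴ) 0 (χ + (ε : ℤ) • χᴴ))) : SHp ε (UF ψ 0 χ) := by
  have s1 := lf_supp X hψ
  have s2 := lf_supp X hχ
  have m1 := lf_map X hψ
  have m2 := lf_map X hχ
  have hstar := mr_star (R := R) X.p
  have p1 : (lf X true ψ + (ε : ℤ) • (lf X true ψ)ᴴ).map (MonoidAlgebra.mapDomainRingHom R X.p) =
      ψ + (ε : ℤ) • ψᴴ := by
    rw [Matrix.map_add _ (fun a b => map_add _ a b), CR.map_zsmul', CR.map_conj _ hstar, m1]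
  have p2 : (lf X false χ + (ε : ℤ) • (lf X false χ)ᴴ).map
      (MonoidAlgebra.mapDomainRingHom R X.p) = χ + (ε : ℤ) • χᴴ := by
    rw [Matrix.map_add _ (fun a b => map_add _ a b), CR.map_zsmul', CR.map_conj _ hstar, m2]
  have hn : IsNilpotent (nu ε (lf X true ψ + (ε : ℤ) • (lf X true ψ)ᴴ) 0
      (lf X false χ + (ε : ℤ) • (lf X false χ)ᴴ)) := by
    refine nil X hKL hP hne hU (supp_add X s1 (supp_zsmul X ε (supp_star X s1)))
      (supp_add X s2 (supp_zsmul X ε (supp_star X s2))) ?_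
    rw [p1, p2]
    exact h
  have h1 := hR ε n (lf X true ψ) (lf X false χ)
    (fun i j z hz => X.q_LD (s1 i j z hz)) (fun i j z hz => X.q_LD (s2 i j z hz)) hn
  have h2 := LBKM.shp_ring (MonoidAlgebra.mapDomainRingHom R X.p) hstar h1
  rw [CR.map_UF _ hstar, m1, m2] at h2
  have e2 : (0 : Matrix (Fin n) (Fin n) (MonoidAlgebra R X.D)).map
      (MonoidAlgebra.mapDomainRingHom R X.p) = 0 := by
    ext1 i j
    exact map_zero (MonoidAlgebra.mapDomainRingHom R X.p)
  rwa [e2] at h2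

end Forms

end DIHM

end Pool.Agent.Lib.MP8a3537.AR
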