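import Pool.Agent.Lib.MP_8a3537_gt.AR.STP

/-!
# Classes of forms (MP_8a3537_gt, folder AR): the theorems of ROK without hypotheses (helper76)
-/

set_option autoImplicit false

namespace Pool.Agent.Lib.MP8a3537.AR

theorem mELM : SpecELM :=
  specELM ROK.mEFA RO.specFAC (specSCU specSCH) RO.specKNA (RO.specKSP ROK.mWDA)

theorem mNWT : SpecNWT := specNWT ROK.mEFA specNWC RO.specHLF

theorem mRMV : SpecRMV := specRMV ROK.mEFA RO.specKNA mELM

theorem mSTY : SpecSTY :=
  specSTY ROK.mEFA ROK.mDRC ROK.specHLK (specNEI specSCH) ROK.specNEN ROK.specNES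

theorem mMNK : SpecMNK := specMNK mNWT ROK.mSBK ROK.mBLK ROK.specSYK ROK.mBLG mRMV

end Pool.Agent.Lib.MP8a3537.AR
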