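import Pool.Agent.Lib.MP_8a3537_gt.UV.EMV
import Pool.Agent.Lib.MP_8a3537_gt.UV.SWP
import Pool.Agent.Lib.MP_8a3537_gt.RO.SCH

/-!
# Every coefficient ring (MP_8a3537_gt, folder AR): hyperbolic forms of projective modules (helper76)

`HypP ε Ψ`: the polarization `Ψ + ε Ψ^*` is invertible, and there is an idempotent `e` such that `Ψ` vanishes
(modulo even forms `Z - ε Z^*`) on the images of `e` and `1 - e`. Then `Ψ` is isometric to the hyperbolic form of the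
finitely generated projective module `im e`. `SHp ε Ψ`: this holds after adding a hyperbolic form of a free
module, that is, `Ψ` is zero in `L^p`.
-/

set_option autoImplicit false
set_option linter.unusedSectionVars false

namespace Pool.Agent.Lib.MP8a3537.AR

open Matrix Pool.Agent.Lib.MP8a3537.UV

/-- The hyperbolic form of a finitely generated projective module. -/
def HypP {A : Type*} [Ring A] [StarRing A] (ε : ℤˣ) {ι : Type*} [Fintype ι] [DecidableEq ι]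
    (Ψ : Matrix ι ι A) : Prop :=
  ∃ Θ e Z₁ Z₂ : Matrix ι ι A, (Ψ + (ε : ℤ) • Ψᴴ) * Θ = 1 ∧ Θ * (Ψ + (ε : ℤ) • Ψᴴ) = 1 ∧
    e * e = e ∧ eᴴ * Ψ * e = Z₁ - (ε : ℤ) • Z₁ᴴ ∧
    (1 - e)ᴴ * Ψ * (1 - e) = Z₂ - (ε : ℤ) • Z₂ᴴ

/-- `Ψ` plus a hyperbolic form is the hyperbolic form of a finitely generated projective module. -/
def SHp {A : Type*} [Ring A] [StarRing A] (ε : ℤˣ) {ι : Type*} [Fintype ι] [DecidableEq ι]
    (Ψ : Matrix ι ι A) : Prop :=
  ∃ m : ℕ, HypP ε (fromBlocks Ψ 0 0 (hyp (Fin m) A))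

section

variable {A : Type} [Ring A] [StarRing A] {ε : ℤˣ}

theorem ee (ε : ℤˣ) {M N : Type} (X : Matrix M N A) : (ε : ℤ) • (ε : ℤ) • X = X := by
  rcases Int.units_eq_one_or ε with h | h <;> simp [h]

theorem es (ε : ℤˣ) {M N : Type} (X : Matrix M N A) : ((ε : ℤ) • X)ᴴ = (ε : ℤ) • Xᴴ := by
  rcases Int.units_eq_one_or ε with h | h <;> simp [h]

theorem hypP_map {ι κ : Type} [Fintype ι] [DecidableEq ι] [Fintype κ] [DecidableEq κ]
    {Ψ : Matrix ι ι A} {Φ : Matrix κ κ A} (h : Isometric ε Ψ Φ) (hΨ : HypP ε Ψ) : HypP ε Φ := by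
  obtain ⟨u, v, Z, huv, hvu, hΦ⟩ := h
  obtain ⟨Θ, e, Z₁, Z₂, h1, h2, he, h3, h4⟩ := hΨ
  have huv' : vᴴ * uᴴ = 1 := by rw [← conjTranspose_mul, huv, conjTranspose_one]
  have hvu' : uᴴ * vᴴ = 1 := by rw [← conjTranspose_mul, hvu, conjTranspose_one]
  have hpol : Φ + (ε : ℤ) • Φᴴ = uᴴ * (Ψ + (ε : ℤ) • Ψᴴ) * u := by
    rw [hΦ]
    simp only [conjTranspose_add, conjTranspose_sub, conjTranspose_mul, es,
      conjTranspose_conjTranspose, smul_add, smul_sub, ee, Matrix.mul_add, Matrix.add_mul,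
      Matrix.mul_smul, Matrix.smul_mul, Matrix.mul_assoc]
    abel
  have key : ∀ f Y : Matrix ι ι A, fᴴ * Ψ * f = Y - (ε : ℤ) • Yᴴ →
      (v * f * u)ᴴ * Φ * (v * f * u) =
        (uᴴ * Y * u + (v * f * u)ᴴ * Z * (v * f * u)) -
          (ε : ℤ) • (uᴴ * Y * u + (v * f * u)ᴴ * Z * (v * f * u))ᴴ := by
    intro f Y hf
    have e1 : (v * f * u)ᴴ * (uᴴ * Ψ * u) * (v * f * u) = uᴴ * (fᴴ * Ψ * f) * u := by
      have e2 : (v * f * u)ᴴ * uᴴ = uᴴ * fᴴ := by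
        rw [conjTranspose_mul, conjTranspose_mul, Matrix.mul_assoc, Matrix.mul_assoc, huv',
          Matrix.mul_one]
      have e3 : u * (v * f * u) = f * u := by
        rw [← Matrix.mul_assoc, ← Matrix.mul_assoc, huv, Matrix.one_mul]
      calc (v * f * u)ᴴ * (uᴴ * Ψ * u) * (v * f * u)
          = ((v * f * u)ᴴ * uᴴ) * Ψ * (u * (v * f * u)) := by simp only [Matrix.mul_assoc]
        _ = _ := by rw [e2, e3]; simp only [Matrix.mul_assoc]
    rw [hΦ, Matrix.mul_sub, Matrix.sub_mul, Matrix.mul_add, Matrix.add_mul, e1, hf]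
    simp only [conjTranspose_add, conjTranspose_mul, conjTranspose_conjTranspose, smul_add,
      Matrix.mul_sub, Matrix.sub_mul, Matrix.mul_smul, Matrix.smul_mul, Matrix.mul_assoc]
    abel
  refine ⟨v * Θ * vᴴ, v * e * u, _,
    uᴴ * Z₂ * u + (v * (1 - e) * u)ᴴ * Z * (v * (1 - e) * u), ?_, ?_, ?_, key e Z₁ h3, ?_⟩
  · rw [hpol]
    calc uᴴ * (Ψ + (ε : ℤ) • Ψᴴ) * u * (v * Θ * vᴴ)
        = uᴴ * (Ψ + (ε : ℤ) • Ψᴴ) * (u * v) * Θ * vᴴ := by simp only [Matrix.mul_assoc]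
      _ = uᴴ * ((Ψ + (ε : ℤ) • Ψᴴ) * Θ) * vᴴ := by
          rw [huv, Matrix.mul_one]; simp only [Matrix.mul_assoc]
      _ = 1 := by rw [h1, Matrix.mul_one, hvu']
  · rw [hpol]
    calc v * Θ * vᴴ * (uᴴ * (Ψ + (ε : ℤ) • Ψᴴ) * u)
        = v * Θ * (vᴴ * uᴴ) * (Ψ + (ε : ℤ) • Ψᴴ) * u := by simp only [Matrix.mul_assoc]
      _ = v * (Θ * (Ψ + (ε : ℤ) • Ψᴴ)) * u := by
          rw [huv', Matrix.mul_one]; simp only [Matrix.mul_assoc]
      _ = 1 := by rw [h2, Matrix.mul_one, hvu]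
  · calc v * e * u * (v * e * u) = v * e * (u * v) * e * u := by simp only [Matrix.mul_assoc]
      _ = v * (e * e) * u := by rw [huv, Matrix.mul_one]; simp only [Matrix.mul_assoc]
      _ = v * e * u := by rw [he]
  · have e5 : (1 : Matrix κ κ A) - v * e * u = v * (1 - e) * u := by
      rw [Matrix.mul_sub, Matrix.sub_mul, Matrix.mul_one, hvu]
    rw [e5]
    exact key (1 - e) Z₂ h4

theorem even_blocks {ι κ : Type} (Z₁ : Matrix ι ι A) (Z₂ : Matrix κ κ A) :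
    fromBlocks Z₁ 0 0 Z₂ - (ε : ℤ) • (fromBlocks Z₁ 0 0 Z₂)ᴴ =
      fromBlocks (Z₁ - (ε : ℤ) • Z₁ᴴ) 0 0 (Z₂ - (ε : ℤ) • Z₂ᴴ) := by
  rw [fromBlocks_conjTranspose, fromBlocks_smul, sub_eq_add_neg, fromBlocks_neg, fromBlocks_add]
  simp [sub_eq_add_neg]

theorem hypP_sum {ι κ : Type} [Fintype ι] [DecidableEq ι] [Fintype κ] [DecidableEq κ]
    {Ψ : Matrix ι ι A} {Φ : Matrix κ κ A} (h : HypP ε Ψ) (h' : HypP ε Φ) :
    HypP ε (fromBlocks Ψ 0 0 Φ) := by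
  obtain ⟨Θ, e, Z₁, Z₂, h1, h2, he, h3, h4⟩ := h
  obtain ⟨Θ', e', Z₁', Z₂', h1', h2', he', h3', h4'⟩ := h'
  refine ⟨fromBlocks Θ 0 0 Θ', fromBlocks e 0 0 e', fromBlocks Z₁ 0 0 Z₁', fromBlocks Z₂ 0 0 Z₂',
    ?_, ?_, ?_, ?_, ?_⟩
  · rw [fromBlocks_conjTranspose, fromBlocks_smul, fromBlocks_add, fromBlocks_multiply]
    simp [h1, h1', fromBlocks_one, -zsmul_eq_mul]
  · rw [fromBlocks_conjTranspose, fromBlocks_smul, fromBlocks_add, fromBlocks_multiply]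
    simp [h2, h2', fromBlocks_one, -zsmul_eq_mul]
  · rw [fromBlocks_multiply]
    simp [he, he']
  · rw [even_blocks, fromBlocks_conjTranspose, fromBlocks_multiply, fromBlocks_multiply]
    simp [h3, h3', -zsmul_eq_mul]
  · have e1 : (1 : Matrix (ι ⊕ κ) (ι ⊕ κ) A) - fromBlocks e 0 0 e' =
        fromBlocks (1 - e) 0 0 (1 - e') := by
      rw [← fromBlocks_one, sub_eq_add_neg, fromBlocks_neg, fromBlocks_add]
      simp [sub_eq_add_neg]
    rw [e1, even_blocks, fromBlocks_conjTranspose, fromBlocks_multiply, fromBlocks_multiply]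
    simp only [Matrix.mul_zero, Matrix.zero_mul, add_zero, zero_add, conjTranspose_zero, h4, h4']

theorem hypP_hyp (ε : ℤˣ) (ι : Type) [Fintype ι] [DecidableEq ι] : HypP ε (hyp ι A) := by
  refine ⟨fromBlocks 0 ((ε : ℤ) • 1) 1 0, fromBlocks 1 0 0 0, 0, 0, ?_, ?_, ?_, ?_, ?_⟩
  · unfold hyp
    rw [fromBlocks_conjTranspose, fromBlocks_smul, fromBlocks_add, fromBlocks_multiply]
    rcases Int.units_eq_one_or ε with h | h <;> simp [h, fromBlocks_one]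
  · unfold hyp
    rw [fromBlocks_conjTranspose, fromBlocks_smul, fromBlocks_add, fromBlocks_multiply]
    rcases Int.units_eq_one_or ε with h | h <;> simp [h, fromBlocks_one]
  · rw [fromBlocks_multiply]
    simp
  · unfold hyp
    rw [fromBlocks_conjTranspose, fromBlocks_multiply, fromBlocks_multiply]
    simp
  · have e1 : (1 : Matrix (ι ⊕ ι) (ι ⊕ ι) A) - fromBlocks 1 0 0 0 = fromBlocks 0 0 0 1 := by
      rw [← fromBlocks_one, sub_eq_add_neg, fromBlocks_neg, fromBlocks_add]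
      simp
    unfold hyp
    rw [e1, fromBlocks_conjTranspose, fromBlocks_multiply, fromBlocks_multiply]
    simp

/-- Isometric forms. -/
theorem stab_of_isom {ι κ : Type} [Fintype ι] [DecidableEq ι] [Fintype κ] [DecidableEq κ]
    {Ψ : Matrix ι ι A} {Φ : Matrix κ κ A} (h : Isometric ε Ψ Φ) (hΦ : SHp ε Φ) : SHp ε Ψ := by
  obtain ⟨m, hm⟩ := hΦ
  exact ⟨m, hypP_map (EMVAux.iso_symm ε (EMVAux.iso_sum ε _ h)) hm⟩

/-- Stably hyperbolic forms. -/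
theorem shp_of_sh {ι : Type} [Fintype ι] [DecidableEq ι] {Ψ : Matrix ι ι A}
    (h : StablyHyperbolic ε Ψ) : SHp ε Ψ := by
  obtain ⟨m, n, hmn⟩ := h
  exact ⟨m, hypP_map (EMVAux.iso_symm ε hmn) (hypP_hyp ε (Fin n))⟩

/-- Removal of a hyperbolic summand. -/
theorem shp_destab {ι : Type} [Fintype ι] [DecidableEq ι] {Ψ : Matrix ι ι A} (N : Type)
    [Fintype N] [DecidableEq N] (h : SHp ε (fromBlocks Ψ 0 0 (hyp N A))) : SHp ε Ψ := by
  obtain ⟨m, hm⟩ := h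
  refine ⟨Fintype.card N + m, hypP_map ?_ hm⟩
  have s1 := EMVAux.iso_sum' ε Ψ (EMVAux.iso_trans ε
    (EMVAux.iso_sum ε (hyp (Fin m) A) (EMVAux.iso_symm ε (RO.SCHM.hyp_card (A := A) ε N)))
    (EMVAux.hyp_sum (A := A) ε (Fintype.card N) m))
  exact EMVAux.iso_trans ε (EMVAux.iso_symm ε (EMVAux.iso_assoc ε Ψ (hyp N A) (hyp (Fin m) A))) s1

/-- Sums. -/
theorem shp_sum {ι κ : Type} [Fintype ι] [DecidableEq ι] [Fintype κ] [DecidableEq κ]
    {Ψ : Matrix ι ι A} {Φ : Matrix κ κ A} (h : SHp ε Ψ) (h' : SHp ε Φ) :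
    SHp ε (fromBlocks Ψ 0 0 Φ) := by
  obtain ⟨m, hm⟩ := h
  obtain ⟨k, hk⟩ := h'
  refine ⟨m + k, hypP_map ?_ (hypP_sum hm hk)⟩
  have s2 : Isometric ε
      (fromBlocks (fromBlocks Ψ 0 0 (hyp (Fin m) A)) 0 0 (fromBlocks Φ 0 0 (hyp (Fin k) A)))
      (fromBlocks (fromBlocks Ψ 0 0 Φ) 0 0
        (fromBlocks (hyp (Fin m) A) 0 0 (hyp (Fin k) A))) := by
    refine EMVAux.iso_equiv ε _ _ (Equiv.sumSumSumComm ι κ (Fin m ⊕ Fin m) (Fin k ⊕ Fin k)) ?_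
    ext i j
    rcases i with (i | i) | (i | i) <;> rcases j with (j | j) | (j | j) <;> simp
  exact EMVAux.iso_trans ε s2 (EMVAux.iso_sum' ε _ (EMVAux.hyp_sum (A := A) ε m k))

theorem hypP_shp {ι : Type} [Fintype ι] [DecidableEq ι] {Ψ : Matrix ι ι A} (h : HypP ε Ψ) :
    SHp ε Ψ :=
  ⟨0, hypP_sum h (hypP_hyp ε (Fin 0))⟩

end

end Pool.Agent.Lib.MP8a3537.AR
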