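import Pool.Agent.Lib.MP_8a3537_gt.AR.Base
import Pool.Agent.Lib.MP_8a3537_gt.RO.ELM
import Pool.Agent.Lib.MP_8a3537_gt.RO.SCU

/-!
# Classes of forms (MP_8a3537_gt, folder AR): elimination (copy of RO/SCU, RO/ELM)
-/

set_option autoImplicit false
set_option linter.unusedSectionVars false
set_option linter.unusedSimpArgs false

namespace Pool.Agent.Lib.MP8a3537.AR

open Matrix Pool.Agent.Lib.MP8a3537.UV Pool.Agent.Lib.MP8a3537.AU Pool.Agent.Lib.MP8a3537.RO
open Pool.Agent.Lib.MP8a3537.ROK Pool.Agent.Lib.MP8a3537.LL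

/-! ## From `RO/SCU.lean` -/

open Matrix Pool.Agent.Lib.MP8a3537.UV

namespace SCUMP

variable {A : Type} [Ring A] [StarRing A]

theorem sq {ε : ℤˣ} {m n : Type} (X : Matrix m n A) : (ε : ℤ) • (ε : ℤ) • X = X := by
  rcases Int.units_eq_one_or ε with h | h <;> simp [h]

theorem star_smul' {ε : ℤˣ} {m n : Type} (X : Matrix m n A) :
    ((ε : ℤ) • X)ᴴ = (ε : ℤ) • Xᴴ := by
  rcases Int.units_eq_one_or ε with h | h <;> simp [h]

omit [StarRing A] in
theorem W0_mul {n : ℕ} (N : ℕ) (ν : Matrix (Fin n ⊕ Fin n) (Fin n ⊕ Fin n) A)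
    (h : ν ^ N = 0) : W0 N ν * (1 + ν) = 1 ∧ (1 + ν) * W0 N ν = 1 := by
  have h1 := geom_sum_mul_neg (-ν) N
  have h2 := mul_neg_geom_sum (-ν) N
  have h3 : (-ν) ^ N = 0 := by
    rw [neg_pow, h, mul_zero]
  rw [sub_neg_eq_add, h3, sub_zero] at h1 h2
  exact ⟨h1, h2⟩

/-- the matrix `J` -/
def J (A : Type) [Ring A] (ε : ℤˣ) (n : ℕ) : Matrix (Fin n ⊕ Fin n) (Fin n ⊕ Fin n) A :=
  fromBlocks 0 1 ((ε : ℤ) • 1) 0

/-- the inverse of `J` -/
def Ji (A : Type) [Ring A] (ε : ℤˣ) (n : ℕ) : Matrix (Fin n ⊕ Fin n) (Fin n ⊕ Fin n) A :=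
  fromBlocks 0 ((ε : ℤ) • 1) 1 0

omit [StarRing A] in
theorem J_Ji (ε : ℤˣ) (n : ℕ) : J A ε n * Ji A ε n = 1 ∧ Ji A ε n * J A ε n = 1 := by
  unfold J Ji
  rw [fromBlocks_multiply, fromBlocks_multiply]
  rcases Int.units_eq_one_or ε with h | h <;> simp [h, fromBlocks_one]

theorem lam (ε : ℤˣ) {n : ℕ} (ψ μ χ : Matrix (Fin n) (Fin n) A) :
    UF ψ μ χ + (ε : ℤ) • (UF ψ μ χ)ᴴ =
      J A ε n * (1 + nu ε (ψ + (ε : ℤ) • ψᴴ) μ (χ + (ε : ℤ) • χᴴ)) := by
  unfold UF nu J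
  rw [← fromBlocks_one, fromBlocks_add, fromBlocks_multiply, fromBlocks_conjTranspose,
    fromBlocks_smul, fromBlocks_add]
  rcases Int.units_eq_one_or ε with h | h
  · simp [h]
  · simp only [h, Units.val_neg, Units.val_one, neg_smul, one_smul, conjTranspose_add,
      conjTranspose_one, conjTranspose_conjTranspose, conjTranspose_zero, Matrix.zero_mul,
      Matrix.one_mul, Matrix.neg_mul, zero_add, add_zero, neg_neg, neg_zero, smul_neg, neg_add]

end SCUMP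

open SCUMP in
theorem specSCU (hSCH : SpecSCH) : SpecSCU := by
  intro A _ _ _ ε n r N ψ μ χ Ξ ψ' hν
  set ν := nu ε (ψ + (ε : ℤ) • ψᴴ) μ (χ + (ε : ℤ) • χᴴ) with hνd
  set w := W0 N ν with hw
  obtain ⟨hw1, hw2⟩ := W0_mul N ν hν
  obtain ⟨hJ1, hJ2⟩ := J_Ji (A := A) ε n
  have hlam := lam ε ψ μ χ
  rw [← hνd] at hlam
  let Ξ' : Matrix (Fin r) (Fin n ⊕ Fin n) A := fromCols Ξ 0
  have hΞ' : Ξ'ᴴ = fromRows Ξᴴ 0 := by
    change (fromCols Ξ 0)ᴴ = _
    rw [conjTranspose_fromCols_eq_fromRows_conjTranspose, conjTranspose_zero]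
  have hwb : w = fromBlocks (blk w true true) (blk w true false) (blk w false true)
      (blk w false false) := by
    ext i j
    rcases i with i | i <;> rcases j with j | j <;> rfl
  have hZm : w * Ji A ε n * Ξ'ᴴ = fromRows (blk w true false * Ξᴴ) (blk w false false * Ξᴴ) := by
    rw [hΞ', Matrix.mul_assoc]
    unfold Ji
    rw [fromBlocks_mul_fromRows]
    conv_lhs => rw [hwb]
    rw [fromBlocks_mul_fromRows]
    simp
  have h1 : (UF ψ μ χ + (ε : ℤ) • (UF ψ μ χ)ᴴ) * (w * Ji A ε n) = 1 := by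
    rw [hlam, Matrix.mul_assoc, ← Matrix.mul_assoc _ w, hw2, Matrix.one_mul, hJ1]
  have h2 : (w * Ji A ε n) * (UF ψ μ χ + (ε : ℤ) • (UF ψ μ χ)ᴴ) = 1 := by
    rw [hlam, Matrix.mul_assoc, ← Matrix.mul_assoc (Ji A ε n), hJ2, Matrix.one_mul, hw1]
  have hκ : -((w * Ji A ε n * Ξ'ᴴ)ᴴ * UF ψ μ χ * (w * Ji A ε n * Ξ'ᴴ)) = kap ψ μ χ w Ξ := by
    rw [hZm]
    unfold UF kap
    rw [EMVAux.rows_form]
    simp
  constructor
  · intro h3 h4
    have h5 := hSCH A ε (Fin n ⊕ Fin n) (Fin r) (UF ψ μ χ) (w * Ji A ε n) Ξ' ψ' h1 h2 h3 (by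
      rw [hκ]
      have h6 : UF ψ' 0 (kap ψ μ χ w Ξ) = fromBlocks ψ' 1 0 (kap ψ μ χ w Ξ) := by
        unfold UF
        simp
      rw [← h6]
      exact h4)
    have h7 : UF ψ μ χ + Ξ'ᴴ * ψ' * Ξ' = UF (ψ + Ξᴴ * ψ' * Ξ) μ χ := by
      rw [hΞ']
      change UF ψ μ χ + fromRows Ξᴴ 0 * ψ' * fromCols Ξ 0 = _
      rw [fromRows_mul, fromRows_mul_fromCols]
      unfold UF
      rw [fromBlocks_add]
      simp
    rw [h7] at h5
    exact h5
  · have h3 : (UF ψ μ χ + (ε : ℤ) • (UF ψ μ χ)ᴴ) * (w * Ji A ε n * Ξ'ᴴ) = Ξ'ᴴ := by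
      rw [← Matrix.mul_assoc, h1, Matrix.one_mul]
    have h4 : kap ψ μ χ w Ξ + (ε : ℤ) • (kap ψ μ χ w Ξ)ᴴ =
        -((w * Ji A ε n * Ξ'ᴴ)ᴴ *
          ((UF ψ μ χ + (ε : ℤ) • (UF ψ μ χ)ᴴ) * (w * Ji A ε n * Ξ'ᴴ))) := by
      rw [← hκ]
      simp only [conjTranspose_neg, conjTranspose_mul, conjTranspose_conjTranspose,
        Matrix.add_mul, Matrix.mul_add, Matrix.smul_mul, Matrix.mul_smul, smul_neg, neg_add,
        Matrix.mul_assoc]
    rw [h4, h3, ← conjTranspose_mul, hZm]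
    change -(fromCols Ξ 0 * fromRows (blk w true false * Ξᴴ) (blk w false false * Ξᴴ))ᴴ = _
    rw [fromCols_mul_fromRows]
    simp [Matrix.mul_assoc]


/-! ## From `RO/ELM.lean` -/

open Matrix Pool.Agent.Lib.MP8a3537.UV Pool.Agent.Lib.MP8a3537.AU
open Pool.Agent.Lib.MP8a3537.UO (ext)

namespace ELMAuxP

section Sets

variable {G : Type} [Group G] (H : Subgroup G) (g : G)

theorem dc_left {h x : G} (hh : h ∈ H) (hx : x ∈ dc H g) : h * x ∈ dc H g := by
  obtain ⟨a, ha, b, hb, rfl⟩ := hx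
  exact ⟨h * a, H.mul_mem hh ha, b, hb, by group⟩

theorem dc_right {h x : G} (hh : h ∈ H) (hx : x ∈ dc H g) : x * h ∈ dc H g := by
  obtain ⟨a, ha, b, hb, rfl⟩ := hx
  exact ⟨a, ha, b * h, H.mul_mem hb hh, by group⟩

theorem dc_inv (hg : g * g ∈ H) {x : G} (hx : x ∈ dc H g) : x⁻¹ ∈ dc H g := by
  obtain ⟨a, ha, b, hb, rfl⟩ := hx
  exact ⟨b⁻¹ * (g * g)⁻¹, H.mul_mem (H.inv_mem hb) (H.inv_mem hg), a⁻¹, H.inv_mem ha, by group⟩

theorem bi_dc : Bi H (dc H g) :=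
  ⟨fun _ hh _ hx => dc_left H g hh hx, fun _ hh _ hx => dc_right H g hh hx⟩

theorem bi_compl : Bi H (dc H g)ᶜ := by
  constructor
  · intro h hh x hx hc
    apply hx
    have := dc_left H g (H.inv_mem hh) hc
    simpa using this
  · intro h hh x hx hc
    apply hx
    have := dc_right H g (H.inv_mem hh) hc
    simpa using this

end Sets

section Cut

variable {R G : Type} [Ring R]

theorem mat_ext {m n : Type} {M N : Matrix m n (MonoidAlgebra R G)}
    (h : ∀ i j x, (M i j).coeff x = (N i j).coeff x) : M = N := by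
  refine Matrix.ext fun i j => ?_
  ext x
  exact h i j x

theorem cutM_coeff {m n : Type} (W : Set G) (M : Matrix m n (MonoidAlgebra R G)) (i : m) (j : n)
    (x : G) [Decidable (x ∈ W)] :
    (cutM W M i j).coeff x = if x ∈ W then (M i j).coeff x else 0 := by
  have h := cut_coeff W (M i j) x
  change (cut W (M i j)).coeff x = _
  rw [h]
  split_ifs <;> rfl

theorem cutM_add {m n : Type} (W : Set G) (M N : Matrix m n (MonoidAlgebra R G)) :
    cutM W (M + N) = cutM W M + cutM W N := by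
  classical
  refine mat_ext fun i j x => ?_
  rw [cutM_coeff, Matrix.add_apply, Matrix.add_apply, MonoidAlgebra.coeff_add,
    MonoidAlgebra.coeff_add, Finsupp.add_apply, Finsupp.add_apply, cutM_coeff, cutM_coeff]
  split_ifs <;> simp

theorem cutM_neg {m n : Type} (W : Set G) (M : Matrix m n (MonoidAlgebra R G)) :
    cutM W (-M) = - cutM W M := by
  have h0 : cutM W (0 : Matrix m n (MonoidAlgebra R G)) = 0 := by
    classical
    refine mat_ext fun i j x => ?_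
    rw [cutM_coeff]
    simp
  have h : cutM W (-M) + cutM W M = 0 := by rw [← cutM_add, neg_add_cancel, h0]
  exact eq_neg_of_add_eq_zero_left h

theorem unit_cases (ε : ℤˣ) {A : Type} [AddCommGroup A] (x : A) :
    (ε : ℤ) • x = x ∨ (ε : ℤ) • x = -x := by
  rcases Int.units_eq_one_or ε with h | h
  · left
    rw [h]
    simp
  · right
    rw [h]
    simp

theorem cutM_smul {m n : Type} (W : Set G) (ε : ℤˣ) (M : Matrix m n (MonoidAlgebra R G)) :
    cutM W ((ε : ℤ) • M) = (ε : ℤ) • cutM W M := by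
  rcases Int.units_eq_one_or ε with h | h
  · rw [h]
    simp
  · rw [h]
    simp only [Units.val_neg, Units.val_one, neg_smul, one_smul]
    exact cutM_neg W M

theorem cutM_split {m n : Type} (W : Set G) (M : Matrix m n (MonoidAlgebra R G)) :
    cutM Wᶜ M + cutM W M = M := by
  classical
  refine mat_ext fun i j x => ?_
  rw [Matrix.add_apply, MonoidAlgebra.coeff_add, Finsupp.add_apply, cutM_coeff, cutM_coeff]
  by_cases h : x ∈ W
  · simp [h]
  · simp [h]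

theorem cutM_star [StarRing R] [Group G] {m n : Type} (W : Set G) (hW : ∀ x ∈ W, x⁻¹ ∈ W)
    (M : Matrix m n (MonoidAlgebra R G)) : cutM W Mᴴ = (cutM W M)ᴴ := by
  classical
  refine mat_ext fun i j x => ?_
  rw [cutM_coeff, conjTranspose_apply, conjTranspose_apply, star_coeff, star_coeff, cutM_coeff]
  by_cases h : x ∈ W
  · rw [if_pos h, if_pos (hW x h)]
  · rw [if_neg h, if_neg, star_zero]
    intro h1
    apply h
    have := hW _ h1
    simpa using this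

theorem supp_cutM {m n : Type} (X W : Set G) (M : Matrix m n (MonoidAlgebra R G))
    (hM : SuppIn X M) : SuppIn {x | x ∈ X ∧ x ∈ W} (cutM W M) := by
  classical
  intro i j x hx
  rw [cutM_coeff] at hx
  by_cases h : x ∈ W
  · rw [if_pos h] at hx
    exact ⟨hM i j x hx, h⟩
  · rw [if_neg h] at hx
    exact absurd rfl hx

end Cut

section Blk

variable {A : Type} [Ring A] [StarRing A]

theorem blk_ft (ε : ℤˣ) {n : ℕ} (a μ b : Matrix (Fin n) (Fin n) A) :
    blk (nu ε a μ b) false true = a := by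
  refine Matrix.ext fun i j => ?_
  rfl

theorem blk_tt (ε : ℤˣ) {n : ℕ} (a μ b : Matrix (Fin n) (Fin n) A) :
    blk (nu ε a μ b) true true = μ := by
  refine Matrix.ext fun i j => ?_
  rfl

theorem blk_tf (ε : ℤˣ) {n : ℕ} (a μ b : Matrix (Fin n) (Fin n) A) :
    blk (nu ε a μ b) true false = (ε : ℤ) • b := by
  refine Matrix.ext fun i j => ?_
  rfl

theorem smul_smul_self (ε : ℤˣ) {m n : Type} (M : Matrix m n A) : (ε : ℤ) • ((ε : ℤ) • M) = M := by
  rcases Int.units_eq_one_or ε with h | h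
  · rw [h]
    simp
  · rw [h]
    simp

theorem smul_star (ε : ℤˣ) {m n : Type} (M : Matrix m n A) :
    ((ε : ℤ) • M)ᴴ = (ε : ℤ) • Mᴴ := by
  rcases Int.units_eq_one_or ε with h | h
  · rw [h]
    simp
  · rw [h]
    simp

theorem herm (ε : ℤˣ) {n : Type} (M : Matrix n n A) :
    M + (ε : ℤ) • Mᴴ = (ε : ℤ) • (M + (ε : ℤ) • Mᴴ)ᴴ := by
  rw [conjTranspose_add, smul_star, conjTranspose_conjTranspose, smul_add, smul_smul_self,
    add_comm]

end Blk

end ELMAuxP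

open ELMAuxP in
theorem specELM (hEFA : SpecEFA) (hFAC : SpecFAC) (hSCU : SpecSCU) (hKNA : SpecKNA)
    (hKSP : SpecKSP) : SpecELM := by
  intro R G _ _ _ _ H X1 X2 X3 Yp Ym hP ε n ψ μ χ hψ hμ hχ hnil g hg hgg hS hB
  obtain ⟨N0, hN0⟩ := hnil
  set a := ψ + (ε : ℤ) • ψᴴ with ha
  set b := χ + (ε : ℤ) • χᴴ with hb
  have hN : (nu ε a μ b) ^ (N0 + 1) = 0 := by rw [pow_succ, hN0, zero_mul]
  have hsa : SuppIn X1 a := by
    intro i j x hx
    rw [ha, Matrix.add_apply, MonoidAlgebra.coeff_add, Finsupp.add_apply] at hx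
    by_cases h1 : (ψ i j).coeff x = 0
    · rw [h1, zero_add, Matrix.smul_apply, conjTranspose_apply] at hx
      have h2 : (star (ψ j i)).coeff x ≠ 0 := by
        intro h0
        apply hx
        rcases unit_cases ε (star (ψ j i)) with h | h
        · rw [h, h0]
        · rw [h, MonoidAlgebra.coeff_neg, Finsupp.neg_apply, h0, neg_zero]
      rw [star_coeff] at h2
      have h3 : (ψ j i).coeff x⁻¹ ≠ 0 := by
        intro h0
        apply h2
        rw [h0, star_zero]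
      have := hP.X1i _ (hψ j i _ h3)
      simpa using this
    · exact hψ i j x h1
  have hsb : SuppIn X2 b := by
    intro i j x hx
    rw [hb, Matrix.add_apply, MonoidAlgebra.coeff_add, Finsupp.add_apply] at hx
    by_cases h1 : (χ i j).coeff x = 0
    · rw [h1, zero_add, Matrix.smul_apply, conjTranspose_apply] at hx
      have h2 : (star (χ j i)).coeff x ≠ 0 := by
        intro h0
        apply hx
        rcases unit_cases ε (star (χ j i)) with h | h
        · rw [h, h0]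
        · rw [h, MonoidAlgebra.coeff_neg, Finsupp.neg_apply, h0, neg_zero]
      rw [star_coeff] at h2
      have h3 : (χ j i).coeff x⁻¹ ≠ 0 := by
        intro h0
        apply h2
        rw [h0, star_zero]
      have := hP.X2i _ (hχ j i _ h3)
      simpa using this
    · exact hχ i j x h1
  obtain ⟨hE, hcut, hblk⟩ := hEFA R G H X1 X2 X3 Yp Ym hP ε n a μ b hsa hμ hsb (herm ε ψ)
    (herm ε χ) (N0 + 1) hN
  have hcs : ∀ x ∈ dc H g, x⁻¹ ∈ dc H g := fun x hx => dc_inv H g hgg hx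
  have hcs' : ∀ x ∈ (dc H g)ᶜ, x⁻¹ ∈ (dc H g)ᶜ := by
    intro x hx hc
    apply hx
    have := hcs _ hc
    simpa using this
  have hac : cutM (dc H g) a = cutM (dc H g) ψ + (ε : ℤ) • (cutM (dc H g) ψ)ᴴ := by
    rw [ha, cutM_add, cutM_smul, cutM_star _ hcs]
  have ha0 : cutM (dc H g)ᶜ a = cutM (dc H g)ᶜ ψ + (ε : ℤ) • (cutM (dc H g)ᶜ ψ)ᴴ := by
    rw [ha, cutM_add, cutM_smul, cutM_star _ hcs']
  have e1 : cutM (dc H g)ᶜ a ∈ EE H (nu ε a μ b) 1 false true := by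
    have := hcut false true _ (bi_compl H g)
    rwa [blk_ft] at this
  have e2 : cutM (dc H g) a ∈ EE H (nu ε a μ b) 1 false true := by
    have := hcut false true _ (bi_dc H g)
    rwa [blk_ft] at this
  have e3 : μ ∈ EE H (nu ε a μ b) 1 true true := by
    have := hblk true true
    rwa [blk_tt] at this
  have e4 : b ∈ EE H (nu ε a μ b) 1 true false := by
    have h1 := hblk true false
    rw [blk_tf] at h1
    have h2 := AddSubgroup.zsmul_mem _ h1 (ε : ℤ)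
    rwa [smul_smul_self] at h2
  obtain ⟨r, Ξ, ψ', hΞ, hψ', hfac⟩ := hFAC R G H g n (cutM (dc H g) ψ) (by
    intro i j x hx
    exact (supp_cutM X1 (dc H g) ψ hψ i j x hx).2)
  obtain ⟨hn0, hn1⟩ := hKNA (MonoidAlgebra R G) ε n r (N0 + 1) _ hE (by omega) _ _ _ _ e1 e2 e3 e4
  rw [ha0] at hn0 hn1
  refine ⟨⟨N0 + 1, hn0⟩, fun hst => ?_⟩
  obtain ⟨s1, s2⟩ := hSCU (MonoidAlgebra R G) ε n r (N0 + 1) (cutM (dc H g)ᶜ ψ) μ χ Ξ ψ' hn0
  have hα : Ξᴴ * (ψ' + (ε : ℤ) • ψ'ᴴ) * Ξ = cutM (dc H g) a := by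
    rw [hac, hfac, conjTranspose_mul, conjTranspose_mul, conjTranspose_conjTranspose,
      Matrix.mul_add, Matrix.add_mul, Matrix.mul_smul, Matrix.smul_mul, Matrix.mul_assoc Ξᴴ ψ'ᴴ Ξ]
  have h3 := hn1 Ξ _ _ hα s2
  have hsup := hKSP R G H X1 X2 X3 Yp Ym {x | x ∈ X1 ∧ x ∉ dc H g} hS ε n r (N0 + 1)
    (cutM (dc H g)ᶜ ψ) μ χ Ξ (supp_cutM X1 (dc H g)ᶜ ψ hψ) hμ hχ hΞ
  have h4 := hB r ψ' _ (by
    intro i j x hx
    have := hψ' i j x hx
    exact ⟨1, (Kg H g).one_mem, by rw [one_mul]; exact this⟩) hsup h3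
  have h5 := s1 hst h4
  have h6 : cutM (dc H g)ᶜ ψ + Ξᴴ * ψ' * Ξ = ψ := by
    rw [← hfac]
    exact cutM_split _ _
  rwa [h6] at h5


end Pool.Agent.Lib.MP8a3537.AR
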