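import Pool.Agent.Lib.MP_8a3537_gt.AR.FC
import Pool.Agent.Lib.MP_8a3537_gt.UV.EMV

/-!
# Classes of forms (MP_8a3537_gt, folder AR): the E-move (helper76)
-/

set_option autoImplicit false
set_option linter.unusedSectionVars false

namespace Pool.Agent.Lib.MP8a3537.AR

open Matrix Pool.Agent.Lib.MP8a3537.UV

/-- The E-move for a class of forms (`UV.specEmv`). -/
theorem ss_emv {A : Type} [Ring A] [StarRing A] [FC A] (ε : ℤˣ) (n r : ℕ)
    (ψ : Matrix (Fin r) (Fin r) A) (m' : Matrix (Fin n) (Fin r) A) (χ : Matrix (Fin n) (Fin n) A)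
    (p : Matrix (Fin r) (Fin n) A) (h : SS ε (UF ψ (p * m') (p * χ * pᴴ))) :
    SS ε (UF (pᴴ * ψ * p) (m' * p) χ) :=
  ss_destab (Fin r) (ss_of_isom (EMVAux.main_iso ε n r ψ m' χ p)
    (ss_sum (ss_of_sh (sh_hyp ε n)) h))

end Pool.Agent.Lib.MP8a3537.AR
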