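import Pool.Agent.Lib.MP_8a3537_gt.AR.Defs

/-!
# Classes of forms (MP_8a3537_gt, folder AR) (helper76, after a proposal of helper73)

`FC A`: a class `S` of `ε`-quadratic forms over `A` (`Matrix ι ι A`, `ι` finite) which contains the hyperbolic
forms of free modules and is closed under isometries, orthogonal sums, and the removal of the hyperbolic form of a
free module as an orthogonal summand. Examples: `StablyHyperbolic` (the smallest one), `SHp`.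
-/

set_option autoImplicit false
set_option linter.unusedSectionVars false

namespace Pool.Agent.Lib.MP8a3537.AR

open Matrix Pool.Agent.Lib.MP8a3537.UV

/-- A class of forms. -/
class FC (A : Type) [Ring A] [StarRing A] where
  S : ∀ (_ : ℤˣ) {ι : Type} [Fintype ι] [DecidableEq ι], Matrix ι ι A → Prop
  iso : ∀ {ε : ℤˣ} {ι κ : Type} [Fintype ι] [DecidableEq ι] [Fintype κ] [DecidableEq κ]
    {Ψ : Matrix ι ι A} {Φ : Matrix κ κ A}, Isometric ε Ψ Φ → S ε Φ → S ε Ψ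
  hyp : ∀ (ε : ℤˣ) (n : ℕ), S ε (hyp (Fin n) A)
  sum : ∀ {ε : ℤˣ} {ι κ : Type} [Fintype ι] [DecidableEq ι] [Fintype κ] [DecidableEq κ]
    {Ψ : Matrix ι ι A} {Φ : Matrix κ κ A}, S ε Ψ → S ε Φ → S ε (fromBlocks Ψ 0 0 Φ)
  destab : ∀ {ε : ℤˣ} {ι : Type} [Fintype ι] [DecidableEq ι] {Ψ : Matrix ι ι A} (n : ℕ),
    S ε (fromBlocks Ψ 0 0 (UV.hyp (Fin n) A)) → S ε Ψ

/-- The form `Ψ` is in the class. -/
def SS {A : Type} [Ring A] [StarRing A] [FC A] (ε : ℤˣ) {ι : Type} [Fintype ι] [DecidableEq ι]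
    (Ψ : Matrix ι ι A) : Prop :=
  FC.S ε Ψ

section

variable {A : Type} [Ring A] [StarRing A] [FC A] {ε : ℤˣ}

theorem ss_of_isom {ι κ : Type} [Fintype ι] [DecidableEq ι] [Fintype κ] [DecidableEq κ]
    {Ψ : Matrix ι ι A} {Φ : Matrix κ κ A} (h : Isometric ε Ψ Φ) (hΦ : SS ε Φ) : SS ε Ψ :=
  FC.iso h hΦ

theorem ss_sum {ι κ : Type} [Fintype ι] [DecidableEq ι] [Fintype κ] [DecidableEq κ]
    {Ψ : Matrix ι ι A} {Φ : Matrix κ κ A} (h : SS ε Ψ) (h' : SS ε Φ) :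
    SS ε (fromBlocks Ψ 0 0 Φ) :=
  FC.sum h h'

/-- Removal of a hyperbolic summand. -/
theorem ss_destab {ι : Type} [Fintype ι] [DecidableEq ι] {Ψ : Matrix ι ι A} (N : Type)
    [Fintype N] [DecidableEq N] (h : SS ε (fromBlocks Ψ 0 0 (hyp N A))) : SS ε Ψ := by
  refine FC.destab (Fintype.card N) (ss_of_isom ?_ h)
  exact EMVAux.iso_sum' ε Ψ (RO.SCHM.hyp_card (A := A) ε N)

/-- Stably hyperbolic forms are in every class. -/
theorem ss_of_sh {ι : Type} [Fintype ι] [DecidableEq ι] {Ψ : Matrix ι ι A}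
    (h : StablyHyperbolic ε Ψ) : SS ε Ψ := by
  obtain ⟨m, n, hmn⟩ := h
  exact FC.destab m (FC.iso hmn (FC.hyp ε n))

end

/-! ### The two examples -/

theorem sh_of_isom {A : Type} [Ring A] [StarRing A] {ε : ℤˣ} {ι κ : Type} [Fintype ι]
    [DecidableEq ι] [Fintype κ] [DecidableEq κ] {Ψ : Matrix ι ι A} {Φ : Matrix κ κ A}
    (h : Isometric ε Ψ Φ) (hΦ : StablyHyperbolic ε Φ) : StablyHyperbolic ε Ψ :=
  SWPAux.stab_of_isom h hΦ

theorem sh_hyp {A : Type} [Ring A] [StarRing A] (ε : ℤˣ) (n : ℕ) :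
    StablyHyperbolic ε (hyp (Fin n) A) :=
  ⟨0, n, EMVAux.hyp_sum (A := A) ε n 0⟩

theorem sh_sum {A : Type} [Ring A] [StarRing A] {ε : ℤˣ} {ι κ : Type} [Fintype ι]
    [DecidableEq ι] [Fintype κ] [DecidableEq κ] {Ψ : Matrix ι ι A} {Φ : Matrix κ κ A}
    (h : StablyHyperbolic ε Ψ) (h' : StablyHyperbolic ε Φ) :
    StablyHyperbolic ε (fromBlocks Ψ 0 0 Φ) := by
  obtain ⟨m₁, n₁, h₁⟩ := h
  obtain ⟨m₂, n₂, h₂⟩ := h'
  exact ⟨m₁ + m₂, n₁ + n₂, RO.SCHM.sh_sum ε Ψ Φ m₁ n₁ m₂ n₂ h₁ h₂⟩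

theorem sh_destab {A : Type} [Ring A] [StarRing A] {ε : ℤˣ} {ι : Type} [Fintype ι]
    [DecidableEq ι] {Ψ : Matrix ι ι A} (n : ℕ)
    (h : StablyHyperbolic ε (fromBlocks Ψ 0 0 (hyp (Fin n) A))) : StablyHyperbolic ε Ψ := by
  obtain ⟨m, k, hmk⟩ := h
  refine ⟨n + m, k, ?_⟩
  have s1 := EMVAux.iso_sum' ε Ψ (EMVAux.iso_symm ε (EMVAux.hyp_sum (A := A) ε n m))
  have s2 := EMVAux.iso_assoc ε Ψ (hyp (Fin n) A) (hyp (Fin m) A)
  exact EMVAux.iso_trans ε s1 (EMVAux.iso_trans ε s2 hmk)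

/-- The class of the stably hyperbolic forms. -/
@[reducible] def fcSH (A : Type) [Ring A] [StarRing A] : FC A where
  S := fun ε _ _ _ Ψ => StablyHyperbolic ε Ψ
  iso := fun h h' => sh_of_isom h h'
  hyp := fun ε n => sh_hyp ε n
  sum := fun h h' => sh_sum h h'
  destab := fun n h => sh_destab n h

/-- The class of the forms which are stably hyperbolic forms of projective modules. -/
@[reducible] def fcSHp (A : Type) [Ring A] [StarRing A] : FC A where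
  S := fun ε _ _ _ Ψ => SHp ε Ψ
  iso := fun h h' => stab_of_isom h h'
  hyp := fun ε n => hypP_shp (hypP_hyp ε (Fin n))
  sum := fun h h' => shp_sum h h'
  destab := fun n h => shp_destab (Fin n) h

end Pool.Agent.Lib.MP8a3537.AR
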