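import Pool.Agent.Lib.MP_8a3537_gt.AR.SpecS
import Pool.Agent.Lib.MP_8a3537_gt.LL2.SPC

/-!
# Classes of forms (MP_8a3537_gt, folder AR), module SPS: good pairs of flips, with stops (helper45)
-/

set_option autoImplicit false
set_option linter.unusedSectionVars false

namespace Pool.Agent.Lib.MP8a3537.AR

open Matrix Pool.Agent.Lib.MP8a3537.UV Pool.Agent.Lib.MP8a3537.AU Pool.Agent.Lib.MP8a3537.RO
open Pool.Agent.Lib.MP8a3537.ROK Pool.Agent.Lib.MP8a3537.LL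
open Pool.Agent.Lib.MP8a3537.LL2 (NI Cnc Lng)

namespace SPSM

section Geometry

variable {R G V : Type} [Ring R] [StarRing R] [Group G] [FC (MonoidAlgebra R G)] [MulAction G V]
  {d : V → V → ℕ}

/-- `SP` for `y` from `SP` for a flip in the coset of `y`. -/
theorem sp_mono {N : ℕ} {x1 x2 : V} {x y k : G} (h : SP R G d N x1 x2 x (y * k))
    (hk : k ∈ MulAction.stabilizer G x1 ⊓ MulAction.stabilizer G x2)
    (hy : y ∈ dc (MulAction.stabilizer G x1 ⊓ MulAction.stabilizer G x2) (y * k)) :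
    SP R G d N x1 x2 x y := by
  intro L X1 X2 Yp Ym P hg hx1 hy2 ε n ψ χ hψ hχ hν
  have hL := LL2.SPCM.eqL hg
  rw [← hL] at hk hy
  exact h L X1 X2 Yp Ym P hg hx1 (P.X2r k hk y hy2) ε n ψ χ hψ
    (fun i j z hz => LL2.SPCM.D2_mono hy (hχ i j z hz)) hν

/-- An element which exchanges `x1` and `x2` normalizes the stabilizer of the pair. -/
theorem ns_of {x1 x2 : V} {x : G} (h1 : x • x1 = x2) (h2 : x • x2 = x1) :
    Ns (MulAction.stabilizer G x1 ⊓ MulAction.stabilizer G x2) x := by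
  have e1 : x⁻¹ • x1 = x2 := by rw [inv_smul_eq_iff, h2]
  have e2 : x⁻¹ • x2 = x1 := by rw [inv_smul_eq_iff, h1]
  intro h hh
  rw [Subgroup.mem_inf, MulAction.mem_stabilizer_iff, MulAction.mem_stabilizer_iff] at hh
  obtain ⟨a1, a2⟩ := hh
  constructor
  · rw [Subgroup.mem_inf, MulAction.mem_stabilizer_iff, MulAction.mem_stabilizer_iff, mul_smul,
      mul_smul, mul_smul, mul_smul, e1, a2, h2, e2, a1, h1]
    exact ⟨rfl, rfl⟩
  · rw [Subgroup.mem_inf, MulAction.mem_stabilizer_iff, MulAction.mem_stabilizer_iff, mul_smul,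
      mul_smul, mul_smul, mul_smul, h1, a2, e2, h2, a1, e1]
    exact ⟨rfl, rfl⟩

/-- One cut at the flip `g`; the other piece is `La L y`. -/
theorem cutS (hSGV : SpecSGV) {L : Subgroup G} {X1 X2 Yp Ym : Set G} (P : PPK L X1 X2 ∅ Yp Ym)
    {g y : G} (hg : g ∈ X1) (hgg : g * g ∈ L) (hy : y ∈ X2) (hyy : y * y ∈ L) (hn : Ns L y)
    (hB : Blk R (La L y) (La (Kg L g) g)) {N : ℕ} (hN : 1 ≤ N) {ε : ℤˣ} {n : ℕ}
    {ψ χ : Matrix (Fin n) (Fin n) (MonoidAlgebra R G)} (hψ : SuppIn (D2 L g) ψ)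
    (hχ : SuppIn (D2 L y) χ) (hν : (nu ε (ψ + (ε : ℤ) • ψᴴ) 0 (χ + (ε : ℤ) • χᴴ)) ^ N = 0) :
    SS ε (UF ψ 0 χ) := by
  obtain ⟨-, -, s3, -⟩ := specSYK G L X1 X2 ∅ Yp Ym
  have pt : Pt L X2 (La L y) := LL.SGNM.ptA (s3 P) hy hyy hn
  exact hSGV R G L X1 X2 Yp Ym P.toPingPong g hg hgg (La L y) pt ε n N hN ψ χ
    (fun i j z hz => LL2.SPCM.D2_dc hgg (hψ i j z hz))
    (fun i j z hz => LL.SGSM.dc_La hn (LL2.SPCM.D2_dc hyy (hχ i j z hz))) hν
    (fun r ψ' κ h1 h2 h3 => SGSMP.swapUF (hB ε r κ ψ' h2 h1 ⟨N, SGSMP.swap0 ε h3⟩))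

end Geometry

end SPSM

open SPSM LL2.SPCM in
/-- **SPS**: good pairs of flips. -/
theorem specSPS (hSGV : SpecSGV) (hSTP : SpecSTP) (hSPB : SpecSPB) : SpecSPS := by
  intro R G V _ _ _ _ _ d hT Q P N hN hQ hLng hCl x1 x2 x y hGS
  induction hGS with
  | @reg x1 x2 x y hq =>
    intro _ _ _ L X1 X2 Yp Ym PP hg hx hy ε n ψ χ hψ hχ hν
    obtain ⟨-, -, s3, s4⟩ := specSYK G L X1 X2 ∅ Yp Ym
    exact hQ x1 x2 hq L X1 X2 Yp Ym PP hg ε n ψ χ
      (fun i j z hz => DCMM.D2_sub PP hx z (hψ i j z hz))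
      (fun i j z hz => DCMM.D2_sub (s3 PP) hy z (hχ i j z hz)) hν
  | @bx x1 x2 x y h1 h2 hB =>
    intro _ hxx hyy L X1 X2 Yp Ym PP hg hx hy ε n ψ χ hψ hχ hν
    have hL := eqL hg
    have hn := ns_of h1 h2
    rw [← hL] at hxx hyy hn hB
    obtain ⟨-, -, s3, -⟩ := specSYK G L X1 X2 ∅ Yp Ym
    exact SGSMP.swapUF (cutS hSGV (s3 PP) hy hyy hx hxx hn hB hN hχ hψ (SGSMP.swap0 ε hν))
  | @by' x1 x2 x y h1 h2 hB =>
    intro _ hxx hyy L X1 X2 Yp Ym PP hg hx hy ε n ψ χ hψ hχ hν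
    have hL := eqL hg
    have hn := ns_of h1 h2
    rw [← hL] at hxx hyy hn hB
    exact cutS hSGV PP hx hxx hy hyy hn hB hN hψ hχ hν
  | @stx x1 x2 x y _ ih =>
    intro hP hxx hyy L X1 X2 Yp Ym PP hg hx hy ε n ψ χ hψ hχ hν
    have hL := eqL hg
    have hm := mv1 hT hg hx
    obtain ⟨hx1, hxx'⟩ := sq1 hxx
    have hP' : P x1 (x • x1) := hLng.r x1 x2 x hP hx1 hm
    have hle := le1 hT hm
    refine hSTP R G V d hT N x1 x2 hN L X1 X2 Yp Ym PP hg x hx (by rw [hL]; exact hxx) y hy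
      (fun h3 => hCl h3 x1 (x • x1) hP') (fun y' hy' => ?_) ε n ψ χ hψ hχ hν
    have hy1 : y' ∈ dc (MulAction.stabilizer G x1 ⊓ MulAction.stabilizer G x2) y := by
      rw [hL] at hy'
      exact D2_dc hyy hy'
    by_cases hf : Flip (MulAction.stabilizer G x1 ⊓ MulAction.stabilizer G (x • x1)) y'
    · obtain ⟨k, hk, hkk, hyd⟩ := ROTAux.exists_flip hf
      have hy2 : y' * k ∈ dc (MulAction.stabilizer G x1 ⊓ MulAction.stabilizer G x2) y :=
        RO.ELMAux.dc_right _ y (hle hk) hy1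
      exact SPSM.sp_mono (ih (y' * k) hy2 hkk hP' hxx' hkk) hk hyd
    · exact (hSPB R G V d hT N x1 (x • x1) x y' hN).2 hxx' hf
        (fun h3 => hCl h3 x1 (x • x1) hP')
  | @sty x1 x2 x y _ ih =>
    intro hP hxx hyy
    refine (hSPB R G V d hT N x1 x2 x y hN).1 ?_
    intro L X1 X2 Yp Ym PP hg hy hx ε n ψ χ hψ hχ hν
    have hL := eqL hg
    have hm := mv1 hT hg hy
    rw [inf_comm] at hxx hyy
    obtain ⟨hy1, hyy'⟩ := sq1 hyy
    have hP' : P (y • x2) x2 := hLng.l x1 x2 y hP hy1 hm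
    have hle := le1 hT hm
    refine hSTP R G V d hT N x2 x1 hN L X1 X2 Yp Ym PP hg y hy (by rw [hL]; exact hyy) x hx
      (fun h3 => SGSMP.Cl_swap (hCl h3 (y • x2) x2 hP')) (fun x' hx' => ?_) ε n ψ χ hψ hχ hν
    have hx1 : x' ∈ dc (MulAction.stabilizer G x2 ⊓ MulAction.stabilizer G x1) x := by
      rw [hL] at hx'
      exact D2_dc hxx hx'
    by_cases hf : Flip (MulAction.stabilizer G x2 ⊓ MulAction.stabilizer G (y • x2)) x'
    · obtain ⟨k, hk, hkk, hxd⟩ := ROTAux.exists_flip hf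
      have hx2 : x' * k ∈ dc (MulAction.stabilizer G x2 ⊓ MulAction.stabilizer G x1) x :=
        RO.ELMAux.dc_right _ x (hle hk) hx1
      have e1 : MulAction.stabilizer G (y • x2) ⊓ MulAction.stabilizer G x2 =
          MulAction.stabilizer G x2 ⊓ MulAction.stabilizer G (y • x2) := inf_comm _ _
      have e2 : MulAction.stabilizer G x1 ⊓ MulAction.stabilizer G x2 =
          MulAction.stabilizer G x2 ⊓ MulAction.stabilizer G x1 := inf_comm _ _
      have hsp : SP R G d N (y • x2) x2 (x' * k) y :=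
        ih (x' * k) (by rw [e2]; exact hx2) (by rw [e1]; exact hkk) hP'
          (by rw [e1]; exact hkk) (by rw [e1]; exact hyy')
      exact SPSM.sp_mono ((hSPB R G V d hT N x2 (y • x2) y (x' * k) hN).1 hsp) hk hxd
    · exact (hSPB R G V d hT N x2 (y • x2) y x' hN).2 hyy' hf
        (fun h3 => SGSMP.Cl_swap (hCl h3 (y • x2) x2 hP'))

end Pool.Agent.Lib.MP8a3537.AR
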