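import Pool.Agent.Lib.MP_8a3537_gt.AR.SpecS

/-!
# Classes of forms (MP_8a3537_gt, folder AR): the step from `x1`, `x2` to `x1`, `x x1` (helper76)

Module STP of `AR/SpecS.lean`.
-/

set_option autoImplicit false
set_option linter.unusedSectionVars false

namespace Pool.Agent.Lib.MP8a3537.AR

open Matrix Pool.Agent.Lib.MP8a3537.UV Pool.Agent.Lib.MP8a3537.AU Pool.Agent.Lib.MP8a3537.RO
open Pool.Agent.Lib.MP8a3537.ROK Pool.Agent.Lib.MP8a3537.LL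

theorem specSTP (hSGV : SpecSGV) : SpecSTP := by
  intro R G V _ _ _ _ _ d hd N x1 x2 hN L X1 X2 Yp Ym hpp hgeo x hx hxx y hy hCl hSP ε n ψ χ
    hψ hχ hν
  obtain ⟨-, -, s3, s4⟩ := specSYK G L X1 X2 ∅ Yp Ym
  have hppe := s3 hpp
  have hcy : Pt L X2 (D2 L y) := DCMM.pt_D2 hppe hy
  have hψ' : SuppIn (dc L x) ψ := by
    intro i j z hz
    rcases hψ i j z hz with h | h
    · exact h
    · exact SGSM.dc_trans (RO.ELMAux.dc_inv L x hxx ⟨1, L.one_mem, 1, L.one_mem, by group⟩) h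
  refine hSGV R G L X1 X2 Yp Ym hpp.toPingPong x hx hxx (D2 L y) hcy ε n N hN ψ χ hψ' hχ hν ?_
  intro r ψ' κ hψ1 hκ hν'
  obtain ⟨k1, k2, k3, k4, k5⟩ := mSBK G L X1 X2 ∅ Yp Ym hpp.toPingPong x hx hxx
  have P1 := mBLK G L X1 X2 ∅ Yp Ym hpp x hx hxx
  obtain ⟨g1, hxx1, -⟩ := mBLG G V d hd L X1 X2 ∅ Yp Ym x1 x2 hpp.toPingPong hgeo x hx hxx
  have hle : ∀ a ∈ Kg L x, a ∈ L := fun a ha => ((mem_Kg _ _ _).1 ha).1
  have hsub : ∀ z ∈ D2 L y, z ∈ BX L X1 X2 ∅ x := by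
    intro z hz
    have hz2 : z ∈ X2 := hcy.sub z hz
    exact ⟨1, ((mWDA G L X1 X2 ∅ Yp Ym _ k4).2.2.2.2 true false z hz2).1⟩
  have pa : Pt (Kg L x) (La (Kg L x) x) (La (Kg L x) x) :=
    ⟨fun z hz => hz, ⟨fun h hh z hz => (k3.1 h hh z hz).1, fun h hh z hz => (k3.1 h hh z hz).2⟩,
      k3.2.1⟩
  have pc : Pt (Kg L x) (BX L X1 X2 ∅ x) (D2 L y) :=
    ⟨hsub, ⟨fun h hh z hz => hcy.bi.1 h (hle h hh) z hz,
      fun h hh z hz => hcy.bi.2 h (hle h hh) z hz⟩, hcy.inv⟩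
  have P2 := (LL.mDWP G (Kg L x) _ _ _ _ P1).2 _ _ pa pc
  have G2 := (LL.specDWG G V d hd (Kg L x) _ _ x1 (x • x1) g1).2 _ _ pa pc
  refine mDCM R G V d hd N x1 (x • x1) hN hCl (Kg L x) (La (Kg L x) x) (D2 L y) _ _ P2 G2 ?_ ε r
    ψ' κ hψ1 hκ hν'
  intro x' hx' y' hy' ε' n' ψ'' χ'' hs1 hs2 hν''
  have hxm : x ∈ La (Kg L x) x := ⟨1, (Kg L x).one_mem, by group⟩
  refine hSP y' hy' (Kg L x) (La (Kg L x) x) (D2 L y) _ _ P2 G2 hxm hy' ε' n' ψ'' χ'' ?_ hs2 hν''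
  have hd' : x' ∈ dc (Kg L x) x := by
    obtain ⟨l, hl, rfl⟩ := hx'
    exact ⟨l, hl, 1, (Kg L x).one_mem, by group⟩
  intro i j z hz
  rcases hs1 i j z hz with h | h
  · exact Or.inl (SGSM.dc_trans hd' h)
  · exact Or.inr (SGSM.dc_trans (SGSM.dc_inv_inv hd') h)

end Pool.Agent.Lib.MP8a3537.AR
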