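import Pool.Agent.Lib.MP_8a3537_gt.AR.THD
import Pool.Agent.Lib.MP_8a3537_gt.AR.ALL
import Pool.Agent.Lib.MP_8a3537_gt.AR.CHT
import Pool.Agent.Lib.MP_8a3537_gt.AR.CLS
import Pool.Agent.Lib.MP_8a3537_gt.AR.FLT
import Pool.Agent.Lib.MP_8a3537_gt.AR.SPS
import Pool.Agent.Lib.MP_8a3537_gt.AR.SPB
import Pool.Agent.Lib.MP_8a3537_gt.AR.SGV
import Pool.Agent.Lib.MP_8a3537_gt.AR.STP2
import Pool.Agent.Lib.MP_8a3537_gt.LL2.FAT
import Pool.Agent.Lib.MP_8a3537_gt.LL2.IDX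
import Pool.Agent.Lib.MP_8a3537_gt.LL2.UWD

/-!
# Assembly (MP_8a3537_gt, folder AR, helper28)

`mFLT`: the theorem for trees and a class of forms. `tD`: Theorem D. `mMainAb`: torsion-free abelian stabilizers.
-/

set_option autoImplicit false

namespace Pool.Agent.Lib.MP8a3537.AR

open Matrix Pool.Agent.Lib.MP8a3537.UV Pool.Agent.Lib.MP8a3537.RO Pool.Agent.Lib.MP8a3537.ROK

theorem mSGV : SpecSGV := specSGV LL2.specFAT (LL2.specIDX LL2.specUWD)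

theorem mSTP : SpecSTP := specSTP mSGV

theorem mSPB : SpecSPB := specSPB mSTP

theorem mSPS : SpecSPS := specSPS mSGV mSTP mSPB

/-- The theorem for trees and a class of forms. -/
theorem mFLT : SpecFLT := specFLT (specCLS mSPB mSPS) specCHT

/-- Torsion-free abelian stabilizers, every coefficient ring. -/
theorem mMainAb : MainAb := mainAb mFLT

/-- **Theorem D.** -/
theorem tD (R G V : Type) [Ring R] [StarRing R] [Group G] [MulAction G V]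
    (T : SimpleGraph V) (v w : V) (hT : T.IsTree)
    (hact : ∀ (g : G) (x y : V), T.Adj x y → T.Adj (g • x) (g • y)) (hvw : T.Adj v w)
    (hinv : ∀ g : G, ¬ (g • v = w ∧ g • w = v))
    (htwo : ∀ g : G, g * g = 1 → (g • v = v ↔ g • w = w)) (B : Set G → Set G → Prop)
    (hB : ∀ (x y : ℕ → V) (u : ℕ → G), Adm T v w x y u →
      (∃ i, DG.GC R ↥(Sb G (x i) (y i))) ∨
      ∃ i, 1 ≤ i ∧ B {a | ∃ k ∈ Sb G (x i) (y i), a = k * u i}
        {a | ∃ k ∈ Sb G (x (i + 1)) (y (i + 1)), a = k * u (i + 1)})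
    (ε : ℤˣ) (n : ℕ) (ψ μ χ : Matrix (Fin n) (Fin n) (MonoidAlgebra R G))
    (hψ : SuppIn {g | g • v = v ∧ g • w ≠ w} ψ) (hμ : SuppIn {g | g • v = w} μ)
    (hχ : SuppIn {g | g • w = w ∧ g • v ≠ v} χ)
    (hnil : IsNilpotent (nu ε (ψ + (ε : ℤ) • ψᴴ) μ (χ + (ε : ℤ) • χᴴ))) :
    SGen (PB B ε) ε (UF ψ μ χ) :=
  thD mFLT R G V T v w hT hact hvw hinv htwo B hB ε n ψ μ χ hψ hμ hχ hnil

end Pool.Agent.Lib.MP8a3537.AR
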