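import Pool.Agent.Lib.MP_8a3537_gt.UV.EMV
import Pool.Agent.Lib.MP_8a3537_gt.UV.SWP

/-!
# The class of forms which is generated by a set of forms (MP_8a3537_gt, folder AR, helper73)

`FSum P Λ`: `Λ` is an orthogonal sum of hyperbolic forms and of forms `UF ψ 0 χ` with `P ψ χ`. `SGen P ε Ψ`:
`Ψ` plus a hyperbolic form is isometric to such a sum. This class is closed under isometries, sums, and
contains `Ψ` if it contains `Ψ` plus a hyperbolic form.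
-/

set_option autoImplicit false

namespace Pool.Agent.Lib.MP8a3537.AR

open Matrix Pool.Agent.Lib.MP8a3537.UV
open Pool.Agent.Lib.MP8a3537.UV.EMVAux

section

variable {A : Type} [Ring A] [StarRing A]

/-- Orthogonal sums of hyperbolic forms and of the forms `UF ψ 0 χ` with `P ψ χ`. -/
inductive FSum (P : ∀ n : ℕ, Matrix (Fin n) (Fin n) A → Matrix (Fin n) (Fin n) A → Prop) :
    {ι : Type} → [Fintype ι] → [DecidableEq ι] → Matrix ι ι A → Prop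
  | hyp (n : ℕ) : FSum P (UV.hyp (Fin n) A)
  | gen {n : ℕ} {ψ χ : Matrix (Fin n) (Fin n) A} : P n ψ χ → FSum P (UF ψ 0 χ)
  | sum {ι κ : Type} [Fintype ι] [DecidableEq ι] [Fintype κ] [DecidableEq κ] {Φ : Matrix ι ι A}
      {Ψ : Matrix κ κ A} : FSum P Φ → FSum P Ψ → FSum P (fromBlocks Φ 0 0 Ψ)

/-- `Ψ` plus a hyperbolic form is isometric to a sum of hyperbolic forms and of forms in `P`. -/
def SGen (P : ∀ n : ℕ, Matrix (Fin n) (Fin n) A → Matrix (Fin n) (Fin n) A → Prop) (ε : ℤˣ)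
    {ι : Type} [Fintype ι] [DecidableEq ι] (Ψ : Matrix ι ι A) : Prop :=
  ∃ (κ : Type) (_ : Fintype κ) (_ : DecidableEq κ) (Λ : Matrix κ κ A) (m : ℕ), FSum P Λ ∧
    Isometric ε (fromBlocks Ψ 0 0 (UV.hyp (Fin m) A)) Λ

variable {P : ∀ n : ℕ, Matrix (Fin n) (Fin n) A → Matrix (Fin n) (Fin n) A → Prop} {ε : ℤˣ}

theorem iso_refl (ε : ℤˣ) {ι : Type} [Fintype ι] [DecidableEq ι] (Ψ : Matrix ι ι A) :
    Isometric ε Ψ Ψ :=
  iso_equiv ε Ψ Ψ (Equiv.refl ι) rfl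

theorem sgen_iso {ι κ : Type} [Fintype ι] [DecidableEq ι] [Fintype κ] [DecidableEq κ]
    {Ψ : Matrix ι ι A} {Φ : Matrix κ κ A} (h : Isometric ε Ψ Φ) (hΦ : SGen P ε Φ) :
    SGen P ε Ψ := by
  obtain ⟨l, _, _, Λ, m, h1, h2⟩ := hΦ
  exact ⟨l, inferInstance, inferInstance, Λ, m, h1, iso_trans ε (iso_sum ε _ h) h2⟩

theorem sgen_of {ι : Type} [Fintype ι] [DecidableEq ι] {Ψ : Matrix ι ι A} (h : FSum P Ψ) :
    SGen P ε Ψ :=
  ⟨_, inferInstance, inferInstance, _, 0, FSum.sum h (FSum.hyp 0), iso_refl ε _⟩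

theorem sgen_hyp (n : ℕ) : SGen P ε (UV.hyp (Fin n) A) := sgen_of (FSum.hyp n)

theorem sgen_gen {n : ℕ} {ψ χ : Matrix (Fin n) (Fin n) A} (h : P n ψ χ) : SGen P ε (UF ψ 0 χ) :=
  sgen_of (FSum.gen h)

theorem sgen_sum {ι κ : Type} [Fintype ι] [DecidableEq ι] [Fintype κ] [DecidableEq κ]
    {Ψ : Matrix ι ι A} {Φ : Matrix κ κ A} (h : SGen P ε Ψ) (h' : SGen P ε Φ) :
    SGen P ε (fromBlocks Ψ 0 0 Φ) := by
  obtain ⟨l, _, _, Λ, m, h1, h2⟩ := h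
  obtain ⟨l', _, _, Λ', m', h1', h2'⟩ := h'
  refine ⟨l ⊕ l', inferInstance, inferInstance, fromBlocks Λ 0 0 Λ', m + m', FSum.sum h1 h1', ?_⟩
  -- (Ψ ⊕ Φ) ⊕ (hm ⊕ hm') ≅ (Ψ ⊕ hm) ⊕ (Φ ⊕ hm')
  refine iso_trans ε (iso_sum' ε _ (iso_symm ε (hyp_sum ε m m'))) ?_
  refine iso_trans ε (Φ := fromBlocks (fromBlocks Ψ 0 0 (UV.hyp (Fin m) A)) 0 0
    (fromBlocks Φ 0 0 (UV.hyp (Fin m') A))) ?_ (iso_trans ε (iso_sum ε _ h2) (iso_sum' ε _ h2'))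
  refine iso_equiv ε _ _ (Equiv.sumSumSumComm _ _ _ _) ?_
  ext i j
  rcases i with (i | i) | (i | i) <;> rcases j with (j | j) | (j | j) <;> rfl

theorem sgen_destab {ι : Type} [Fintype ι] [DecidableEq ι] {Ψ : Matrix ι ι A} (n : ℕ)
    (h : SGen P ε (fromBlocks Ψ 0 0 (UV.hyp (Fin n) A))) : SGen P ε Ψ := by
  obtain ⟨l, _, _, Λ, m, h1, h2⟩ := h
  refine ⟨l, inferInstance, inferInstance, Λ, n + m, h1, ?_⟩
  refine iso_trans ε (iso_sum' ε _ (iso_symm ε (hyp_sum ε n m))) ?_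
  exact iso_trans ε (iso_assoc ε _ _ _) h2

theorem sgen_sh {ι : Type} [Fintype ι] [DecidableEq ι] {Ψ : Matrix ι ι A}
    (h : StablyHyperbolic ε Ψ) : SGen P ε Ψ := by
  obtain ⟨m, n, h1⟩ := h
  exact ⟨_, inferInstance, inferInstance, _, m, FSum.hyp n, h1⟩

end

end Pool.Agent.Lib.MP8a3537.AR
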