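import Pool.Agent.Lib.MP_8a3537_gt.AR.GEN
import Pool.Agent.Lib.MP_8a3537_gt.AR.FC

/-!
# The class of forms which is generated by a set of forms, in `L^p` (MP_8a3537_gt, folder AR, helper73)

`FSumP ε P Λ`: `Λ` is an orthogonal sum of hyperbolic forms of finitely generated projective modules (`HypP`)
and of forms `UF ψ 0 χ` with `P n ψ χ`. `SGenP P ε Ψ`: `Ψ` plus a hyperbolic form of a free module is isometric
to such a sum. `fcGenP`: this is a class of forms (`FC`).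
-/

set_option autoImplicit false
set_option linter.unusedSectionVars false

namespace Pool.Agent.Lib.MP8a3537.AR

open Matrix Pool.Agent.Lib.MP8a3537.UV
open Pool.Agent.Lib.MP8a3537.UV.EMVAux

section

variable {A : Type} [Ring A] [StarRing A]

/-- Orthogonal sums of hyperbolic forms of finitely generated projective modules and of the forms
`UF ψ 0 χ` with `P n ψ χ`. -/
inductive FSumP (ε : ℤˣ)
    (P : ∀ n : ℕ, Matrix (Fin n) (Fin n) A → Matrix (Fin n) (Fin n) A → Prop) :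
    {ι : Type} → [Fintype ι] → [DecidableEq ι] → Matrix ι ι A → Prop
  | proj {ι : Type} [Fintype ι] [DecidableEq ι] {Φ : Matrix ι ι A} : HypP ε Φ → FSumP ε P Φ
  | gen {n : ℕ} {ψ χ : Matrix (Fin n) (Fin n) A} : P n ψ χ → FSumP ε P (UF ψ 0 χ)
  | sum {ι κ : Type} [Fintype ι] [DecidableEq ι] [Fintype κ] [DecidableEq κ] {Φ : Matrix ι ι A}
      {Ψ : Matrix κ κ A} : FSumP ε P Φ → FSumP ε P Ψ → FSumP ε P (fromBlocks Φ 0 0 Ψ)

/-- `Ψ` plus a hyperbolic form is isometric to a sum of hyperbolic forms of projective modules and of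
forms in `P`. -/
def SGenP (P : ∀ n : ℕ, Matrix (Fin n) (Fin n) A → Matrix (Fin n) (Fin n) A → Prop) (ε : ℤˣ)
    {ι : Type} [Fintype ι] [DecidableEq ι] (Ψ : Matrix ι ι A) : Prop :=
  ∃ (κ : Type) (_ : Fintype κ) (_ : DecidableEq κ) (Λ : Matrix κ κ A) (m : ℕ), FSumP ε P Λ ∧
    Isometric ε (fromBlocks Ψ 0 0 (UV.hyp (Fin m) A)) Λ

variable {P : ∀ n : ℕ, Matrix (Fin n) (Fin n) A → Matrix (Fin n) (Fin n) A → Prop} {ε : ℤˣ}

theorem FSumP.hyp (n : ℕ) : FSumP ε P (UV.hyp (Fin n) A) := FSumP.proj (hypP_hyp ε (Fin n))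

theorem sgenp_iso {ι κ : Type} [Fintype ι] [DecidableEq ι] [Fintype κ] [DecidableEq κ]
    {Ψ : Matrix ι ι A} {Φ : Matrix κ κ A} (h : Isometric ε Ψ Φ) (hΦ : SGenP P ε Φ) :
    SGenP P ε Ψ := by
  obtain ⟨l, _, _, Λ, m, h1, h2⟩ := hΦ
  exact ⟨l, inferInstance, inferInstance, Λ, m, h1, iso_trans ε (iso_sum ε _ h) h2⟩

theorem sgenp_of {ι : Type} [Fintype ι] [DecidableEq ι] {Ψ : Matrix ι ι A} (h : FSumP ε P Ψ) :
    SGenP P ε Ψ :=
  ⟨_, inferInstance, inferInstance, _, 0, FSumP.sum h (FSumP.hyp 0), iso_refl ε _⟩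

theorem sgenp_hyp (n : ℕ) : SGenP P ε (UV.hyp (Fin n) A) := sgenp_of (FSumP.hyp n)

theorem sgenp_gen {n : ℕ} {ψ χ : Matrix (Fin n) (Fin n) A} (h : P n ψ χ) :
    SGenP P ε (UF ψ 0 χ) :=
  sgenp_of (FSumP.gen h)

theorem sgenp_sum {ι κ : Type} [Fintype ι] [DecidableEq ι] [Fintype κ] [DecidableEq κ]
    {Ψ : Matrix ι ι A} {Φ : Matrix κ κ A} (h : SGenP P ε Ψ) (h' : SGenP P ε Φ) :
    SGenP P ε (fromBlocks Ψ 0 0 Φ) := by
  obtain ⟨l, _, _, Λ, m, h1, h2⟩ := h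
  obtain ⟨l', _, _, Λ', m', h1', h2'⟩ := h'
  refine ⟨l ⊕ l', inferInstance, inferInstance, fromBlocks Λ 0 0 Λ', m + m', FSumP.sum h1 h1', ?_⟩
  refine iso_trans ε (iso_sum' ε _ (iso_symm ε (hyp_sum ε m m'))) ?_
  refine iso_trans ε (Φ := fromBlocks (fromBlocks Ψ 0 0 (UV.hyp (Fin m) A)) 0 0
    (fromBlocks Φ 0 0 (UV.hyp (Fin m') A))) ?_ (iso_trans ε (iso_sum ε _ h2) (iso_sum' ε _ h2'))
  refine iso_equiv ε _ _ (Equiv.sumSumSumComm _ _ _ _) ?_
  ext i j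
  rcases i with (i | i) | (i | i) <;> rcases j with (j | j) | (j | j) <;> rfl

theorem sgenp_destab {ι : Type} [Fintype ι] [DecidableEq ι] {Ψ : Matrix ι ι A} (n : ℕ)
    (h : SGenP P ε (fromBlocks Ψ 0 0 (UV.hyp (Fin n) A))) : SGenP P ε Ψ := by
  obtain ⟨l, _, _, Λ, m, h1, h2⟩ := h
  refine ⟨l, inferInstance, inferInstance, Λ, n + m, h1, ?_⟩
  refine iso_trans ε (iso_sum' ε _ (iso_symm ε (hyp_sum ε n m))) ?_
  exact iso_trans ε (iso_assoc ε _ _ _) h2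

theorem sgenp_sh {ι : Type} [Fintype ι] [DecidableEq ι] {Ψ : Matrix ι ι A}
    (h : StablyHyperbolic ε Ψ) : SGenP P ε Ψ := by
  obtain ⟨m, n, h1⟩ := h
  exact ⟨_, inferInstance, inferInstance, _, m, FSumP.hyp n, h1⟩

theorem sgenp_shp {ι : Type} [Fintype ι] [DecidableEq ι] {Ψ : Matrix ι ι A}
    (h : SHp ε Ψ) : SGenP P ε Ψ := by
  obtain ⟨m, h1⟩ := h
  exact ⟨_, inferInstance, inferInstance, _, m, FSumP.proj h1, iso_refl ε _⟩

/-- A sum of forms in a class of forms is in the class. -/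
theorem fsumP_mem [FC A] (hp : ∀ {ι : Type} [Fintype ι] [DecidableEq ι] {Φ : Matrix ι ι A},
    HypP ε Φ → SS ε Φ) (hg : ∀ (n : ℕ) (ψ χ : Matrix (Fin n) (Fin n) A), P n ψ χ → SS ε (UF ψ 0 χ))
    {ι : Type} [Fintype ι] [DecidableEq ι] {Λ : Matrix ι ι A} (h : FSumP ε P Λ) : SS ε Λ := by
  induction h with
  | proj h => exact hp h
  | gen h => exact hg _ _ _ h
  | sum _ _ ih1 ih2 => exact ss_sum ih1 ih2

theorem sgenP_mem [FC A] (hp : ∀ {ι : Type} [Fintype ι] [DecidableEq ι] {Φ : Matrix ι ι A},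
    HypP ε Φ → SS ε Φ) (hg : ∀ (n : ℕ) (ψ χ : Matrix (Fin n) (Fin n) A), P n ψ χ → SS ε (UF ψ 0 χ))
    {ι : Type} [Fintype ι] [DecidableEq ι] {Ψ : Matrix ι ι A} (h : SGenP P ε Ψ) : SS ε Ψ := by
  obtain ⟨l, _, _, Λ, m, h1, h2⟩ := h
  exact FC.destab m (ss_of_isom h2 (fsumP_mem hp hg h1))

/-- If all generators are `SHp`, the whole class is. -/
theorem shp_of_sgenP (hg : ∀ (n : ℕ) (ψ χ : Matrix (Fin n) (Fin n) A), P n ψ χ → SHp ε (UF ψ 0 χ))
    {ι : Type} [Fintype ι] [DecidableEq ι] {Ψ : Matrix ι ι A} (h : SGenP P ε Ψ) : SHp ε Ψ := by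
  let F : FC A := fcSHp A
  have hp : ∀ {ι : Type} [Fintype ι] [DecidableEq ι] {Φ : Matrix ι ι A}, HypP ε Φ → SS ε Φ := by
    intro ι _ _ Φ h
    exact hypP_shp h
  have h2 : SS ε Ψ := sgenP_mem hp (fun n ψ χ h => hg n ψ χ h) h
  exact h2

end

/-- The class of forms which is generated by the hyperbolic forms of projective modules and the forms
`UF ψ 0 χ` with `P ε n ψ χ`. -/
@[reducible] def fcGenP (A : Type) [Ring A] [StarRing A]
    (P : ℤˣ → ∀ n : ℕ, Matrix (Fin n) (Fin n) A → Matrix (Fin n) (Fin n) A → Prop) : FC A where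
  S := fun ε _ _ _ Ψ => SGenP (P ε) ε Ψ
  iso := fun h h' => sgenp_iso h h'
  hyp := fun _ n => sgenp_hyp n
  sum := fun h h' => sgenp_sum h h'
  destab := fun n h => sgenp_destab n h

end Pool.Agent.Lib.MP8a3537.AR
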