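import Pool.Agent.Lib.MP_8a3537_gt.AR.LOC
import Pool.Agent.Lib.MP_8a3537_gt.LL2.ABF
import Pool.Agent.Lib.MP_8a3537_gt.LL2.ABQ

/-!
# Every coefficient ring (MP_8a3537_gt, folder AR): lines with a torsion-free abelian group (helper30)

`K` torsion-free abelian, `g` and `f` commute with `K`, `g²`, `f² ∈ K`, no element of order two in `K g`, `K f`: the
local homomorphism `Lam K g f`. No finite generation is needed.
-/

set_option autoImplicit false

namespace Pool.Agent.Lib.MP8a3537.AR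

open Pool.Agent.Lib.MP8a3537.LL

theorem mLCY : LL2.SpecLCY := by
  intro G _ z g f h1 h2 h3 h4 h5 h6 h7
  exact lam_cyc z g f h1 h2 h3 h4 h5 h6 h7

theorem mABQ : LL2.SpecABQ := LL2.specABQ LL2.specABF mLCY

/-- **Lines with a torsion-free abelian group `K` which commutes with `g` and `f`.** -/
theorem lam_ab {G : Type} [Group G] (K : Subgroup G) (g f : G) (hK : LL2.TFA K)
    (hg : ∀ k ∈ K, g * k = k * g) (hf : ∀ k ∈ K, f * k = k * f) (hgg : g * g ∈ K) (hff : f * f ∈ K)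
    (hg2 : ∀ k ∈ K, k * g * (k * g) ≠ 1) (hf2 : ∀ k ∈ K, k * f * (k * f) ≠ 1) : Lam K g f := by
  classical
  intro F hF
  obtain ⟨F', hF'⟩ : ∃ F' : Finset G, F' = insert (g * g) (insert (f * f) F) := ⟨_, rfl⟩
  have hF'K : ∀ z ∈ F', z ∈ K := by
    intro z hz
    rw [hF'] at hz
    rcases Finset.mem_insert.1 hz with rfl | hz
    · exact hgg
    rcases Finset.mem_insert.1 hz with rfl | hz
    · exact hff
    · exact hF z hz
  obtain ⟨K0, hK0⟩ : ∃ K0 : Subgroup G, K0 = Subgroup.closure (F' : Set G) := ⟨_, rfl⟩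
  have hfg : K0.FG := ⟨F', hK0.symm⟩
  have hK0K : K0 ≤ K := by
    rw [hK0, Subgroup.closure_le]
    exact fun z hz => hF'K z (Finset.mem_coe.1 hz)
  have hmem : ∀ z ∈ F', z ∈ K0 := by
    intro z hz
    rw [hK0]
    exact Subgroup.subset_closure (Finset.mem_coe.2 hz)
  obtain ⟨Q, hL, hgQ, hfQ, lam, h3, h4, h5⟩ := mABQ G K0 g f hfg
    ⟨fun a ha b hb => hK.1 a (hK0K ha) b (hK0K hb), fun a ha n hn h => hK.2 a (hK0K ha) n hn h⟩
    (fun k hk => hg k (hK0K hk)) (fun k hk => hf k (hK0K hk))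
    (hmem _ (by rw [hF']; simp)) (hmem _ (by rw [hF']; simp))
    (fun k hk => hg2 k (hK0K hk)) (fun k hk => hf2 k (hK0K hk))
  refine ⟨Q, hgQ, hfQ, lam, ?_, h4, h5⟩
  intro z hz
  have h6 : z ∈ K0 := hmem z (by
    rw [hF']
    exact Finset.mem_insert_of_mem (Finset.mem_insert_of_mem hz))
  exact ⟨hL h6, h3 _ h6⟩

end Pool.Agent.Lib.MP8a3537.AR
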