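import Pool.Agent.Lib.MP_8a3537_gt.AR.Defs

/-!
# Every coefficient ring (MP_8a3537_gt, folder AR): Theorem Lambda, forms of odd degree

`lam : Q → ℤ` a homomorphism; a form over `R[Q]` all of whose entries are supported in elements of odd
degree and whose polarization is invertible is, after stabilization, the hyperbolic form of a finitely
generated projective module. No condition on `R`.
-/

set_option autoImplicit false
set_option linter.unusedSectionVars false

namespace Pool.Agent.Lib.MP8a3537.AR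

open Matrix Pool.Agent.Lib.MP8a3537.UV

namespace LAMM

section Higman

variable {A : Type} [Ring A] [StarRing A] {ε : ℤˣ}

/-- the polarization is invertible -/
def Inv (ε : ℤˣ) {ι : Type} [Fintype ι] [DecidableEq ι] (Ψ : Matrix ι ι A) : Prop :=
  ∃ Θ : Matrix ι ι A, (Ψ + (ε : ℤ) • Ψᴴ) * Θ = 1 ∧ Θ * (Ψ + (ε : ℤ) • Ψᴴ) = 1

theorem inv_map {ι κ : Type} [Fintype ι] [DecidableEq ι] [Fintype κ] [DecidableEq κ]
    {Ψ : Matrix ι ι A} {Φ : Matrix κ κ A} (h : Isometric ε Ψ Φ) (hΨ : Inv ε Ψ) : Inv ε Φ := by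
  obtain ⟨u, v, Z, huv, hvu, hΦ⟩ := h
  obtain ⟨Θ, h1, h2⟩ := hΨ
  have huv' : vᴴ * uᴴ = 1 := by rw [← conjTranspose_mul, huv, conjTranspose_one]
  have hvu' : uᴴ * vᴴ = 1 := by rw [← conjTranspose_mul, hvu, conjTranspose_one]
  have hpol : Φ + (ε : ℤ) • Φᴴ = uᴴ * (Ψ + (ε : ℤ) • Ψᴴ) * u := by
    rw [hΦ]
    simp only [conjTranspose_add, conjTranspose_sub, conjTranspose_mul, es,
      conjTranspose_conjTranspose, smul_add, smul_sub, ee, Matrix.mul_add, Matrix.add_mul,
      Matrix.mul_smul, Matrix.smul_mul, Matrix.mul_assoc]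
    abel
  refine ⟨v * Θ * vᴴ, ?_, ?_⟩
  · rw [hpol]
    calc uᴴ * (Ψ + (ε : ℤ) • Ψᴴ) * u * (v * Θ * vᴴ)
        = uᴴ * (Ψ + (ε : ℤ) • Ψᴴ) * (u * v) * Θ * vᴴ := by simp only [Matrix.mul_assoc]
      _ = uᴴ * ((Ψ + (ε : ℤ) • Ψᴴ) * Θ) * vᴴ := by
          rw [huv, Matrix.mul_one]; simp only [Matrix.mul_assoc]
      _ = 1 := by rw [h1, Matrix.mul_one, hvu']
  · rw [hpol]
    calc v * Θ * vᴴ * (uᴴ * (Ψ + (ε : ℤ) • Ψᴴ) * u)
        = v * Θ * (vᴴ * uᴴ) * (Ψ + (ε : ℤ) • Ψᴴ) * u := by simp only [Matrix.mul_assoc]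
      _ = v * (Θ * (Ψ + (ε : ℤ) • Ψᴴ)) * u := by
          rw [huv', Matrix.mul_one]; simp only [Matrix.mul_assoc]
      _ = 1 := by rw [h2, Matrix.mul_one, hvu]

theorem inv_sum {ι κ : Type} [Fintype ι] [DecidableEq ι] [Fintype κ] [DecidableEq κ]
    {Ψ : Matrix ι ι A} {Φ : Matrix κ κ A} (h : Inv ε Ψ) (h' : Inv ε Φ) :
    Inv ε (fromBlocks Ψ 0 0 Φ) := by
  obtain ⟨Θ, h1, h2⟩ := h
  obtain ⟨Θ', h1', h2'⟩ := h'
  refine ⟨fromBlocks Θ 0 0 Θ', ?_, ?_⟩
  · rw [fromBlocks_conjTranspose, fromBlocks_smul, fromBlocks_add, fromBlocks_multiply]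
    simp [h1, h1', fromBlocks_one, -zsmul_eq_mul]
  · rw [fromBlocks_conjTranspose, fromBlocks_smul, fromBlocks_add, fromBlocks_multiply]
    simp [h2, h2', fromBlocks_one, -zsmul_eq_mul]

variable {ι : Type} [Fintype ι] [DecidableEq ι]

theorem inv_plane (ε : ℤˣ) (s s' : Matrix ι ι A) (h : s * s' = 1) (h' : s' * s = 1) (hs : sᴴ = s') :
    Inv ε (fromBlocks 0 s 0 0) := by
  refine ⟨fromBlocks 0 ((ε : ℤ) • s) s' 0, ?_, ?_⟩
  · rw [fromBlocks_conjTranspose, fromBlocks_smul, fromBlocks_add, fromBlocks_multiply]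
    rcases Int.units_eq_one_or ε with h0 | h0 <;> simp [h0, h, h', hs, fromBlocks_one]
  · rw [fromBlocks_conjTranspose, fromBlocks_smul, fromBlocks_add, fromBlocks_multiply]
    rcases Int.units_eq_one_or ε with h0 | h0 <;> simp [h0, h, h', hs, fromBlocks_one]

/-- the plane is hyperbolic -/
theorem plane_hyp (ε : ℤˣ) (s s' : Matrix ι ι A) (h : s * s' = 1) (h' : s' * s = 1) :
    Isometric ε (fromBlocks 0 s 0 0) (hyp ι A) := by
  refine ⟨fromBlocks 1 0 0 s', fromBlocks 1 0 0 s, 0, ?_, ?_, ?_⟩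
  · rw [fromBlocks_multiply]
    simp [h', fromBlocks_one]
  · rw [fromBlocks_multiply]
    simp [h, fromBlocks_one]
  · unfold hyp
    rw [fromBlocks_conjTranspose, fromBlocks_multiply, fromBlocks_multiply]
    simp [h]

/-- the Higman step -/
theorem higman (ε : ℤˣ) (s s' : Matrix ι ι A) (h : s * s' = 1) (h' : s' * s = 1) (hs : sᴴ = s')
    (hs' : s'ᴴ = s) (Ψ T : Matrix ι ι A) :
    Isometric ε (fromBlocks Ψ 0 0 (fromBlocks 0 s 0 0))
      (fromBlocks (Ψ - T) (fromCols (-(T * s' * s')) 0) (fromRows 0 ((ε : ℤ) • s))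
        (fromBlocks 0 s 0 0)) := by
  have hY : ((ε : ℤ) • (s * Tᴴ))ᴴ = (ε : ℤ) • (T * s') := by
    rw [es, conjTranspose_mul, hs, conjTranspose_conjTranspose]
  refine ⟨fromBlocks 1 0 (fromRows (s * s) (-((ε : ℤ) • (s * Tᴴ)))) 1,
    fromBlocks 1 0 (-(fromRows (s * s) (-((ε : ℤ) • (s * Tᴴ))))) 1,
    fromBlocks (-T) (fromCols 0 (-s')) (fromRows ((ε : ℤ) • (s * s * Tᴴ)) 0) 0, ?_, ?_, ?_⟩
  · rw [fromBlocks_multiply]
    simp only [Matrix.one_mul, Matrix.mul_one, Matrix.mul_zero, Matrix.zero_mul, add_zero, zero_add,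
      add_neg_cancel, fromBlocks_one]
  · rw [fromBlocks_multiply]
    simp only [Matrix.one_mul, Matrix.mul_one, Matrix.mul_zero, Matrix.zero_mul, add_zero, zero_add,
      neg_add_cancel, fromBlocks_one]
  · have e1 : (fromRows (s * s) (-((ε : ℤ) • (s * Tᴴ))))ᴴ =
        fromCols (s' * s') (-((ε : ℤ) • (T * s'))) := by
      rw [conjTranspose_fromRows_eq_fromCols_conjTranspose, conjTranspose_neg, hY,
        conjTranspose_mul, hs]
    have e2 : (fromCols (s' * s') (-((ε : ℤ) • (T * s'))) : Matrix ι (ι ⊕ ι) A) *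
        (fromBlocks 0 s 0 0 : Matrix (ι ⊕ ι) (ι ⊕ ι) A) = fromCols 0 s' := by
      rw [fromCols_mul_fromBlocks]
      simp only [Matrix.mul_zero, add_zero]
      rw [Matrix.mul_assoc, h', Matrix.mul_one]
    have e3 : (fromBlocks 0 s 0 0 : Matrix (ι ⊕ ι) (ι ⊕ ι) A) *
        fromRows (s * s) (-((ε : ℤ) • (s * Tᴴ))) = fromRows (-((ε : ℤ) • (s * s * Tᴴ))) 0 := by
      rw [fromBlocks_mul_fromRows]
      simp only [Matrix.zero_mul, zero_add, add_zero]
      rw [Matrix.mul_neg, Matrix.mul_smul, Matrix.mul_assoc]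
    have e4 : (fromCols 0 s' : Matrix ι (ι ⊕ ι) A) *
        fromRows (s * s) (-((ε : ℤ) • (s * Tᴴ))) = -((ε : ℤ) • Tᴴ) := by
      rw [fromCols_mul_fromRows, Matrix.zero_mul, zero_add, Matrix.mul_neg, Matrix.mul_smul,
        ← Matrix.mul_assoc, h', Matrix.one_mul]
    rw [fromBlocks_conjTranspose, fromBlocks_multiply, fromBlocks_multiply]
    simp only [conjTranspose_one, conjTranspose_zero, Matrix.one_mul, Matrix.mul_one,
      Matrix.mul_zero, Matrix.zero_mul, add_zero, zero_add, e1, e2, e3, e4]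
    rw [fromBlocks_conjTranspose, fromBlocks_smul, fromBlocks_add, sub_eq_add_neg (fromBlocks _ _ _ _),
      fromBlocks_neg, fromBlocks_add, conjTranspose_neg, conjTranspose_zero,
      conjTranspose_fromRows_eq_fromCols_conjTranspose,
      conjTranspose_fromCols_eq_fromRows_conjTranspose]
    have f1 : ((ε : ℤ) • (s * s * Tᴴ))ᴴ = (ε : ℤ) • (T * s' * s') := by
      rw [es, conjTranspose_mul, conjTranspose_mul, hs, conjTranspose_conjTranspose,
        Matrix.mul_assoc]
    rw [f1, conjTranspose_neg, hs']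
    congr 1
    · rw [smul_neg, neg_neg]
      abel
    · ext i j
      rcases j with j | j <;> rcases Int.units_eq_one_or ε with h0 | h0 <;> simp [h0]
    · ext i j
      rcases i with i | i <;> rcases Int.units_eq_one_or ε with h0 | h0 <;> simp [h0]
    · simp

end Higman

section Degree

variable {R Q : Type} [Ring R] [StarRing R] [Group Q] (lam : Q →* Multiplicative ℤ)

/-- the degree -/
def dg (q : Q) : ℤ := Multiplicative.toAdd (lam q)

theorem dg_mul (p q : Q) : dg lam (p * q) = dg lam p + dg lam q := by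
  unfold dg; rw [map_mul, toAdd_mul]

theorem dg_inv (q : Q) : dg lam q⁻¹ = -dg lam q := by
  unfold dg; rw [map_inv, toAdd_inv]

theorem dg_one : dg lam (1 : Q) = 0 := by
  unfold dg; rw [map_one, toAdd_one]

/-- homogeneous matrices -/
def Hom (c : ℤ) {m n : Type} (M : Matrix m n (MonoidAlgebra R Q)) : Prop :=
  ∀ i j q, (M i j).coeff q ≠ 0 → dg lam q = c

variable {lam}

theorem Hom.neg {c : ℤ} {m n : Type} {M : Matrix m n (MonoidAlgebra R Q)} (h : Hom lam c M) :
    Hom lam c (-M) := by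
  intro i j q hq
  refine h i j q ?_
  rw [Matrix.neg_apply, MonoidAlgebra.coeff_neg, Finsupp.neg_apply, neg_ne_zero] at hq
  exact hq

theorem Hom.smul {c : ℤ} {m n : Type} {M : Matrix m n (MonoidAlgebra R Q)} (ε : ℤˣ)
    (h : Hom lam c M) : Hom lam c ((ε : ℤ) • M) := by
  rcases Int.units_eq_one_or ε with h0 | h0
  · simpa [h0] using h
  · have := h.neg
    simpa [h0] using this

theorem Hom.star {c : ℤ} {m n : Type} {M : Matrix m n (MonoidAlgebra R Q)} (h : Hom lam c M) :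
    Hom lam (-c) Mᴴ := by
  intro i j q hq
  rw [conjTranspose_apply, star_coeff] at hq
  have h1 := h j i q⁻¹ (fun h0 => hq (by rw [h0, star_zero]))
  rw [dg_inv] at h1
  omega

theorem Hom.mul {c d : ℤ} {l m n : Type} [Fintype m] {M : Matrix l m (MonoidAlgebra R Q)}
    {N : Matrix m n (MonoidAlgebra R Q)} (hM : Hom lam c M) (hN : Hom lam d N) :
    Hom lam (c + d) (M * N) := by
  classical
  intro i j q hq
  rw [Matrix.mul_apply, MonoidAlgebra.coeff_sum, Finsupp.finsetSum_apply] at hq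
  obtain ⟨k, -, hk⟩ := Finset.exists_ne_zero_of_sum_ne_zero hq
  rw [MonoidAlgebra.coeff_mul_apply_left, Finsupp.sum] at hk
  obtain ⟨a, ha, h2⟩ := Finset.exists_ne_zero_of_sum_ne_zero hk
  have e1 := hM i k a (Finsupp.mem_support_iff.1 ha)
  have e2 := hN k j (a⁻¹ * q) (fun h0 => h2 (by rw [h0, mul_zero]))
  rw [dg_mul, dg_inv] at e2
  omega

/-- the scalar matrix of a group element -/
noncomputable def sc (R : Type) [Ring R] (ι : Type) [DecidableEq ι] (a : Q) :
    Matrix ι ι (MonoidAlgebra R Q) := Matrix.diagonal fun _ => MonoidAlgebra.single a 1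

variable {ι : Type} [Fintype ι] [DecidableEq ι]

theorem sc_mul (a b : Q) : sc R ι a * sc R ι b = sc R ι (a * b) := by
  unfold sc
  rw [Matrix.diagonal_mul_diagonal]
  simp [MonoidAlgebra.single_mul_single]

theorem sc_one : sc R ι (1 : Q) = 1 := by
  unfold sc
  rw [← MonoidAlgebra.one_def, Matrix.diagonal_one]

theorem sc_star (a : Q) : (sc R ι a)ᴴ = sc R ι a⁻¹ := by
  unfold sc
  rw [Matrix.diagonal_conjTranspose]
  congr 1
  funext i
  rw [Pi.star_apply, star_single, star_one]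

theorem sc_hom (a : Q) : Hom lam (dg lam a) (sc R ι a) := by
  classical
  intro i j q hq
  unfold sc at hq
  rw [Matrix.diagonal_apply] at hq
  split_ifs at hq with h
  · rw [MonoidAlgebra.coeff_single, Finsupp.single_apply] at hq
    split_ifs at hq with h2
    · rw [h2]
    · exact absurd rfl hq
  · simp at hq

variable (lam) in
open Classical in
/-- the homogeneous component -/
noncomputable def pr (k : ℤ) (x : MonoidAlgebra R Q) : MonoidAlgebra R Q :=
  .ofCoeff (x.coeff.filter fun q => dg lam q = k)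

open Classical in
theorem pr_coeff (k : ℤ) (x : MonoidAlgebra R Q) (q : Q) :
    (pr lam k x).coeff q = if dg lam q = k then x.coeff q else 0 := by
  unfold pr
  exact Finsupp.filter_apply _ _ _

theorem pr_add (k : ℤ) (x y : MonoidAlgebra R Q) :
    pr lam k (x + y) = pr lam k x + pr lam k y := by
  classical
  ext q
  rw [MonoidAlgebra.coeff_add, Finsupp.add_apply]
  simp only [pr_coeff, MonoidAlgebra.coeff_add, Finsupp.add_apply]
  split_ifs <;> simp

theorem pr_zero (k : ℤ) : pr lam k (0 : MonoidAlgebra R Q) = 0 := by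
  classical
  ext q
  rw [pr_coeff]
  simp

theorem pr_neg (k : ℤ) (x : MonoidAlgebra R Q) : pr lam k (-x) = -pr lam k x := by
  classical
  ext q
  rw [MonoidAlgebra.coeff_neg, Finsupp.neg_apply]
  simp only [pr_coeff, MonoidAlgebra.coeff_neg, Finsupp.neg_apply]
  split_ifs <;> simp

theorem pr_sum (k : ℤ) {κ : Type} (s : Finset κ) (f : κ → MonoidAlgebra R Q) :
    pr lam k (∑ i ∈ s, f i) = ∑ i ∈ s, pr lam k (f i) := by
  classical
  induction s using Finset.induction_on with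
  | empty => simp [pr_zero]
  | insert a s ha ih => rw [Finset.sum_insert ha, Finset.sum_insert ha, pr_add, ih]

theorem pr_star (k : ℤ) (x : MonoidAlgebra R Q) : pr lam k (star x) = star (pr lam (-k) x) := by
  classical
  ext q
  rw [star_coeff, pr_coeff, pr_coeff, star_coeff, dg_inv]
  by_cases h : dg lam q = k
  · rw [if_pos h, if_pos (by omega)]
  · rw [if_neg h, if_neg (by omega), star_zero]

theorem pr_mul_left (c k : ℤ) (x y : MonoidAlgebra R Q) (hx : ∀ q, x.coeff q ≠ 0 → dg lam q = c) :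
    pr lam (c + k) (x * y) = x * pr lam k y := by
  classical
  ext q
  rw [pr_coeff, MonoidAlgebra.coeff_mul_apply_left, MonoidAlgebra.coeff_mul_apply_left]
  simp only [Finsupp.sum]
  split_ifs with h
  · refine Finset.sum_congr rfl fun a ha => ?_
    have e := hx a (Finsupp.mem_support_iff.1 ha)
    rw [pr_coeff, if_pos]
    rw [dg_mul, dg_inv]; omega
  · symm
    refine Finset.sum_eq_zero fun a ha => ?_
    have e := hx a (Finsupp.mem_support_iff.1 ha)
    rw [pr_coeff, if_neg, mul_zero]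
    rw [dg_mul, dg_inv]; omega

theorem pr_mul_right (c k : ℤ) (x y : MonoidAlgebra R Q) (hy : ∀ q, y.coeff q ≠ 0 → dg lam q = c) :
    pr lam (k + c) (x * y) = pr lam k x * y := by
  classical
  ext q
  rw [pr_coeff, MonoidAlgebra.coeff_mul_apply_right, MonoidAlgebra.coeff_mul_apply_right]
  simp only [Finsupp.sum]
  split_ifs with h
  · refine Finset.sum_congr rfl fun a ha => ?_
    have e := hy a (Finsupp.mem_support_iff.1 ha)
    rw [pr_coeff, if_pos]
    rw [dg_mul, dg_inv]; omega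
  · symm
    refine Finset.sum_eq_zero fun a ha => ?_
    have e := hy a (Finsupp.mem_support_iff.1 ha)
    rw [pr_coeff, if_neg, zero_mul]
    rw [dg_mul, dg_inv]; omega

variable (lam) in
/-- the homogeneous component of a matrix -/
noncomputable def PM (k : ℤ) {m n : Type} (M : Matrix m n (MonoidAlgebra R Q)) :
    Matrix m n (MonoidAlgebra R Q) := M.map (pr lam k)

theorem PM_add (k : ℤ) {m n : Type} (M N : Matrix m n (MonoidAlgebra R Q)) :
    PM lam k (M + N) = PM lam k M + PM lam k N := by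
  ext1 i j; exact pr_add k _ _

theorem PM_neg (k : ℤ) {m n : Type} (M : Matrix m n (MonoidAlgebra R Q)) :
    PM lam k (-M) = -PM lam k M := by
  ext1 i j; exact pr_neg k _

theorem PM_smul (k : ℤ) (ε : ℤˣ) {m n : Type} (M : Matrix m n (MonoidAlgebra R Q)) :
    PM lam k ((ε : ℤ) • M) = (ε : ℤ) • PM lam k M := by
  rcases Int.units_eq_one_or ε with h0 | h0
  · simp [h0]
  · have := PM_neg (lam := lam) k M
    simpa [h0] using this

theorem PM_star (k : ℤ) {m n : Type} (M : Matrix m n (MonoidAlgebra R Q)) :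
    PM lam k Mᴴ = (PM lam (-k) M)ᴴ := by
  ext1 i j; exact pr_star k _

theorem PM_left (c k : ℤ) {l m n : Type} [Fintype m] (M : Matrix l m (MonoidAlgebra R Q))
    (N : Matrix m n (MonoidAlgebra R Q)) (h : Hom lam c M) :
    PM lam (c + k) (M * N) = M * PM lam k N := by
  ext1 i j
  change pr lam (c + k) ((M * N) i j) = _
  rw [Matrix.mul_apply, pr_sum, Matrix.mul_apply]
  exact Finset.sum_congr rfl fun a _ => pr_mul_left c k _ _ (h i a)

theorem PM_right (c k : ℤ) {l m n : Type} [Fintype m] (M : Matrix l m (MonoidAlgebra R Q))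
    (N : Matrix m n (MonoidAlgebra R Q)) (h : Hom lam c N) :
    PM lam (k + c) (M * N) = PM lam k M * N := by
  ext1 i j
  change pr lam (k + c) ((M * N) i j) = _
  rw [Matrix.mul_apply, pr_sum, Matrix.mul_apply]
  exact Finset.sum_congr rfl fun a _ => pr_mul_right c k _ _ (h a j)

theorem PM_hom (k : ℤ) {m n : Type} (M : Matrix m n (MonoidAlgebra R Q)) :
    Hom lam k (PM lam k M) := by
  classical
  intro i j q hq
  change (pr lam k (M i j)).coeff q ≠ 0 at hq
  rw [pr_coeff] at hq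
  by_contra h
  exact hq (if_neg h)

theorem PM_one (k : ℤ) : PM lam k (1 : Matrix ι ι (MonoidAlgebra R Q)) = if k = 0 then 1 else 0 := by
  classical
  ext1 i j
  change pr lam k ((1 : Matrix ι ι (MonoidAlgebra R Q)) i j) = _
  by_cases hij : i = j
  · subst hij
    rw [Matrix.one_apply_eq]
    ext q
    rw [pr_coeff, MonoidAlgebra.one_def, MonoidAlgebra.coeff_single, Finsupp.single_apply]
    by_cases hq : (1 : Q) = q
    · subst hq
      rw [if_pos rfl, dg_one]
      by_cases hk : k = 0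
      · rw [if_pos hk.symm, if_pos hk, Matrix.one_apply_eq, MonoidAlgebra.one_def,
          MonoidAlgebra.coeff_single, Finsupp.single_apply, if_pos rfl]
      · rw [if_neg (fun h => hk h.symm), if_neg hk]
        simp
    · rw [if_neg hq, ite_self]
      by_cases hk : k = 0
      · rw [if_pos hk, Matrix.one_apply_eq, MonoidAlgebra.one_def, MonoidAlgebra.coeff_single,
          Finsupp.single_apply, if_neg hq]
      · rw [if_neg hk]
        simp
  · rw [Matrix.one_apply_ne hij, pr_zero]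
    by_cases hk : k = 0
    · rw [if_pos hk, Matrix.one_apply_ne hij]
    · rw [if_neg hk, Matrix.zero_apply]

/-- the components of large degree vanish -/
theorem PM_large {m n : Type} [Fintype m] [Fintype n] (M : Matrix m n (MonoidAlgebra R Q)) :
    ∃ K : ℕ, ∀ i j q, (M i j).coeff q ≠ 0 → dg lam q ≤ K := by
  classical
  refine ⟨∑ i, ∑ j, ∑ q ∈ (M i j).coeff.support, (dg lam q).natAbs, fun i j q hq => ?_⟩
  have h1 : (dg lam q).natAbs ≤ ∑ q ∈ (M i j).coeff.support, (dg lam q).natAbs :=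
    Finset.single_le_sum (f := fun q => (dg lam q).natAbs) (fun _ _ => Nat.zero_le _)
      (Finsupp.mem_support_iff.2 hq)
  have h2 : ∑ q ∈ (M i j).coeff.support, (dg lam q).natAbs ≤
      ∑ j, ∑ q ∈ (M i j).coeff.support, (dg lam q).natAbs :=
    Finset.single_le_sum (f := fun j => ∑ q ∈ (M i j).coeff.support, (dg lam q).natAbs)
      (fun _ _ => Nat.zero_le _) (Finset.mem_univ j)
  have h3 : ∑ j, ∑ q ∈ (M i j).coeff.support, (dg lam q).natAbs ≤
      ∑ i, ∑ j, ∑ q ∈ (M i j).coeff.support, (dg lam q).natAbs :=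
    Finset.single_le_sum (f := fun i => ∑ j, ∑ q ∈ (M i j).coeff.support, (dg lam q).natAbs)
      (fun _ _ => Nat.zero_le _) (Finset.mem_univ i)
  omega

end Degree

section Main

variable {R Q : Type} [Ring R] [StarRing R] [Group Q] {lam : Q →* Multiplicative ℤ} {ε : ℤˣ}

/-- forms of degree one -/
theorem base {ι : Type} [Fintype ι] [DecidableEq ι] (Ψ : Matrix ι ι (MonoidAlgebra R Q))
    (h : Hom lam 1 Ψ) (hI : Inv ε Ψ) : HypP ε Ψ := by
  classical
  obtain ⟨Θ, h1, h2⟩ := hI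
  obtain ⟨T, hTd⟩ : ∃ T : ℤ → Matrix ι ι (MonoidAlgebra R Q), T = fun k => PM lam k Θ := ⟨_, rfl⟩
  have E1 : ∀ k : ℤ, Ψ * T (k - 1) + (ε : ℤ) • (Ψᴴ * T (k + 1)) = if k = 0 then 1 else 0 := by
    intro k
    have h3 := congrArg (PM lam k) h1
    rw [Matrix.add_mul, Matrix.smul_mul, PM_add, PM_smul, PM_one] at h3
    have a1 : PM lam k (Ψ * Θ) = Ψ * PM lam (k - 1) Θ := by
      have := PM_left 1 (k - 1) Ψ Θ h
      rwa [show (1 : ℤ) + (k - 1) = k by ring] at this
    have a2 : PM lam k (Ψᴴ * Θ) = Ψᴴ * PM lam (k + 1) Θ := by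
      have := PM_left (-1) (k + 1) Ψᴴ Θ h.star
      rwa [show (-1 : ℤ) + (k + 1) = k by ring] at this
    rw [a1, a2] at h3
    rw [hTd]
    exact h3
  have E2 : ∀ k : ℤ, T (k - 1) * Ψ + (ε : ℤ) • (T (k + 1) * Ψᴴ) = if k = 0 then 1 else 0 := by
    intro k
    have h3 := congrArg (PM lam k) h2
    rw [Matrix.mul_add, Matrix.mul_smul, PM_add, PM_smul, PM_one] at h3
    have a1 : PM lam k (Θ * Ψ) = PM lam (k - 1) Θ * Ψ := by
      have := PM_right 1 (k - 1) Θ Ψ h
      rwa [show k - 1 + 1 = k by ring] at this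
    have a2 : PM lam k (Θ * Ψᴴ) = PM lam (k + 1) Θ * Ψᴴ := by
      have := PM_right (-1) (k + 1) Θ Ψᴴ h.star
      rwa [show k + 1 + -1 = k by ring] at this
    rw [a1, a2] at h3
    rw [hTd]
    exact h3
  have hT : ∃ K : ℕ, ∀ k : ℤ, (K : ℤ) < k → T k = 0 := by
    obtain ⟨K, hK⟩ := PM_large (lam := lam) Θ
    refine ⟨K, fun k hk => ?_⟩
    rw [hTd]
    ext1 i j
    change pr lam k (Θ i j) = 0
    ext q
    rw [pr_coeff]
    split_ifs with hq
    · by_contra h0
      have := hK i j q (by simpa using h0)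
      omega
    · simp
  have step : ∀ m n : ℤ, m ≠ -1 → n ≠ 1 → T m * Ψ * T n = T (m + 2) * Ψ * T (n - 2) := by
    intro m n hm hn
    have a := E2 (m + 1)
    rw [if_neg (by omega), show m + 1 - 1 = m by ring, show m + 1 + 1 = m + 2 by ring] at a
    have b := E1 (n - 1)
    rw [if_neg (by omega), show n - 1 - 1 = n - 2 by ring, show n - 1 + 1 = n by ring] at b
    have a' : T m * Ψ = -((ε : ℤ) • (T (m + 2) * Ψᴴ)) := eq_neg_of_add_eq_zero_left a
    have b' : Ψ * T (n - 2) = -((ε : ℤ) • (Ψᴴ * T n)) := eq_neg_of_add_eq_zero_left b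
    rw [a', Matrix.mul_assoc (T (m + 2)) Ψ, b', Matrix.neg_mul, Matrix.smul_mul, Matrix.mul_neg,
      Matrix.mul_smul, Matrix.mul_assoc]
  have zero : ∀ n : ℤ, n ≤ -1 → T 1 * Ψ * T n = 0 := by
    intro n hn
    obtain ⟨K, hK⟩ := hT
    have key : ∀ j : ℕ, T 1 * Ψ * T n = T (1 + 2 * (j : ℤ)) * Ψ * T (n - 2 * (j : ℤ)) := by
      intro j
      induction j with
      | zero => simp
      | succ j ih =>
        rw [ih, step _ _ (by omega) (by omega)]
        have e1 : (1 : ℤ) + 2 * (j : ℤ) + 2 = 1 + 2 * ((j + 1 : ℕ) : ℤ) := by push_cast; ring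
        have e2 : n - 2 * (j : ℤ) - 2 = n - 2 * ((j + 1 : ℕ) : ℤ) := by push_cast; ring
        rw [e1, e2]
    rw [key K, hK (1 + 2 * (K : ℤ)) (by omega), Matrix.zero_mul, Matrix.zero_mul]
  have E20 := E2 0
  rw [if_pos rfl, show (0 : ℤ) - 1 = -1 by ring, show (0 : ℤ) + 1 = 1 by ring] at E20
  have E10 := E1 0
  rw [if_pos rfl, show (0 : ℤ) - 1 = -1 by ring, show (0 : ℤ) + 1 = 1 by ring] at E10
  have f11 : T (-1) * Ψ * T (-1) = T (-1) := by
    have b := E1 (-2)
    rw [if_neg (by omega), show (-2 : ℤ) - 1 = -3 by ring, show (-2 : ℤ) + 1 = -1 by ring] at b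
    have b' : (ε : ℤ) • (Ψᴴ * T (-1)) = -(Ψ * T (-3)) := eq_neg_of_add_eq_zero_right b
    have a' : T (-1) * Ψ = 1 - (ε : ℤ) • (T 1 * Ψᴴ) := eq_sub_of_add_eq E20
    rw [a', Matrix.sub_mul, Matrix.one_mul, Matrix.smul_mul, Matrix.mul_assoc, ← Matrix.mul_smul,
      b', Matrix.mul_neg, ← Matrix.mul_assoc, zero (-3) (by omega), neg_zero, sub_zero]
  have hΘ : Θᴴ = (ε : ℤ) • Θ := by
    have a := congrArg conjTranspose h1
    rw [conjTranspose_mul, conjTranspose_add, es, conjTranspose_conjTranspose,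
      conjTranspose_one] at a
    have b : Θᴴ * (Ψ + (ε : ℤ) • Ψᴴ) = (ε : ℤ) • (1 : Matrix ι ι (MonoidAlgebra R Q)) := by
      rw [← a, ← Matrix.mul_smul, smul_add, ee, add_comm]
    calc Θᴴ = Θᴴ * ((Ψ + (ε : ℤ) • Ψᴴ) * Θ) := by rw [h1, Matrix.mul_one]
      _ = (Θᴴ * (Ψ + (ε : ℤ) • Ψᴴ)) * Θ := by rw [Matrix.mul_assoc]
      _ = (ε : ℤ) • Θ := by rw [b, Matrix.smul_mul, Matrix.one_mul]
  have hT1 : (T (-1))ᴴ = (ε : ℤ) • T 1 := by
    have a := PM_star (lam := lam) 1 Θ
    rw [hΘ, PM_smul] at a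
    rw [hTd]
    exact a.symm
  have he : (T (-1) * Ψ)ᴴ * Ψ = Ψ - Ψ * (T (-1) * Ψ) := by
    have a' : (ε : ℤ) • (Ψᴴ * T 1) = 1 - Ψ * T (-1) := eq_sub_of_add_eq' E10
    rw [conjTranspose_mul, hT1, Matrix.mul_smul, a', Matrix.sub_mul, Matrix.one_mul,
      Matrix.mul_assoc]
  have hee : (T (-1) * Ψ)ᴴ * Ψ * (T (-1) * Ψ) = 0 := by
    rw [conjTranspose_mul, hT1, Matrix.mul_smul, Matrix.smul_mul, Matrix.smul_mul]
    have : Ψᴴ * T 1 * Ψ * (T (-1) * Ψ) = Ψᴴ * (T 1 * Ψ * T (-1)) * Ψ := by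
      simp only [Matrix.mul_assoc]
    rw [this, zero (-1) (by omega), Matrix.mul_zero, Matrix.zero_mul, smul_zero]
  refine ⟨Θ, T (-1) * Ψ, 0, 0, h1, h2, ?_, ?_, ?_⟩
  · rw [← Matrix.mul_assoc, f11]
  · rw [hee]; simp
  · have : (1 - T (-1) * Ψ)ᴴ * Ψ * (1 - T (-1) * Ψ) =
        Ψ - (T (-1) * Ψ)ᴴ * Ψ - Ψ * (T (-1) * Ψ) + (T (-1) * Ψ)ᴴ * Ψ * (T (-1) * Ψ) := by
      rw [conjTranspose_sub, conjTranspose_one]
      simp only [Matrix.sub_mul, Matrix.mul_sub, Matrix.one_mul, Matrix.mul_one]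
      abel
    rw [this, hee, he]
    simp

/-- forms of odd positive degrees -/
theorem pos_odd (a : Q) (ha : dg lam a = 1) (K : ℕ) :
    ∀ (ι : Type) [Fintype ι] [DecidableEq ι] (Ψ : Matrix ι ι (MonoidAlgebra R Q)),
      (∀ i j q, (Ψ i j).coeff q ≠ 0 → Odd (dg lam q) ∧ 0 < dg lam q ∧ dg lam q ≤ 2 * K + 1) →
      Inv ε Ψ → SHp ε Ψ := by
  classical
  induction K with
  | zero =>
    intro ι _ _ Ψ h hI
    refine hypP_shp (base (lam := lam) Ψ (fun i j q hq => ?_) hI)
    obtain ⟨-, h2, h3⟩ := h i j q hq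
    push_cast at h3
    omega
  | succ K ih =>
    intro ι _ _ Ψ h hI
    have hss : sc R ι a * sc R ι a⁻¹ = 1 := by rw [sc_mul, mul_inv_cancel, sc_one]
    have hss' : sc R ι a⁻¹ * sc R ι a = 1 := by rw [sc_mul, inv_mul_cancel, sc_one]
    have hst : (sc R ι a)ᴴ = sc R ι a⁻¹ := sc_star a
    have hst' : (sc R ι a⁻¹)ᴴ = sc R ι a := by rw [sc_star, inv_inv]
    have iso := higman ε (sc R ι a) (sc R ι a⁻¹) hss hss' hst hst' Ψ (PM lam (2 * K + 3) Ψ)
    have hN := inv_map iso (inv_sum hI (inv_plane ε _ _ hss hss' hst))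
    have hs1 : Hom lam 1 (sc R ι a) := by rw [← ha]; exact sc_hom a
    have hs2 : Hom lam (-1) (sc R ι a⁻¹) := by
      have := sc_hom (R := R) (ι := ι) (lam := lam) a⁻¹
      rwa [dg_inv, ha] at this
    have hT : Hom lam (2 * K + 1) (-(PM lam (2 * K + 3) Ψ * sc R ι a⁻¹ * sc R ι a⁻¹)) := by
      have := (((PM_hom (lam := lam) (2 * K + 3) Ψ).mul hs2).mul hs2).neg
      rwa [show (2 * (K : ℤ) + 3 + -1 + -1) = 2 * K + 1 by ring] at this
    have hε : Hom lam 1 ((ε : ℤ) • sc R ι a) := hs1.smul ε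
    have hsupp := ih (ι ⊕ (ι ⊕ ι)) _ ?_ hN
    · have h1 := stab_of_isom iso hsupp
      exact shp_destab ι (stab_of_isom (EMVAux.iso_sum' ε Ψ
        (EMVAux.iso_symm ε (plane_hyp ε _ _ hss hss'))) h1)
    · rintro (i | i | i) (j | j | j) q hq
      · rw [fromBlocks_apply₁₁, Matrix.sub_apply, MonoidAlgebra.coeff_sub, Finsupp.sub_apply] at hq
        change (Ψ i j).coeff q - (pr lam (2 * K + 3) (Ψ i j)).coeff q ≠ 0 at hq
        rw [pr_coeff] at hq
        by_cases h3 : dg lam q = 2 * K + 3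
        · rw [if_pos h3, sub_self] at hq
          exact absurd rfl hq
        · rw [if_neg h3, sub_zero] at hq
          obtain ⟨h4, h5, h6⟩ := h i j q hq
          refine ⟨h4, h5, ?_⟩
          obtain ⟨r, hr⟩ := h4
          push_cast at h6
          omega
      · rw [fromBlocks_apply₁₂, fromCols_apply_inl] at hq
        have := hT i j q hq
        exact ⟨⟨K, this⟩, by omega, by omega⟩
      · rw [fromBlocks_apply₁₂, fromCols_apply_inr] at hq
        simp at hq
      · rw [fromBlocks_apply₂₁, fromRows_apply_inl] at hq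
        simp at hq
      · rw [fromBlocks_apply₂₂, fromBlocks_apply₁₁] at hq
        simp at hq
      · rw [fromBlocks_apply₂₂, fromBlocks_apply₁₂] at hq
        have := hs1 i j q hq
        exact ⟨⟨0, by omega⟩, by omega, by omega⟩
      · rw [fromBlocks_apply₂₁, fromRows_apply_inr] at hq
        have := hε i j q hq
        exact ⟨⟨0, by omega⟩, by omega, by omega⟩
      · rw [fromBlocks_apply₂₂, fromBlocks_apply₂₁] at hq
        simp at hq
      · rw [fromBlocks_apply₂₂, fromBlocks_apply₂₂] at hq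
        simp at hq

variable (lam) in
open Classical in
/-- the part of negative degree -/
noncomputable def ng (x : MonoidAlgebra R Q) : MonoidAlgebra R Q :=
  .ofCoeff (x.coeff.filter fun q => dg lam q < 0)

open Classical in
theorem ng_coeff (x : MonoidAlgebra R Q) (q : Q) :
    (ng lam x).coeff q = if dg lam q < 0 then x.coeff q else 0 := by
  unfold ng
  exact Finsupp.filter_apply _ _ _

/-- forms of odd degrees, with an element of degree one -/
theorem odd (a : Q) (ha : dg lam a = 1) {ι : Type} [Fintype ι] [DecidableEq ι]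
    (Ψ : Matrix ι ι (MonoidAlgebra R Q)) (h : ∀ i j q, (Ψ i j).coeff q ≠ 0 → Odd (dg lam q))
    (hI : Inv ε Ψ) : SHp ε Ψ := by
  classical
  obtain ⟨Z, hZ⟩ : ∃ Z : Matrix ι ι (MonoidAlgebra R Q), Z = fun i j => -ng lam (Ψ i j) :=
    ⟨_, rfl⟩
  have iso : Isometric ε Ψ (Ψ + Z - (ε : ℤ) • Zᴴ) := ⟨1, 1, Z, by simp, by simp, by simp⟩
  have hp : ∀ i j q, ((Ψ + Z - (ε : ℤ) • Zᴴ) i j).coeff q ≠ 0 → Odd (dg lam q) ∧ 0 < dg lam q := by
    intro i j q hq
    have e1 : (Z i j).coeff q = -(if dg lam q < 0 then (Ψ i j).coeff q else 0) := by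
      rw [hZ, MonoidAlgebra.coeff_neg, Finsupp.neg_apply, ng_coeff]
    have e2 : (Zᴴ i j).coeff q = -star (if dg lam q⁻¹ < 0 then (Ψ j i).coeff q⁻¹ else 0) := by
      rw [conjTranspose_apply, star_coeff, hZ, MonoidAlgebra.coeff_neg, Finsupp.neg_apply, ng_coeff,
        star_neg]
    by_cases c1 : (Ψ i j).coeff q ≠ 0 ∧ ¬ dg lam q < 0
    · obtain ⟨r, hr⟩ := h i j q c1.1
      exact ⟨⟨r, hr⟩, by omega⟩
    by_cases c2 : (Ψ j i).coeff q⁻¹ ≠ 0 ∧ dg lam q⁻¹ < 0
    · obtain ⟨r, hr⟩ := h j i q⁻¹ c2.1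
      have c3 := c2.2
      rw [dg_inv] at hr c3
      exact ⟨⟨-r - 1, by omega⟩, by omega⟩
    exfalso
    apply hq
    have z2 : (Zᴴ i j).coeff q = 0 := by
      rw [e2]
      by_cases c4 : dg lam q⁻¹ < 0
      · rw [if_pos c4]
        have : (Ψ j i).coeff q⁻¹ = 0 := by
          by_contra h0
          exact c2 ⟨h0, c4⟩
        rw [this, star_zero, neg_zero]
      · rw [if_neg c4, star_zero, neg_zero]
    have z1 : (Ψ i j).coeff q + (Z i j).coeff q = 0 := by
      rw [e1]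
      by_cases c4 : dg lam q < 0
      · rw [if_pos c4, add_neg_cancel]
      · rw [if_neg c4, neg_zero, add_zero]
        by_contra h0
        exact c1 ⟨h0, c4⟩
    have z3 : (((ε : ℤ) • Zᴴ) i j).coeff q = 0 := by
      rcases Int.units_eq_one_or ε with h0 | h0
      · simpa [h0] using z2
      · rw [h0]
        simp only [Units.val_neg, Units.val_one, neg_smul, one_smul, Matrix.neg_apply,
          MonoidAlgebra.coeff_neg, Finsupp.neg_apply, z2, neg_zero]
    rw [Matrix.sub_apply, Matrix.add_apply, MonoidAlgebra.coeff_sub, Finsupp.sub_apply,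
      MonoidAlgebra.coeff_add, Finsupp.add_apply, z1, z3, sub_zero]
  obtain ⟨K, hK⟩ := PM_large (lam := lam) (Ψ + Z - (ε : ℤ) • Zᴴ)
  refine stab_of_isom iso (pos_odd a ha K ι _ (fun i j q hq => ?_) (inv_map iso hI))
  have := hK i j q hq
  exact ⟨(hp i j q hq).1, (hp i j q hq).2, by omega⟩

end Main

end LAMM

/-- **Theorem Lambda**: forms of odd degree are zero in `L^p`. -/
theorem lam_odd {R Q : Type} [Ring R] [StarRing R] [Group Q] (lam : Q →* Multiplicative ℤ) (ε : ℤˣ)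
    {ι : Type} [Fintype ι] [DecidableEq ι] (Ψ Θ : Matrix ι ι (MonoidAlgebra R Q))
    (hodd : ∀ i j q, (Ψ i j).coeff q ≠ 0 → Odd (Multiplicative.toAdd (lam q)))
    (h1 : (Ψ + (ε : ℤ) • Ψᴴ) * Θ = 1) (h2 : Θ * (Ψ + (ε : ℤ) • Ψᴴ) = 1) : SHp ε Ψ := by
  classical
  by_cases hall : ∃ q : Q, Odd (Multiplicative.toAdd (lam q))
  · obtain ⟨q₀, hq₀⟩ := hall
    obtain ⟨m, hm⟩ := Int.subgroup_cyclic (MonoidHom.toAdditiveLeft lam).range
    have hdvd : ∀ q : Q, m ∣ Multiplicative.toAdd (lam q) := by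
      intro q
      have : Multiplicative.toAdd (lam q) ∈ (MonoidHom.toAdditiveLeft lam).range :=
        ⟨Additive.ofMul q, rfl⟩
      rw [hm, ← AddSubgroup.zmultiples_eq_closure, Int.mem_zmultiples_iff] at this
      exact this
    obtain ⟨a, ha⟩ : ∃ a : Q, Multiplicative.toAdd (lam a) = m := by
      have : m ∈ (MonoidHom.toAdditiveLeft lam).range := by
        rw [hm]
        exact AddSubgroup.subset_closure (Set.mem_singleton m)
      obtain ⟨x, hx⟩ := this
      exact ⟨Additive.toMul x, hx⟩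
    have hmodd : Odd m := by
      obtain ⟨c, hc⟩ := hdvd q₀
      rw [hc] at hq₀
      exact (Int.odd_mul.1 hq₀).1
    have hm0 : m ≠ 0 := by
      rintro rfl
      simp at hmodd
    let lam' : Q →* Multiplicative ℤ :=
      { toFun := fun q => Multiplicative.ofAdd (Multiplicative.toAdd (lam q) / m)
        map_one' := by simp
        map_mul' := fun x y => by
          rw [map_mul, toAdd_mul, Int.add_ediv_of_dvd_left (hdvd x), ofAdd_add] }
    have hlam' : ∀ q, Multiplicative.toAdd (lam q) = m * LAMM.dg lam' q := by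
      intro q
      change _ = m * (Multiplicative.toAdd (lam q) / m)
      rw [Int.mul_ediv_cancel' (hdvd q)]
    refine LAMM.odd (lam := lam') a ?_ Ψ (fun i j q hq => ?_) ⟨Θ, h1, h2⟩
    · have := hlam' a
      rw [ha] at this
      have h3 : m * 1 = m * LAMM.dg lam' a := by rw [mul_one]; exact this
      exact (mul_left_cancel₀ hm0 h3).symm
    · have h3 := hodd i j q hq
      rw [hlam' q] at h3
      exact (Int.odd_mul.1 h3).2
  · have hΨ : Ψ = 0 := by
      ext i j q
      by_contra h0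
      exact hall ⟨q, hodd i j q (by simpa using h0)⟩
    exact hypP_shp ⟨Θ, 0, 0, 0, h1, h2, by simp, by simp, by simp [hΨ]⟩

end Pool.Agent.Lib.MP8a3537.AR
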