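import Pool.Agent.Lib.MP_8a3537_gt.AR.LBR

/-!
# Every coefficient ring (MP_8a3537_gt, folder AR): odd homomorphisms modulo `A` (helper31)

`OddP T A v w`: if `g` exchanges `x`, `y` and `f` exchanges `x'`, `y'`, the paths pass through `v` and then `w`, `x = x'` or
`y = y'`, the second path is longer, and no `(k g)²`, `(k f)²` is in `A`, then every finite subset of `K g ∪ K' f` lies in a subgroup with a
homomorphism to the integers which is zero on `A` and odd on the subset. `mainP`: then all the nilpotent forms of the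
edge are zero in `L^p`; the ring and the stabilizers are arbitrary.
-/

set_option autoImplicit false
set_option linter.unusedSectionVars false

namespace Pool.Agent.Lib.MP8a3537.AR

open Matrix Pool.Agent.Lib.MP8a3537.UV Pool.Agent.Lib.MP8a3537.RO Pool.Agent.Lib.MP8a3537.ROK

/-- The condition of `mainP`. -/
def OddP {G V : Type} [Group G] [MulAction G V] (T : SimpleGraph V) (A : Subgroup G) (v w : V) :
    Prop :=
  ∀ (x y x' y' : V) (g f : G),
    T.dist x y = T.dist x v + 1 + T.dist w y → g • x = y → g • y = x →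
    (∀ k ∈ Sb G x y, k * g * (k * g) ∉ A) →
    T.dist x' y' = T.dist x' v + 1 + T.dist w y' → f • x' = y' → f • y' = x' →
    (∀ k ∈ Sb G x' y', k * f * (k * f) ∉ A) →
    (x' = x ∨ y' = y) → T.dist x y < T.dist x' y' →
    ∀ F : Finset G, (∀ z ∈ F, (∃ k ∈ Sb G x y, z = k * g) ∨ ∃ k ∈ Sb G x' y', z = k * f) →
      ∃ (Q : Subgroup G) (lam : Q →* Multiplicative ℤ),
        (∀ a ∈ A, ∃ ha : a ∈ Q, lam ⟨a, ha⟩ = 1) ∧
        ∀ z ∈ F, ∃ hz : z ∈ Q, Odd (Multiplicative.toAdd (lam ⟨z, hz⟩))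

/-- The paths of an admissible sequence pass through `v`, `w`. -/
theorem adm_thru {G V : Type} [Group G] [MulAction G V] {T : SimpleGraph V} {v w : V}
    (hd : TM G (V := V) T.dist) (hvw : T.Adj v w) {x y : ℕ → V} {u : ℕ → G}
    (h : Adm T v w x y u) (i : ℕ) :
    T.dist (x i) (y i) = T.dist (x i) v + 1 + T.dist w (y i) := by
  induction i with
  | zero =>
    have h0 : T.dist v w = 1 := SimpleGraph.dist_eq_one_iff_adj.2 hvw
    have h1 : T.dist v v = 0 := (hd.d0 v v).2 rfl
    have h2 : T.dist w w = 0 := (hd.d0 w w).2 rfl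
    rw [h.x0, h.y0]
    omega
  | succ i ih =>
    have h1 := h.path i
    have t1 := hd.tri (x (i + 1)) (x i) v
    have t2 := hd.tri w (y i) (y (i + 1))
    have t3 := hd.tri (x (i + 1)) v (y (i + 1))
    have t4 := hd.tri v w (y (i + 1))
    have h0 : T.dist v w = 1 := SimpleGraph.dist_eq_one_iff_adj.2 hvw
    omega

namespace LBAM

/-- The homomorphism of the image of `Q` in `G ⧸ A`. -/
theorem desc {G : Type} [Group G] (A : Subgroup G) [A.Normal] (Q : Subgroup G)
    (lam : Q →* Multiplicative ℤ) (hA : ∀ a ∈ A, ∃ ha : a ∈ Q, lam ⟨a, ha⟩ = 1) :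
    ∃ lam' : Q.map (QuotientGroup.mk' A) →* Multiplicative ℤ, ∀ (z : G) (hz : z ∈ Q),
      lam' ⟨QuotientGroup.mk' A z, Subgroup.mem_map_of_mem _ hz⟩ = lam ⟨z, hz⟩ := by
  have hs : Function.Surjective ((QuotientGroup.mk' A).subgroupMap Q) :=
    (QuotientGroup.mk' A).subgroupMap_surjective Q
  have hker : ((QuotientGroup.mk' A).subgroupMap Q).ker ≤ lam.ker := by
    rintro ⟨z, hz⟩ h1
    rw [MonoidHom.mem_ker] at h1 ⊢
    have h2 : (QuotientGroup.mk' A) z = 1 := congrArg Subtype.val h1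
    have h3 : z ∈ A := (QuotientGroup.eq_one_iff _).1 h2
    obtain ⟨_, h4⟩ := hA z h3
    exact h4
  refine ⟨((QuotientGroup.mk' A).subgroupMap Q).liftOfSurjective hs ⟨lam, hker⟩, ?_⟩
  intro z hz
  exact MonoidHom.liftOfRightInverse_comp_apply _ _ _ ⟨lam, hker⟩ ⟨z, hz⟩

end LBAM

open ABAM in
/-- **Odd homomorphisms**, for every coefficient ring, modulo `A`. -/
theorem mainP (R G V : Type) [Ring R] [StarRing R] [Group G] [MulAction G V]
    (T : SimpleGraph V) (v w : V) (hT : T.IsTree)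
    (hact : ∀ (g : G) (x y : V), T.Adj x y → T.Adj (g • x) (g • y)) (hvw : T.Adj v w)
    (hinv : ∀ g : G, ¬ (g • v = w ∧ g • w = v)) (A : Subgroup G) [A.Normal]
    (hA : ∀ a ∈ A, ∀ x : V, a • x = x)
    (htwo : ∀ g : G, g * g ∈ A → (g • v = v ↔ g • w = w)) (hP : OddP T A v w) :
    VanP R G {g | g • v = v ∧ g • w ≠ w} {g | g • v = w} {g | g • w = w ∧ g • v ≠ v} := by
  classical
  letI := actQ A hA
  have hact' : ∀ (q : G ⧸ A) (x y : V), T.Adj x y → T.Adj (q • x) (q • y) := by
    intro q x y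
    obtain ⟨g, rfl⟩ := QuotientGroup.mk'_surjective A q
    exact hact g x y
  have hd : TM (G ⧸ A) (V := V) T.dist := specFPT (G ⧸ A) V T hT hact'
  have h1 := mainO (MonoidAlgebra R G) (G ⧸ A) V T v w hT hact' hvw
    (by
      intro q
      obtain ⟨g, rfl⟩ := QuotientGroup.mk'_surjective A q
      exact hinv g)
    (by
      intro q hq
      obtain ⟨g, rfl⟩ := QuotientGroup.mk'_surjective A q
      rw [← map_mul, one_iff] at hq
      exact htwo g hq)
    (by
      intro x y u hadm
      refine Or.inr ⟨1, le_rfl, ?_⟩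
      obtain ⟨g, hg⟩ := QuotientGroup.mk'_surjective A (u 1)
      obtain ⟨f, hf⟩ := QuotientGroup.mk'_surjective A (u (1 + 1))
      have eg := hadm.exch 1 le_rfl
      have ef := hadm.exch (1 + 1) (by norm_num)
      have tg := hadm.two 1 le_rfl
      have tf := hadm.two (1 + 1) (by norm_num)
      rw [← hg] at eg tg ⊢
      rw [← hf] at ef tf ⊢
      have key := hP (x 1) (y 1) (x (1 + 1)) (y (1 + 1)) g f (adm_thru hd hvw hadm 1) eg.1 eg.2
        (by
          intro k hk h2
          refine tg (QuotientGroup.mk' A k) hk ?_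
          rw [← map_mul, ← map_mul, one_iff]
          exact h2)
        (adm_thru hd hvw hadm (1 + 1)) ef.1 ef.2
        (by
          intro k hk h2
          refine tf (QuotientGroup.mk' A k) hk ?_
          rw [← map_mul, ← map_mul, one_iff]
          exact h2)
        (hadm.one 1 le_rfl) (hadm.grow 1)
      intro F hF
      -- lifts of the elements of `F`
      have hs : ∀ q : G ⧸ A, ∃ z : G, QuotientGroup.mk' A z = q ∧ (q ∈ F →
          (∃ k ∈ Sb G (x 1) (y 1), z = k * g) ∨ ∃ k ∈ Sb G (x (1 + 1)) (y (1 + 1)), z = k * f) := by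
        intro q
        by_cases hq : q ∈ F
        · rcases hF q hq with ⟨k, hk, h2⟩ | ⟨k, hk, h2⟩
          · obtain ⟨k, rfl⟩ := QuotientGroup.mk'_surjective A k
            exact ⟨k * g, by rw [h2, map_mul], fun _ => Or.inl ⟨k, hk, rfl⟩⟩
          · obtain ⟨k, rfl⟩ := QuotientGroup.mk'_surjective A k
            exact ⟨k * f, by rw [h2, map_mul], fun _ => Or.inr ⟨k, hk, rfl⟩⟩
        · obtain ⟨z, hz⟩ := QuotientGroup.mk'_surjective A q
          exact ⟨z, hz, fun h => absurd h hq⟩
      choose s hs1 hs2 using hs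
      obtain ⟨Q, lam, hlA, hl⟩ := key (F.image s) (by
        intro z hz
        obtain ⟨q, hq, rfl⟩ := Finset.mem_image.1 hz
        exact hs2 q hq)
      obtain ⟨lam', hlam'⟩ := LBAM.desc A Q lam hlA
      refine ⟨Q.map (QuotientGroup.mk' A), lam', ?_⟩
      intro q hq
      obtain ⟨hz, ho⟩ := hl (s q) (Finset.mem_image_of_mem s hq)
      refine ⟨by rw [← hs1 q]; exact Subgroup.mem_map_of_mem _ hz, ?_⟩
      have e1 : ∀ hq' : q ∈ Q.map (QuotientGroup.mk' A),
          (⟨q, hq'⟩ : Q.map (QuotientGroup.mk' A)) =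
            ⟨QuotientGroup.mk' A (s q), Subgroup.mem_map_of_mem _ hz⟩ :=
        fun _ => Subtype.ext (hs1 q).symm
      rw [e1, hlam' (s q) hz]
      exact ho)
  exact vanP_quot (QuotientGroup.mk' A) _ _ _ h1

/-- The case of a homomorphism from `G` to the integers which is odd on the elements which exchange the ends of a path
through the edge. -/
theorem oddP_of_hom {G V : Type} [Group G] [MulAction G V] (T : SimpleGraph V) (A : Subgroup G)
    (v w : V) (lam : G →* Multiplicative ℤ) (hA : ∀ a ∈ A, lam a = 1)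
    (h : ∀ (x y : V) (g : G), T.dist x y = T.dist x v + 1 + T.dist w y → g • x = y → g • y = x →
      (∀ k ∈ Sb G x y, k * g * (k * g) ∉ A) → Odd (Multiplicative.toAdd (lam g))) :
    OddP T A v w := by
  intro x y x' y' g f h1 h2 h3 h4 h5 h6 h7 h8 _ _ F hF
  refine ⟨⊤, lam.comp (⊤ : Subgroup G).subtype, fun a ha => ⟨Subgroup.mem_top a, hA a ha⟩, ?_⟩
  intro z hz
  refine ⟨Subgroup.mem_top z, ?_⟩
  have key : ∀ (x y : V) (g k : G), T.dist x y = T.dist x v + 1 + T.dist w y → g • x = y →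
      g • y = x → (∀ k ∈ Sb G x y, k * g * (k * g) ∉ A) → k ∈ Sb G x y →
      Odd (Multiplicative.toAdd (lam (k * g))) := by
    intro x y g k h1 h2 h3 h4 hk
    have hk' := hk
    rw [Subgroup.mem_inf, MulAction.mem_stabilizer_iff, MulAction.mem_stabilizer_iff] at hk'
    refine h x y (k * g) h1 ?_ ?_ ?_
    · rw [mul_smul, h2, hk'.2]
    · rw [mul_smul, h3, hk'.1]
    · intro l hl
      simpa only [mul_assoc] using h4 (l * k) ((Sb G x y).mul_mem hl hk)
  rcases hF z hz with ⟨k, hk, rfl⟩ | ⟨k, hk, rfl⟩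
  · exact key x y g k h1 h2 h3 h4 hk
  · exact key x' y' f k h5 h6 h7 h8 hk

end Pool.Agent.Lib.MP8a3537.AR
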