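import Pool.Agent.Lib.MP_8a3537_gt.AR.FinD
import Pool.Agent.Lib.MP_8a3537_gt.AR.LBK

/-!
# Every coefficient ring (MP_8a3537_gt, folder AR): the barrier of Theorem Lambda (helper31)

`OddL C D`: for every finite subset `F` of `C ∪ D` there is a homomorphism from a subgroup which contains `F` to the
integers with odd values on `F`. `mainO`: if every admissible sequence contains a good stabilizer or a pair
`K i * u i`, `K (i + 1) * u (i + 1)` with `OddL`, then all the nilpotent forms of the edge are zero in `L^p`.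
`mainHom`: for instance, there is a homomorphism from `G` to the integers which is even on the stabilizer of the
edge and odd on the elements which exchange two vertices.
-/

set_option autoImplicit false
set_option linter.unusedSectionVars false

namespace Pool.Agent.Lib.MP8a3537.AR

open Matrix Pool.Agent.Lib.MP8a3537.UV Pool.Agent.Lib.MP8a3537.RO Pool.Agent.Lib.MP8a3537.ROK

/-- For every finite subset `F` of `C ∪ D` there is a homomorphism from a subgroup which contains `F` to the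
integers with odd values on `F`. -/
def OddL {G : Type} [Group G] (C D : Set G) : Prop :=
  ∀ F : Finset G, (∀ x ∈ F, x ∈ C ∨ x ∈ D) → ∃ (Q : Subgroup G) (lam : Q →* Multiplicative ℤ),
    ∀ x ∈ F, ∃ hx : x ∈ Q, Odd (Multiplicative.toAdd (lam ⟨x, hx⟩))

/-- The nilpotent forms with supports in `C`, `D` are zero in `L^p` if `OddL C D`. -/
theorem odd_shp {R G : Type} [Ring R] [StarRing R] [Group G] {C D : Set G} (h : OddL C D) (ε : ℤˣ)
    (n : ℕ) (ψ χ : Matrix (Fin n) (Fin n) (MonoidAlgebra R G)) (hψ : SuppIn C ψ)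
    (hχ : SuppIn D χ)
    (hnil : IsNilpotent (nu ε (ψ + (ε : ℤ) • ψᴴ) 0 (χ + (ε : ℤ) • χᴴ))) : SHp ε (UF ψ 0 χ) := by
  classical
  obtain ⟨F, hF⟩ : ∃ F : Finset G, F =
      (Finset.univ.biUnion fun i : Fin n => Finset.univ.biUnion fun j : Fin n =>
        (ψ i j).coeff.support) ∪
      (Finset.univ.biUnion fun i : Fin n => Finset.univ.biUnion fun j : Fin n =>
        (χ i j).coeff.support) := ⟨_, rfl⟩
  have m1 : ∀ i j q, (ψ i j).coeff q ≠ 0 → q ∈ F := by
    intro i j q hq
    rw [hF]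
    exact Finset.mem_union_left _ (Finset.mem_biUnion.2 ⟨i, Finset.mem_univ _,
      Finset.mem_biUnion.2 ⟨j, Finset.mem_univ _, Finsupp.mem_support_iff.2 hq⟩⟩)
  have m2 : ∀ i j q, (χ i j).coeff q ≠ 0 → q ∈ F := by
    intro i j q hq
    rw [hF]
    exact Finset.mem_union_right _ (Finset.mem_biUnion.2 ⟨i, Finset.mem_univ _,
      Finset.mem_biUnion.2 ⟨j, Finset.mem_univ _, Finsupp.mem_support_iff.2 hq⟩⟩)
  have hFC : ∀ x ∈ F, x ∈ C ∨ x ∈ D := by
    intro x hx
    rw [hF, Finset.mem_union] at hx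
    rcases hx with hx | hx
    · obtain ⟨i, -, hx⟩ := Finset.mem_biUnion.1 hx
      obtain ⟨j, -, hx⟩ := Finset.mem_biUnion.1 hx
      exact Or.inl (hψ i j x (Finsupp.mem_support_iff.1 hx))
    · obtain ⟨i, -, hx⟩ := Finset.mem_biUnion.1 hx
      obtain ⟨j, -, hx⟩ := Finset.mem_biUnion.1 hx
      exact Or.inr (hχ i j x (Finsupp.mem_support_iff.1 hx))
  rcases F.eq_empty_or_nonempty with h0 | ⟨a, ha⟩
  · have e1 : ψ = 0 := by
      refine Matrix.ext fun i j => ?_
      ext q
      by_contra hq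
      exact absurd (m1 i j q hq) (by rw [h0]; simp)
    have e2 : χ = 0 := by
      refine Matrix.ext fun i j => ?_
      ext q
      by_contra hq
      exact absurd (m2 i j q hq) (by rw [h0]; simp)
    rw [e1, e2]
    have e3 : UF (0 : Matrix (Fin n) (Fin n) (MonoidAlgebra R G)) 0 0 =
        UV.hyp (Fin n) (MonoidAlgebra R G) := by
      unfold UF UV.hyp
      simp
    rw [e3]
    exact hypP_shp (hypP_hyp ε (Fin n))
  · obtain ⟨Q, lam, h1⟩ := h F hFC
    obtain ⟨haQ, hao⟩ := h1 a ha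
    exact lam_core Q lam ⟨a, haQ⟩ hao ε n ψ χ (fun i j q hq => h1 q (m1 i j q hq))
      (fun i j q hq => h1 q (m2 i j q hq)) hnil

section

variable {A : Type} [Ring A] [StarRing A]
  {P : ∀ n : ℕ, Matrix (Fin n) (Fin n) A → Matrix (Fin n) (Fin n) A → Prop} {ε : ℤˣ}

theorem fsum_shp (hP : ∀ (n : ℕ) (ψ χ : Matrix (Fin n) (Fin n) A), P n ψ χ → SHp ε (UF ψ 0 χ))
    {ι : Type} [Fintype ι] [DecidableEq ι] {Λ : Matrix ι ι A} (h : FSum P Λ) : SHp ε Λ := by
  induction h with
  | hyp n => exact hypP_shp (hypP_hyp ε (Fin n))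
  | gen h => exact hP _ _ _ h
  | sum _ _ h1 h2 => exact shp_sum h1 h2

theorem sgen_shp (hP : ∀ (n : ℕ) (ψ χ : Matrix (Fin n) (Fin n) A), P n ψ χ → SHp ε (UF ψ 0 χ))
    {ι : Type} [Fintype ι] [DecidableEq ι] {Ψ : Matrix ι ι A} (h : SGen P ε Ψ) : SHp ε Ψ := by
  obtain ⟨κ, _, _, Λ, m, h1, h2⟩ := h
  exact shp_destab (Fin m) (stab_of_isom h2 (fsum_shp hP h1))

end

/-- **The barrier of Theorem Lambda**, for every coefficient ring. -/
theorem mainO (R G V : Type) [Ring R] [StarRing R] [Group G] [MulAction G V]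
    (T : SimpleGraph V) (v w : V) (hT : T.IsTree)
    (hact : ∀ (g : G) (x y : V), T.Adj x y → T.Adj (g • x) (g • y)) (hvw : T.Adj v w)
    (hinv : ∀ g : G, ¬ (g • v = w ∧ g • w = v))
    (htwo : ∀ g : G, g * g = 1 → (g • v = v ↔ g • w = w))
    (hO : ∀ (x y : ℕ → V) (u : ℕ → G), Adm T v w x y u →
      (∃ i, DG.GC R ↥(Sb G (x i) (y i))) ∨
      ∃ i, 1 ≤ i ∧ OddL {a | ∃ k ∈ Sb G (x i) (y i), a = k * u i}
        {a | ∃ k ∈ Sb G (x (i + 1)) (y (i + 1)), a = k * u (i + 1)}) :
    VanP R G {g | g • v = v ∧ g • w ≠ w} {g | g • v = w} {g | g • w = w ∧ g • v ≠ v} := by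
  intro ε n ψ μ χ hψ hμ hχ hnil
  refine sgen_shp ?_ (tD R G V T v w hT hact hvw hinv htwo OddL hO ε n ψ μ χ hψ hμ hχ hnil)
  rintro m ψ' χ' ⟨C, D, hCD, h1, h2, h3⟩
  exact odd_shp hCD ε m ψ' χ' h1 h2 h3

/-- A homomorphism from `G` to the integers which is even on the stabilizer of the edge and odd on the elements which
exchange the ends of a path through the edge. The stabilizer and the ring are arbitrary. -/
theorem mainHom (R G V : Type) [Ring R] [StarRing R] [Group G] [MulAction G V]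
    (T : SimpleGraph V) (v w : V) (hT : T.IsTree)
    (hact : ∀ (g : G) (x y : V), T.Adj x y → T.Adj (g • x) (g • y)) (hvw : T.Adj v w)
    (hinv : ∀ g : G, ¬ (g • v = w ∧ g • w = v))
    (htwo : ∀ g : G, g * g = 1 → (g • v = v ↔ g • w = w)) (lam : G →* Multiplicative ℤ)
    (hlam : ∀ (x y : V) (g : G), T.dist x y = T.dist x v + 1 + T.dist w y → g • x = y → g • y = x →
      Odd (Multiplicative.toAdd (lam g))) :
    VanP R G {g | g • v = v ∧ g • w ≠ w} {g | g • v = w} {g | g • w = w ∧ g • v ≠ v} := by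
  have hd : TM G (V := V) T.dist := specFPT G V T hT hact
  refine mainO R G V T v w hT hact hvw hinv htwo ?_
  intro x y u h
  refine Or.inr ⟨1, le_rfl, ?_⟩
  -- the paths pass through `v`, `w`
  have hp : ∀ i, T.dist (x i) (y i) = T.dist (x i) v + 1 + T.dist w (y i) := by
    intro i
    induction i with
    | zero =>
      have h0 : T.dist v w = 1 := SimpleGraph.dist_eq_one_iff_adj.2 hvw
      have h1 : T.dist v v = 0 := (hd.d0 v v).2 rfl
      have h2 : T.dist w w = 0 := (hd.d0 w w).2 rfl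
      rw [h.x0, h.y0]
      omega
    | succ i ih =>
      have h1 := h.path i
      have t1 := hd.tri (x (i + 1)) (x i) v
      have t2 := hd.tri w (y i) (y (i + 1))
      have t3 := hd.tri (x (i + 1)) v (y (i + 1))
      have t4 := hd.tri v w (y (i + 1))
      have h0 : T.dist v w = 1 := SimpleGraph.dist_eq_one_iff_adj.2 hvw
      omega
  intro F hF
  refine ⟨⊤, lam.comp (⊤ : Subgroup G).subtype, ?_⟩
  have key : ∀ i, 1 ≤ i → ∀ k ∈ Sb G (x i) (y i), Odd (Multiplicative.toAdd (lam (k * u i))) := by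
    intro i hi k hk
    rw [Subgroup.mem_inf, MulAction.mem_stabilizer_iff, MulAction.mem_stabilizer_iff] at hk
    refine hlam (x i) (y i) (k * u i) (hp i) ?_ ?_
    · rw [mul_smul, (h.exch i hi).1, hk.2]
    · rw [mul_smul, (h.exch i hi).2, hk.1]
  intro a ha
  refine ⟨Subgroup.mem_top a, ?_⟩
  rcases hF a ha with ⟨k, hk, rfl⟩ | ⟨k, hk, rfl⟩
  · exact key 1 le_rfl k hk
  · exact key 2 (by norm_num) k hk

end Pool.Agent.Lib.MP8a3537.AR
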