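import Pool.Agent.Lib.MP_8a3537_gt.AR.FinD
import Pool.Agent.Lib.MP_8a3537_gt.AR.DHB

/-!
# The lift of nilpotent forms to amalgams (MP_8a3537_gt, folder AR, helper28; the lift is by helper81, `AR/DIH.lean`)

`Amal K L h u f`: the amalgam of `⟨K, u⟩` and `⟨L, f⟩` over `L`. `LiftF`: the form `UF ψ 0 χ` is the image of a nilpotent
form over the group ring of the amalgam with supports in `K u`, `L f`. `lift_adm`: this is true for the nilpotent
forms with supports in `K i * u i`, `K (i + 1) * u (i + 1)` of an admissible sequence.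
-/

set_option autoImplicit false
set_option linter.unusedSectionVars false

namespace Pool.Agent.Lib.MP8a3537.AR

open Matrix Monoid Pool.Agent.Lib.MP8a3537.UV Pool.Agent.Lib.MP8a3537.RO
open Pool.Agent.Lib.MP8a3537.ROK Pool.Agent.Lib.MP8a3537.LL

section Defs

variable {G : Type} [Group G]

/-- The two groups `⟨K, u⟩` and `⟨L, f⟩`. -/
def Fac (K L : Subgroup G) (u f : G) : Bool → Subgroup G
  | true => K ⊔ Subgroup.zpowers u
  | false => L ⊔ Subgroup.zpowers f

theorem fac_le {K L : Subgroup G} (h : L ≤ K) (u f : G) : ∀ b, L ≤ Fac K L u f b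
  | true => h.trans le_sup_left
  | false => le_sup_left

/-- The amalgam of `⟨K, u⟩` and `⟨L, f⟩` over `L`. -/
abbrev Amal (K L : Subgroup G) (h : L ≤ K) (u f : G) : Type :=
  PushoutI fun b => Subgroup.inclusion (fac_le h u f b)

/-- The homomorphism from the amalgam to `G`. -/
def toG (K L : Subgroup G) (h : L ≤ K) (u f : G) : Amal K L h u f →* G :=
  PushoutI.lift (fun b => (Fac K L u f b).subtype) L.subtype fun _ => rfl

/-- The subset `F` of a factor, as a subset of the amalgam. -/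
def InF (K L : Subgroup G) (h : L ≤ K) (u f : G) (b : Bool) (F : Set G) : Set (Amal K L h u f) :=
  {z | ∃ s : Fac K L u f b, (s : G) ∈ F ∧ z = PushoutI.of b s}

/-- The pair `ψ`, `χ` is the image of a nilpotent pair over the group ring of the amalgam. -/
def LiftF {R : Type} [Ring R] [StarRing R] (K L : Subgroup G) (h : L ≤ K) (u f : G) (ε : ℤˣ)
    (n : ℕ) (ψ χ : Matrix (Fin n) (Fin n) (MonoidAlgebra R G)) : Prop :=
  ∃ ψ' χ' : Matrix (Fin n) (Fin n) (MonoidAlgebra R (Amal K L h u f)),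
    SuppIn (InF K L h u f true {a | ∃ k ∈ K, a = k * u}) ψ' ∧
    SuppIn (InF K L h u f false {a | ∃ k ∈ L, a = k * f}) χ' ∧
    IsNilpotent (nu ε (ψ' + (ε : ℤ) • ψ'ᴴ) 0 (χ' + (ε : ℤ) • χ'ᴴ)) ∧
    ψ'.map (MonoidAlgebra.mapDomainRingHom R (toG K L h u f)) = ψ ∧
    χ'.map (MonoidAlgebra.mapDomainRingHom R (toG K L h u f)) = χ

end Defs

namespace LFTM

variable {G : Type} [Group G]

theorem ag_eq {K : Subgroup G} {g : G} (hN : Ns K g) (h2 : g * g ∈ K) :
    K ⊔ Subgroup.zpowers g = DIHM.AG K g hN h2 := by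
  apply le_antisymm
  · refine sup_le (fun k hk => Or.inl hk) ?_
    rw [Subgroup.zpowers_le]
    right
    rw [mul_inv_cancel]
    exact K.one_mem
  · intro x hx
    rcases hx with hx | hx
    · exact Subgroup.mem_sup_left hx
    · have e : x = x * g⁻¹ * g := by group
      rw [e]
      exact mul_mem (Subgroup.mem_sup_left hx)
        (Subgroup.mem_sup_right (Subgroup.mem_zpowers g))

theorem lift_X {R : Type} [Ring R] [StarRing R] (X : DIHM.Dt G) {V : Type} [MulAction G V]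
    {P : Bool → Set V} (hKL : X.K false = X.L)
    (hP : ∀ s, ∀ z ∈ X.LD s, ∀ v ∈ P (!s), X.p z • v ∈ P s) (hne : ∀ s, (P s).Nonempty)
    (hU : ∀ a ∈ X.LD false, ∀ a' ∈ X.LD false, ∀ v ∈ P true, ∀ v' ∈ P true, ∀ h ∈ X.K true,
      X.p a • v = h • X.p a' • v' → h ∈ X.L) (S : Bool → Subgroup G) (hS : S = X.S)
    (hLS : ∀ b, X.L ≤ S b) (ε : ℤˣ) (n : ℕ)
    (ψ χ : Matrix (Fin n) (Fin n) (MonoidAlgebra R G))
    (hψ : SuppIn (La (X.K true) (X.g true)) ψ) (hχ : SuppIn (La (X.K false) (X.g false)) χ)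
    (h : IsNilpotent (nu ε (ψ + (ε : ℤ) • ψᴴ) 0 (χ + (ε : ℤ) • χᴴ))) :
    ∃ ψ' χ' : Matrix (Fin n) (Fin n) (MonoidAlgebra R (PushoutI fun b =>
        Subgroup.inclusion (hLS b))),
      SuppIn {z | ∃ s : S true, (s : G) * (X.g true)⁻¹ ∈ X.K true ∧ z = PushoutI.of true s} ψ' ∧
      SuppIn {z | ∃ s : S false, (s : G) * (X.g false)⁻¹ ∈ X.K false ∧ z = PushoutI.of false s} χ' ∧
      IsNilpotent (nu ε (ψ' + (ε : ℤ) • ψ'ᴴ) 0 (χ' + (ε : ℤ) • χ'ᴴ)) ∧
      ψ'.map (MonoidAlgebra.mapDomainRingHom R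
        (PushoutI.lift (fun b => (S b).subtype) X.L.subtype fun _ => rfl)) = ψ ∧
      χ'.map (MonoidAlgebra.mapDomainRingHom R
        (PushoutI.lift (fun b => (S b).subtype) X.L.subtype fun _ => rfl)) = χ := by
  subst hS
  have s1 := DIHM.lf_supp X hψ
  have s2 := DIHM.lf_supp X hχ
  have m1 := DIHM.lf_map X hψ
  have m2 := DIHM.lf_map X hχ
  have hstar := DIHM.mr_star (R := R) X.p
  have p1 : (DIHM.lf X true ψ + (ε : ℤ) • (DIHM.lf X true ψ)ᴴ).map
      (MonoidAlgebra.mapDomainRingHom R X.p) = ψ + (ε : ℤ) • ψᴴ := by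
    rw [Matrix.map_add _ (fun a b => map_add _ a b), CR.map_zsmul', CR.map_conj _ hstar, m1]
  have p2 : (DIHM.lf X false χ + (ε : ℤ) • (DIHM.lf X false χ)ᴴ).map
      (MonoidAlgebra.mapDomainRingHom R X.p) = χ + (ε : ℤ) • χᴴ := by
    rw [Matrix.map_add _ (fun a b => map_add _ a b), CR.map_zsmul', CR.map_conj _ hstar, m2]
  have hn : IsNilpotent (nu ε (DIHM.lf X true ψ + (ε : ℤ) • (DIHM.lf X true ψ)ᴴ) 0
      (DIHM.lf X false χ + (ε : ℤ) • (DIHM.lf X false χ)ᴴ)) := by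
    refine DIHM.nil X hKL hP hne hU
      (DIHM.supp_add X s1 (DIHM.supp_zsmul X ε (DIHM.supp_star X s1)))
      (DIHM.supp_add X s2 (DIHM.supp_zsmul X ε (DIHM.supp_star X s2))) ?_
    rw [p1, p2]
    exact h
  exact ⟨DIHM.lf X true ψ, DIHM.lf X false χ, s1, s2, hn, m1, m2⟩

open DHBM in
/-- The lift, for `g` which exchanges `x`, `y`, and `f` which exchanges `y` and `f y`, `x` between them. -/
theorem lift_cf {R : Type} [Ring R] [StarRing R] {V : Type} [MulAction G V] (d : V → V → ℕ)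
    (hd : TM G d) (x y : V) (g f : G) (K L : Subgroup G) (mK : ∀ k, k ∈ K ↔ k • x = x ∧ k • y = y)
    (mL : ∀ k, k ∈ L ↔ k • y = y ∧ k • f • y = f • y) (hLK : L ≤ K) (hgx : g • x = y)
    (hgy : g • y = x) (ffy : f • f • y = y) (hb : d y (f • y) = d y x + d x (f • y))
    (hNg : ∀ h ∈ K, h * g * (h * g) ≠ 1) (hNf : ∀ h ∈ L, h * f * (h * f) ≠ 1) (ε : ℤˣ) (n : ℕ)
    (ψ χ : Matrix (Fin n) (Fin n) (MonoidAlgebra R G)) (hψ : SuppIn {a | ∃ k ∈ K, a = k * g} ψ)
    (hχ : SuppIn {a | ∃ k ∈ L, a = k * f} χ)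
    (h : IsNilpotent (nu ε (ψ + (ε : ℤ) • ψᴴ) 0 (χ + (ε : ℤ) • χᴴ))) :
    LiftF K L hLK g f ε n ψ χ := by
  have hff2 : f * f ∈ L := by
    rw [mL, mul_smul, mul_smul, ffy]
    exact ⟨rfl, rfl⟩
  have ffx : f • f • x = x := by
    have := ((mK _).1 (hLK hff2)).1
    rwa [mul_smul] at this
  have gi : g⁻¹ • x = y ∧ g⁻¹ • y = x :=
    ⟨by rw [inv_smul_eq_iff, hgy], by rw [inv_smul_eq_iff, hgx]⟩
  have fi : f⁻¹ • y = f • y := by rw [inv_smul_eq_iff, ffy]
  have ne : x ≠ y := by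
    intro h0
    have hg : g ∈ K := (mK g).2 ⟨by rw [hgx, h0], by rw [hgy, h0]⟩
    have := hNg _ (inv_mem hg)
    simp at this
  have cf : Cf d x y g f := ⟨ne, hgx, hgy, ffx, ffy, hb⟩
  have hN1 : Ns K g := by
    intro k hk
    rw [mK] at hk
    constructor
    · rw [mK]
      simp only [mul_smul]
      rw [gi.1, gi.2, hk.1, hk.2]
      exact ⟨hgy, hgx⟩
    · rw [mK]
      simp only [mul_smul]
      rw [hgx, hgy, hk.1, hk.2]
      exact ⟨gi.2, gi.1⟩
  have hN2 : Ns L f := by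
    intro k hk
    rw [mL] at hk
    constructor
    · rw [mL]
      simp only [mul_smul]
      rw [fi, hk.2, ffy, inv_smul_smul, hk.1]
      exact ⟨rfl, rfl⟩
    · rw [mL]
      simp only [mul_smul]
      rw [ffy, hk.1, hk.2, inv_smul_smul, fi]
      exact ⟨rfl, rfl⟩
  have hg2 : g * g ∈ K := by
    rw [mK, mul_smul, mul_smul]
    exact ⟨by rw [hgx, hgy], by rw [hgy, hgx]⟩
  obtain ⟨X, hX1, hX2, hX3, hX4, hX5⟩ : ∃ X : DIHM.Dt G, X.K true = K ∧ X.K false = L ∧
      X.g true = g ∧ X.g false = f ∧ X.L = L :=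
    ⟨{ K := fun b => match b with
        | true => K
        | false => L
       g := fun b => match b with
        | true => g
        | false => f
       L := L
       hL := fun b => by
        cases b
        · exact le_rfl
        · exact hLK
       hN := fun b => by
        cases b
        · exact hN2
        · exact hN1
       h2 := fun b => by
        cases b
        · exact hff2
        · exact hg2
       ni := fun b => by
        cases b
        · exact hNf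
        · exact hNg }, rfl, rfl, rfl, rfl, rfl⟩
  obtain ⟨P, hPt, hPf⟩ : ∃ P : Bool → Set V, P true = {p | d x p = d x y + d y p} ∧
      P false = {p | d y p = d y x + d x p} :=
    ⟨fun b => match b with
      | true => {p | d x p = d x y + d y p}
      | false => {p | d y p = d y x + d x p}, rfl, rfl⟩
  subst hX1
  subst hX5
  subst hX3
  subst hX4
  have pl : ∀ s, ∀ z ∈ X.LD s, ∃ k ∈ X.K s, X.p z = k * X.g s := by
    rintro s z ⟨a, ha, rfl⟩
    refine ⟨_, ha, ?_⟩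
    rw [X.p_of]
    group
  -- letters of the second kind
  have fr : ∀ z ∈ X.LD false, ∀ v ∈ P true,
      d y (X.p z • v) = d y (X.g false • y) + d (X.g false • y) (X.p z • v) ∧
      d y (X.p z • v) = d y x + d x (X.p z • v) := by
    intro z hz v hv
    obtain ⟨k, hk, e⟩ := pl false z hz
    rw [hX2] at hk
    have k3 := ((mL k).1 hk).2
    have k1 := (mK _).1 (hLK hk)
    rw [hPt] at hv
    have h1 := far hd cf hv
    have i1 := hd.iso k y (X.g false • v)
    have i2 := hd.iso k (X.g false • y) (X.g false • v)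
    have i3 := hd.iso k x (X.g false • v)
    rw [k1.2] at i1
    rw [k3] at i2
    rw [k1.1] at i3
    rw [e, mul_smul]
    omega
  have hfac : Fac (X.K true) X.L (X.g true) (X.g false) = X.S := by
    funext b
    cases b with
    | true => exact ag_eq (X.hN true) (X.h2 true)
    | false =>
      show X.L ⊔ Subgroup.zpowers (X.g false) = _
      rw [← hX2]
      exact ag_eq (X.hN false) (X.h2 false)
  have hK := lift_X (R := R) X (P := P) hX2 ?_ ?_ ?_ _ hfac
    (fac_le hLK (X.g true) (X.g false)) ε n ψ χ hψ (by rw [hX2]; exact hχ) h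
  · obtain ⟨ψ', χ', h1, h2, h3, h4, h5⟩ := hK
    refine ⟨ψ', χ', ?_, ?_, h3, h4, h5⟩
    · intro i j z hz
      obtain ⟨s, hs, rfl⟩ := h1 i j z hz
      exact ⟨s, ⟨_, hs, by group⟩, rfl⟩
    · intro i j z hz
      obtain ⟨s, hs, rfl⟩ := h2 i j z hz
      exact ⟨s, ⟨_, by rw [← hX2]; exact hs, by group⟩, rfl⟩
  · intro s z hz v hv
    cases s with
    | false =>
      rw [hPf]
      exact (fr z hz v hv).2
    | true =>
      obtain ⟨k, hk, e⟩ := pl true z hz
      rw [mK] at hk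
      have hv' : d y v = d y x + d x v := by
        have : v ∈ P false := hv
        rw [hPf] at this
        exact this
      rw [hPt, e]
      show d x ((k * X.g true) • v) = d x y + d y ((k * X.g true) • v)
      have i1 := hd.iso (k * X.g true) y v
      have i2 := hd.iso (k * X.g true) x v
      have e1 : (k * X.g true) • y = x := by rw [mul_smul, hgy, hk.1]
      have e2 : (k * X.g true) • x = y := by rw [mul_smul, hgx, hk.2]
      rw [e1] at i1
      rw [e2] at i2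
      have := hd.cm x y
      omega
  · intro s
    cases s with
    | false =>
      refine ⟨x, ?_⟩
      rw [hPf]
      show d y x = d y x + d x x
      rw [(hd.d0 x x).2 rfl, add_zero]
    | true =>
      refine ⟨y, ?_⟩
      rw [hPt]
      show d x y = d x y + d y y
      rw [(hd.d0 y y).2 rfl, add_zero]
  · intro a ha a' ha' v hv v' hv' k hk he
    rw [mK] at hk
    have h1 := (fr a ha v hv).1
    have h2 := (fr a' ha' v' hv').1
    have i1 := hd.iso k y (X.p a' • v')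
    have i2 := hd.iso k (X.g false • y) (X.p a' • v')
    rw [hk.2, ← he] at i1
    rw [← he] at i2
    have h3 := key hd cf hk.1 hk.2 h1 (by omega)
    rw [mL]
    exact ⟨hk.2, h3.1⟩

end LFTM

section Adm

variable {G V : Type} [Group G] [MulAction G V] {T : SimpleGraph V} {v w : V} {x y : ℕ → V}
  {u : ℕ → G}

/-- The stabilizers of an admissible sequence decrease. -/
theorem Adm.le (hd : TM G (V := V) T.dist) (h : Adm T v w x y u) (i : ℕ) :
    Sb G (x (i + 1)) (y (i + 1)) ≤ Sb G (x i) (y i) :=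
  ALLM.le_of hd (h.path i)

open LFTM in
/-- **The lift.** -/
theorem lift_adm {R : Type} [Ring R] [StarRing R] (hd : TM G (V := V) T.dist)
    (h : Adm T v w x y u) (i : ℕ) (hi : 1 ≤ i)
    (hle : Sb G (x (i + 1)) (y (i + 1)) ≤ Sb G (x i) (y i)) (ε : ℤˣ) (n : ℕ)
    (ψ χ : Matrix (Fin n) (Fin n) (MonoidAlgebra R G))
    (hψ : SuppIn {a | ∃ k ∈ Sb G (x i) (y i), a = k * u i} ψ)
    (hχ : SuppIn {a | ∃ k ∈ Sb G (x (i + 1)) (y (i + 1)), a = k * u (i + 1)} χ)
    (hn : IsNilpotent (nu ε (ψ + (ε : ℤ) • ψᴴ) 0 (χ + (ε : ℤ) • χᴴ))) :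
    LiftF (Sb G (x i) (y i)) (Sb G (x (i + 1)) (y (i + 1))) hle (u i) (u (i + 1)) ε n ψ χ := by
  obtain ⟨e1, e2⟩ := h.exch i hi
  obtain ⟨e3, e4⟩ := h.exch (i + 1) (by omega)
  have hp := h.path i
  rcases h.one i hi with e | e
  · -- `x (i + 1) = x i`
    rw [e] at e3 e4 hp
    refine lift_cf T.dist hd (y i) (x i) (u i) (u (i + 1)) _ _ ?_ ?_ hle e2 e1 ?_ ?_
      (h.two i hi) (h.two (i + 1) (by omega)) ε n ψ χ hψ hχ hn
    · intro k
      rw [Subgroup.mem_inf, MulAction.mem_stabilizer_iff, MulAction.mem_stabilizer_iff, and_comm]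
    · intro k
      rw [Subgroup.mem_inf, MulAction.mem_stabilizer_iff, MulAction.mem_stabilizer_iff, e, e3]
    · rw [e3, e4]
    · rw [e3]
      have := hd.d0 (x i) (x i)
      have h0 : T.dist (x i) (x i) = 0 := this.2 rfl
      omega
  · -- `y (i + 1) = y i`
    rw [e] at e3 e4 hp
    refine lift_cf T.dist hd (x i) (y i) (u i) (u (i + 1)) _ _ ?_ ?_ hle e1 e2 ?_ ?_
      (h.two i hi) (h.two (i + 1) (by omega)) ε n ψ χ hψ hχ hn
    · intro k
      rw [Subgroup.mem_inf, MulAction.mem_stabilizer_iff, MulAction.mem_stabilizer_iff]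
    · intro k
      rw [Subgroup.mem_inf, MulAction.mem_stabilizer_iff, MulAction.mem_stabilizer_iff, e, e4,
        and_comm]
    · rw [e4, e3]
    · rw [e4]
      have h0 : T.dist (y i) (y i) = 0 := (hd.d0 (y i) (y i)).2 rfl
      have h1 := hd.cm (x (i + 1)) (y i)
      have h2 := hd.cm (x (i + 1)) (x i)
      have h3 := hd.cm (x i) (y i)
      omega

end Adm

section Mono

variable {A : Type} [Ring A] [StarRing A]

theorem FSum.mono {P Q : ∀ n : ℕ, Matrix (Fin n) (Fin n) A → Matrix (Fin n) (Fin n) A → Prop}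
    (hPQ : ∀ n ψ χ, P n ψ χ → Q n ψ χ) {ι : Type} [Fintype ι] [DecidableEq ι] {Ψ : Matrix ι ι A}
    (h : FSum P Ψ) : FSum Q Ψ := by
  induction h with
  | hyp n => exact FSum.hyp n
  | gen h => exact FSum.gen (hPQ _ _ _ h)
  | sum _ _ h1 h2 => exact FSum.sum h1 h2

theorem sgen_mono {P Q : ∀ n : ℕ, Matrix (Fin n) (Fin n) A → Matrix (Fin n) (Fin n) A → Prop}
    (hPQ : ∀ n ψ χ, P n ψ χ → Q n ψ χ) {ε : ℤˣ} {ι : Type} [Fintype ι] [DecidableEq ι]
    {Ψ : Matrix ι ι A} (h : SGen P ε Ψ) : SGen Q ε Ψ := by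
  obtain ⟨κ, _, _, Λ, m, h1, h2⟩ := h
  exact ⟨κ, inferInstance, inferInstance, Λ, m, h1.mono hPQ, h2⟩

end Mono

/-- The images of the nilpotent forms over the amalgams of `⟨K i, u i⟩` and `⟨K (i + 1), u (i + 1)⟩` over `K (i + 1)`, for
the admissible sequences and the `i ≥ 1` such that `B` contains the pair `K i * u i`, `K (i + 1) * u (i + 1)`. -/
def PL {R G V : Type} [Ring R] [StarRing R] [Group G] [MulAction G V] (T : SimpleGraph V) (v w : V)
    (B : Set G → Set G → Prop) (ε : ℤˣ) (n : ℕ)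
    (ψ χ : Matrix (Fin n) (Fin n) (MonoidAlgebra R G)) : Prop :=
  ∃ (x y : ℕ → V) (u : ℕ → G) (i : ℕ) (hle : Sb G (x (i + 1)) (y (i + 1)) ≤ Sb G (x i) (y i)),
    Adm T v w x y u ∧ 1 ≤ i ∧ B {a | ∃ k ∈ Sb G (x i) (y i), a = k * u i}
      {a | ∃ k ∈ Sb G (x (i + 1)) (y (i + 1)), a = k * u (i + 1)} ∧
    LiftF (Sb G (x i) (y i)) (Sb G (x (i + 1)) (y (i + 1))) hle (u i) (u (i + 1)) ε n ψ χ

/-- **Theorem D with lifted generators.** -/
theorem tDL (R G V : Type) [Ring R] [StarRing R] [Group G] [MulAction G V]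
    (T : SimpleGraph V) (v w : V) (hT : T.IsTree)
    (hact : ∀ (g : G) (x y : V), T.Adj x y → T.Adj (g • x) (g • y)) (hvw : T.Adj v w)
    (hinv : ∀ g : G, ¬ (g • v = w ∧ g • w = v))
    (htwo : ∀ g : G, g * g = 1 → (g • v = v ↔ g • w = w)) (B : Set G → Set G → Prop)
    (hB : ∀ (x y : ℕ → V) (u : ℕ → G), Adm T v w x y u →
      (∃ i, DG.GC R ↥(Sb G (x i) (y i))) ∨
      ∃ i, 1 ≤ i ∧ B {a | ∃ k ∈ Sb G (x i) (y i), a = k * u i}
        {a | ∃ k ∈ Sb G (x (i + 1)) (y (i + 1)), a = k * u (i + 1)})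
    (ε : ℤˣ) (n : ℕ) (ψ μ χ : Matrix (Fin n) (Fin n) (MonoidAlgebra R G))
    (hψ : SuppIn {g | g • v = v ∧ g • w ≠ w} ψ) (hμ : SuppIn {g | g • v = w} μ)
    (hχ : SuppIn {g | g • w = w ∧ g • v ≠ v} χ)
    (hnil : IsNilpotent (nu ε (ψ + (ε : ℤ) • ψᴴ) μ (χ + (ε : ℤ) • χᴴ))) :
    SGen (PL T v w B ε) ε (UF ψ μ χ) := by
  have hd : TM G (V := V) T.dist := specFPT G V T hT hact
  -- the pairs in `B` which come from an admissible sequence
  have h1 := tD R G V T v w hT hact hvw hinv htwo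
    (fun C D => ∃ (x y : ℕ → V) (u : ℕ → G) (i : ℕ), Adm T v w x y u ∧ 1 ≤ i ∧
      C = {a | ∃ k ∈ Sb G (x i) (y i), a = k * u i} ∧
      D = {a | ∃ k ∈ Sb G (x (i + 1)) (y (i + 1)), a = k * u (i + 1)} ∧ B C D) (by
      intro x y u hA
      rcases hB x y u hA with h | ⟨i, hi, h⟩
      · exact Or.inl h
      · exact Or.inr ⟨i, hi, x, y, u, i, hA, hi, rfl, rfl, h⟩) ε n ψ μ χ hψ hμ hχ hnil
  refine sgen_mono ?_ h1
  rintro m ψ χ ⟨C, D, ⟨x, y, u, i, hA, hi, rfl, rfl, h2⟩, h3, h4, h5⟩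
  exact ⟨x, y, u, i, hA.le hd i, hA, hi, h2, lift_adm hd hA i hi (hA.le hd i) ε m ψ χ h3 h4 h5⟩

end Pool.Agent.Lib.MP8a3537.AR
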