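import Pool.Agent.Lib.MP_8a3537_gt.AR.LFT

/-!
# The lift of nilpotent forms to amalgams, with short definitions (MP_8a3537_gt, folder AR, helper31)

The same as `Amal`, `toG`, `InF`, `LiftF` of `AR/LFT.lean` (helper28), with a constant for each step, so that every
term is short: `Am K L h u f` is the amalgam of `⟨K, u⟩` and `⟨L, f⟩` over `L`, `ofA` are the inclusions of the two
factors, `toA` is the homomorphism to `G`.
-/

set_option autoImplicit false

namespace Pool.Agent.Lib.MP8a3537.AR

open Matrix Monoid Pool.Agent.Lib.MP8a3537.UV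

/-- The nilpotent forms over `R[E]` with supports in `C`, `D`: `UF ψ 0 χ` with `nu` nilpotent. -/
def NilF {R E : Type} [Ring R] [StarRing R] [Group E] (C D : Set E) (ε : ℤˣ) (n : ℕ)
    (ψ χ : Matrix (Fin n) (Fin n) (MonoidAlgebra R E)) : Prop :=
  SuppIn C ψ ∧ SuppIn D χ ∧ IsNilpotent (nu ε (ψ + (ε : ℤ) • ψᴴ) 0 (χ + (ε : ℤ) • χᴴ))

/-- The image of a matrix under the homomorphism `R[E] → R[G]` of a homomorphism `E → G`. -/
noncomputable def mapM {R E G : Type} [Ring R] [Group E] [Group G] (φ : E →* G) {n : ℕ}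
    (M : Matrix (Fin n) (Fin n) (MonoidAlgebra R E)) : Matrix (Fin n) (Fin n) (MonoidAlgebra R G) :=
  M.map (MonoidAlgebra.mapDomainRingHom R φ)

/-- The images of the nilpotent forms over `R[E]` with supports in `C`, `D`. -/
def ImgF {R E G : Type} [Ring R] [StarRing R] [Group E] [Group G] (φ : E →* G) (C D : Set E)
    (ε : ℤˣ) (n : ℕ) (ψ χ : Matrix (Fin n) (Fin n) (MonoidAlgebra R G)) : Prop :=
  ∃ ψ' χ' : Matrix (Fin n) (Fin n) (MonoidAlgebra R E),
    NilF C D ε n ψ' χ' ∧ mapM φ ψ' = ψ ∧ mapM φ χ' = χ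

/-- The group structure of an amalgam. -/
noncomputable def grpP {ι H : Type} {G : ι → Type} [∀ i, Group (G i)] [Group H]
    (φ : ∀ i, H →* G i) : Group (PushoutI φ) :=
  inferInstance

section

variable {G : Type} [Group G]

/-- The inclusion of `L` in `⟨K, u⟩` and `⟨L, f⟩`. -/
def incA (K L : Subgroup G) (h : L ≤ K) (u f : G) (b : Bool) : L →* Fac K L u f b :=
  Subgroup.inclusion (fac_le h u f b)

/-- The amalgam of `⟨K, u⟩` and `⟨L, f⟩` over `L`. -/
def Am (K L : Subgroup G) (h : L ≤ K) (u f : G) : Type :=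
  PushoutI (incA K L h u f)

noncomputable instance instGroupAm (K L : Subgroup G) (h : L ≤ K) (u f : G) :
    Group (Am K L h u f) :=
  grpP (incA K L h u f)

/-- The homomorphisms of the two factors to the amalgam. -/
noncomputable def ofA (K L : Subgroup G) (h : L ≤ K) (u f : G) (b : Bool) :
    Fac K L u f b →* Am K L h u f :=
  PushoutI.of (φ := incA K L h u f) b

/-- The homomorphism from the amalgam to `G` which is the inclusion on the factors. -/
noncomputable def toA (K L : Subgroup G) (h : L ≤ K) (u f : G) : Am K L h u f →* G :=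
  PushoutI.lift (φ := incA K L h u f) (fun b => (Fac K L u f b).subtype) L.subtype fun _ => rfl

/-- The subset `F` of a factor, as a subset of the amalgam. -/
def InA (K L : Subgroup G) (h : L ≤ K) (u f : G) (b : Bool) (F : Set G) : Set (Am K L h u f) :=
  {z | ∃ s : Fac K L u f b, (s : G) ∈ F ∧ z = ofA K L h u f b s}

/-- The coset `K u`. -/
def Cst (K : Subgroup G) (u : G) : Set G := {a | ∃ k ∈ K, a = k * u}

/-- The pair `ψ`, `χ` is the image of a nilpotent pair over the group ring of the amalgam, with supports in `K u`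
(in the first factor) and `L f` (in the second factor). -/
def LiftA {R : Type} [Ring R] [StarRing R] (K L : Subgroup G) (h : L ≤ K) (u f : G) (ε : ℤˣ)
    (n : ℕ) (ψ χ : Matrix (Fin n) (Fin n) (MonoidAlgebra R G)) : Prop :=
  ImgF (toA K L h u f) (InA K L h u f true (Cst K u)) (InA K L h u f false (Cst L f)) ε n ψ χ

theorem liftA_of_liftF {R : Type} [Ring R] [StarRing R] {K L : Subgroup G} {h : L ≤ K} {u f : G}
    {ε : ℤˣ} {n : ℕ} {ψ χ : Matrix (Fin n) (Fin n) (MonoidAlgebra R G)}
    (hF : LiftF K L h u f ε n ψ χ) : LiftA K L h u f ε n ψ χ := by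
  obtain ⟨ψ', χ', h1, h2, h3, h4, h5⟩ := hF
  exact ⟨ψ', χ', ⟨h1, h2, h3⟩, h4, h5⟩

end

end Pool.Agent.Lib.MP8a3537.AR
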