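import Pool.Agent.Lib.MP_8a3537_gt.AR.DI2
import Pool.Agent.Lib.MP_8a3537_gt.AR.GEN
import Pool.Agent.Lib.MP_8a3537_gt.DG.FinC

/-!
# Good stabilizers, locally (MP_8a3537_gt, folder AR, helper28)

`lpp`: the nilpotent forms with supports in `K i * u i`, `K (i + 1) * u (i + 1)` of an admissible sequence are stably
hyperbolic if `K (i + 1)` is good and these two sets contain no element of order two.
-/

set_option autoImplicit false
set_option linter.unusedSectionVars false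

namespace Pool.Agent.Lib.MP8a3537.AR

open Matrix Pool.Agent.Lib.MP8a3537.UV Pool.Agent.Lib.MP8a3537.RO Pool.Agent.Lib.MP8a3537.ROK

namespace LPPM

open DI2M

section

variable {G V : Type} [Group G] [MulAction G V] {d : V → V → ℕ} (hd : TM G d)

include hd

/-- The data of a single block. -/
theorem loc (x y : V) (g f : G) (K L : Subgroup G)
    (mK : ∀ k, k ∈ K ↔ k • x = x ∧ k • y = y)
    (mL : ∀ k, k ∈ L ↔ k • y = y ∧ k • f • y = f • y) (hLK : L ≤ K) (hgx : g • x = y)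
    (hgy : g • y = x) (ffy : f • f • y = y) (ffx : f • f • x = x)
    (hb : d y (f • y) = d y x + d x (f • y)) (ne : x ≠ y)
    (n1 : ∀ k ∈ K, k * g * (k * g) ≠ 1) (n2 : ∀ k ∈ L, k * f * (k * f) ≠ 1) :
    Loc L f {a | ∃ k ∈ L, a = k * f} {a | ∃ k ∈ K, a = k * g} {s | d x (s • y) = d x y + d y (s • y)} := by
  have cf : Cf d x y g f := ⟨ne, hgx, hgy, ffx, ffy, hb⟩
  have aK : ∀ z ∈ {a : G | ∃ k ∈ K, a = k * g}, z • x = y ∧ z • y = x := by
    rintro z ⟨k, hk, rfl⟩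
    rw [mK] at hk
    rw [mul_smul, mul_smul, hgx, hgy]
    exact ⟨hk.2, hk.1⟩
  have aL : ∀ z ∈ {a : G | ∃ k ∈ L, a = k * f}, z • y = f • y ∧ z • f • y = y := by
    rintro z ⟨k, hk, rfl⟩
    rw [mL] at hk
    rw [mul_smul, mul_smul, ffy]
    exact ⟨hk.2, hk.1⟩
  -- the elements which act in this way
  have bK : ∀ z : G, z • x = y → z • y = x → z ∈ {a : G | ∃ k ∈ K, a = k * g} := by
    intro z h1 h2
    refine ⟨z * g⁻¹, ?_, by group⟩
    have e1 : g⁻¹ • x = y := by rw [inv_smul_eq_iff]; exact hgy.symm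
    have e2 : g⁻¹ • y = x := by rw [inv_smul_eq_iff]; exact hgx.symm
    rw [mK, mul_smul, mul_smul, e1, e2]
    exact ⟨h2, h1⟩
  have bL : ∀ z : G, z • y = f • y → z • f • y = y → z ∈ {a : G | ∃ k ∈ L, a = k * f} := by
    intro z h1 h2
    refine ⟨z * f⁻¹, ?_, by group⟩
    have e1 : f⁻¹ • y = f • y := by rw [inv_smul_eq_iff]; exact ffy.symm
    rw [mL, mul_smul, mul_smul, e1, inv_smul_smul]
    exact ⟨h2, h1⟩
  have inv1 : ∀ (z : G) (p q : V), z • p = q → z⁻¹ • q = p := by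
    intro z p q h
    rw [inv_smul_eq_iff]
    exact h.symm
  refine ⟨fun z => Iff.rfl, ?_, ?_, ?_, ?_, ?_, ?_, ?_, ?_, ?_, ?_, ?_, ?_⟩
  · -- al
    intro l hl z hz
    obtain ⟨h1, h2⟩ := aL z hz
    have hl' := (mL l).1 hl
    exact bL _ (by rw [mul_smul, h1, hl'.2]) (by rw [mul_smul, h2, hl'.1])
  · -- ar
    intro l hl z hz
    obtain ⟨h1, h2⟩ := aL z hz
    have hl' := (mL l).1 hl
    exact bL _ (by rw [mul_smul, hl'.1, h1]) (by rw [mul_smul, hl'.2, h2])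
  · -- ai
    intro z hz
    obtain ⟨h1, h2⟩ := aL z hz
    exact bL _ (inv1 _ _ _ h2) (inv1 _ _ _ h1)
  · -- an
    rintro z ⟨k, hk, rfl⟩ h
    refine n2 k hk ?_
    nth_rw 1 [← h]
    rw [inv_mul_cancel]
  · -- bl
    intro l hl z hz
    obtain ⟨h1, h2⟩ := aK z hz
    have hl' := (mK l).1 (hLK hl)
    exact bK _ (by rw [mul_smul, h1, hl'.2]) (by rw [mul_smul, h2, hl'.1])
  · -- br
    intro l hl z hz
    obtain ⟨h1, h2⟩ := aK z hz
    have hl' := (mK l).1 (hLK hl)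
    exact bK _ (by rw [mul_smul, hl'.1, h1]) (by rw [mul_smul, hl'.2, h2])
  · -- bi
    intro z hz
    obtain ⟨h1, h2⟩ := aK z hz
    exact bK _ (inv1 _ _ _ h2) (inv1 _ _ _ h1)
  · -- bn
    rintro z ⟨k, hk, rfl⟩ h
    refine n1 k hk ?_
    nth_rw 1 [← h]
    rw [inv_mul_cancel]
  · -- y1
    show d x ((1 : G) • y) = d x y + d y ((1 : G) • y)
    rw [one_smul, (hd.d0 y y).2 rfl, add_zero]
  · -- yl
    intro l hl s hs
    have hl' := (mK l).1 (hLK hl)
    show d x ((l * s) • y) = d x y + d y ((l * s) • y)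
    have hs' : d x (s • y) = d x y + d y (s • y) := hs
    have i1 := hd.iso l x (s • y)
    have i2 := hd.iso l y (s • y)
    rw [hl'.1] at i1
    rw [hl'.2] at i2
    rw [mul_smul]
    omega
  · -- ya
    intro z hz a ha s hs
    obtain ⟨h1, h2⟩ := aK z hz
    obtain ⟨k, hk, rfl⟩ := ha
    have hk' := (mL k).1 hk
    have hk'' := (mK k).1 (hLK hk)
    have hs' : d x (s • y) = d x y + d y (s • y) := hs
    show d x ((z * (k * f) * s) • y) = d x y + d y ((z * (k * f) * s) • y)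
    have h3 := (far hd cf hs').2
    have e : (z * (k * f) * s) • y = z • k • f • s • y := by simp only [mul_smul]
    rw [e]
    have i1 := hd.iso k y (f • s • y)
    have i2 := hd.iso k x (f • s • y)
    rw [hk''.2] at i1
    rw [hk''.1] at i2
    have i3 := hd.iso z y (k • f • s • y)
    have i4 := hd.iso z x (k • f • s • y)
    rw [h2] at i3
    rw [h1] at i4
    have c1 := hd.cm x y
    omega
  · -- dj
    intro z hz z' hz' a ha a' ha' t ht t' ht' he
    obtain ⟨h1, h2⟩ := aK z hz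
    obtain ⟨h1', h2'⟩ := aK z' hz'
    obtain ⟨l, hl, rfl⟩ := ha
    obtain ⟨l', hl', rfl⟩ := ha'
    have hlm := (mL l).1 hl
    have hlm' := (mL l').1 hl'
    have ht1 : d x (t • y) = d x y + d y (t • y) := ht
    have ht2 : d x (t' • y) = d x y + d y (t' • y) := ht'
    have f1 := (far hd cf ht1).1
    have f2 := (far hd cf ht2).1
    -- the element `k = z'⁻¹ z`
    obtain ⟨k, hk⟩ : ∃ k, k = z'⁻¹ * z := ⟨_, rfl⟩
    have kx : k • x = x := by rw [hk, mul_smul, h1]; exact inv1 _ _ _ h1'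
    have ky : k • y = y := by rw [hk, mul_smul, h2]; exact inv1 _ _ _ h2'
    have e1 : k * (l * f) * t = l' * f * t' := by
      rw [hk]
      have : z' * (z'⁻¹ * z * (l * f) * t) = z' * (l' * f * t') := by
        have e0 : z' * (l' * f * t') = z * (l * f) * t := by rw [he]; group
        rw [e0]
        group
      exact mul_left_cancel this
    have i1 := hd.iso l y (f • t • y)
    have i2 := hd.iso l (f • y) (f • t • y)
    rw [hlm.1] at i1
    rw [hlm.2] at i2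
    have i3 := hd.iso l' y (f • t' • y)
    have i4 := hd.iso l' (f • y) (f • t' • y)
    rw [hlm'.1] at i3
    rw [hlm'.2] at i4
    have e2 : k • l • f • t • y = l' • f • t' • y := by
      have := congrArg (fun s : G => s • y) e1
      simpa only [mul_smul] using this
    have i5 := hd.iso k⁻¹ y (k • l • f • t • y)
    have i6 := hd.iso k⁻¹ (f • y) (k • l • f • t • y)
    rw [inv1 _ _ _ ky, inv_smul_smul] at i5
    rw [inv_smul_smul] at i6
    rw [e2] at i5 i6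
    have h3 := key hd cf (h := k⁻¹) (p := l • f • t • y) (inv1 _ _ _ kx) (inv1 _ _ _ ky)
      (by omega) (by omega)
    have kf : k • f • y = f • y := by
      have := inv1 _ _ _ h3.1
      rwa [inv_inv] at this
    have e3 : t' * t⁻¹ = (l' * f)⁻¹ * k * (l * f) := by
      have : l' * f * t' * t⁻¹ = k * (l * f) := by
        rw [← e1]
        group
      rw [mul_assoc (l' * f)⁻¹, ← this]
      group
    rw [e3, mL]
    have m1 := aL (l * f) ⟨l, hl, rfl⟩
    have m2 := aL (l' * f) ⟨l', hl', rfl⟩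
    constructor
    · rw [mul_smul, mul_smul, m1.1, kf]
      exact inv1 _ _ _ m2.1
    · rw [mul_smul, mul_smul, m1.2, ky]
      exact inv1 _ _ _ m2.2

end

end LPPM

section

variable {R G : Type} [Ring R] [StarRing R] [Group G]

open DI2M in
/-- The basic configuration over a good subgroup. -/
theorem LPPM.sh {V : Type} [MulAction G V] {d : V → V → ℕ} (hd : TM G d) (x y : V) (g f : G)
    (K L : Subgroup G) (mK : ∀ k, k ∈ K ↔ k • x = x ∧ k • y = y)
    (mL : ∀ k, k ∈ L ↔ k • y = y ∧ k • f • y = f • y) (hLK : L ≤ K) (hgx : g • x = y)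
    (hgy : g • y = x) (ffy : f • f • y = y) (hb : d y (f • y) = d y x + d x (f • y)) (ne : x ≠ y)
    (n1 : ∀ k ∈ K, k * g * (k * g) ≠ 1) (n2 : ∀ k ∈ L, k * f * (k * f) ≠ 1) (hR : DG.GC R L)
    (ε : ℤˣ) (n : ℕ) (ψ χ : Matrix (Fin n) (Fin n) (MonoidAlgebra R G))
    (hψ : SuppIn {a | ∃ k ∈ K, a = k * g} ψ) (hχ : SuppIn {a | ∃ k ∈ L, a = k * f} χ)
    (hn : IsNilpotent (nu ε (ψ + (ε : ℤ) • ψᴴ) 0 (χ + (ε : ℤ) • χᴴ))) :
    StablyHyperbolic ε (UF ψ 0 χ) := by
  have ffx : f • f • x = x := by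
    have h1 : f * f ∈ L := by
      rw [mL, mul_smul, mul_smul, ffy]
      exact ⟨rfl, rfl⟩
    have h2 := ((mK _).1 (hLK h1)).1
    rwa [mul_smul] at h2
  have P := LPPM.loc hd x y g f K L mK mL hLK hgx hgy ffy ffx hb ne n1 n2
  exact DG.tdgC R G L hR {a | ∃ k ∈ K, a = k * g} {a | ∃ k ∈ L, a = k * f}
    ⟨P.br, P.bl, P.bi, P.bn⟩ ⟨P.ar, P.al, P.ai, P.an⟩ (DG.uq_of_loc P).2 (DG.uq_of_loc P).1
    ε n ψ χ hψ hχ hn

variable {V : Type} [MulAction G V] {T : SimpleGraph V} {v w : V} {x y : ℕ → V} {u : ℕ → G}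

open DI2M in
/-- **Forms of an admissible sequence over a good stabilizer.** -/
theorem lpp (hd : TM G (V := V) T.dist) (h : AdmT T v w x y u) (i : ℕ) (hi : 1 ≤ i)
    (n1 : ∀ k ∈ SbT G (x i) (y i), k * u i * (k * u i) ≠ 1)
    (n2 : ∀ k ∈ SbT G (x (i + 1)) (y (i + 1)), k * u (i + 1) * (k * u (i + 1)) ≠ 1)
    (hR : DG.GC R ↥(SbT G (x (i + 1)) (y (i + 1)))) (ε : ℤˣ) (n : ℕ)
    (ψ χ : Matrix (Fin n) (Fin n) (MonoidAlgebra R G))
    (hψ : SuppIn {a | ∃ k ∈ SbT G (x i) (y i), a = k * u i} ψ)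
    (hχ : SuppIn {a | ∃ k ∈ SbT G (x (i + 1)) (y (i + 1)), a = k * u (i + 1)} χ)
    (hn : IsNilpotent (nu ε (ψ + (ε : ℤ) • ψᴴ) 0 (χ + (ε : ℤ) • χᴴ))) :
    StablyHyperbolic ε (UF ψ 0 χ) := by
  have hle := h.le hd i
  obtain ⟨e1, e2⟩ := h.exch i hi
  obtain ⟨e3, e4⟩ := h.exch (i + 1) (by omega)
  have hp := h.path i
  rcases h.one i hi with e | e
  · -- `x (i + 1) = x i`
    rw [e] at e3 e4 hp
    refine LPPM.sh hd (y i) (x i) (u i) (u (i + 1)) _ _ ?_ ?_ hle e2 e1 ?_ ?_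
      (ne_of hd h i hi).symm n1 n2 hR ε n ψ χ hψ hχ hn
    · intro k
      rw [Subgroup.mem_inf, MulAction.mem_stabilizer_iff, MulAction.mem_stabilizer_iff, and_comm]
    · intro k
      rw [Subgroup.mem_inf, MulAction.mem_stabilizer_iff, MulAction.mem_stabilizer_iff, e, e3]
    · rw [e3, e4]
    · rw [e3]
      have := hd.d0 (x i) (x i)
      have h0 : T.dist (x i) (x i) = 0 := this.2 rfl
      omega
  · -- `y (i + 1) = y i`
    rw [e] at e3 e4 hp
    refine LPPM.sh hd (x i) (y i) (u i) (u (i + 1)) _ _ ?_ ?_ hle e1 e2 ?_ ?_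
      (ne_of hd h i hi) n1 n2 hR ε n ψ χ hψ hχ hn
    · intro k
      rw [Subgroup.mem_inf, MulAction.mem_stabilizer_iff, MulAction.mem_stabilizer_iff]
    · intro k
      rw [Subgroup.mem_inf, MulAction.mem_stabilizer_iff, MulAction.mem_stabilizer_iff, e, e4,
        and_comm]
    · rw [e4, e3]
    · rw [e4]
      have h0 : T.dist (y i) (y i) = 0 := (hd.d0 (y i) (y i)).2 rfl
      have h1 := hd.cm (x (i + 1)) (y i)
      have h2 := hd.cm (x (i + 1)) (x i)
      have h3 := hd.cm (x i) (y i)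
      omega

/-- The same for `R[K]` regular coherent of finite dimension. -/
theorem lpp_rc (R G V : Type) [Ring R] [StarRing R] [Group G] [MulAction G V] (T : SimpleGraph V)
    (v w : V) (hT : T.IsTree) (hact : ∀ (g : G) (x y : V), T.Adj x y → T.Adj (g • x) (g • y))
    (x y : ℕ → V) (u : ℕ → G) (h : AdmT T v w x y u) (i : ℕ) (hi : 1 ≤ i)
    (n1 : ∀ a ∈ {a : G | ∃ k ∈ SbT G (x i) (y i), a = k * u i}, a * a ≠ 1)
    (n2 : ∀ a ∈ {a : G | ∃ k ∈ SbT G (x (i + 1)) (y (i + 1)), a = k * u (i + 1)}, a * a ≠ 1)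
    (hR : ∃ d : ℕ, DG.RC (MonoidAlgebra R ↥(SbT G (x (i + 1)) (y (i + 1)))) d) (ε : ℤˣ) (n : ℕ)
    (ψ χ : Matrix (Fin n) (Fin n) (MonoidAlgebra R G))
    (hψ : SuppIn {a | ∃ k ∈ SbT G (x i) (y i), a = k * u i} ψ)
    (hχ : SuppIn {a | ∃ k ∈ SbT G (x (i + 1)) (y (i + 1)), a = k * u (i + 1)} χ)
    (hn : IsNilpotent (nu ε (ψ + (ε : ℤ) • ψᴴ) 0 (χ + (ε : ℤ) • χᴴ))) :
    StablyHyperbolic ε (UF ψ 0 χ) :=
  lpp (specFPT G V T hT hact) h i hi (fun k hk => n1 _ ⟨k, hk, rfl⟩) (fun k hk => n2 _ ⟨k, hk, rfl⟩)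
    (CR.Cls.base (Or.inl hR)) ε n ψ χ hψ hχ hn

end

end Pool.Agent.Lib.MP8a3537.AR
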