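import Pool.Agent.Lib.MP_8a3537_gt.AR.Base
import Pool.Agent.Lib.MP_8a3537_gt.RO.NWT
import Pool.Agent.Lib.MP_8a3537_gt.RO.HLF
import Pool.Agent.Lib.MP_8a3537_gt.RO.EFA

/-!
# Classes of forms (MP_8a3537_gt, folder AR): no flips (copy of RO/NWC, RO/NWT)
-/

set_option autoImplicit false
set_option linter.unusedSectionVars false
set_option linter.unusedSimpArgs false

namespace Pool.Agent.Lib.MP8a3537.AR

open Matrix Pool.Agent.Lib.MP8a3537.UV Pool.Agent.Lib.MP8a3537.AU Pool.Agent.Lib.MP8a3537.RO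
open Pool.Agent.Lib.MP8a3537.ROK Pool.Agent.Lib.MP8a3537.LL

/-! ## From `RO/NWC.lean` -/

open Matrix Pool.Agent.Lib.MP8a3537.UV Pool.Agent.Lib.MP8a3537.AU
open SWPP

namespace NWCMP

variable {A : Type} [Ring A] [StarRing A] [FC A] {ε : ℤˣ} {n : ℕ}

theorem base (m q : Matrix (Fin n) (Fin n) A) (hm : IsUnit (1 + m)) :
    SS ε (fromBlocks 0 (1 + m) 0 q) := by
  obtain ⟨⟨a, w, h1, h2⟩, ha⟩ := hm
  simp only at ha
  subst ha
  refine SWPP.stab_of_isom (Φ := UF (0 : Matrix (Fin n) (Fin n) A) 0 0) ?_ (SWPP.trivial_form n)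
  refine ⟨fromBlocks 1 (-(wᴴ * q * w)ᴴ) 0 w, fromBlocks 1 ((wᴴ * q * w)ᴴ * (1 + m)) 0 (1 + m), 0, ?_, ?_, ?_⟩
  · rw [fromBlocks_multiply]
    simp [h2, fromBlocks_one]
  · rw [fromBlocks_multiply]
    simp [h1, Matrix.mul_assoc, fromBlocks_one]
  · unfold UF
    rw [fromBlocks_conjTranspose, fromBlocks_multiply, fromBlocks_multiply]
    simp only [Matrix.conjTranspose_one, Matrix.conjTranspose_zero, Matrix.conjTranspose_neg,
      Matrix.conjTranspose_conjTranspose, Matrix.mul_zero, Matrix.zero_mul, Matrix.mul_one, Matrix.one_mul,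
      add_zero, zero_add, smul_zero, sub_zero, h1, Matrix.neg_mul]
    congr 1
    simp [Matrix.mul_assoc, h2]

theorem step (p m q : Matrix (Fin n) (Fin n) A) :
    Isometric ε (fromBlocks p (1 + m) 0 q)
      (fromBlocks (-(m * p) + pᴴ * q * p) (1 + (m - pᴴ * q - (ε : ℤ) • (pᴴ * qᴴ))) 0 q) := by
  refine ⟨fromBlocks 1 0 (-p) 1, fromBlocks 1 0 p 1, fromBlocks 0 0 (q * p) 0, ?_, ?_, ?_⟩
  · rw [fromBlocks_multiply]
    simp [fromBlocks_one]
  · rw [fromBlocks_multiply]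
    simp [fromBlocks_one]
  · rw [fromBlocks_conjTranspose, fromBlocks_conjTranspose, fromBlocks_multiply, fromBlocks_multiply,
      fromBlocks_smul, fromBlocks_add, eq_sub_iff_add_eq, fromBlocks_add]
    simp only [Matrix.conjTranspose_one, Matrix.conjTranspose_zero, Matrix.conjTranspose_neg,
      Matrix.conjTranspose_mul, Matrix.mul_zero, Matrix.zero_mul, Matrix.mul_one, Matrix.one_mul,
      add_zero, zero_add, smul_zero, Matrix.neg_mul, Matrix.mul_neg, Matrix.add_mul,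
      Matrix.mul_add, Matrix.mul_assoc]
    congr 1
    · abel
    · abel
    · abel

theorem pow_mem {E : ℕ → Bool → Bool → AddSubgroup (Matrix (Fin n) (Fin n) A)} {N : ℕ} (hE : EFam E N)
    {m : Matrix (Fin n) (Fin n) A} (hm : m ∈ E 1 false false) (i : ℕ) : m ^ (i + 1) ∈ E (i + 1) false false := by
  induction i with
  | zero => simpa using hm
  | succ i ih =>
    rw [pow_succ]
    exact hE.mul (i + 1) 1 false false false _ _ ih hm

theorem main {E : ℕ → Bool → Bool → AddSubgroup (Matrix (Fin n) (Fin n) A)} {N : ℕ} (hE : EFam E N) (d : ℕ) :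
    ∀ k : ℕ, 1 ≤ k → N ≤ k + d → ∀ p ∈ E k false true, ∀ m ∈ E 1 false false, ∀ q ∈ E 1 true false,
      SS ε (fromBlocks p (1 + m) 0 q) := by
  induction d with
  | zero =>
    intro k _ hkN p hp m hm q _
    have hp0 : p = 0 := hE.zero _ _ p (hE.mono N k false true (by omega) hp)
    have hnil : IsNilpotent m := by
      refine ⟨N + 1, hE.zero false false _ ?_⟩
      exact hE.mono N (N + 1) false false (by omega) (pow_mem hE hm N)
    rw [hp0]
    exact base m q hnil.isUnit_one_add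
  | succ d ih =>
    intro k hk hkN p hp m hm q hq
    refine SWPP.stab_of_isom (step p m q) ?_
    have hps : pᴴ ∈ E k false true := by simpa using hE.star k false true p hp
    have hqs : qᴴ ∈ E 1 true false := by simpa using hE.star 1 true false q hq
    have h1 : m * p ∈ E (1 + k) false true := hE.mul 1 k false false true m p hm hp
    have h2 : pᴴ * q ∈ E (k + 1) false false := hE.mul k 1 false true false _ _ hps hq
    have h3 : pᴴ * qᴴ ∈ E (k + 1) false false := hE.mul k 1 false true false _ _ hps hqs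
    have h4 : pᴴ * q * p ∈ E (k + 1 + k) false true := hE.mul (k + 1) k false false true _ _ h2 hp
    refine ih (k + 1) (by omega) (by omega) _ ?_ _ ?_ q hq
    · refine add_mem (neg_mem ?_) (hE.mono (k + 1) (k + 1 + k) false true (by omega) h4)
      rw [add_comm k 1]
      exact h1
    · have h2' := hE.mono 1 (k + 1) false false (by omega) h2
      have h3' := hE.mono 1 (k + 1) false false (by omega) h3
      exact sub_mem (sub_mem hm h2') (AddSubgroup.zsmul_mem _ h3' _)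

end NWCMP

theorem specNWC : SpecNWC := by
  intro A _ _ _ ε n N E hE p hp m hm q hq
  exact NWCMP.main hE N 1 le_rfl (by omega) p hp m hm q hq


/-! ## From `RO/NWT.lean` -/

open Matrix Pool.Agent.Lib.MP8a3537.UV Pool.Agent.Lib.MP8a3537.AU

namespace NWTAuxP

variable {R G : Type} [Ring R] [StarRing R] [Group G]

theorem flip_inv {H : Subgroup G} {x : G} (h : Flip H x) : Flip H x⁻¹ := by
  obtain ⟨a, ha, b, hb, hx⟩ := h
  refine ⟨a⁻¹, H.inv_mem ha, b⁻¹, H.inv_mem hb, ?_⟩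
  rw [inv_inv, hx]
  group

theorem coeff_sym {n : ℕ} (ε : ℤ) (ψ : Matrix (Fin n) (Fin n) (MonoidAlgebra R G))
    (i j : Fin n) (x : G) :
    ((ψ + ε • ψᴴ) i j).coeff x = (ψ i j).coeff x + ε • star ((ψ j i).coeff x⁻¹) := by
  rw [Matrix.add_apply, Matrix.smul_apply, Matrix.conjTranspose_apply, MonoidAlgebra.coeff_add,
    Finsupp.add_apply, TATAux.coeff_smul_star]

theorem sym_symm {A : Type} [Ring A] [StarRing A] {n : ℕ} (ε : ℤˣ) (ψ : Matrix (Fin n) (Fin n) A) :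
    ψ + (ε : ℤ) • ψᴴ = (ε : ℤ) • (ψ + (ε : ℤ) • ψᴴ)ᴴ := by
  rcases Int.units_eq_one_or ε with h | h
  · simp [h, add_comm]
  · simp [h, add_comm]

/-- One of the two sides. -/
theorem side (hHLF : SpecHLF) {H : Subgroup G} {X : Set G} (hi : ∀ x ∈ X, x⁻¹ ∈ X)
    (hn : ∀ x ∈ X, x⁻¹ ≠ x) (ε : ℤˣ) {n : ℕ} (ψ : Matrix (Fin n) (Fin n) (MonoidAlgebra R G))
    (hψ : SuppIn X ψ) (hf : ∀ i j x, (ψ i j).coeff x ≠ 0 → ¬ Flip H x) :
    SuppIn X (ψ + (ε : ℤ) • ψᴴ) ∧ ∃ c : Set G, Bi H c ∧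
      ∃ c0 : Matrix (Fin n) (Fin n) (MonoidAlgebra R G),
        ψ = cutM c (ψ + (ε : ℤ) • ψᴴ) + c0 - (ε : ℤ) • c0ᴴ := by
  have key : ∀ i j x, ((ψ + (ε : ℤ) • ψᴴ) i j).coeff x ≠ 0 →
      (ψ i j).coeff x ≠ 0 ∨ (ψ j i).coeff x⁻¹ ≠ 0 := by
    intro i j x h
    by_contra hc
    push Not at hc
    apply h
    rw [coeff_sym, hc.1, hc.2, star_zero, smul_zero, add_zero]
  have h1 : SuppIn X (ψ + (ε : ℤ) • ψᴴ) := by
    intro i j x h
    rcases key i j x h with h2 | h2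
    · exact hψ i j x h2
    · have h3 := hi _ (hψ j i x⁻¹ h2)
      rwa [inv_inv] at h3
  refine ⟨h1, ?_⟩
  have h2 : ∀ i j x, ((ψ + (ε : ℤ) • ψᴴ) i j).coeff x ≠ 0 → ¬ Flip H x := by
    intro i j x h
    rcases key i j x h with h3 | h3
    · exact hf i j x h3
    · exact fun h4 => hf j i x⁻¹ h3 (flip_inv h4)
  obtain ⟨c, hc, hac⟩ := hHLF R G H ε n (ψ + (ε : ℤ) • ψᴴ) (sym_symm ε ψ) h2
  refine ⟨c, hc, ?_⟩
  have h3 : SuppIn X (ψ - cutM c (ψ + (ε : ℤ) • ψᴴ)) := by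
    intro i j x h
    by_contra hx
    apply h
    have h4 : (ψ i j).coeff x = 0 := by
      by_contra h5
      exact hx (hψ i j x h5)
    have h6 : ((ψ + (ε : ℤ) • ψᴴ) i j).coeff x = 0 := by
      by_contra h5
      exact hx (h1 i j x h5)
    rw [Matrix.sub_apply, MonoidAlgebra.coeff_sub, Finsupp.sub_apply, h4]
    unfold cutM
    rw [Matrix.map_apply, cut_coeff, h6, ite_self, sub_zero]
  have h4 : ψ - cutM c (ψ + (ε : ℤ) • ψᴴ) =
      ((-ε : ℤˣ) : ℤ) • (ψ - cutM c (ψ + (ε : ℤ) • ψᴴ))ᴴ := by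
    rw [Units.val_neg, neg_smul, conjTranspose_sub, smul_sub, neg_sub]
    rw [sub_eq_sub_iff_add_eq_add, add_comm ((ε : ℤ) • (cutM c (ψ + (ε : ℤ) • ψᴴ))ᴴ), ← hac]
  obtain ⟨c0, -, hc0⟩ := specTat R G X (-ε) n _ hi hn h3 h4
  refine ⟨c0, ?_⟩
  rw [Units.val_neg, neg_smul, ← sub_eq_add_neg] at hc0
  rw [add_sub_assoc, ← hc0]
  abel

theorem cutM_zsmul {n : ℕ} (c : Set G) (ε : ℤ) (b : Matrix (Fin n) (Fin n) (MonoidAlgebra R G)) :
    cutM c (ε • b) = ε • cutM c b := by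
  classical
  unfold cutM
  ext i j x
  rw [Matrix.map_apply, Matrix.smul_apply, Matrix.smul_apply, Matrix.map_apply, cut_coeff,
    MonoidAlgebra.coeff_smul, MonoidAlgebra.coeff_smul, Finsupp.smul_apply, Finsupp.smul_apply,
    cut_coeff]
  split_ifs
  · rfl
  · rw [smul_zero]

end NWTAuxP

open NWTAuxP

theorem specNWT (hEFA : SpecEFA) (hNWC : SpecNWC) (hHLF : SpecHLF) : SpecNWT := by
  intro R G _ _ _ _ H X1 X2 X3 Yp Ym hP ε n ψ μ χ hψ hμ hχ hnil hf1 hf2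
  obtain ⟨ha, c, hc, c0, hψc⟩ := side hHLF hP.X1i hP.X1n ε ψ hψ hf1
  obtain ⟨hb, c', hc', d0, hχc⟩ := side hHLF hP.X2i hP.X2n ε χ hχ hf2
  obtain ⟨N, hN⟩ := hnil
  obtain ⟨hE, hlet, hblk⟩ := hEFA R G H X1 X2 X3 Yp Ym hP ε n (ψ + (ε : ℤ) • ψᴴ) μ
    (χ + (ε : ℤ) • χᴴ) ha hμ hb (sym_symm ε ψ) (sym_symm ε χ) N hN
  have h1 : cutM c (ψ + (ε : ℤ) • ψᴴ) ∈
      EE H (nu ε (ψ + (ε : ℤ) • ψᴴ) μ (χ + (ε : ℤ) • χᴴ)) 1 false true := hlet false true c hc
  have h2 : μᴴ ∈ EE H (nu ε (ψ + (ε : ℤ) • ψᴴ) μ (χ + (ε : ℤ) • χᴴ)) 1 false false :=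
    hblk false false
  have h3 : cutM c' ((ε : ℤ) • (χ + (ε : ℤ) • χᴴ)) ∈
      EE H (nu ε (ψ + (ε : ℤ) • ψᴴ) μ (χ + (ε : ℤ) • χᴴ)) 1 true false := hlet true false c' hc'
  have h4 : cutM c' (χ + (ε : ℤ) • χᴴ) ∈
      EE H (nu ε (ψ + (ε : ℤ) • ψᴴ) μ (χ + (ε : ℤ) • χᴴ)) 1 true false := by
    rw [cutM_zsmul] at h3
    have h5 := AddSubgroup.zsmul_mem _ h3 (ε : ℤ)
    rw [smul_smul] at h5
    have h6 : (ε : ℤ) * (ε : ℤ) = 1 := by
      rcases Int.units_eq_one_or ε with h | h <;> simp [h]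
    rwa [h6, one_smul] at h5
  have h5 : SS ε
      (UF (cutM c (ψ + (ε : ℤ) • ψᴴ)) μ (cutM c' (χ + (ε : ℤ) • χᴴ))) :=
    hNWC (MonoidAlgebra R G) ε n N _ hE _ h1 _ h2 _ h4
  have h6 := (specSwpP (MonoidAlgebra R G) ε n _ μ _).2.1 c0 d0 h5
  rwa [← hψc, ← hχc] at h6


end Pool.Agent.Lib.MP8a3537.AR
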