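import Mathlib.GroupTheory.PushoutI
import Mathlib.GroupTheory.SpecificGroups.Dihedral

/-!
# Elements of finite order of an amalgam (MP_8a3537_gt, folder AR, helper81)

In the amalgam of two groups every element `z` with `z * z = 1` is conjugate to an element of one of the
two groups. (Reduced words.)
-/

set_option autoImplicit false

namespace Pool.Agent.Lib.MP8a3537.AR.PTOM

open Monoid

variable {A : Bool → Type} {C : Type} [∀ i, Group (A i)] [Group C]

/-- Reduced products of `n` factors, the first in `A i`, the last in `A j`. -/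
inductive RW (φ : ∀ i, C →* A i) : ℕ → Bool → Bool → PushoutI φ → Prop
  | single {i : Bool} {x : A i} : x ∉ (φ i).range → RW φ 1 i i (PushoutI.of i x)
  | cons {n : ℕ} {i j : Bool} {x : A i} {z : PushoutI φ} : x ∉ (φ i).range → RW φ n (!i) j z →
      RW φ (n + 1) i j (PushoutI.of i x * z)

variable {φ : ∀ i, C →* A i}

theorem word {n : ℕ} {i j : Bool} {z : PushoutI φ} (h : RW φ n i j z) :
    ∃ w : CoprodI.Word A, PushoutI.Reduced φ w ∧ w.fstIdx = some i ∧
      PushoutI.ofCoprodI w.prod = z := by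
  induction h with
  | @single i x hx =>
    have h1 : x ≠ 1 := fun h => hx (h ▸ one_mem _)
    refine ⟨CoprodI.Word.cons x CoprodI.Word.empty (by simp [CoprodI.Word.fstIdx]) h1, ?_, ?_, ?_⟩
    · intro g hg
      simp only [CoprodI.Word.cons, CoprodI.Word.empty, List.mem_cons, List.not_mem_nil,
        or_false] at hg
      rw [hg]
      exact hx
    · exact CoprodI.Word.fstIdx_cons _ _ _ _
    · rw [CoprodI.Word.prod_cons, CoprodI.Word.prod_empty, mul_one, PushoutI.ofCoprodI_of]
  | @cons n i j x z hx hz ih =>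
    obtain ⟨w, hw, hi, hp⟩ := ih
    have h1 : x ≠ 1 := fun h => hx (h ▸ one_mem _)
    have h2 : w.fstIdx ≠ some i := by
      rw [hi]
      cases i <;> simp
    refine ⟨CoprodI.Word.cons x w h2 h1, ?_, ?_, ?_⟩
    · intro g hg
      simp only [CoprodI.Word.cons, List.mem_cons] at hg
      rcases hg with hg | hg
      · rw [hg]
        exact hx
      · exact hw g hg
    · exact CoprodI.Word.fstIdx_cons _ _ _ _
    · rw [CoprodI.Word.prod_cons, map_mul, PushoutI.ofCoprodI_of, hp]

theorem not_base (hφ : ∀ i, Function.Injective (φ i)) {n : ℕ} {i j : Bool} {z : PushoutI φ}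
    (h : RW φ n i j z) : z ∉ (PushoutI.base φ).range := by
  intro hz
  obtain ⟨w, hw, hi, hp⟩ := word h
  rw [← hp] at hz
  have := hw.eq_empty_of_mem_range hφ hz
  rw [this] at hi
  simp [CoprodI.Word.fstIdx, CoprodI.Word.empty] at hi

theorem cl {i : Bool} {b : C} {x : A i} (h : φ i b * x ∈ (φ i).range) : x ∈ (φ i).range :=
  (Subgroup.mul_mem_cancel_left (φ i).range (MonoidHom.mem_range.2 ⟨b, rfl⟩)).1 h

theorem cr {i : Bool} {b : C} {x : A i} (h : x * φ i b ∈ (φ i).range) : x ∈ (φ i).range :=
  (Subgroup.mul_mem_cancel_right (φ i).range (MonoidHom.mem_range.2 ⟨b, rfl⟩)).1 h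

theorem inv {n : ℕ} {i j : Bool} {z : PushoutI φ} (h : RW φ n i j z) :
    (n = 1 ∧ j = i ∧ ∃ x : A i, x ∉ (φ i).range ∧ z = PushoutI.of i x) ∨
    ∃ (m : ℕ) (x : A i) (z1 : PushoutI φ), n = m + 1 ∧ x ∉ (φ i).range ∧ RW φ m (!i) j z1 ∧
      z = PushoutI.of i x * z1 := by
  cases h with
  | @single i x hx => exact Or.inl ⟨rfl, rfl, x, hx, rfl⟩
  | @cons n i j x z hx hz => exact Or.inr ⟨n, x, z, rfl, hx, hz, rfl⟩

theorem pos {n : ℕ} {i j : Bool} {z : PushoutI φ} (h : RW φ n i j z) : 0 < n := by
  rcases inv h with ⟨rfl, -⟩ | ⟨m, x, z1, rfl, -⟩ <;> omega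

theorem one {i j : Bool} {z : PushoutI φ} (h : RW φ 1 i j z) :
    j = i ∧ ∃ x : A i, x ∉ (φ i).range ∧ z = PushoutI.of i x := by
  rcases inv h with ⟨-, h1, h2⟩ | ⟨m, x, z1, h1, -, h2, -⟩
  · exact ⟨h1, h2⟩
  · have := pos h2
    omega

theorem base_mul (b : C) {n : ℕ} {i j : Bool} {z : PushoutI φ} (h : RW φ n i j z) :
    RW φ n i j (PushoutI.base φ b * z) := by
  cases h with
  | @single i x hx =>
    rw [← PushoutI.of_apply_eq_base φ i b, ← map_mul]
    exact .single fun h => hx (cl h)
  | @cons n i j x z hx hz =>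
    rw [← mul_assoc, ← PushoutI.of_apply_eq_base φ i b, ← map_mul]
    exact .cons (fun h => hx (cl h)) hz

theorem mul_base (b : C) {n : ℕ} {i j : Bool} {z : PushoutI φ} (h : RW φ n i j z) :
    RW φ n i j (z * PushoutI.base φ b) := by
  induction h with
  | @single i x hx =>
    rw [← PushoutI.of_apply_eq_base φ i b, ← map_mul]
    exact .single fun h => hx (cr h)
  | @cons n i j x z hx hz ih =>
    rw [mul_assoc]
    exact .cons hx ih

theorem mul {n m : ℕ} {i j l : Bool} {z z' : PushoutI φ} (h : RW φ n i j z)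
    (h' : RW φ m (!j) l z') : RW φ (n + m) i l (z * z') := by
  induction h with
  | @single i x hx =>
    rw [Nat.add_comm 1 m]
    exact .cons hx h'
  | @cons n i j x z hx hz ih =>
    rw [mul_assoc, Nat.add_right_comm]
    exact .cons hx (ih h')

theorem snoc {n : ℕ} {i j : Bool} {z : PushoutI φ} (h : RW φ (n + 2) i j z) :
    ∃ (z' : PushoutI φ) (y : A j), RW φ (n + 1) i (!j) z' ∧ y ∉ (φ j).range ∧
      z = z' * PushoutI.of j y := by
  induction n generalizing i z with
  | zero =>
    rcases inv h with ⟨h1, -⟩ | ⟨m, x, z1, hm, hx, hz, rfl⟩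
    · omega
    · obtain rfl : m = 1 := by omega
      obtain ⟨hj, y, hy, rfl⟩ := one hz
      subst hj
      refine ⟨PushoutI.of i x, y, ?_, hy, rfl⟩
      rw [Bool.not_not]
      exact .single hx
  | succ n ih =>
    rcases inv h with ⟨h1, -⟩ | ⟨m, x, z1, hm, hx, hz, rfl⟩
    · omega
    · obtain rfl : m = n + 2 := by omega
      obtain ⟨z', y, h1, h2, h3⟩ := ih hz
      exact ⟨PushoutI.of i x * z', y, .cons hx h1, h2, by rw [h3, mul_assoc]⟩

/-- in the base group, or reduced of positive length -/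
def Nf (z : PushoutI φ) : Prop := z ∈ (PushoutI.base φ).range ∨ ∃ n i j, RW φ n i j z

theorem nf_base (b : C) {z : PushoutI φ} (h : Nf z) : Nf (PushoutI.base φ b * z) := by
  rcases h with h | ⟨n, i, j, h⟩
  · exact Or.inl (mul_mem ⟨b, rfl⟩ h)
  · exact Or.inr ⟨n, i, j, base_mul b h⟩

theorem nf_of (i : Bool) (x : A i) {z : PushoutI φ} (h : Nf z) : Nf (PushoutI.of i x * z) := by
  by_cases hx : x ∈ (φ i).range
  · obtain ⟨b, rfl⟩ := hx
    rw [PushoutI.of_apply_eq_base]
    exact nf_base b h
  rcases h with ⟨b, rfl⟩ | ⟨n, i', j, h⟩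
  · exact Or.inr ⟨1, i, i, mul_base b (.single hx)⟩
  by_cases hi : i' = !i
  · subst hi
    exact Or.inr ⟨n + 1, i, j, .cons hx h⟩
  have hi' : i' = i := by
    cases i <;> cases i' <;> simp_all
  subst hi'
  cases h with
  | @single _ y hy =>
    rw [← map_mul]
    by_cases hxy : x * y ∈ (φ i').range
    · obtain ⟨b, hb⟩ := hxy
      rw [← hb, PushoutI.of_apply_eq_base]
      exact Or.inl ⟨b, rfl⟩
    · exact Or.inr ⟨1, _, _, .single hxy⟩
  | @cons n _ _ y z hy hz =>
    rw [← mul_assoc, ← map_mul]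
    by_cases hxy : x * y ∈ (φ i').range
    · obtain ⟨b, hb⟩ := hxy
      rw [← hb, PushoutI.of_apply_eq_base]
      exact Or.inr ⟨n, _, _, base_mul b hz⟩
    · exact Or.inr ⟨n + 1, _, _, .cons hxy hz⟩

theorem nf (z : PushoutI φ) : Nf z := by
  have : ∀ x : PushoutI φ, ∀ z : PushoutI φ, Nf z → Nf (x * z) := by
    intro x
    induction x using PushoutI.induction_on with
    | of i g => exact fun z hz => nf_of i g hz
    | base h => exact fun z hz => nf_base h hz
    | mul x y hx hy =>
      intro z hz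
      rw [mul_assoc]
      exact hx _ (hy _ hz)
  have h := this z 1 (Or.inl (one_mem _))
  rwa [mul_one] at h

theorem conj_aux (hφ : ∀ i, Function.Injective (φ i)) (n : ℕ) :
    ∀ (i j : Bool) (z : PushoutI φ), RW φ n i j z → z * z = 1 →
      ∃ (d : PushoutI φ) (i : Bool) (x : A i), z = d * PushoutI.of i x * d⁻¹ := by
  induction n using Nat.strong_induction_on with
  | _ n ih =>
    intro i j z h hz
    have key : ∀ {n : ℕ} {i j : Bool} {z : PushoutI φ}, RW φ n i j z → z * z = 1 → j ≠ !i := by
      intro n i j z h hz hji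
      have h1 : RW φ (n + n) i j (z * z) := mul h (by
        have : (!j) = i := by rw [hji, Bool.not_not]
        rw [this]
        exact h)
      exact not_base hφ h1 (hz ▸ one_mem _)
    have hji := key h hz
    have hji' : j = i := by
      cases i <;> cases j <;> simp_all
    subst hji'
    rcases n with - | n
    · exact absurd (pos h) (by omega)
    rcases n with - | n
    · obtain ⟨-, x, hx, rfl⟩ := one h
      exact ⟨1, j, x, by simp⟩
    -- length at least two
    rcases inv h with ⟨h1, -⟩ | ⟨m, x, z1, hm, hx, hz1, rfl⟩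
    · omega
    · obtain rfl : m = n + 1 := by omega
      rcases n with - | n
      · exfalso
        have := (one hz1).1
        simp at this
      obtain ⟨z2, y, h2, hy, rfl⟩ := snoc hz1
      -- the conjugate element
      have e : PushoutI.of j x * (z2 * PushoutI.of j y) =
          PushoutI.of j x * (z2 * PushoutI.of j (y * x)) * (PushoutI.of j x)⁻¹ := by
        rw [map_mul]
        group
      have hz' : (z2 * PushoutI.of j (y * x)) * (z2 * PushoutI.of j (y * x)) = 1 := by
        rw [e] at hz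
        have : PushoutI.of j x * (z2 * PushoutI.of j (y * x)) * (PushoutI.of j x)⁻¹ *
            (PushoutI.of j x * (z2 * PushoutI.of j (y * x)) * (PushoutI.of j x)⁻¹) =
            PushoutI.of j x * ((z2 * PushoutI.of j (y * x)) * (z2 * PushoutI.of j (y * x))) *
            (PushoutI.of j x)⁻¹ := by group
        rw [this] at hz
        have h3 := congrArg (fun t => (PushoutI.of j x)⁻¹ * t * PushoutI.of j x) hz
        simpa [mul_assoc] using h3
      by_cases hyx : y * x ∈ (φ j).range
      · obtain ⟨b, hb⟩ := hyx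
        rw [← hb, PushoutI.of_apply_eq_base] at hz' e
        obtain ⟨d, i, t, hd⟩ := ih (n + 1) (by omega) _ _ _ (mul_base b h2) hz'
        refine ⟨PushoutI.of j x * d, i, t, ?_⟩
        rw [e, hd]
        group
      · exfalso
        have h4 : RW φ (n + 1 + 1) (!j) j (z2 * PushoutI.of j (y * x)) :=
          mul h2 (by rw [Bool.not_not]; exact .single hyx)
        have := key h4 hz'
        simp at this

/-- Elements of order two of an amalgam. -/
theorem conj (hφ : ∀ i, Function.Injective (φ i)) (z : PushoutI φ) (hz : z * z = 1) :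
    ∃ (d : PushoutI φ) (i : Bool) (x : A i), z = d * PushoutI.of i x * d⁻¹ := by
  rcases nf z with ⟨b, rfl⟩ | ⟨n, i, j, h⟩
  · exact ⟨1, true, φ true b, by simp [PushoutI.of_apply_eq_base]⟩
  · exact conj_aux hφ n i j z h hz

end Pool.Agent.Lib.MP8a3537.AR.PTOM
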