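import Pool.Agent.Lib.MP_8a3537_gt.AR.NW
import Pool.Agent.Lib.MP_8a3537_gt.AR.ELM
import Pool.Agent.Lib.MP_8a3537_gt.ROK.Main

/-!
# Classes of forms (MP_8a3537_gt, folder AR): the Newton step, removal of the flips, data (copy of ROK/NEI, STY, RMV, MNK)
-/

set_option autoImplicit false
set_option linter.unusedSectionVars false
set_option linter.unusedSimpArgs false

namespace Pool.Agent.Lib.MP8a3537.AR

open Matrix Pool.Agent.Lib.MP8a3537.UV Pool.Agent.Lib.MP8a3537.AU Pool.Agent.Lib.MP8a3537.RO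
open Pool.Agent.Lib.MP8a3537.ROK Pool.Agent.Lib.MP8a3537.LL

/-! ## From `ROK/NEI.lean` -/

open Matrix Pool.Agent.Lib.MP8a3537.UV Pool.Agent.Lib.MP8a3537.AU Pool.Agent.Lib.MP8a3537.RO

namespace NEIAuxP

variable {A : Type} [Ring A] [StarRing A]

theorem ee (ε : ℤˣ) {M N : Type} (X : Matrix M N A) : (ε : ℤ) • (ε : ℤ) • X = X := by
  rcases Int.units_eq_one_or ε with h | h <;> simp [h]

theorem es (ε : ℤˣ) {M N : Type} (X : Matrix M N A) : ((ε : ℤ) • X)ᴴ = (ε : ℤ) • Xᴴ := by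
  rcases Int.units_eq_one_or ε with h | h <;> simp [h]

theorem geo {n N : ℕ} (x : Matrix (Fin n) (Fin n) A) (hx : x ^ N = 0) :
    (1 - x) * (∑ i ∈ Finset.range N, x ^ i) = 1 ∧
      (∑ i ∈ Finset.range N, x ^ i) * (1 - x) = 1 := by
  constructor
  · rw [mul_neg_geom_sum, hx, sub_zero]
  · rw [geom_sum_mul_neg, hx, sub_zero]

theorem eps_pow (ε : ℤˣ) {n N : ℕ} (x : Matrix (Fin n) (Fin n) A) (hx : x ^ N = 0) :
    ((ε : ℤ) • x) ^ N = 0 := by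
  rcases Int.units_eq_one_or ε with h | h
  · simp [h, hx]
  · simp only [h, Units.val_neg, Units.val_one, neg_smul, one_smul]
    rw [neg_pow, hx, mul_zero]

/-- `(ψ, V; 0, 0)` is hyperbolic if `V` is invertible. -/
theorem iso1 (ε : ℤˣ) {n : ℕ} (ψ V T : Matrix (Fin n) (Fin n) A) (h1 : V * T = 1)
    (h2 : T * V = 1) :
    Isometric ε (fromBlocks ψ V 0 0) (UF (0 : Matrix (Fin n) (Fin n) A) 0 0) := by
  refine ⟨fromBlocks 1 0 (-(T * ψ)) T, fromBlocks 1 0 ψ V, 0, ?_, ?_, ?_⟩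
  · rw [fromBlocks_multiply]
    simp [h2, Matrix.one_mul, fromBlocks_one]
  · rw [fromBlocks_multiply]
    have h3 : V * (T * ψ) = ψ := by rw [← Matrix.mul_assoc, h1, Matrix.one_mul]
    simp [h1, h3, fromBlocks_one]
  · have h3 : V * (T * ψ) = ψ := by rw [← Matrix.mul_assoc, h1, Matrix.one_mul]
    unfold UF
    rw [fromBlocks_conjTranspose, Matrix.mul_assoc, fromBlocks_multiply, fromBlocks_multiply]
    simp [h1, h3]

/-- `(ψ, 1; 0, q)` and `(ψ, V; 0, q ψ q^*)`. -/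
theorem iso2 (ε : ℤˣ) {n : ℕ} (ψ q V : Matrix (Fin n) (Fin n) A)
    (hV : V = 1 - (ψ + (ε : ℤ) • ψᴴ) * qᴴ) :
    Isometric ε (UF ψ 0 q) (fromBlocks ψ V 0 (q * ψ * qᴴ)) := by
  refine ⟨fromBlocks 1 (-qᴴ) 0 1, fromBlocks 1 qᴴ 0 1, fromBlocks 0 0 (q * ψ) 0, ?_, ?_, ?_⟩
  · rw [fromBlocks_multiply]
    simp [fromBlocks_one]
  · rw [fromBlocks_multiply]
    simp [fromBlocks_one]
  · unfold UF
    rw [fromBlocks_conjTranspose, Matrix.mul_assoc, fromBlocks_multiply, fromBlocks_multiply,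
      fromBlocks_conjTranspose, fromBlocks_smul, fromBlocks_add, sub_eq_add_neg,
      fromBlocks_neg, fromBlocks_add]
    congr 1
    · simp
    · rw [hV]
      simp only [conjTranspose_one, conjTranspose_zero, conjTranspose_mul, Matrix.one_mul,
        Matrix.mul_one, Matrix.zero_mul, Matrix.mul_zero, Matrix.mul_neg, Matrix.add_mul,
        Matrix.smul_mul, add_zero, zero_add]
      abel
    · simp
    · simp only [conjTranspose_one, conjTranspose_zero, conjTranspose_neg,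
        conjTranspose_conjTranspose, Matrix.one_mul, Matrix.mul_one, Matrix.zero_mul,
        Matrix.mul_zero, Matrix.mul_neg, Matrix.neg_mul, Matrix.mul_add, add_zero, zero_add,
        smul_zero, neg_zero, neg_neg, neg_add_rev, Matrix.mul_assoc]
      abel

end NEIAuxP

open NEIAuxP

theorem specNEI (hSCH : SpecSCH) : SpecNEI := by
  intro A _ _ _ ε n N ψ q hN hst
  set a : Matrix (Fin n) (Fin n) A := ψ + (ε : ℤ) • ψᴴ with hadef
  have ha : aᴴ = (ε : ℤ) • a := by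
    rw [hadef, conjTranspose_add, es, conjTranspose_conjTranspose, smul_add, ee]
    abel
  set x : Matrix (Fin n) (Fin n) A := (ε : ℤ) • (q * a) with hxdef
  have hx : x ^ N = 0 := eps_pow ε _ hN
  obtain ⟨g1, g2⟩ := geo x hx
  set S : Matrix (Fin n) (Fin n) A := ∑ i ∈ Finset.range N, x ^ i with hSdef
  set V : Matrix (Fin n) (Fin n) A := (1 - x)ᴴ with hVdef
  have hVS : V * Sᴴ = 1 := by
    rw [hVdef, ← conjTranspose_mul, g2, conjTranspose_one]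
  have hSV : Sᴴ * V = 1 := by
    rw [hVdef, ← conjTranspose_mul, g1, conjTranspose_one]
  have hVH : Vᴴ = 1 - x := by rw [hVdef, conjTranspose_conjTranspose]
  have hV : V = 1 - (ψ + (ε : ℤ) • ψᴴ) * qᴴ := by
    rw [hVdef, hxdef, conjTranspose_sub, conjTranspose_one, es, conjTranspose_mul, ha,
      Matrix.smul_mul, ee]
  set Z : Matrix (Fin n) (Fin n) A := zet ε N q a with hZdef
  have hZ : Z = (ε : ℤ) • (S * q) := by
    rw [hZdef]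
    unfold zet
    rfl
  refine SWPP.stab_of_isom (iso2 ε ψ q V hV) ?_
  have hΞ : (fromCols (0 : Matrix (Fin n) (Fin n) A) qᴴ)ᴴ * ψ *
      fromCols (0 : Matrix (Fin n) (Fin n) A) qᴴ = fromBlocks 0 0 0 (q * ψ * qᴴ) := by
    rw [conjTranspose_fromCols_eq_fromRows_conjTranspose, fromRows_mul, fromRows_mul_fromCols]
    simp
  have hsum : fromBlocks ψ V 0 (q * ψ * qᴴ) = fromBlocks ψ V 0 0 +
      (fromCols (0 : Matrix (Fin n) (Fin n) A) qᴴ)ᴴ * ψ *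
        fromCols (0 : Matrix (Fin n) (Fin n) A) qᴴ := by
    rw [hΞ, fromBlocks_add]
    simp
  rw [hsum]
  have hL : fromBlocks ψ V 0 0 + (ε : ℤ) • (fromBlocks ψ V 0 0)ᴴ =
      fromBlocks a V ((ε : ℤ) • Vᴴ) 0 := by
    rw [fromBlocks_conjTranspose, fromBlocks_smul, fromBlocks_add]
    simp [hadef]
  have hY : fromBlocks 0 ((ε : ℤ) • S) Sᴴ (-((ε : ℤ) • (Sᴴ * a * S))) *
      (fromCols (0 : Matrix (Fin n) (Fin n) A) qᴴ)ᴴ = fromRows Z (-(Sᴴ * a * Z)) := by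
    rw [conjTranspose_fromCols_eq_fromRows_conjTranspose, fromBlocks_mul_fromRows, hZ]
    simp [Matrix.smul_mul, Matrix.mul_smul, Matrix.mul_assoc, -zsmul_eq_mul]
  refine hSCH A ε (Fin n ⊕ Fin n) (Fin n) (fromBlocks ψ V 0 0)
    (fromBlocks 0 ((ε : ℤ) • S) Sᴴ (-((ε : ℤ) • (Sᴴ * a * S))))
    (fromCols 0 qᴴ) ψ ?_ ?_ ?_ ?_
  · rw [hL, fromBlocks_multiply, ← fromBlocks_one]
    congr 1
    · simp [hVS]
    · have h3 : V * (Sᴴ * (a * S)) = a * S := by rw [← Matrix.mul_assoc, hVS, Matrix.one_mul]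
      rw [Matrix.mul_smul, Matrix.mul_neg, Matrix.mul_smul, Matrix.mul_assoc Sᴴ, h3,
        add_neg_cancel]
    · simp
    · rw [Matrix.zero_mul, add_zero, Matrix.smul_mul, Matrix.mul_smul, ee, hVH, g1]
  · rw [hL, fromBlocks_multiply, ← fromBlocks_one]
    congr 1
    · rw [Matrix.zero_mul, zero_add, Matrix.smul_mul, Matrix.mul_smul, ee, hVH, g2]
    · simp
    · rw [Matrix.neg_mul, Matrix.smul_mul, Matrix.mul_smul, ee, Matrix.mul_assoc, hVH, g2,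
        Matrix.mul_one, add_neg_cancel]
    · simp [hSV]
  · exact SWPP.stab_of_isom (iso1 ε ψ V Sᴴ hVS hSV) (SWPP.trivial_form n)
  · rw [hY]
    set Y : Matrix (Fin n ⊕ Fin n) (Fin n) A := fromRows Z (-(Sᴴ * a * Z)) with hYdef
    set Λ : Matrix (Fin n ⊕ Fin n) (Fin n ⊕ Fin n) A := fromBlocks ψ V 0 0 with hΛdef
    have h4 : Λ * Y = fromRows (-((ε : ℤ) • (ψᴴ * Z))) (0 : Matrix (Fin n) (Fin n) A) := by
      rw [hYdef, hΛdef, fromBlocks_mul_fromRows]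
      congr 1
      · have h3 : V * (Sᴴ * (a * Z)) = a * Z := by
          rw [← Matrix.mul_assoc, hVS, Matrix.one_mul]
        rw [Matrix.mul_neg, Matrix.mul_assoc Sᴴ, h3, hadef, Matrix.add_mul, Matrix.smul_mul]
        abel
      · simp
    have hκ : -(Yᴴ * Λ * Y) = (ε : ℤ) • (Zᴴ * ψᴴ * Z) := by
      rw [Matrix.mul_assoc, h4, hYdef, conjTranspose_fromRows_eq_fromCols_conjTranspose,
        fromCols_mul_fromRows, Matrix.mul_zero, add_zero, Matrix.mul_neg, neg_neg,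
        Matrix.mul_smul, Matrix.mul_assoc]
    rw [hκ]
    have h5 := SWPP.stab_of_isom (SWPP.change (ε := ε) ψ 0 (Zᴴ * ψ * Z) 0
      ((ε : ℤ) • (Zᴴ * ψᴴ * Z))) hst
    have h6 : UF (ψ + 0 - (ε : ℤ) • (0 : Matrix (Fin n) (Fin n) A)ᴴ) 0
        (Zᴴ * ψ * Z + (ε : ℤ) • (Zᴴ * ψᴴ * Z) - (ε : ℤ) • ((ε : ℤ) • (Zᴴ * ψᴴ * Z))ᴴ) =
        fromBlocks ψ 1 0 ((ε : ℤ) • (Zᴴ * ψᴴ * Z)) := by
      unfold UF
      rw [es, ee]
      simp only [conjTranspose_mul, conjTranspose_conjTranspose, conjTranspose_zero, smul_zero,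
        add_zero, sub_zero, Matrix.mul_assoc]
      congr 1
      abel
    rw [h6] at h5
    exact h5


/-! ## From `ROK/STY.lean` -/

open Matrix Pool.Agent.Lib.MP8a3537.UV Pool.Agent.Lib.MP8a3537.AU Pool.Agent.Lib.MP8a3537.RO

namespace STYAuxP

variable {R G : Type} [Ring R] [StarRing R] [Group G]

theorem key {n : ℕ} (ε : ℤˣ) (ψ : Matrix (Fin n) (Fin n) (MonoidAlgebra R G)) (i j : Fin n) (x : G)
    (h : ((ψ + (ε : ℤ) • ψᴴ) i j).coeff x ≠ 0) :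
    (ψ i j).coeff x ≠ 0 ∨ (ψ j i).coeff x⁻¹ ≠ 0 := by
  by_contra hc
  push Not at hc
  apply h
  rw [NWTAux.coeff_sym, hc.1, hc.2, star_zero, smul_zero, add_zero]

theorem supp_sym {X : Set G} (hi : ∀ x ∈ X, x⁻¹ ∈ X) (ε : ℤˣ) {n : ℕ}
    (ψ : Matrix (Fin n) (Fin n) (MonoidAlgebra R G)) (hψ : SuppIn X ψ) :
    SuppIn X (ψ + (ε : ℤ) • ψᴴ) := by
  intro i j x h
  rcases key ε ψ i j x h with h2 | h2
  · exact hψ i j x h2
  · have h3 := hi _ (hψ j i x⁻¹ h2)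
    rwa [inv_inv] at h3

theorem nf_sym {H : Subgroup G} (ε : ℤˣ) {n : ℕ}
    (ψ : Matrix (Fin n) (Fin n) (MonoidAlgebra R G))
    (hf : ∀ i j x, (ψ i j).coeff x ≠ 0 → ¬ Flip H x) :
    ∀ i j x, ((ψ + (ε : ℤ) • ψᴴ) i j).coeff x ≠ 0 → ¬ Flip H x := by
  intro i j x h
  rcases key ε ψ i j x h with h3 | h3
  · exact hf i j x h3
  · exact fun h4 => hf j i x⁻¹ h3 (NWTAux.flip_inv h4)

omit [StarRing R] [Group G] in
theorem supp_cut {X : Set G} (c : Set G) {n : ℕ} (b : Matrix (Fin n) (Fin n) (MonoidAlgebra R G))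
    (hb : SuppIn X b) : SuppIn {x | x ∈ c ∧ x ∈ X} (cutM c b) := by
  classical
  intro i j x h
  unfold cutM at h
  rw [Matrix.map_apply, cut_coeff] at h
  by_cases hx : x ∈ c
  · rw [if_pos hx] at h
    exact ⟨hx, hb i j x h⟩
  · rw [if_neg hx] at h
    exact absurd rfl h

omit [StarRing R] in
theorem supp_sub {X : Set G} {n : ℕ} (a b : Matrix (Fin n) (Fin n) (MonoidAlgebra R G))
    (ha : SuppIn X a) (hb : SuppIn X b) : SuppIn X (a - b) := by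
  intro i j x h
  by_contra hx
  apply h
  have h4 : (a i j).coeff x = 0 := by
    by_contra h5
    exact hx (ha i j x h5)
  have h6 : (b i j).coeff x = 0 := by
    by_contra h5
    exact hx (hb i j x h5)
  rw [Matrix.sub_apply, MonoidAlgebra.coeff_sub, Finsupp.sub_apply, h4, h6, sub_zero]

/-- the form `(ψ, 1; 0, 0)` -/
theorem sh_zero {A : Type} [Ring A] [StarRing A] [FC A] (ε : ℤˣ) {n : ℕ} (ψ : Matrix (Fin n) (Fin n) A) :
    SS ε (UF ψ 0 0) := by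
  refine (specSwpP A ε n ψ 0 0).1 ?_
  unfold UF
  have h := NWCMP.base (ε := ε) (0 : Matrix (Fin n) (Fin n) A) ψ (by simp)
  simpa using h

/-- change of `χ` by `c - ε cᴴ` -/
theorem change' {A : Type} [Ring A] [StarRing A] [FC A] (ε : ℤˣ) {n : ℕ} (ψ χ d : Matrix (Fin n) (Fin n) A)
    (h : SS ε (UF ψ 0 χ)) : SS ε (UF ψ 0 (χ + d - (ε : ℤ) • dᴴ)) := by
  have h1 := (specSwpP A ε n ψ 0 χ).2.1 0 d h
  simpa using h1

theorem eps_sq (ε : ℤˣ) : (ε : ℤ) * (ε : ℤ) = 1 := by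
  rcases Int.units_eq_one_or ε with h | h <;> simp [h]

/-- `M = - ε Mᴴ` gives `M = c - ε cᴴ` -/
theorem tat' {X : Set G} (hi : ∀ x ∈ X, x⁻¹ ∈ X) (hn : ∀ x ∈ X, x⁻¹ ≠ x) (ε : ℤˣ) {n : ℕ}
    (M : Matrix (Fin n) (Fin n) (MonoidAlgebra R G)) (hM : SuppIn X M)
    (h0 : M + (ε : ℤ) • Mᴴ = 0) : ∃ c : Matrix (Fin n) (Fin n) (MonoidAlgebra R G),
    M = c - (ε : ℤ) • cᴴ := by
  have h4 : M = ((-ε : ℤˣ) : ℤ) • Mᴴ := by
    rw [Units.val_neg, neg_smul]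
    exact eq_neg_of_add_eq_zero_left h0
  obtain ⟨c0, -, hc0⟩ := specTat R G X (-ε) n M hi hn hM h4
  refine ⟨c0, ?_⟩
  rw [Units.val_neg, neg_smul, ← sub_eq_add_neg] at hc0
  exact hc0

end STYAuxP

open STYAuxP

theorem specSTY (hEFA : RO.SpecEFA) (hDRC : SpecDRC) (hHLK : SpecHLK) (hNEI : SpecNEI)
    (hNEN : SpecNEN) (hNES : SpecNES) : SpecSTY := by
  intro R G _ _ _ _ L g Xb Yp Ym hP ε n N hN ψ χ hψ hχ hnil hf hW
  have ha : SuppIn (La L g) (ψ + (ε : ℤ) • ψᴴ) := supp_sym hP.X1i ε ψ hψ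
  have hb : SuppIn Xb (χ + (ε : ℤ) • χᴴ) := supp_sym hP.X2i ε χ hχ
  obtain ⟨c, hc, hci, hbc⟩ := hHLK R G L ε n (χ + (ε : ℤ) • χᴴ) (NWTAux.sym_symm ε χ)
    (nf_sym ε χ hf)
  set q := cutM c (χ + (ε : ℤ) • χᴴ) with hq
  set W : Set G := {x | x ∈ c ∧ x ∈ Xb} with hWdef
  have hHf : Hf L Xb W := by
    refine ⟨fun x hx => hx.2, ⟨?_, ?_⟩, fun x hx hx' => hci x hx.1 hx'.1⟩
    · intro h hh x hx
      exact ⟨hc.1 h hh x hx.1, hP.X2l h hh x hx.2⟩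
    · intro h hh x hx
      exact ⟨hc.2 h hh x hx.1, hP.X2r h hh x hx.2⟩
  have hqW : SuppIn W q := supp_cut c _ hb
  have hqX : SuppIn Xb q := fun i j x h => (hqW i j x h).2
  -- the reduction to `q`
  obtain ⟨c0, hc0⟩ := tat' hP.X2i hP.X2n ε (χ - q) (supp_sub χ q hχ hqX) (by
    rw [conjTranspose_sub, smul_sub]
    have h1 : χ - q + ((ε : ℤ) • χᴴ - (ε : ℤ) • qᴴ) =
        (χ + (ε : ℤ) • χᴴ) - (q + (ε : ℤ) • qᴴ) := by abel
    rw [h1, ← hbc, sub_self])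
  have hχq : χ = q + c0 - (ε : ℤ) • c0ᴴ := by
    rw [add_sub_assoc, ← hc0]
    abel
  rw [hχq]
  refine change' ε ψ q c0 ?_
  -- the family
  obtain ⟨hE, hlet, hblk⟩ := hEFA R G L (La L g) Xb ∅ Yp Ym hP.toPingPong ε n (ψ + (ε : ℤ) • ψᴴ) 0
    (χ + (ε : ℤ) • χᴴ) ha (fun i j x h => (h rfl).elim) hb
    (NWTAux.sym_symm ε ψ) (NWTAux.sym_symm ε χ) N hnil
  have h1 : ψ + (ε : ℤ) • ψᴴ ∈
      EE L (nu ε (ψ + (ε : ℤ) • ψᴴ) 0 (χ + (ε : ℤ) • χᴴ)) 1 false true := hblk false true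
  have h3 : cutM c ((ε : ℤ) • (χ + (ε : ℤ) • χᴴ)) ∈
      EE L (nu ε (ψ + (ε : ℤ) • ψᴴ) 0 (χ + (ε : ℤ) • χᴴ)) 1 true false := hlet true false c hc
  have h4 : q ∈ EE L (nu ε (ψ + (ε : ℤ) • ψᴴ) 0 (χ + (ε : ℤ) • χᴴ)) 1 true false := by
    rw [NWTAux.cutM_zsmul] at h3
    have h5 := AddSubgroup.zsmul_mem _ h3 (ε : ℤ)
    rwa [smul_smul, eps_sq, one_smul] at h5
  obtain ⟨k1, k2, k3⟩ := hNEN (MonoidAlgebra R G) ε n N _ hE hN _ h1 _ h4
  refine hNEI (MonoidAlgebra R G) ε n N ψ q k1 ?_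
  have hsupp := hNES R G (La L g) W ε n N ψ (ψ + (ε : ℤ) • ψᴴ) q hψ ha hqW
  have hsym : ∀ Z : Matrix (Fin n) (Fin n) (MonoidAlgebra R G),
      Zᴴ * ψ * Z + (ε : ℤ) • (Zᴴ * ψ * Z)ᴴ = Zᴴ * (ψ + (ε : ℤ) • ψᴴ) * Z := by
    intro Z
    rw [conjTranspose_mul, conjTranspose_mul, conjTranspose_conjTranspose, Matrix.mul_add,
      Matrix.add_mul, Matrix.mul_smul, Matrix.smul_mul, Matrix.mul_assoc Zᴴ ψᴴ Z]
  rcases le_total N 3 with hN3 | hN3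
  · have hD := hDRC G L g Xb Yp Ym W hP hHf
    obtain ⟨c1, hc1⟩ := tat' hD.X2i hD.X2n ε _ hsupp (by
      rw [hsym]
      exact k2 hN3)
    have h6 := change' ε ψ 0 c1 (sh_zero ε ψ)
    rw [zero_add, ← hc1] at h6
    exact h6
  · refine hW W hHf hN3 _ hsupp ?_
    rw [hsym]
    exact k3 hN3


/-! ## From `ROK/RMV.lean` -/

open Matrix Pool.Agent.Lib.MP8a3537.UV Pool.Agent.Lib.MP8a3537.AU Pool.Agent.Lib.MP8a3537.RO

namespace RMVAuxP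

open ELMAux

variable {R G : Type} [Ring R] [StarRing R] [Group G]

theorem supp_sym {X : Set G} (hX : ∀ x ∈ X, x⁻¹ ∈ X) (ε : ℤˣ) {n : ℕ}
    {ψ : Matrix (Fin n) (Fin n) (MonoidAlgebra R G)} (hψ : SuppIn X ψ) :
    SuppIn X (ψ + (ε : ℤ) • ψᴴ) := by
  intro i j x hx
  rw [Matrix.add_apply, MonoidAlgebra.coeff_add, Finsupp.add_apply] at hx
  by_cases h1 : (ψ i j).coeff x = 0
  · rw [h1, zero_add, Matrix.smul_apply, conjTranspose_apply] at hx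
    have h2 : (star (ψ j i)).coeff x ≠ 0 := by
      intro h0
      apply hx
      rcases unit_cases ε (star (ψ j i)) with h | h
      · rw [h, h0]
      · rw [h, MonoidAlgebra.coeff_neg, Finsupp.neg_apply, h0, neg_zero]
    rw [star_coeff] at h2
    have h3 : (ψ j i).coeff x⁻¹ ≠ 0 := by
      intro h0
      apply h2
      rw [h0, star_zero]
    have := hX _ (hψ j i _ h3)
    simpa using this
  · exact hψ i j x h1

/-- The nilpotency index does not grow. -/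
theorem index (hEFA : RO.SpecEFA) (hKNA : RO.SpecKNA) {H : Subgroup G} {X1 X2 X3 Yp Ym : Set G}
    (hP : PingPong H X1 X2 X3 Yp Ym) (ε : ℤˣ) {n N : ℕ} (hN : 1 ≤ N)
    {ψ μ χ : Matrix (Fin n) (Fin n) (MonoidAlgebra R G)} (hψ : SuppIn X1 ψ) (hμ : SuppIn X3 μ)
    (hχ : SuppIn X2 χ) (hnil : (nu ε (ψ + (ε : ℤ) • ψᴴ) μ (χ + (ε : ℤ) • χᴴ)) ^ N = 0) {g : G}
    (hgg : g * g ∈ H) :
    (nu ε (cutM (dc H g)ᶜ ψ + (ε : ℤ) • (cutM (dc H g)ᶜ ψ)ᴴ) μ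
      (χ + (ε : ℤ) • χᴴ)) ^ N = 0 := by
  set a := ψ + (ε : ℤ) • ψᴴ with ha
  set b := χ + (ε : ℤ) • χᴴ with hb
  have hsa : SuppIn X1 a := supp_sym hP.X1i ε hψ
  have hsb : SuppIn X2 b := supp_sym hP.X2i ε hχ
  obtain ⟨hE, hcut, hblk⟩ := hEFA R G H X1 X2 X3 Yp Ym hP ε n a μ b hsa hμ hsb (herm ε ψ)
    (herm ε χ) N hnil
  have hcs : ∀ x ∈ dc H g, x⁻¹ ∈ dc H g := fun x hx => dc_inv H g hgg hx
  have hcs' : ∀ x ∈ (dc H g)ᶜ, x⁻¹ ∈ (dc H g)ᶜ := by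
    intro x hx hc
    apply hx
    have := hcs _ hc
    simpa using this
  have ha0 : cutM (dc H g)ᶜ a = cutM (dc H g)ᶜ ψ + (ε : ℤ) • (cutM (dc H g)ᶜ ψ)ᴴ := by
    rw [ha, cutM_add, cutM_smul, cutM_star _ hcs']
  have e1 : cutM (dc H g)ᶜ a ∈ EE H (nu ε a μ b) 1 false true := by
    have := hcut false true _ (bi_compl H g)
    rwa [blk_ft] at this
  have e2 : cutM (dc H g) a ∈ EE H (nu ε a μ b) 1 false true := by
    have := hcut false true _ (bi_dc H g)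
    rwa [blk_ft] at this
  have e3 : μ ∈ EE H (nu ε a μ b) 1 true true := by
    have := hblk true true
    rwa [blk_tt] at this
  have e4 : b ∈ EE H (nu ε a μ b) 1 true false := by
    have h1 := hblk true false
    rw [blk_tf] at h1
    have h2 := AddSubgroup.zsmul_mem _ h1 (ε : ℤ)
    rwa [smul_smul_self] at h2
  obtain ⟨hn0, -⟩ := hKNA (MonoidAlgebra R G) ε n n N _ hE hN _ _ _ _ e1 e2 e3 e4
  rwa [ha0] at hn0

end RMVAuxP

open RMVAuxP in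
theorem specRMV (hEFA : RO.SpecEFA) (hKNA : RO.SpecKNA) (hELM : SpecELM) : SpecRMV := by
  intro R G _ _ _ _ H X1 X2 X3 Yp Ym hP hblk ε n N hN ψ μ χ hψ hμ hχ hnil hfin
  have main : ∀ (m : ℕ) (ψ : Matrix (Fin n) (Fin n) (MonoidAlgebra R G)), SuppIn X1 ψ →
      (nu ε (ψ + (ε : ℤ) • ψᴴ) μ (χ + (ε : ℤ) • χᴴ)) ^ N = 0 → ROTAux.fl H ψ = m →
      SS ε (UF ψ μ χ) := by
    intro m
    induction m using Nat.strong_induction_on with
    | _ m ih =>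
      intro ψ hψ hnil hm
      by_cases h1 : ∀ i j x, (ψ i j).coeff x ≠ 0 → ¬ Flip H x
      · exact hfin ψ hψ h1 hnil
      · push Not at h1
        obtain ⟨i, j, x, hx, hf⟩ := h1
        obtain ⟨h, hh, hgg, hxd⟩ := ROTAux.exists_flip hf
        have hxX : x ∈ X1 := hψ i j x hx
        have hgX : x * h ∈ X1 := hP.X1r h hh x hxX
        obtain ⟨hS, hB⟩ := hblk (x * h) hgX hgg
        obtain ⟨-, h2⟩ := hELM R G H X1 X2 X3 Yp Ym hP ε n ψ μ χ hψ hμ hχ ⟨N, hnil⟩ (x * h) hgX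
          hgg hS (fun r ψ' κ hψ' hκ hn => hB ε r ψ' κ hψ' hκ hn)
        apply h2
        exact ih _ (hm ▸ ROTAux.fl_cut_lt H ψ _ hx hf (fun hc => hc hxd)) _
          (ROTAux.supp_cut hψ) (index hEFA hKNA hP ε hN hψ hμ hχ hnil hgg) rfl
  exact main _ ψ hψ hnil rfl


/-! ## From `ROK/MNK.lean` -/

open Matrix Pool.Agent.Lib.MP8a3537.UV Pool.Agent.Lib.MP8a3537.AU Pool.Agent.Lib.MP8a3537.RO

namespace MNKAuxP

/-- The hypothesis of RMV. -/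
theorem blocks (hSBK : SpecSBK) (hBLK : SpecBLK) (hBLG : SpecBLG) {R G V : Type} [Ring R]
    [StarRing R] [Group G] [FC (MonoidAlgebra R G)] [MulAction G V] {d : V → V → ℕ} (hd : TM G d) {H : Subgroup G}
    {X1 X2 X3 Yp Ym : Set G} {x1 x2 : V} (P : PPK H X1 X2 X3 Yp Ym)
    (hG : Geo d H X1 X2 X3 x1 x2) (hS : ∀ g ∈ X1, g * g ∈ H → SE R G d x1 (g • x1)) :
    ∀ g ∈ X1, g * g ∈ H → Sub1 H X1 X2 X3 Yp Ym {x | x ∈ X1 ∧ x ∉ dc H g} ∧
      Blk R (La (Kg H g) g) (BX H X1 X2 X3 g) := by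
  intro g hg hgg
  obtain ⟨-, -, -, h4, -⟩ := hSBK G H X1 X2 X3 Yp Ym P.toPingPong g hg hgg
  obtain ⟨b1, b2, -⟩ := hBLG G V d hd H X1 X2 X3 Yp Ym x1 x2 P.toPingPong hG g hg hgg
  exact ⟨h4, hS g hg hgg (Kg H g) g (BX H X1 X2 X3 g) _ _
    (hBLK G H X1 X2 X3 Yp Ym P g hg hgg) b1 rfl b2⟩

end MNKAuxP

/-- **Module MNK**: the theorem for data. -/
theorem specMNK (hNWT : SpecNWT) (hSBK : SpecSBK) (hBLK : SpecBLK) (hSYK : SpecSYK)
    (hBLG : SpecBLG) (hRMV : SpecRMV) : SpecMNK := by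
  intro R G V _ _ _ _ _ d hd H X1 X2 X3 Yp Ym x1 x2 P hG hS1 hS2 ε n ψ μ χ hψ hμ hχ hnil
  obtain ⟨l, hl⟩ := hnil
  obtain ⟨N, hN⟩ : ∃ N, N = l + 1 := ⟨_, rfl⟩
  have hN1 : 1 ≤ N := by omega
  have hνN : (nu ε (ψ + (ε : ℤ) • ψᴴ) μ (χ + (ε : ℤ) • χᴴ)) ^ N = 0 := by
    rw [hN, pow_succ, hl, zero_mul]
  obtain ⟨s1, s2, -, -⟩ := hSYK G H X1 X2 X3 Yp Ym
  have P' := s1 P
  have hG' := s2 V d x1 x2 hG
  have hμs : SuppIn (Xinv X3) μᴴ := INDAux.supp_star hμ (fun y hy => by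
    change y⁻¹⁻¹ ∈ X3
    rw [inv_inv]
    exact hy)
  refine hRMV R G H X1 X2 X3 Yp Ym P.toPingPong
    (MNKAuxP.blocks hSBK hBLK hBLG hd P hG hS1) ε n N hN1 ψ μ χ hψ hμ hχ hνN ?_
  intro ψ0 hψ0 hfl0 hν0
  apply (specSwpP (MonoidAlgebra R G) ε n ψ0 μ χ).1
  refine hRMV R G H X2 X1 (Xinv X3) Ym Yp P'.toPingPong
    (MNKAuxP.blocks hSBK hBLK hBLG hd P' hG' hS2) ε n N hN1 χ μᴴ ψ0 hχ hμs hψ0
    (INDAux.swap_zero ε _ _ _ N hν0) ?_
  intro χ0 hχ0 hfl1 hν1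
  exact hNWT R G H X2 X1 (Xinv X3) Ym Yp P'.toPingPong ε n χ0 μᴴ ψ0 hχ0 hμs hψ0 ⟨N, hν1⟩ hfl1 hfl0


end Pool.Agent.Lib.MP8a3537.AR
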