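import Pool.Agent.Lib.MP_8a3537_gt.AR.FC
import Pool.Agent.Lib.MP_8a3537_gt.LL.Spec

/-!
# Classes of forms (MP_8a3537_gt, folder AR): the Specs of RO, ROK, LL for a class of forms (helper76)

These are the statements of the folders RO, ROK, LL (helper28 and others) with an arbitrary class `SS` of forms
(`AR/FC.lean`) instead of `StablyHyperbolic`. The proofs are the same.
-/

set_option autoImplicit false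
set_option linter.unusedSectionVars false
set_option linter.unusedSimpArgs false

namespace Pool.Agent.Lib.MP8a3537.AR

open Matrix Pool.Agent.Lib.MP8a3537.UV Pool.Agent.Lib.MP8a3537.AU Pool.Agent.Lib.MP8a3537.RO
open Pool.Agent.Lib.MP8a3537.ROK Pool.Agent.Lib.MP8a3537.LL

/-- The theorem on a single block. -/
def Blk (R : Type) {G : Type} [Ring R] [StarRing R] [Group G]
    [FC (MonoidAlgebra R G)] (Xa Xb : Set G) : Prop :=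
  ∀ (ε : ℤˣ) (n : ℕ) (ψ χ : Matrix (Fin n) (Fin n) (MonoidAlgebra R G)), SuppIn Xa ψ →
    SuppIn Xb χ → IsNilpotent (nu ε (ψ + (ε : ℤ) • ψᴴ) 0 (χ + (ε : ℤ) • χᴴ)) →
    SS ε (UF ψ 0 χ)

/-- The theorem for all data of block type with the ends `x1`, `x2`. -/
def SE (R G : Type) {V : Type} [Ring R] [StarRing R] [Group G]
    [FC (MonoidAlgebra R G)] [MulAction G V] (d : V → V → ℕ)
    (x1 x2 : V) : Prop :=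
  ∀ (L : Subgroup G) (g : G) (Xb Yp Ym : Set G), PPK L (La L g) Xb ∅ Yp Ym →
    Geo d L (La L g) Xb ∅ x1 x2 → g • x1 = x2 → g • x2 = x1 → Blk R (La L g) Xb

/-- **SWP** (size 120): exchange of the two summands, change of `ψ`, `χ` by `c - ε c^*`, and the
trivial form.

PROOF. (a) exchange the coordinates and multiply one of them by `ε`: `(ψ, 1 + μ^*; 0, χ)` becomes
`(χ, 0; ε (1 + μ^*), ψ)`, and modulo `Z - ε Z^*` the entry `ε (1 + μ^*)` at `(2,1)` is the entry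
`1 + μ = ε (ε (1 + μ^*))^*` at `(1,2)`. (b) `Z = diag(c, d)`. (c) `UF 0 0 0 = hyp`; transitivity. -/
def SpecSWPP : Prop :=
  ∀ (A : Type) [Ring A] [StarRing A] [FC A] (ε : ℤˣ) (n : ℕ) (ψ μ χ : Matrix (Fin n) (Fin n) A),
    (SS ε (UF χ μᴴ ψ) → SS ε (UF ψ μ χ)) ∧
    (∀ c d : Matrix (Fin n) (Fin n) A, SS ε (UF ψ μ χ) →
      SS ε (UF (ψ + c - (ε : ℤ) • cᴴ) μ (χ + d - (ε : ℤ) • dᴴ))) ∧
    SS ε (UF (0 : Matrix (Fin n) (Fin n) A) 0 0)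

/-- **NWC** (size 250): Newton iteration (paper LEMMA 2, CLAIM).

PROOF. Claim for all `k ≥ 1` by induction on `N - k`: for all `p ∈ E k false true`, `m ∈ E 1 false false`,
`q ∈ E 1 true false` the form `(p, 1 + m; 0, q)` is stably hyperbolic. `k ≥ N`: `p = 0` (`mono`, `zero`).
`1 + m` is invertible: `m^i ∈ E i`, so `m^N = 0` (or `N = 0` and everything is `0`). `u = diag(1, (1 + m)⁻¹)`
gives `(0, 1; 0, q')`, and `u = (1, z; 0, 1)`: `uᴴ (0, 1; 0, q') u = (0, 1; 0, zᴴ + q')`, so with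
`z = -q'ᴴ` this is `(0, 1; 0, 0) = hyp`. Step:
`u = (1, 0; -p, 1)` (invertible): `uᴴ (p, 1 + m; 0, q) u = (-m p + pᴴ q p, 1 + m - pᴴ q; -q p, q)`, and modulo
`Z - ε Zᴴ` (`Z = (0, 0; q p, 0)`) this is `(-m p + pᴴ q p, 1 + (m - pᴴ (q + ε qᴴ)); 0, q)`. The types:
`pᴴ ∈ E k false true`, `qᴴ ∈ E 1 true false`; `m p ∈ E (k+1) false true`, `pᴴ q p ∈ E (2k+1) false true`,
`pᴴ q ∈ E (k+1) false false ≤ E 1 false false`. -/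
def SpecNWC : Prop :=
  ∀ (A : Type) [Ring A] [StarRing A] [FC A] (ε : ℤˣ) (n N : ℕ)
    (E : ℕ → Bool → Bool → AddSubgroup (Matrix (Fin n) (Fin n) A)), EFam E N →
    ∀ p ∈ E 1 false true, ∀ m ∈ E 1 false false, ∀ q ∈ E 1 true false,
      SS ε (fromBlocks p (1 + m) 0 q)

/-- **NWT** (size 150, deps `SpecEFA`, `SpecNWC`, `SpecHLF`; imports `UV/TAT`, `UV/SWP`): no flips.

PROOF. `a = ψ + ε ψᴴ`: if `a i j` is not `0` at `x` then `ψ i j` is not `0` at `x` or `ψ j i` at `x⁻¹`;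
`Flip H x ↔ Flip H x⁻¹`. HLF: `a = p + ε pᴴ`, `b = q + ε qᴴ`, `p = cutM c a`, `q = cutM c' b`. EFA:
`p ∈ EE 1 false true`, `μᴴ ∈ EE 1 false false`, `ε • q = cutM c' (ε • b) ∈ EE 1 true false`. NWC:
`UF p μ q` is stably hyperbolic. `ψ - p`, `χ - q` are supported in `X1`, `X2`, and
`(ψ - p) + ε (ψ - p)ᴴ = 0`: TAT (`δ = -ε`): `ψ = p + c0 - ε c0ᴴ`; SWP (2). -/
def SpecNWT : Prop :=
  ∀ (R G : Type) [Ring R] [StarRing R] [Group G]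
    [FC (MonoidAlgebra R G)] (H : Subgroup G) (X1 X2 X3 Yp Ym : Set G),
    PingPong H X1 X2 X3 Yp Ym → ∀ (ε : ℤˣ) (n : ℕ)
    (ψ μ χ : Matrix (Fin n) (Fin n) (MonoidAlgebra R G)), SuppIn X1 ψ → SuppIn X3 μ →
    SuppIn X2 χ → IsNilpotent (nu ε (ψ + (ε : ℤ) • ψᴴ) μ (χ + (ε : ℤ) • χᴴ)) →
    (∀ i j x, (ψ i j).coeff x ≠ 0 → ¬ Flip H x) → (∀ i j x, (χ i j).coeff x ≠ 0 → ¬ Flip H x) →
    SS ε (UF ψ μ χ)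

/-- **SCH** (size 300): elimination (paper LEMMA 3).

PROOF. Index set `M ⊕ (N ⊕ N)`, `F = (Λ, 0, -Ξᴴ; 0, ψ', 1; 0, 0, 0)`. `α = ψ' + ε ψ'ᴴ`.
(1) `u1 = (1, 0, 0; Ξ, 1, 0; -α Ξ, 0, 1)`: modulo `Z - ε Zᴴ`, `u1ᴴ F u1 = (Λ + Ξᴴ ψ' Ξ) ⊕ (ψ', 1; 0, 0)`:
`u1ᴴ F u1 = (Λ + Ξᴴ ψ' Ξ + (Ξᴴ α Ξ - Ξᴴ α Ξ), Ξᴴ ψ', 0; ψ' Ξ - α Ξ, ψ', 1; 0, 0, 0)`, and `ψ' Ξ - α Ξ = -ε ψ'ᴴ Ξ`
at `(2,1)` cancels `Ξᴴ ψ'` at `(1,2)` (`Z = (0, Ξᴴ ψ'; 0, 0)` up to sign). And `(ψ', 1; 0, 0) ≅ (0, 1; 0, 0)` by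
`(1, 0; -ψ', 1)`. So `F ≅ (Λ + Ξᴴ ψ' Ξ) ⊕ hyp N`.
(2) `Zm = Φi Ξᴴ`, `u2 = (1, 0, Zm; 0, 1, 0; 0, 0, 1)`: modulo `Z - ε Zᴴ`,
`u2ᴴ F u2 = Λ ⊕ (ψ', 1; 0, κ)`, `κ = -Zmᴴ Λ Zm`: the entries `(1,3)`: `Λ Zm - Ξᴴ`, `(3,1)`: `Zmᴴ Λ`, together
`(Λ + ε Λᴴ) Zm - Ξᴴ = 0`; `(3,3)`: `Zmᴴ Λ Zm - Zmᴴ Ξᴴ = Zmᴴ Λ Zm - Zmᴴ (Λ + ε Λᴴ) Zm = -ε Zmᴴ Λᴴ Zm`, which is
`-Zmᴴ Λ Zm` modulo `Z - ε Zᴴ`.
So `(Λ + Ξᴴ ψ' Ξ) ⊕ hyp N ≅ Λ ⊕ (ψ', 1; 0, κ)` (`Isometric` is symmetric, transitive, compatible with sums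
and reindexing: see the auxiliary lemmas of `UV/EMV`, `UV/SWP`, `AU/GDS`); the right side is stably
hyperbolic as the sum of two such forms, so the left side is. -/
def SpecSCH : Prop :=
  ∀ (A : Type) [Ring A] [StarRing A] [FC A] (ε : ℤˣ) (M N : Type) [Fintype M] [DecidableEq M] [Fintype N]
    [DecidableEq N] (Λ Φi : Matrix M M A) (Ξ : Matrix N M A) (ψ' : Matrix N N A),
    (Λ + (ε : ℤ) • Λᴴ) * Φi = 1 → Φi * (Λ + (ε : ℤ) • Λᴴ) = 1 → SS ε Λ →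
    SS ε (fromBlocks ψ' 1 0 (-((Φi * Ξᴴ)ᴴ * Λ * (Φi * Ξᴴ)))) →
    SS ε (Λ + Ξᴴ * ψ' * Ξ)

/-- **SCU** (size 200, dep `SpecSCH`): elimination for `UF`.

PROOF. `ν = nu ε (ψ + ε ψᴴ) μ (χ + ε χᴴ)`, `w = W0 N ν`: `w (1 + ν) = 1 = (1 + ν) w` (geometric sum).
`Λ = UF ψ μ χ`, `Λ + ε Λᴴ = J (1 + ν)`, `J = (0, 1; ε, 0)`, `J⁻¹ = Ji = (0, ε; 1, 0)`; `Φi = w Ji`.
`Ξ' = fromCols Ξ 0 : r × (n ⊕ n)`: `Φi Ξ'ᴴ = w (0; Ξᴴ) = (blk w true false * Ξᴴ; blk w false false * Ξᴴ)`, so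
`-(Φi Ξ'ᴴ)ᴴ Λ (Φi Ξ'ᴴ) = kap ψ μ χ w Ξ`, `Λ + Ξ'ᴴ ψ' Ξ' = UF (ψ + Ξᴴ ψ' Ξ) μ χ`, `UF ψ' 0 κ = (ψ', 1; 0, κ)`. SCH.
Second part: `κ + ε κᴴ = -Zmᴴ (Λ + ε Λᴴ) Zm = -Zmᴴ Ξ'ᴴ = -(Ξ' Zm)ᴴ = -(Ξ (blk w true false) Ξᴴ)ᴴ`. -/
def SpecSCU : Prop :=
  ∀ (A : Type) [Ring A] [StarRing A] [FC A] (ε : ℤˣ) (n r N : ℕ) (ψ μ χ : Matrix (Fin n) (Fin n) A)
    (Ξ : Matrix (Fin r) (Fin n) A) (ψ' : Matrix (Fin r) (Fin r) A),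
    (nu ε (ψ + (ε : ℤ) • ψᴴ) μ (χ + (ε : ℤ) • χᴴ)) ^ N = 0 →
    (SS ε (UF ψ μ χ) →
      SS ε (UF ψ' 0
        (kap ψ μ χ (W0 N (nu ε (ψ + (ε : ℤ) • ψᴴ) μ (χ + (ε : ℤ) • χᴴ))) Ξ)) →
      SS ε (UF (ψ + Ξᴴ * ψ' * Ξ) μ χ)) ∧
    kap ψ μ χ (W0 N (nu ε (ψ + (ε : ℤ) • ψᴴ) μ (χ + (ε : ℤ) • χᴴ))) Ξ +
      (ε : ℤ) • (kap ψ μ χ (W0 N (nu ε (ψ + (ε : ℤ) • ψᴴ) μ (χ + (ε : ℤ) • χᴴ))) Ξ)ᴴ =
      -(Ξ * (blk (W0 N (nu ε (ψ + (ε : ℤ) • ψᴴ) μ (χ + (ε : ℤ) • χᴴ))) true false)ᴴ * Ξᴴ)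

/-- **ELM** (size 250, deps `SpecEFA`, `SpecFAC`, `SpecSCU`, `SpecKNA`, `SpecKSP`): the elimination.

PROOF (paper LEMMA 5). `c = dc H g` is biinvariant and inverse closed (`g² ∈ H`), `ψc = cutM c ψ`,
`ψ0 = cutM cᶜ ψ`, `ψ = ψ0 + ψc`. `a = ψ + ε ψᴴ`, `ac = ψc + ε ψcᴴ = cutM c a`, `a0 = ψ0 + ε ψ0ᴴ = cutM cᶜ a`. `N ≥ 1`
with `(nu ε a μ b) ^ N = 0`. EFA: `a0, ac ∈ E 1 false true`, `μ ∈ E 1 true true`, `b ∈ E 1 true false`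
(`ε • (ε • b)`). KNA: `(nu ε a0 μ b) ^ N = 0`. FAC for `ψc`: `Ξ`, `ψ'`; `α = ψ' + ε ψ'ᴴ`, `Ξᴴ α Ξ = ac`. SCU for
`ψ0`: `κ = kap ..`, `κ + ε κᴴ = -(Ξ wᴴ Ξᴴ)`; KSP with `X1' = {x ∈ X1 | x ∉ c}`: `supp κ`; KNA: nilpotent. So
`UF ψ' 0 κ` is stably hyperbolic by the hypothesis `hB` (`{x | x = g} ⊆ {l g}`). SCU: done
(`ψ0 + Ξᴴ ψ' Ξ = ψ`). The hypothesis `Sub1` for `X1'` is given as `hS`. -/
def SpecELM : Prop :=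
  ∀ (R G : Type) [Ring R] [StarRing R] [Group G]
    [FC (MonoidAlgebra R G)] (H : Subgroup G) (X1 X2 X3 Yp Ym : Set G),
    PingPong H X1 X2 X3 Yp Ym → ∀ (ε : ℤˣ) (n : ℕ)
    (ψ μ χ : Matrix (Fin n) (Fin n) (MonoidAlgebra R G)), SuppIn X1 ψ → SuppIn X3 μ →
    SuppIn X2 χ → IsNilpotent (nu ε (ψ + (ε : ℤ) • ψᴴ) μ (χ + (ε : ℤ) • χᴴ)) →
    ∀ g ∈ X1, g * g ∈ H → Sub1 H X1 X2 X3 Yp Ym {x | x ∈ X1 ∧ x ∉ dc H g} →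
    (∀ (r : ℕ) (ψ' κ : Matrix (Fin r) (Fin r) (MonoidAlgebra R G)),
      SuppIn {x | ∃ l ∈ Kg H g, x = l * g} ψ' →
      SuppIn (WS H {x | x ∈ X1 ∧ x ∉ dc H g} X2 X3 true false) κ →
      IsNilpotent (nu ε (ψ' + (ε : ℤ) • ψ'ᴴ) 0 (κ + (ε : ℤ) • κᴴ)) →
      SS ε (UF ψ' 0 κ)) →
    IsNilpotent (nu ε (cutM (dc H g)ᶜ ψ + (ε : ℤ) • (cutM (dc H g)ᶜ ψ)ᴴ) μ
      (χ + (ε : ℤ) • χᴴ)) ∧
    (SS ε (UF (cutM (dc H g)ᶜ ψ) μ χ) → SS ε (UF ψ μ χ))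

/-- **RMV** (size 250, deps `RO.SpecEFA`, `RO.SpecKNA`, `SpecELM`; imports `RO/ROT`, `RO/ELM` for the auxiliary lemmas): removal of the
flips in `ψ`, with the same nilpotency index.

PROOF. Strong induction on `ROTAux.fl H ψ` (for all `ψ`). No flips: the hypothesis. Otherwise `x ∈ supp (ψ i j)`, `Flip H x`:
`ROTAux.exists_flip`: `g = x h ∈ X1`, `g g ∈ H`, `x ∈ dc H g`. ELM with the hypotheses (`La`, `BX` are the sets of ELM): it suffices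
that `UF ψ0 μ χ` is stably hyperbolic, `ψ0 = cutM (dc H g)ᶜ ψ`; `fl ψ0 < fl ψ` (`ROTAux.fl_cut_lt`). Index: `c = dc H g` is biinvariant and
inverse closed; `ψ0 + ε ψ0ᴴ = cutM cᶜ a =: a0`, `cutM c a =: ac`, `a = ψ + ε ψᴴ` (see `RO/ELM.lean`). EFA: `a0`, `ac` are in `EE 1 false true`,
`μ ∈ EE 1 true true`, `b = ε • (ε • b) ∈ EE 1 true false`; KNA: `(nu ε a0 μ b) ^ N = 0`. -/
def SpecRMV : Prop :=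
  ∀ (R G : Type) [Ring R] [StarRing R] [Group G]
    [FC (MonoidAlgebra R G)] (H : Subgroup G) (X1 X2 X3 Yp Ym : Set G),
    PingPong H X1 X2 X3 Yp Ym →
    (∀ g ∈ X1, g * g ∈ H → Sub1 H X1 X2 X3 Yp Ym {x | x ∈ X1 ∧ x ∉ dc H g} ∧
      Blk R (La (Kg H g) g) (BX H X1 X2 X3 g)) →
    ∀ (ε : ℤˣ) (n N : ℕ), 1 ≤ N → ∀ (ψ μ χ : Matrix (Fin n) (Fin n) (MonoidAlgebra R G)),
    SuppIn X1 ψ → SuppIn X3 μ → SuppIn X2 χ →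
    (nu ε (ψ + (ε : ℤ) • ψᴴ) μ (χ + (ε : ℤ) • χᴴ)) ^ N = 0 →
    (∀ ψ0 : Matrix (Fin n) (Fin n) (MonoidAlgebra R G), SuppIn X1 ψ0 →
      (∀ i j x, (ψ0 i j).coeff x ≠ 0 → ¬ Flip H x) →
      (nu ε (ψ0 + (ε : ℤ) • ψ0ᴴ) μ (χ + (ε : ℤ) • χᴴ)) ^ N = 0 →
      SS ε (UF ψ0 μ χ)) →
    SS ε (UF ψ μ χ)

/-- **NEI** (size 280, dep `SpecSCH`; imports `UV/SWP`): paper LEMMA 7.

PROOF. `a = ψ + ε ψᴴ`, so `aᴴ = ε a`. `V = 1 - a qᴴ`, `Vᴴ = 1 - q aᴴ = 1 - ε q a`, `S = ∑_{i<N} (ε q a)^i`: `Vᴴ S = S Vᴴ = 1` (`(ε q a)^N =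
ε^N (q a)^N = 0`), so `V Sᴴ = Sᴴ V = 1`. `Z = zet ε N q a = ε S q`. `Λ = fromBlocks ψ V 0 0`, `Λ + ε Λᴴ = fromBlocks a V (ε Vᴴ) 0`,
`Φi = fromBlocks 0 (ε S) Sᴴ (-(ε Sᴴ a S))` is its inverse. `Ξ = fromCols 0 qᴴ`, `Φi Ξᴴ = (Z; -(Sᴴ a Z))`.
`(Φi Ξᴴ)ᴴ Λ (Φi Ξᴴ) = Zᴴ ψ Z - Zᴴ V Sᴴ a Z = Zᴴ ψ Z - Zᴴ a Z`, so `κ = Zᴴ a Z - Zᴴ ψ Z = ε Zᴴ ψᴴ Z = Zᴴ ψ Z + (X - ε Xᴴ)` with
`X = ε Zᴴ ψᴴ Z`. So `fromBlocks ψ 1 0 κ` is stably hyperbolic by SWP (2) (`UF ψ 0 κ`). `Λ` is stably hyperbolic: `u = diag(1, Sᴴ)` gives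
`(ψ, 1; 0, 0)`, and `(1, 0; -ψ, 1)` gives `(0, 1; 0, 0)` (see `RO/SCH.lean`, `RO/NWC.lean`). SCH: `Λ + Ξᴴ ψ Ξ = fromBlocks ψ V 0 (q ψ qᴴ)`
is stably hyperbolic. Finally `u = fromBlocks 1 (-qᴴ) 0 1`: `uᴴ (ψ, 1; 0, q) u = (ψ, 1 - ψ qᴴ; -q ψ, q ψ qᴴ) =
fromBlocks ψ V 0 (q ψ qᴴ) + Z' - ε Z'ᴴ` with `Z' = fromBlocks 0 0 (-(q ψ)) 0` (`(1,2)`: `-ψ qᴴ = -a qᴴ + ε ψᴴ qᴴ`). -/
def SpecNEI : Prop :=
  ∀ (A : Type) [Ring A] [StarRing A] [FC A] (ε : ℤˣ) (n N : ℕ) (ψ q : Matrix (Fin n) (Fin n) A),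
    (q * (ψ + (ε : ℤ) • ψᴴ)) ^ N = 0 →
    SS ε (UF ψ 0 ((zet ε N q (ψ + (ε : ℤ) • ψᴴ))ᴴ * ψ *
      zet ε N q (ψ + (ε : ℤ) • ψᴴ))) →
    SS ε (UF ψ 0 q)

/-- **STY** (size 300, deps `RO.SpecEFA`, `SpecDRC`, `SpecHLK`, `SpecNEI`, `SpecNEN`, `SpecNES`; imports `UV/TAT`, `UV/SWP`): the Newton
step.

PROOF. `a = ψ + ε ψᴴ`, `b = χ + ε χᴴ`; `supp a ⊆ Xa` (`X1i`). `b i j` at `x` nonzero implies `χ i j` at `x` or `χ j i` at `x⁻¹` nonzero, so not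
`Flip L x` (`Flip L x ↔ Flip L x⁻¹`). HLK: `c`, `q0 = cutM c b`, `b = q0 + ε q0ᴴ`. `W = {x | x ∈ c ∧ x ∈ Xb}` is `Hf L Xb W`, `supp q0 ⊆ W`. `χ - q0` has
`(χ - q0) + ε (χ - q0)ᴴ = 0`, support in `Xb`: TAT (`δ = -ε`): `χ = q0 + c0 - ε c0ᴴ`: SWP (2): enough for `UF ψ 0 q0`. EFA (data `Xa`, `Xb`,
`∅`, `μ = 0`): `E = EE L ν`, `EFam E N`; `a = blk ν false true ∈ E 1 false true`; `q0 ∈ E 1 true false` (`ε • q0 = cutM c (ε • b)`, `blk ν true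
false = ε • b`, `E` is a subgroup). NEI with `(q0 a)^N = 0` (NEN): it suffices that `UF ψ 0 χ'`, `χ' = Zᴴ ψ Z`, `Z = zet ε N q0 a`, is stably
hyperbolic. `supp χ' ⊆ XD Xa W` (NES), `χ' + ε χ'ᴴ = Zᴴ a Z =: b'`. If `N ≤ 3`: `b' = 0`; `XD` is inverse closed without `x = x⁻¹` (DRC: `X2i`,
`X2n`), TAT (`δ = -ε`): `χ' = c1 - ε c1ᴴ`, so `UF ψ 0 χ'` follows from `UF ψ 0 0`, which is `(ψ, 1; 0, 0)`: `≅ hyp` (as `nu` = ..; e.g.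
SWP (3) after the exchange, or `NEI` with `q = 0`; or directly `u = (1, 0; -ψ, 1)`). If `3 ≤ N`: NEN and the hypothesis for `W`. -/
def SpecSTY : Prop :=
  ∀ (R G : Type) [Ring R] [StarRing R] [Group G]
    [FC (MonoidAlgebra R G)] (L : Subgroup G) (g : G) (Xb Yp Ym : Set G),
    PPK L (La L g) Xb ∅ Yp Ym → ∀ (ε : ℤˣ) (n N : ℕ), 1 ≤ N →
    ∀ ψ χ : Matrix (Fin n) (Fin n) (MonoidAlgebra R G), SuppIn (La L g) ψ → SuppIn Xb χ →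
    (nu ε (ψ + (ε : ℤ) • ψᴴ) 0 (χ + (ε : ℤ) • χᴴ)) ^ N = 0 →
    (∀ i j x, (χ i j).coeff x ≠ 0 → ¬ Flip L x) →
    (∀ W : Set G, Hf L Xb W → 3 ≤ N → ∀ χ' : Matrix (Fin n) (Fin n) (MonoidAlgebra R G),
      SuppIn (XD (La L g) W) χ' →
      (nu ε (ψ + (ε : ℤ) • ψᴴ) 0 (χ' + (ε : ℤ) • χ'ᴴ)) ^ (N - 1) = 0 →
      SS ε (UF ψ 0 χ')) →
    SS ε (UF ψ 0 χ)

/-- **MNK** (size 250, deps `SpecNWT`, `SpecSBK`, `SpecBLK`, `SpecSYK`, `SpecBLG`, `SpecRMV`; imports `UV/SWP`, `UV/IND`): the theorem for data.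

PROOF. For `g ∈ X1`, `g g ∈ H`: SBK (4), BLK, BLG (ends `x1`, `g x1`; `g (g x1) = x1`) and `SE R G d x1 (g x1)`: the hypothesis of RMV. So it
suffices to consider `ψ` without flips (`N ≥ 1` with `ν^N = 0`). Exchange (SWP (1), `INDAux.swap_zero`, SYK): RMV for the exchanged data
(`X2`, `X1`, `Xinv X3`, ends `x2`, `x1`): we may assume that `χ` has no flips. NWT. -/
def SpecMNK : Prop :=
  ∀ (R G V : Type) [Ring R] [StarRing R] [Group G]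
    [FC (MonoidAlgebra R G)] [MulAction G V] (d : V → V → ℕ), TM G d →
    ∀ (H : Subgroup G) (X1 X2 X3 Yp Ym : Set G) (x1 x2 : V), PPK H X1 X2 X3 Yp Ym →
    Geo d H X1 X2 X3 x1 x2 → (∀ g ∈ X1, g * g ∈ H → SE R G d x1 (g • x1)) →
    (∀ g ∈ X2, g * g ∈ H → SE R G d x2 (g • x2)) →
    ∀ (ε : ℤˣ) (n : ℕ) (ψ μ χ : Matrix (Fin n) (Fin n) (MonoidAlgebra R G)), SuppIn X1 ψ →
    SuppIn X3 μ → SuppIn X2 χ →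
    IsNilpotent (nu ε (ψ + (ε : ℤ) • ψᴴ) μ (χ + (ε : ℤ) • χᴴ)) → SS ε (UF ψ μ χ)

section Geometry

variable (R G : Type) {V : Type} [Ring R] [StarRing R] [Group G] [FC (MonoidAlgebra R G)] [MulAction G V]
  (d : V → V → ℕ)

/-- The claim for the nilpotency index `N`: all data with the ends `x1`, `x2`. -/
def Cl (N : ℕ) (x1 x2 : V) : Prop :=
  ∀ (L : Subgroup G) (X1 X2 Yp Ym : Set G), PPK L X1 X2 ∅ Yp Ym → Geo d L X1 X2 ∅ x1 x2 →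
    ∀ (ε : ℤˣ) (n : ℕ) (ψ χ : Matrix (Fin n) (Fin n) (MonoidAlgebra R G)), SuppIn X1 ψ →
    SuppIn X2 χ → (nu ε (ψ + (ε : ℤ) • ψᴴ) 0 (χ + (ε : ℤ) • χᴴ)) ^ N = 0 →
    SS ε (UF ψ 0 χ)

/-- The longer exchanged pairs with a smaller stabilizer, at `x1`. -/
def HU (x1 x2 : V) : Prop :=
  ∀ f : G, f • f • x1 = x1 → d x1 (f • x1) = d x1 x2 + d x2 (f • x1) →
    ¬ Ns (MulAction.stabilizer G x1 ⊓ MulAction.stabilizer G x2) f → SE R G d x1 (f • x1)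

/-- The line condition. -/
def HS (x1 x2 : V) : Prop :=
  ∀ u f : G, Ns (MulAction.stabilizer G x1 ⊓ MulAction.stabilizer G x2) u →
    Ns (MulAction.stabilizer G x1 ⊓ MulAction.stabilizer G x2) f →
    u * u ∈ MulAction.stabilizer G x1 ⊓ MulAction.stabilizer G x2 →
    f * f ∈ MulAction.stabilizer G x1 ⊓ MulAction.stabilizer G x2 →
    d x1 (u • x1) = d x1 x2 + d x2 (u • x1) → d x2 (f • x2) = d x2 x1 + d x1 (f • x2) →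
    ¬ (u • x1 = x2 ∧ f • x2 = x1) →
    (∀ h ∈ MulAction.stabilizer G x1 ⊓ MulAction.stabilizer G x2, h * u * (h * u) ≠ 1) →
    (∀ h ∈ MulAction.stabilizer G x1 ⊓ MulAction.stabilizer G x2, h * f * (h * f) ≠ 1) →
    Blk R (La (MulAction.stabilizer G x1 ⊓ MulAction.stabilizer G x2) u)
      (La (MulAction.stabilizer G x1 ⊓ MulAction.stabilizer G x2) f)

end Geometry

/-- **FML** (size 200; from `specSCU` with `r = n`, `Ξ = 1`, or from `specSCH`; and `specSWP`): the formula.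

PROOF. `a = ψ1 + ε ψ1ᴴ`, `b = χ + ε χᴴ`, `aᴴ = ε a`, `bᴴ = ε b`. `ν^N = 0` gives `(ε a b)^N = 0 = (ε b a)^N` (`ν² = (ε b a, 0; 0, ε a b)`,
`ν^(2N) = 0`). `T = Tn ε N a b`, `T' = Tn ε N b a = Tᴴ`: `(1 - ε a b) T = 1 = T (1 - ε a b)`, `T' b = b T`. `Λ = UF ψ1 0 χ`,
`Λ + ε Λᴴ = fromBlocks a 1 ε b` (`ε` = `ε • 1`) has the inverse `Φi` with `Φi (1; 0) = (z1; z2)`, `z1 = -ε b T`, `z2 = T`
(`a z1 + z2 = (1 - ε a b) T = 1`, `ε z1 + b z2 = 0`). SCH with `Ξ = (1, 0)`, `ψ' = ψ2`: enough `UF ψ2 0 κ`,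
`κ = -(z1ᴴ ψ1 z1 + z1ᴴ z2 + z2ᴴ χ z2) = -(ε T' b ψ1 b T - T' b T + T' χ T) = ε T' χᴴ T - ε T' b ψ1 b T = ε χᴴ + ρ` (`b - χ = ε χᴴ`). SWP (2) with
`d = ε χᴴ`: `χ + ρ + d - ε dᴴ = κ`. Second: `u = fromBlocks 1 0 (-σ) 1`: `uᴴ (σ, 1; 0, 0) u = (0, 1; 0, 0)`. -/
def SpecFML : Prop :=
  ∀ (A : Type) [Ring A] [StarRing A] [FC A] (ε : ℤˣ) (n : ℕ),
    (∀ (N : ℕ) (ψ1 ψ2 χ : Matrix (Fin n) (Fin n) A),
      (nu ε (ψ1 + (ε : ℤ) • ψ1ᴴ) 0 (χ + (ε : ℤ) • χᴴ)) ^ N = 0 →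
      SS ε (UF ψ1 0 χ) → SS ε (UF ψ2 0 (χ + rho ε N ψ1 χ)) →
      SS ε (UF (ψ1 + ψ2) 0 χ)) ∧
    ∀ σ : Matrix (Fin n) (Fin n) A, SS ε (UF σ 0 0)

/-- **LNR** (size 280, deps `SpecFML`, `SpecFMR`, `SpecSPR`, `SpecDWP`, `SpecDWG`): additivity.

PROOF. `a_i = ψ_i + ε ψ_iᴴ`, `a = a_1 + a_2`, `b = χ + ε χᴴ`. `mEFA` for `a`, `0`, `b`: `E = EE L (nu ε a 0 b)`, `EFam E N`; `a_i = cutM c_i a ∈ E 1 false true` (`c_1`, `c_2` are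
disjoint), `b = ε • (ε • b) ∈ E 1 true false`. `RO.specKNA`: `(nu ε a_1 0 b)^N = 0`, `(nu ε a_2 0 b)^N = 0`, and `(nu ε b 0 a_2)^N = 0`
(`INDAux.swap_zero`). `ρ = rho ε N ψ1 χ`, `ρ' = rho ε N χ ψ2`, `σ = ψ2 + ρ'`. FML for `ψ1, ψ2, χ`: enough `UF ψ2 0 (χ + ρ)`; exchange (`specSWP` (1)): enough
`UF (χ + ρ) 0 ψ2`; FML for `χ, ρ, ψ2`: enough `UF χ 0 ψ2` (exchange of `UF ψ2 0 χ`) and `UF ρ 0 σ`; exchange: enough `UF σ 0 ρ`. FMR: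
`r = ρ + ε ρᴴ = Tn ε N b a_1 * b - b ∈ E 3 true false`, `s = σ + ε σᴴ = a_2 + (Tn ε N a_2 b * a_2 - a_2) ∈ E 1 false true` (`mono`). Supports (SPR): `σ` in
`V1 L c2 X2`, `ρ` in `V3 L c1 X2`. If `N ≤ 3`: `r = 0` (`mono`, `zero`), `specTAT` for `X = V3` (`X2i`, `X2n` of DWP), `δ = -ε`: `ρ = c - ε cᴴ`, so
`UF σ 0 ρ` follows from `UF σ 0 0` (`specSWP` (2)), FML second part. If `3 ≤ N`: FMR: `(nu ε s 0 r)^(N - 1) = 0`, and the hypothesis `Cl (N - 1)` for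
the data of DWP, DWG. -/
def SpecLNR : Prop :=
  ∀ (R G V : Type) [Ring R] [StarRing R] [Group G]
    [FC (MonoidAlgebra R G)] [MulAction G V] (d : V → V → ℕ), TM G d →
    ∀ (N : ℕ) (x1 x2 : V), 1 ≤ N → (3 ≤ N → Cl R G d (N - 1) x1 x2) →
    ∀ (L : Subgroup G) (X1 X2 Yp Ym : Set G), PPK L X1 X2 ∅ Yp Ym → Geo d L X1 X2 ∅ x1 x2 →
    ∀ c1 c2 : Set G, Pt L X1 c1 → Pt L X1 c2 → (∀ x ∈ c1, x ∉ c2) →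
    ∀ (ε : ℤˣ) (n : ℕ) (ψ1 ψ2 χ : Matrix (Fin n) (Fin n) (MonoidAlgebra R G)), SuppIn c1 ψ1 →
    SuppIn c2 ψ2 → SuppIn X2 χ →
    (nu ε (ψ1 + ψ2 + (ε : ℤ) • (ψ1 + ψ2)ᴴ) 0 (χ + (ε : ℤ) • χᴴ)) ^ N = 0 →
    SS ε (UF ψ1 0 χ) → SS ε (UF ψ2 0 χ) →
    SS ε (UF (ψ1 + ψ2) 0 χ)

/-- **DCM** (size 250, deps `SpecFML`, `SpecLNR`): decomposition into pieces.

PROOF. (A) Claim for data, by induction on the number of the nonzero coefficients of `ψ` (with index `N`, `χ` in `X2`): if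
`UF (cutM (D2 L x) ψ) 0 χ` is stably hyperbolic for all `x` in the support of `ψ` then so is `UF ψ 0 χ`. `ψ = 0`: exchange and FML second part
(`UF 0 0 χ`; see `specSWP` (1)). Otherwise choose `x`, `c2 = D2 L x`, `c1 = {y | y ∈ X1 ∧ y ∉ D2 L x}`; `ψ = cutM c1 ψ + cutM c2 ψ`. `cutM c1 ψ` has fewer
coefficients, index `N` (`mEFA`, `RO.specKNA` with `a0 = cutM c1 a`), and for `y` in its support `cutM (D2 L y) (cutM c1 ψ) = cutM (D2 L y) ψ`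
(`D2 L y` and `D2 L x` are disjoint). LNR. (B) Let now `x` be fixed, `ψ' = cutM (D2 L x) ψ`, index `N`. Exchange (`specSWP` (1), `ROK.specSYK` (3), (4): data
`X2`, `X1`, ends `x2`, `x1`; `Cl R G d (N - 1) x2 x1` follows from `Cl R G d (N - 1) x1 x2` by exchange; `INDAux.swap_zero`): (A) for `χ`. So it is enough to
consider `ψ'`, `χ'` supported in `D2 L x`, `D2 L y`: the hypothesis. -/
def SpecDCM : Prop :=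
  ∀ (R G V : Type) [Ring R] [StarRing R] [Group G]
    [FC (MonoidAlgebra R G)] [MulAction G V] (d : V → V → ℕ), TM G d →
    ∀ (N : ℕ) (x1 x2 : V), 1 ≤ N → (3 ≤ N → Cl R G d (N - 1) x1 x2) →
    ∀ (L : Subgroup G) (X1 X2 Yp Ym : Set G), PPK L X1 X2 ∅ Yp Ym → Geo d L X1 X2 ∅ x1 x2 →
    (∀ x ∈ X1, ∀ y ∈ X2, ∀ (ε : ℤˣ) (n : ℕ) (ψ χ : Matrix (Fin n) (Fin n) (MonoidAlgebra R G)),
      SuppIn (D2 L x) ψ → SuppIn (D2 L y) χ →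
      (nu ε (ψ + (ε : ℤ) • ψᴴ) 0 (χ + (ε : ℤ) • χᴴ)) ^ N = 0 → SS ε (UF ψ 0 χ)) →
    ∀ (ε : ℤˣ) (n : ℕ) (ψ χ : Matrix (Fin n) (Fin n) (MonoidAlgebra R G)), SuppIn X1 ψ →
    SuppIn X2 χ → (nu ε (ψ + (ε : ℤ) • ψᴴ) 0 (χ + (ε : ℤ) • χᴴ)) ^ N = 0 →
    SS ε (UF ψ 0 χ)

/-- **SGU** (size 180, dep `SpecFML`): an unstable flip.

PROOF. `mELM` for `g` (`Sub1`: `mSBK` (4)); its hypothesis: `mBLK`, `mBLG`: the block `La (Kg L g) g`, `BX L X1 X2 ∅ g` is data with the ends `x1`, `g x1`, `g g x1 = x1`,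
`d x1 (g x1) = d x1 x2 + d x2 (g x1)` (`mv` for `g ∈ X1`, `x1 ∈ DD d x1 x2 true`); `L = stabilizer x1 ⊓ stabilizer x2` (`st`), so `HU` gives `SE` and
`Blk`. `cutM (dc L g)ᶜ ψ = 0`; `UF 0 0 χ`: FML second part and `specSWP` (1). -/
def SpecSGU : Prop :=
  ∀ (R G V : Type) [Ring R] [StarRing R] [Group G]
    [FC (MonoidAlgebra R G)] [MulAction G V] (d : V → V → ℕ),
    TM G d → ∀ x1 x2 : V, HU R G d x1 x2 →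
    ∀ (L : Subgroup G) (X1 X2 Yp Ym : Set G), PPK L X1 X2 ∅ Yp Ym → Geo d L X1 X2 ∅ x1 x2 →
    ∀ g ∈ X1, g * g ∈ L → ¬ Ns L g →
    ∀ (ε : ℤˣ) (n : ℕ) (ψ χ : Matrix (Fin n) (Fin n) (MonoidAlgebra R G)), SuppIn (dc L g) ψ →
    SuppIn X2 χ → IsNilpotent (nu ε (ψ + (ε : ℤ) • ψᴴ) 0 (χ + (ε : ℤ) • χᴴ)) →
    SS ε (UF ψ 0 χ)

/-- **SGN** (size 180, deps `SpecDWP`, `SpecDWG`): a stable flip and no flips.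

PROOF. `dc L g = La L g` (`Ns`). `La L g ⊆ X1` is a part (`Pt`; inverses: `g⁻¹ = (g g)⁻¹ g`). DWP, DWG (second parts, `c' = X2`): data `La L g`, `X2`, `Yp`,
`Ym`. `mSTY`: for a half `W` of `X2`, `3 ≤ N`, `χ'` with support in `XD (La L g) W` and index `N - 1`: data by `mDRC`, `ROK.specDRG`, so `Cl (N - 1)`
applies. -/
def SpecSGN : Prop :=
  ∀ (R G V : Type) [Ring R] [StarRing R] [Group G]
    [FC (MonoidAlgebra R G)] [MulAction G V] (d : V → V → ℕ), TM G d →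
    ∀ (N : ℕ) (x1 x2 : V), 1 ≤ N → (3 ≤ N → Cl R G d (N - 1) x1 x2) →
    ∀ (L : Subgroup G) (X1 X2 Yp Ym : Set G), PPK L X1 X2 ∅ Yp Ym → Geo d L X1 X2 ∅ x1 x2 →
    ∀ g ∈ X1, g * g ∈ L → Ns L g →
    ∀ (ε : ℤˣ) (n : ℕ) (ψ χ : Matrix (Fin n) (Fin n) (MonoidAlgebra R G)), SuppIn (dc L g) ψ →
    SuppIn X2 χ → (∀ i j x, (χ i j).coeff x ≠ 0 → ¬ Flip L x) →
    (nu ε (ψ + (ε : ℤ) • ψᴴ) 0 (χ + (ε : ℤ) • χᴴ)) ^ N = 0 → SS ε (UF ψ 0 χ)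

/-- **SGS** (size 280, deps `SpecFML`, `SpecSGU`, `SpecSGN`): single pieces.

PROOF. `L = stabilizer x1 ⊓ stabilizer x2` (`st`, `subst`). If `Flip L x` there is `g = x h ∈ dc L x`, `g g ∈ L` (`ROTAux.exists_flip`), `g ∈ X1`,
`D2 L x = dc L x = dc L g`; otherwise no element of `D2 L x` is a flip. Cases: `x`, `y` no flips: `mNWT`. `x` a flip with `¬ Ns L g`: SGU. `y` a flip,
`f = y h`, `¬ Ns L f`: exchange (`specSWP` (1), `ROK.specSYK`, `INDAux.swap_zero`) and SGU for the ends `x2`, `x1` (`HU R G d x2 x1`; `inf_comm`).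
`x` a flip with `Ns L g`, `y` no flip: SGN. `y` a flip with `Ns L f`, `x` no flip: exchange and SGN (`Cl` exchanged, as in DCM). Both flips, `Ns`:
`HS`: `g x1 ∈ DD d x1 x2 false`, `f x2 ∈ DD d x1 x2 true` (`mv`); if `g x1 = x2` and `f x2 = x1` then `g⁻¹ x2 = x1`, `f⁻¹ x1 = x2`, and
(`g g`, `f f` fix `x1`, `x2`) `g x2 = x1`, `f x1 = x2`, so `g⁻¹ f ∈ L` fixes `x1`, `x2`, `f ∈ g L ⊆ X1`; so `f = f 1 ∈ Ym` (`X1Y`) and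
`f = f 1 ∈ Yp` (`X2Y`), `f ∈ L` (`yy`): contradiction to `xh`. `h g ∈ X1` for `h ∈ L` (`X1l`), so `(h g)⁻¹ ≠ h g` (`X1n`), the same for `h f ∈ X2`: the
last two premises of `HS`. `dc L g = La L g`, `dc L f = La L f`, `Blk`. -/
def SpecSGS : Prop :=
  ∀ (R G V : Type) [Ring R] [StarRing R] [Group G]
    [FC (MonoidAlgebra R G)] [MulAction G V] (d : V → V → ℕ), TM G d →
    ∀ (N : ℕ) (x1 x2 : V), 1 ≤ N → (3 ≤ N → Cl R G d (N - 1) x1 x2) → HU R G d x1 x2 →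
    HU R G d x2 x1 → HS R G d x1 x2 →
    ∀ (L : Subgroup G) (X1 X2 Yp Ym : Set G), PPK L X1 X2 ∅ Yp Ym → Geo d L X1 X2 ∅ x1 x2 →
    ∀ x ∈ X1, ∀ y ∈ X2, ∀ (ε : ℤˣ) (n : ℕ) (ψ χ : Matrix (Fin n) (Fin n) (MonoidAlgebra R G)),
      SuppIn (D2 L x) ψ → SuppIn (D2 L y) χ →
      (nu ε (ψ + (ε : ℤ) • ψᴴ) 0 (χ + (ε : ℤ) • χᴴ)) ^ N = 0 → SS ε (UF ψ 0 χ)

/-- **CLM** (size 100, deps `SpecDCM`, `SpecSGS`): the claim for all `N`, and `SE`.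

PROOF. Induction on `N` (DCM, SGS). `SE`: `IsNilpotent` gives `N ≥ 1`. -/
def SpecCLM : Prop :=
  ∀ (R G V : Type) [Ring R] [StarRing R] [Group G]
    [FC (MonoidAlgebra R G)] [MulAction G V] (d : V → V → ℕ), TM G d →
    ∀ x1 x2 : V, HU R G d x1 x2 → HU R G d x2 x1 → HS R G d x1 x2 →
      (∀ N, 1 ≤ N → Cl R G d N x1 x2) ∧ SE R G d x1 x2

end Pool.Agent.Lib.MP8a3537.AR
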