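import Pool.Agent.Lib.MP_8a3537_gt.AR.FC

/-!
# Groups with elements of order two: the polarization lemma, Specs (MP_8a3537_gt, folder AR, helper73)

For the theorem on all groups (MP_b6f35e_al, Q2). A matrix `τ` with `τ + ε τ^* = 0` is a Tate matrix. A module
`XXX` is a file `Pool/Agent/Lib/MP_8a3537_gt/AR/XXX.lean` which imports this file and proves `theorem specXXX
(deps) : SpecXXX` in the namespace `Pool.Agent.Lib.MP8a3537.AR`, own lemmas in the namespace `XXXM`. (The files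
are copied by a script to another folder, so please no other imports than this file, `AR/FC.lean`, `AR/GEN.lean`,
`UV/EMV.lean`, `UV/SWP.lean`, `RO/SCH.lean`, `UV/TAT.lean`.)
-/

set_option autoImplicit false
set_option linter.unusedSectionVars false

namespace Pool.Agent.Lib.MP8a3537.AR

open Matrix Pool.Agent.Lib.MP8a3537.UV

/-- `τ = - ε τ^*`. -/
def Tate {A : Type} [Ring A] [StarRing A] (ε : ℤˣ) {ι : Type} (τ : Matrix ι ι A) : Prop :=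
  τ + (ε : ℤ) • τᴴ = 0

/-- **TIS** (size 120): two forms with the same invertible polarization.

PROOF. `l = Ψ + ε Ψᴴ`. `U = fromBlocks 1 0 1 (-Θ)` (invertible, inverse `fromBlocks 1 0 l (-l)`): `Uᴴ * fromBlocks (Ψ + τ) 0 0 (-Ψ) * U =
fromBlocks τ (Ψ Θ) (Θᴴ Ψ) (-Θᴴ Ψ Θ)`; modulo `Z - ε Zᴴ` (`Z = fromBlocks 0 (ε Ψᴴ Θ) 0 0`, `(Θᴴ Ψ) = (Ψᴴ Θ)ᴴ`) this is `fromBlocks τ 1 0 θ`, `θ = -Θᴴ Ψ Θ`.
Then `V = fromBlocks 1 (-θᴴ) 0 1`: `Vᴴ * fromBlocks τ 1 0 θ * V = fromBlocks τ (1 - τ θᴴ) (-θ τ) (θ - θ + θ τ θᴴ ..)`: the entry `(2, 2)` is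
`θ τ θᴴ - θ θᴴ..` as follows: `(-θ) τ (-θᴴ) + (-θ) 1 + θ = θ τ θᴴ`; the entry `(2, 1)` is `-θ τ`, which is moved to `(1, 2)`:
`ε (-θ τ)ᴴ = -ε τᴴ θᴴ = τ θᴴ`, so `(1, 2)` is `1`. `τ' = θ τ θᴴ` is Tate. -/
def SpecTIS : Prop :=
  ∀ (A : Type) [Ring A] [StarRing A] (ε : ℤˣ) (ι : Type) [Fintype ι] [DecidableEq ι]
    (Ψ τ Θ : Matrix ι ι A), Tate ε τ → (Ψ + (ε : ℤ) • Ψᴴ) * Θ = 1 → Θ * (Ψ + (ε : ℤ) • Ψᴴ) = 1 →
    ∃ τ' : Matrix ι ι A, Tate ε τ' ∧ Isometric ε (fromBlocks (Ψ + τ) 0 0 (-Ψ)) (UF τ 0 τ')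

/-- **TAD** (size 120): additivity.

PROOF. Indices `(ι ⊕ ι) ⊕ (ι ⊕ ι)`, coordinates `x1, y1, x2, y2`. Substitution `x1 = X`, `x2 = X + X'`, `y1 = Y - Y'`, `y2 = Y'`, new order `X, Y, X', Y'`:
the `x`-part `X^* σ1 X + (X + X')^* σ2 (X + X')` is `X^* (σ1 + σ2) X + X'^* σ2 X'` (the mixed terms cancel modulo even matrices, `Tate σ2`), the pairing
`X^* (Y - Y') + (X + X')^* Y' = X^* Y + X'^* Y'`, the `y`-part `(Y - Y')^* ρ (Y - Y') + Y'^* ρ Y'` is `Y^* ρ Y + Y'^* (ρ + ρ) Y'` modulo even matrices. So the form is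
`UF (σ1 + σ2) 0 ρ ⊕ UF σ2 0 (ρ + ρ)`, and `ρ + ρ = ρ - ε ρᴴ` is even, `UF σ2 0 0 ≅ hyp` (`V = fromBlocks 1 0 (-σ2) 1`). -/
def SpecTAD : Prop :=
  ∀ (A : Type) [Ring A] [StarRing A] (ε : ℤˣ) (ι : Type) [Fintype ι] [DecidableEq ι]
    (σ1 σ2 ρ : Matrix ι ι A), Tate ε σ1 → Tate ε σ2 → Tate ε ρ →
    Isometric ε (fromBlocks (UF σ1 0 ρ) 0 0 (UF σ2 0 ρ)) (fromBlocks (UF (σ1 + σ2) 0 ρ) 0 0 (hyp ι A))

/-- The forms `(r t, 1; 0, s u)` of size `1 + 1`, `t`, `u` of order at most two, `r = - ε r^*`, `s = - ε s^*`, are in the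
class. -/
def DInf (R G : Type) [Ring R] [StarRing R] [Group G] [FC (MonoidAlgebra R G)] : Prop :=
  ∀ (ε : ℤˣ) (r s : R) (t u : G), t * t = 1 → u * u = 1 → r + (ε : ℤ) • star r = 0 →
    s + (ε : ℤ) • star s = 0 →
    SS ε (UF (Matrix.of fun _ _ : Fin 1 => MonoidAlgebra.single t r) 0
      (Matrix.of fun _ _ : Fin 1 => MonoidAlgebra.single u s))

/-- **TDI** (size 250, dep `SpecTAD`): Tate matrices are sums of the matrices `r t E_ii` and even matrices.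

PROOF. Let `P σ ρ` be `SS ε (UF σ 0 ρ)` (`σ`, `ρ` Tate). (1) `P σ ρ → P σ' ρ → P (σ + σ') ρ` (TAD, `ss_of_isom`, `ss_sum`, `ss_destab`), the same for `ρ` (swap: `SWPAux.swap`);
`P 0 ρ`, `P σ 0`; even matrices `c - ε cᴴ` may be added (`SWPAux.change`). (2) every Tate `τ` is an even matrix plus a finite sum of matrices
`E_ii (r t)` (`single t r` at the place `(i, i)`), `t t = 1`, `r + ε r^* = 0`: induction on the number of nonzero coefficients `(i, j, g)`: if `(i, j, g) ≠ (j, i, g⁻¹)` subtract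
`c - ε cᴴ`, `c = E_ij (r g)`; otherwise `i = j`, `g g = 1` and the coefficient `r` at `g` satisfies `r = - ε r^*`: subtract `E_ii (r g)`. (3) `P (E_ii (r t)) (E_jj (s u))`: reindex `ι` as
`{i} ⊕ rest` (and `{j}`): if `i ≠ j` the form is isometric to a hyperbolic form (`(σ, 1; 0, 0)` and `(0, 1; 0, ρ)` are hyperbolic); if `i = j` it is the form of `DInf` plus a hyperbolic form. -/
def SpecTDI : Prop :=
  ∀ (R G : Type) [Ring R] [StarRing R] [Group G] [FC (MonoidAlgebra R G)], DInf R G →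
    ∀ (ε : ℤˣ) (ι : Type) [Fintype ι] [DecidableEq ι] (τ τ' : Matrix ι ι (MonoidAlgebra R G)),
      Tate ε τ → Tate ε τ' → SS ε (UF τ 0 τ')

/-- **TPO** (size 80, deps `SpecTIS`, `SpecTDI`): the class depends only on the polarization.

PROOF. `Φ = Ψ + τ`, `τ` Tate. `Φ ⊕ (-Ψ) ⊕ Ψ`: by TIS `Φ ⊕ (-Ψ) ≅ UF τ 0 τ'`, in the class by TDI; so `(Φ ⊕ -Ψ) ⊕ Ψ` is in the class. By TIS for `τ = 0`: `Ψ ⊕ (-Ψ) ≅ UF 0 0 τ'`, and this is
hyperbolic. Reorder: `Φ ⊕ hyp` is in the class, `ss_destab`. -/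
def SpecTPO : Prop :=
  ∀ (R G : Type) [Ring R] [StarRing R] [Group G] [FC (MonoidAlgebra R G)], DInf R G →
    ∀ (ε : ℤˣ) (ι : Type) [Fintype ι] [DecidableEq ι] (Ψ Φ Θ : Matrix ι ι (MonoidAlgebra R G)),
      Ψ + (ε : ℤ) • Ψᴴ = Φ + (ε : ℤ) • Φᴴ → (Ψ + (ε : ℤ) • Ψᴴ) * Θ = 1 →
      Θ * (Ψ + (ε : ℤ) • Ψᴴ) = 1 → SS ε Ψ → SS ε Φ

end Pool.Agent.Lib.MP8a3537.AR
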