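import Pool.Agent.Lib.MP_8a3537_gt.AR.SpecT

/-!
# Tate matrices: additivity (MP_8a3537_gt, folder AR, module TAD, helper30)
-/

set_option autoImplicit false
set_option linter.unusedSectionVars false
set_option linter.unusedSimpArgs false

namespace Pool.Agent.Lib.MP8a3537.AR

open Matrix Pool.Agent.Lib.MP8a3537.UV

namespace TADM

variable {A : Type} [Ring A] [StarRing A] {ι : Type} [Fintype ι] [DecidableEq ι]

/-- The substitution. -/
theorem subst (ε : ℤˣ) (σ1 σ2 ρ : Matrix ι ι A) (h2 : Tate ε σ2) (hρ : Tate ε ρ) :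
    Isometric ε (fromBlocks (UF σ1 0 ρ) 0 0 (UF σ2 0 ρ))
      (fromBlocks (UF (σ1 + σ2) 0 ρ) 0 0 (fromBlocks σ2 1 0 (ρ + ρ))) := by
  have e2 : (ε : ℤ) • σ2ᴴ = -σ2 := by
    unfold Tate at h2
    exact (neg_eq_of_add_eq_zero_right h2).symm
  have eρ : (ε : ℤ) • ρᴴ = -ρ := by
    unfold Tate at hρ
    exact (neg_eq_of_add_eq_zero_right hρ).symm
  refine ⟨fromBlocks 1 (fromBlocks 0 0 0 (-1)) (fromBlocks 1 0 0 0) 1,
    fromBlocks 1 (fromBlocks 0 0 0 1) (fromBlocks (-1) 0 0 0) 1,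
    fromBlocks 0 (fromBlocks (-σ2) 0 0 ρ) 0 0, ?_, ?_, ?_⟩
  · rw [fromBlocks_multiply]
    simp [fromBlocks_multiply, fromBlocks_add, fromBlocks_one]
  · rw [fromBlocks_multiply]
    simp [fromBlocks_multiply, fromBlocks_add, fromBlocks_one]
  · unfold UF
    simp only [fromBlocks_conjTranspose, conjTranspose_zero, conjTranspose_one, conjTranspose_neg,
      fromBlocks_multiply, fromBlocks_smul, fromBlocks_add, sub_eq_add_neg, fromBlocks_neg,
      Matrix.one_mul, Matrix.mul_one, Matrix.zero_mul, Matrix.mul_zero, Matrix.mul_neg,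
      Matrix.neg_mul, add_zero, zero_add, smul_zero, neg_zero, neg_neg, smul_neg, e2, eρ]
    ext i j
    rcases i with (i | i) | (i | i) <;> rcases j with (j | j) | (j | j) <;> simp

/-- `(σ, 1; 0, ρ + ρ)` is hyperbolic. -/
theorem half (ε : ℤˣ) (σ ρ : Matrix ι ι A) (hρ : Tate ε ρ) :
    Isometric ε (fromBlocks σ 1 0 (ρ + ρ)) (hyp ι A) := by
  have eρ : (ε : ℤ) • ρᴴ = -ρ := by
    unfold Tate at hρ
    exact (neg_eq_of_add_eq_zero_right hρ).symm
  refine EMVAux.iso_trans ε (Φ := fromBlocks σ 1 0 0) ⟨1, 1, fromBlocks 0 0 0 (-ρ), ?_, ?_, ?_⟩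
    ⟨fromBlocks 1 0 (-σ) 1, fromBlocks 1 0 σ 1, 0, ?_, ?_, ?_⟩
  · rw [Matrix.one_mul]
  · rw [Matrix.one_mul]
  · simp only [conjTranspose_one, Matrix.one_mul, Matrix.mul_one, fromBlocks_conjTranspose,
      conjTranspose_zero, conjTranspose_neg, fromBlocks_smul, sub_eq_add_neg, fromBlocks_neg,
      fromBlocks_add, smul_zero, smul_neg, eρ, neg_zero, neg_neg, add_zero]
    congr 1
    abel
  · rw [fromBlocks_multiply]
    simp [fromBlocks_one]
  · rw [fromBlocks_multiply]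
    simp [fromBlocks_one]
  · unfold hyp
    rw [fromBlocks_conjTranspose, fromBlocks_multiply, fromBlocks_multiply]
    simp

end TADM

open TADM in
/-- **Module TAD**. -/
theorem specTAD : SpecTAD := by
  intro A _ _ ε ι _ _ σ1 σ2 ρ h1 h2 hρ
  exact EMVAux.iso_trans ε (subst ε σ1 σ2 ρ h2 hρ) (EMVAux.iso_sum' ε _ (half ε σ2 ρ hρ))

end Pool.Agent.Lib.MP8a3537.AR
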