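import Pool.Agent.Lib.MP_8a3537_gt.AR.SpecT

/-!
# TDI: Tate matrices are sums of matrices `r t E_ii` and even matrices (MP_8a3537_gt, folder AR, helper24)
-/

set_option autoImplicit false
set_option linter.unusedSectionVars false

namespace Pool.Agent.Lib.MP8a3537.AR

open Matrix Pool.Agent.Lib.MP8a3537.UV

namespace TDIM

section Forms

variable {A : Type} [Ring A] [StarRing A] {ε : ℤˣ} {ι : Type} [Fintype ι] [DecidableEq ι]

theorem swap (ψ χ : Matrix ι ι A) : Isometric ε (UF ψ 0 χ) (UF χ 0 ψ) := by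
  refine ⟨fromBlocks 0 ((ε : ℤ) • 1) 1 0, fromBlocks 0 1 ((ε : ℤ) • 1) 0,
    fromBlocks 0 1 0 0, ?_, ?_, ?_⟩
  · rw [fromBlocks_multiply]
    rcases Int.units_eq_one_or ε with h | h <;> simp [h, fromBlocks_one]
  · rw [fromBlocks_multiply]
    rcases Int.units_eq_one_or ε with h | h <;> simp [h, fromBlocks_one]
  · unfold UF
    rw [fromBlocks_conjTranspose, fromBlocks_conjTranspose, fromBlocks_multiply,
      fromBlocks_multiply, fromBlocks_smul, fromBlocks_add, sub_eq_add_neg, fromBlocks_neg,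
      fromBlocks_add]
    rcases Int.units_eq_one_or ε with h | h
    · simp [h]
    · simp [h]

theorem change (ψ χ c : Matrix ι ι A) :
    Isometric ε (UF (ψ + (c - (ε : ℤ) • cᴴ)) 0 χ) (UF ψ 0 χ) := by
  refine ⟨1, 1, fromBlocks (-c) 0 0 0, by simp, by simp, ?_⟩
  unfold UF
  rw [conjTranspose_one, Matrix.one_mul, Matrix.mul_one, fromBlocks_conjTranspose,
    fromBlocks_smul, fromBlocks_add, sub_eq_add_neg, fromBlocks_neg, fromBlocks_add]
  simp only [conjTranspose_neg, conjTranspose_zero, smul_neg, smul_zero, neg_zero, add_zero,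
    neg_neg]
  congr 1
  abel

/-- Removal of `ρ` if it is orthogonal to `σ`. -/
theorem kill (σ ρ : Matrix ι ι A) (h1 : σ * ρᴴ = 0) (h2 : ρ * σ = 0) :
    Isometric ε (UF σ 0 ρ) (UF σ 0 0) := by
  refine ⟨fromBlocks 1 (-ρᴴ) 0 1, fromBlocks 1 ρᴴ 0 1, 0, ?_, ?_, ?_⟩
  · rw [fromBlocks_multiply]
    simp [fromBlocks_one]
  · rw [fromBlocks_multiply]
    simp [fromBlocks_one]
  · unfold UF
    rw [fromBlocks_conjTranspose, fromBlocks_multiply, fromBlocks_multiply]
    simp [h1, h2]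

theorem zero_hyp (ρ : Matrix ι ι A) : Isometric ε (UF 0 0 ρ) (UV.hyp ι A) := by
  have h := kill (ε := ε) (0 : Matrix ι ι A) ρ (by simp) (by simp)
  have e : UF (0 : Matrix ι ι A) 0 0 = UV.hyp ι A := by
    unfold UF UV.hyp
    simp
  rw [e] at h
  exact h

theorem tate_zero : Tate ε (0 : Matrix ι ι A) := by
  unfold Tate
  simp

theorem tate_add {σ τ : Matrix ι ι A} (h : Tate ε σ) (h' : Tate ε τ) : Tate ε (σ + τ) := by
  unfold Tate at *
  rw [conjTranspose_add, smul_add]
  calc σ + τ + ((ε : ℤ) • σᴴ + (ε : ℤ) • τᴴ) = (σ + (ε : ℤ) • σᴴ) + (τ + (ε : ℤ) • τᴴ) := by abel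
    _ = 0 := by rw [h, h', add_zero]

theorem tate_even (c : Matrix ι ι A) : Tate ε (c - (ε : ℤ) • cᴴ) := by
  unfold Tate
  rcases Int.units_eq_one_or ε with h | h
  · simp [h]
  · simp [h]

theorem ss_hyp [FC A] (N : Type) [Fintype N] [DecidableEq N] : SS ε (UV.hyp N A) :=
  ss_of_isom (EMVAux.iso_symm ε (RO.SCHM.hyp_card (A := A) ε N)) (FC.hyp ε (Fintype.card N))

/-- The Tate matrices `σ` such that `UF σ 0 ρ` is in the class. -/
def K [FC A] (hT : SpecTAD) (ε : ℤˣ) (ρ : Matrix ι ι A) (hρ : Tate ε ρ) :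
    AddSubmonoid (Matrix ι ι A) where
  carrier := {σ | Tate ε σ ∧ SS ε (UF σ 0 ρ)}
  zero_mem' := ⟨tate_zero, ss_of_isom (zero_hyp ρ) (ss_hyp ι)⟩
  add_mem' := by
    rintro σ1 σ2 ⟨h1, h1'⟩ ⟨h2, h2'⟩
    refine ⟨tate_add h1 h2, ?_⟩
    have h := hT A ε ι σ1 σ2 ρ h1 h2 hρ
    exact ss_destab ι (ss_of_isom (EMVAux.iso_symm ε h) (ss_sum h1' h2'))

/-- The Tate matrices `ρ` such that `UF σ 0 ρ` is in the class. -/
def K' [FC A] (hT : SpecTAD) (ε : ℤˣ) (σ : Matrix ι ι A) (hσ : Tate ε σ) :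
    AddSubmonoid (Matrix ι ι A) where
  carrier := {ρ | Tate ε ρ ∧ SS ε (UF σ 0 ρ)}
  zero_mem' := ⟨tate_zero, ss_of_isom (swap σ 0) (ss_of_isom (zero_hyp σ) (ss_hyp ι))⟩
  add_mem' := by
    rintro ρ1 ρ2 ⟨h1, h1'⟩ ⟨h2, h2'⟩
    have e1 : ρ1 ∈ K hT ε σ hσ := ⟨h1, ss_of_isom (swap ρ1 σ) h1'⟩
    have e2 : ρ2 ∈ K hT ε σ hσ := ⟨h2, ss_of_isom (swap ρ2 σ) h2'⟩
    have e3 := (K hT ε σ hσ).add_mem e1 e2
    exact ⟨e3.1, ss_of_isom (swap σ _) e3.2⟩

theorem even_mem [FC A] (hT : SpecTAD) (ρ : Matrix ι ι A) (hρ : Tate ε ρ) (c : Matrix ι ι A) :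
    c - (ε : ℤ) • cᴴ ∈ K hT ε ρ hρ := by
  refine ⟨tate_even c, ?_⟩
  have h := change (ε := ε) (0 : Matrix ι ι A) ρ c
  rw [zero_add] at h
  exact ss_of_isom h (ss_of_isom (zero_hyp ρ) (ss_hyp ι))

theorem even_mem' [FC A] (hT : SpecTAD) (σ : Matrix ι ι A) (hσ : Tate ε σ) (c : Matrix ι ι A) :
    c - (ε : ℤ) • cᴴ ∈ K' hT ε σ hσ :=
  ⟨tate_even c, ss_of_isom (swap σ _) (even_mem hT σ hσ c).2⟩

/-- Splitting off one index. -/
theorem split (i : ι) (x y : A) :
    Isometric ε (UF (Matrix.single i i x) 0 (Matrix.single i i y))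
      (fromBlocks (UF (Matrix.of fun _ _ : Fin 1 => x) 0 (Matrix.of fun _ _ : Fin 1 => y)) 0 0
        (UV.hyp {j : ι // j ≠ i} A)) := by
  classical
  let f : Fin 1 ⊕ {j : ι // j ≠ i} ≃ ι :=
    { toFun := Sum.elim (fun _ => i) Subtype.val
      invFun := fun j => if h : j = i then Sum.inl 0 else Sum.inr ⟨j, h⟩
      left_inv := by
        rintro (a | a)
        · simp [Fin.eq_zero a]
        · simp [a.2]
      right_inv := by
        intro j
        by_cases h : j = i
        · simp [h]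
        · simp [h] }
  have f1 : ∀ a, f (Sum.inl a) = i := fun _ => rfl
  have f2 : ∀ n : {j : ι // j ≠ i}, f (Sum.inr n) = n.1 := fun _ => rfl
  refine EMVAux.iso_equiv ε _ _
    ((Equiv.sumSumSumComm (Fin 1) (Fin 1) {j : ι // j ≠ i} {j : ι // j ≠ i}).trans
      (Equiv.sumCongr f f)) ?_
  have hn : ∀ n : {j : ι // j ≠ i}, ¬ i = n.1 := fun n h => n.2 h.symm
  have hn' : ∀ n : {j : ι // j ≠ i}, ¬ n.1 = i := fun n h => n.2 h
  ext a b
  rcases a with (a | a) | (a | a) <;> rcases b with (b | b) | (b | b) <;>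
    (try (obtain rfl : a = 0 := Subsingleton.elim _ _)) <;>
    (try (obtain rfl : b = 0 := Subsingleton.elim _ _)) <;>
    simp [UF, UV.hyp, f1, f2, Matrix.one_apply, hn, hn', Subtype.ext_iff]

end Forms

section GroupRing

variable {R G : Type} [Ring R] [StarRing R] [Group G] {ε : ℤˣ} {ι : Type} [Fintype ι]
  [DecidableEq ι]

theorem tate_coeff {τ : Matrix ι ι (MonoidAlgebra R G)} (h : Tate ε τ) (i j : ι) (g : G) :
    (τ i j).coeff g + (ε : ℤ) • star ((τ j i).coeff g⁻¹) = 0 := by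
  have h1 := congrFun (congrFun h i) j
  rw [Matrix.add_apply, Matrix.smul_apply, Matrix.conjTranspose_apply, Matrix.zero_apply] at h1
  have h2 := congrArg (fun x : MonoidAlgebra R G => x.coeff g) h1
  simp only [MonoidAlgebra.coeff_add, Finsupp.add_apply, MonoidAlgebra.coeff_smul,
    Finsupp.smul_apply, star_coeff, MonoidAlgebra.coeff_zero, Finsupp.coe_zero,
    Pi.zero_apply] at h2
  exact h2

theorem tate_single (i : ι) (g : G) (r : R) (hg : g * g = 1)
    (hr : r + (ε : ℤ) • star r = 0) :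
    Tate ε (Matrix.single i i (MonoidAlgebra.single g r)) := by
  have hg' : g⁻¹ = g := inv_eq_of_mul_eq_one_left hg
  unfold Tate
  rw [Matrix.conjTranspose_single, star_single, hg', Matrix.smul_single, ← Matrix.single_add,
    MonoidAlgebra.smul_single, ← MonoidAlgebra.single_add, hr]
  simp

/-- Every Tate matrix with support in `S` is in every additive submonoid which contains the even
matrices and the matrices `r t E_ii`, `t ∈ S`. -/
theorem decomp (S : Set G) (M : AddSubmonoid (Matrix ι ι (MonoidAlgebra R G)))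
    (hev : ∀ c : Matrix ι ι (MonoidAlgebra R G), c - (ε : ℤ) • cᴴ ∈ M)
    (hM : ∀ (i : ι) (g : G) (r : R), g ∈ S → g * g = 1 → r + (ε : ℤ) • star r = 0 →
      Matrix.single i i (MonoidAlgebra.single g r) ∈ M)
    (τ : Matrix ι ι (MonoidAlgebra R G)) (hS : SuppIn S τ) (hτ : Tate ε τ) : τ ∈ M := by
  classical
  let e := Fintype.equivFin ι
  let Y : Set G := {g | WellOrderingRel g g⁻¹}
  have hY1 : ∀ g : G, g⁻¹ = g → g ∉ Y := by
    intro g hg h
    have h' : WellOrderingRel g g⁻¹ := h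
    rw [hg] at h'
    exact irrefl_of WellOrderingRel g h'
  have hY2 : ∀ g : G, g⁻¹ ≠ g → ((g ∈ Y ∧ g⁻¹ ∉ Y) ∨ (g ∉ Y ∧ g⁻¹ ∈ Y)) := by
    intro g hg
    show (WellOrderingRel g g⁻¹ ∧ ¬ WellOrderingRel g⁻¹ g⁻¹⁻¹) ∨
      (¬ WellOrderingRel g g⁻¹ ∧ WellOrderingRel g⁻¹ g⁻¹⁻¹)
    rw [inv_inv]
    rcases trichotomous_of WellOrderingRel g g⁻¹ with h | h | h
    · exact Or.inl ⟨h, fun h' => asymm_of WellOrderingRel h h'⟩
    · exact absurd h.symm hg
    · exact Or.inr ⟨fun h' => asymm_of WellOrderingRel h h', h⟩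
  -- the even part
  let c : Matrix ι ι (MonoidAlgebra R G) := Matrix.of fun i j => if e i < e j then τ i j else
    if i = j then .ofCoeff ((τ i j).coeff.filter (fun g => g ∈ Y)) else 0
  -- the diagonal part
  let d : ι → MonoidAlgebra R G := fun i => .ofCoeff ((τ i i).coeff.filter (fun g => g⁻¹ = g))
  have hsub : τ = (c - (ε : ℤ) • cᴴ) + Matrix.diagonal d := by
    ext i j g
    have ht := tate_coeff hτ i j g
    have ht' : (τ i j).coeff g = - ((ε : ℤ) • star ((τ j i).coeff g⁻¹)) :=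
      eq_neg_of_add_eq_zero_left ht
    rw [Matrix.add_apply, Matrix.sub_apply, Matrix.smul_apply, Matrix.conjTranspose_apply,
      MonoidAlgebra.coeff_add, Finsupp.add_apply, MonoidAlgebra.coeff_sub, Finsupp.sub_apply,
      MonoidAlgebra.coeff_smul, Finsupp.smul_apply, star_coeff]
    have hc : ∀ a b, c a b = if e a < e b then τ a b else
      if a = b then .ofCoeff ((τ a b).coeff.filter (fun g => g ∈ Y)) else 0 := fun _ _ => rfl
    rw [hc, hc]
    rcases lt_trichotomy (e i) (e j) with h | h | h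
    · have h1 : ¬ e j < e i := not_lt.mpr h.le
      have h2 : j ≠ i := by rintro rfl; exact lt_irrefl _ h
      rw [if_pos h, if_neg h1, if_neg h2, Matrix.diagonal_apply_ne _ h2.symm]
      simp
    · have h' : i = j := e.injective h
      subst h'
      rw [if_neg (lt_irrefl _), if_pos rfl, Matrix.diagonal_apply_eq]
      show (τ i i).coeff g = (τ i i).coeff.filter (fun g => g ∈ Y) g -
        (ε : ℤ) • star ((τ i i).coeff.filter (fun g => g ∈ Y) g⁻¹) +
        (τ i i).coeff.filter (fun g => g⁻¹ = g) g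
      simp only [Finsupp.filter_apply]
      by_cases hg : g⁻¹ = g
      · have h1 := hY1 g hg
        have h2 : g⁻¹ ∉ Y := by rw [hg]; exact h1
        rw [if_neg h1, if_neg h2, if_pos hg]
        simp
      · rcases hY2 g hg with ⟨ha, hb⟩ | ⟨ha, hb⟩
        · rw [if_pos ha, if_neg hb, if_neg hg]
          simp
        · rw [if_neg ha, if_pos hb, if_neg hg, ht']
          simp
    · have h1 : ¬ e i < e j := not_lt.mpr h.le
      have h2 : i ≠ j := by rintro rfl; exact lt_irrefl _ h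
      rw [if_neg h1, if_neg h2, if_pos h, Matrix.diagonal_apply_ne _ h2, ht']
      simp
  have hd : Matrix.diagonal d = ∑ i : ι, ∑ g ∈ (d i).coeff.support,
      Matrix.single i i (MonoidAlgebra.single g ((d i).coeff g)) := by
    have h1 : ∀ i, ∑ g ∈ (d i).coeff.support,
        Matrix.single i i (MonoidAlgebra.single g ((d i).coeff g)) = Matrix.single i i (d i) := by
      intro i
      ext a b g
      rw [Matrix.sum_apply]
      simp only [Matrix.single_apply]
      by_cases hab : i = a ∧ i = b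
      · obtain ⟨rfl, rfl⟩ := hab
        simp only [and_self, if_true]
        rw [MonoidAlgebra.coeff_sum, Finsupp.finsetSum_apply]
        simp only [MonoidAlgebra.coeff_single, Finsupp.single_apply]
        rw [Finset.sum_ite_eq' _ g]
        split_ifs with h
        · rfl
        · exact (Finsupp.notMem_support_iff.mp h).symm
      · simp [hab]
    rw [Finset.sum_congr rfl fun i _ => h1 i]
    ext a b : 1
    by_cases hab : a = b
    · subst hab
      rw [Matrix.diagonal_apply_eq, Matrix.sum_apply, Finset.sum_eq_single a]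
      · simp
      · intro i _ hi
        simp [hi]
      · simp
    · rw [Matrix.diagonal_apply_ne _ hab, Matrix.sum_apply]
      symm
      apply Finset.sum_eq_zero
      intro i _
      rw [Matrix.single_apply, if_neg]
      rintro ⟨rfl, rfl⟩
      exact hab rfl
  rw [hsub, hd]
  refine M.add_mem (hev c) (M.sum_mem fun i _ => M.sum_mem fun g hg => ?_)
  have hdc : ∀ g, (d i).coeff g = if g⁻¹ = g then (τ i i).coeff g else 0 := by
    intro g
    show (τ i i).coeff.filter (fun g => g⁻¹ = g) g = _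
    rw [Finsupp.filter_apply]
  rw [Finsupp.mem_support_iff, hdc] at hg
  by_cases h1 : g⁻¹ = g
  · rw [if_pos h1] at hg
    rw [hdc, if_pos h1]
    refine hM i g _ (hS i i g hg) ?_ ?_
    · calc g * g = g⁻¹ * g := by rw [h1]
        _ = 1 := inv_mul_cancel g
    · have := tate_coeff hτ i i g
      rw [h1] at this
      exact this
  · rw [if_neg h1] at hg
    exact absurd rfl hg

end GroupRing

end TDIM

/-- **TDS** (proposal of helper30): the same with supports. -/
def SpecTDS : Prop :=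
  ∀ (R G : Type) [Ring R] [StarRing R] [Group G] [FC (MonoidAlgebra R G)] (ε : ℤˣ) (S₁ S₂ : Set G),
    (∀ (r s : R) (t u : G), t ∈ S₁ → u ∈ S₂ → t * t = 1 → u * u = 1 →
      r + (ε : ℤ) • star r = 0 → s + (ε : ℤ) • star s = 0 →
      SS ε (UF (Matrix.of fun _ _ : Fin 1 => MonoidAlgebra.single t r) 0
        (Matrix.of fun _ _ : Fin 1 => MonoidAlgebra.single u s))) →
    ∀ (ι : Type) [Fintype ι] [DecidableEq ι] (τ τ' : Matrix ι ι (MonoidAlgebra R G)),
      SuppIn S₁ τ → SuppIn S₂ τ' → Tate ε τ → Tate ε τ' → SS ε (UF τ 0 τ')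

open TDIM in
theorem specTDS (hT : SpecTAD) : SpecTDS := by
  intro R G _ _ _ _ ε S₁ S₂ hD ι _ _ τ τ' hS₁ hS₂ hτ hτ'
  classical
  -- elementary matrices
  have base : ∀ (i j : ι) (t u : G) (r s : R), t ∈ S₁ → u ∈ S₂ → t * t = 1 → u * u = 1 →
      r + (ε : ℤ) • star r = 0 → s + (ε : ℤ) • star s = 0 →
      SS ε (UF (Matrix.single i i (MonoidAlgebra.single t r)) 0
        (Matrix.single j j (MonoidAlgebra.single u s))) := by
    intro i j t u r s ht1 hu1 ht hu hr hs
    by_cases hij : i = j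
    · subst hij
      exact ss_of_isom (split i _ _) (ss_sum (hD r s t u ht1 hu1 ht hu hr hs) (ss_hyp _))
    · refine ss_of_isom (kill _ _ ?_ ?_) (ss_of_isom (swap _ _)
        (ss_of_isom (zero_hyp _) (ss_hyp ι)))
      · rw [Matrix.conjTranspose_single]
        exact Matrix.single_mul_single_of_ne _ _ _ _ hij _
      · exact Matrix.single_mul_single_of_ne _ _ _ _ (Ne.symm hij) _
  -- the first matrix is general
  have step : ∀ (j : ι) (u : G) (s : R), u ∈ S₂ → u * u = 1 → s + (ε : ℤ) • star s = 0 →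
      SS ε (UF τ 0 (Matrix.single j j (MonoidAlgebra.single u s))) := by
    intro j u s hu1 hu hs
    have hρ := tate_single (ε := ε) j u s hu hs
    have := decomp (ε := ε) S₁ (K hT ε _ hρ) (even_mem hT _ hρ)
      (fun i t r ht1 ht hr => ⟨tate_single i t r ht hr, base i j t u r s ht1 hu1 ht hu hr hs⟩)
      τ hS₁ hτ
    exact this.2
  have := decomp (ε := ε) S₂ (K' hT ε τ hτ) (even_mem' hT τ hτ)
    (fun j u s hu1 hu hs => ⟨tate_single j u s hu hs, step j u s hu1 hu hs⟩) τ' hS₂ hτ'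
  exact this.2

theorem specTDI (hT : SpecTAD) : SpecTDI := by
  intro R G _ _ _ _ hD ε ι _ _ τ τ' hτ hτ'
  exact specTDS hT R G ε Set.univ Set.univ (fun r s t u _ _ => hD ε r s t u) ι τ τ'
    (fun _ _ _ _ => Set.mem_univ _) (fun _ _ _ _ => Set.mem_univ _) hτ hτ'

end Pool.Agent.Lib.MP8a3537.AR
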