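import Pool.Agent.Lib.MP_8a3537_gt.AR.SpecS
import Pool.Agent.Lib.MP_8a3537_gt.AR.DEC
import Pool.Agent.Lib.MP_8a3537_gt.DG.FinC

/-!
# Theorem D (MP_8a3537_gt, folder AR, helper28)

`Adm T v w x y u`: the admissible sequences of pairs `x i`, `y i`, starting with `v`, `w`, the pair `i ≥ 1` is exchanged by
`u i`. `PB B`: the nilpotent forms `UF ψ 0 χ` with supports in `C`, `D`, `B C D`. Theorem D: if every admissible sequence has
a good stabilizer or a pair `K i * u i`, `K (i + 1) * u (i + 1)` in `B`, then every nilpotent form of the edge is, up to a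
hyperbolic form, isometric to an orthogonal sum of hyperbolic forms and forms in `PB B`.
-/

set_option autoImplicit false
set_option linter.unusedSectionVars false

namespace Pool.Agent.Lib.MP8a3537.AR

open Matrix Pool.Agent.Lib.MP8a3537.UV Pool.Agent.Lib.MP8a3537.RO Pool.Agent.Lib.MP8a3537.ROK

/-- The stabilizer of `x` and `y`. -/
abbrev Sb (G : Type) {V : Type} [Group G] [MulAction G V] (x y : V) : Subgroup G :=
  MulAction.stabilizer G x ⊓ MulAction.stabilizer G y

/-- Admissible sequences. -/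
structure Adm {G V : Type} [Group G] [MulAction G V] (T : SimpleGraph V) (v w : V) (x y : ℕ → V)
    (u : ℕ → G) : Prop where
  x0 : x 0 = v
  y0 : y 0 = w
  path : ∀ i, T.dist (x (i + 1)) (y (i + 1)) =
    T.dist (x (i + 1)) (x i) + T.dist (x i) (y i) + T.dist (y i) (y (i + 1))
  grow : ∀ i, T.dist (x i) (y i) < T.dist (x (i + 1)) (y (i + 1))
  exch : ∀ i, 1 ≤ i → u i • x i = y i ∧ u i • y i = x i
  two : ∀ i, 1 ≤ i → ∀ k ∈ Sb G (x i) (y i), k * u i * (k * u i) ≠ 1
  one : ∀ i, 1 ≤ i → x (i + 1) = x i ∨ y (i + 1) = y i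
  rep : ∀ i, 1 ≤ i → ∃ k ∈ Sb G (x i) (y i), u (i + 2) = k * u i

/-- The nilpotent forms with supports in a pair of `B`. -/
def PB {R G : Type} [Ring R] [StarRing R] [Group G] (B : Set G → Set G → Prop) (ε : ℤˣ) (n : ℕ)
    (ψ χ : Matrix (Fin n) (Fin n) (MonoidAlgebra R G)) : Prop :=
  ∃ C D : Set G, B C D ∧ SuppIn C ψ ∧ SuppIn D χ ∧
    IsNilpotent (nu ε (ψ + (ε : ℤ) • ψᴴ) 0 (χ + (ε : ℤ) • χᴴ))

/-- Data over a good stabilizer. -/
theorem cl_of_gc (R G V : Type) [Ring R] [StarRing R] [Group G] [FC (MonoidAlgebra R G)]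
    [MulAction G V] (d : V → V → ℕ) (N : ℕ) (x y : V) (hR : DG.GC R ↥(Sb G x y)) :
    Cl R G d N x y := by
  intro L X1 X2 Yp Ym P hG ε n ψ χ hψ hχ hν
  have hL : L = MulAction.stabilizer G x ⊓ MulAction.stabilizer G y := by
    ext z
    rw [hG.st, Subgroup.mem_inf, MulAction.mem_stabilizer_iff, MulAction.mem_stabilizer_iff]
  subst hL
  have h0 : SuppIn (∅ : Set G) (0 : Matrix (Fin n) (Fin n) (MonoidAlgebra R G)) :=
    fun i j z hz => absurd rfl hz
  exact ss_of_sh (DG.pingC R G _ X1 X2 ∅ Yp Ym P.toPingPong hR ε n ψ 0 χ hψ h0 hχ ⟨N, hν⟩)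

/-- **Theorem D.** -/
theorem thD (hFLT : SpecFLT) (R G V : Type) [Ring R] [StarRing R] [Group G] [MulAction G V]
    (T : SimpleGraph V) (v w : V) (hT : T.IsTree)
    (hact : ∀ (g : G) (x y : V), T.Adj x y → T.Adj (g • x) (g • y)) (hvw : T.Adj v w)
    (hinv : ∀ g : G, ¬ (g • v = w ∧ g • w = v))
    (htwo : ∀ g : G, g * g = 1 → (g • v = v ↔ g • w = w)) (B : Set G → Set G → Prop)
    (hB : ∀ (x y : ℕ → V) (u : ℕ → G), Adm T v w x y u →
      (∃ i, DG.GC R ↥(Sb G (x i) (y i))) ∨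
      ∃ i, 1 ≤ i ∧ B {a | ∃ k ∈ Sb G (x i) (y i), a = k * u i}
        {a | ∃ k ∈ Sb G (x (i + 1)) (y (i + 1)), a = k * u (i + 1)})
    (ε : ℤˣ) (n : ℕ) (ψ μ χ : Matrix (Fin n) (Fin n) (MonoidAlgebra R G))
    (hψ : SuppIn {g | g • v = v ∧ g • w ≠ w} ψ) (hμ : SuppIn {g | g • v = w} μ)
    (hχ : SuppIn {g | g • w = w ∧ g • v ≠ v} χ)
    (hnil : IsNilpotent (nu ε (ψ + (ε : ℤ) • ψᴴ) μ (χ + (ε : ℤ) • χᴴ))) :
    SGen (PB B ε) ε (UF ψ μ χ) := by
  by_cases hH : DG.GC R ↥(Sb G v w)
  · exact sgen_sh (DG.edgeC R G V T v w hT hact hvw hinv htwo hH ε n ψ μ χ hψ hμ hχ hnil)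
  let F : FC (MonoidAlgebra R G) := fcGen (MonoidAlgebra R G) (PB B)
  refine hFLT R G V (fun K => DG.GC R ↥K) T v w
    (fun N _ x y h => cl_of_gc R G V T.dist N x y h) hT hact hvw hinv htwo ?_ ε n ψ μ χ hψ hμ hχ hnil
  intro x y u h1 h2 h3 h4 h5 h6 h7
  have h0 : T.dist v w = 1 := SimpleGraph.dist_eq_one_iff_adj.2 hvw
  have hd : TM G (V := V) T.dist := specFPT G V T hT hact
  have hadm : Adm (G := G) T v w (fun i => Nat.casesOn i v x) (fun i => Nat.casesOn i w y)
      (fun i => Nat.casesOn i 1 u) := by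
    refine ⟨rfl, rfl, ?_, ?_, ?_, ?_, ?_, ?_⟩
    · intro i
      cases i with
      | zero =>
        show T.dist (x 0) (y 0) = T.dist (x 0) v + T.dist v w + T.dist w (y 0)
        exact h1 0
      | succ i => exact h4 i
    · intro i
      cases i with
      | zero =>
        show T.dist v w < T.dist (x 0) (y 0)
        by_contra hc
        have h8 := h1 0
        have h9 : T.dist (x 0) v = 0 := by omega
        have h10 : T.dist w (y 0) = 0 := by omega
        have e1 : x 0 = v := (hd.d0 _ _).1 h9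
        have e2 : w = y 0 := (hd.d0 _ _).1 h10
        have e3 := h2 0
        rw [e1, ← e2] at e3
        exact hinv _ e3
      | succ i => exact h5 i
    · intro i hi
      cases i with
      | zero => exact absurd hi (by omega)
      | succ i => exact h2 i
    · intro i hi
      cases i with
      | zero => exact absurd hi (by omega)
      | succ i => exact h7 i
    · intro i hi
      cases i with
      | zero => exact absurd hi (by omega)
      | succ i => exact h3 i
    · intro i hi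
      cases i with
      | zero => exact absurd hi (by omega)
      | succ i => exact h6 i
  rcases hB _ _ _ hadm with ⟨i, hi⟩ | ⟨i, hi1, hi⟩
  · cases i with
    | zero => exact absurd hi hH
    | succ i => exact ⟨i, Or.inl hi⟩
  · cases i with
    | zero => exact absurd hi1 (by omega)
    | succ i =>
      refine ⟨i, Or.inr ?_⟩
      intro ε' m ψ' χ' hs1 hs2 hn
      exact sgen_gen ⟨_, _, hi, hs1, hs2, hn⟩

end Pool.Agent.Lib.MP8a3537.AR
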