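import Pool.Agent.Lib.MP_8a3537_gt.AR.THD

/-!
# Corollaries of Theorem D (MP_8a3537_gt, folder AR, helper73)

`vanD`, `shpD`: if the forms of the barrier are stably hyperbolic (zero in `L^p`), all nilpotent forms of the
edge are. `barrier_of_lines`: the line condition and the chain condition of `DG/FinC.lean`, `mainC`, imply the
barrier condition.
-/

set_option autoImplicit false
set_option linter.unusedSectionVars false

namespace Pool.Agent.Lib.MP8a3537.AR

open Matrix Pool.Agent.Lib.MP8a3537.UV Pool.Agent.Lib.MP8a3537.AU Pool.Agent.Lib.MP8a3537.RO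
open Pool.Agent.Lib.MP8a3537.ROK
open Pool.Agent.Lib.MP8a3537.LL (Ns)

section Class

variable {A : Type} [Ring A] [StarRing A]

/-- A sum of forms in a class of forms is in the class. -/
theorem fsum_mem [FC A] {ε : ℤˣ}
    {P : ∀ n : ℕ, Matrix (Fin n) (Fin n) A → Matrix (Fin n) (Fin n) A → Prop}
    (hg : ∀ (n : ℕ) (ψ χ : Matrix (Fin n) (Fin n) A), P n ψ χ → SS ε (UF ψ 0 χ))
    {ι : Type} [Fintype ι] [DecidableEq ι] {Λ : Matrix ι ι A} (h : FSum P Λ) : SS ε Λ := by
  induction h with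
  | hyp n => exact FC.hyp ε n
  | gen h => exact hg _ _ _ h
  | sum _ _ ih1 ih2 => exact ss_sum ih1 ih2

/-- A form which is decomposed into members of a class is in the class. -/
theorem mem_of_dec [FC A] {ε : ℤˣ}
    {P : ∀ n : ℕ, Matrix (Fin n) (Fin n) A → Matrix (Fin n) (Fin n) A → Prop}
    (hg : ∀ (n : ℕ) (ψ χ : Matrix (Fin n) (Fin n) A), P n ψ χ → SS ε (UF ψ 0 χ))
    {ι : Type} [Fintype ι] [DecidableEq ι] {Ψ : Matrix ι ι A}
    (h : ∃ (κ : Type) (_ : Fintype κ) (_ : DecidableEq κ) (Λ : Matrix κ κ A) (m : ℕ),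
      FSum P Λ ∧ Isometric ε (fromBlocks Ψ 0 0 (UV.hyp (Fin m) A)) Λ) : SS ε Ψ := by
  obtain ⟨κ, _, _, Λ, m, h1, h2⟩ := h
  exact FC.destab m (ss_of_isom h2 (fsum_mem hg h1))

end Class

/-- **Theorem D and vanishing:** if the forms of the barrier are stably hyperbolic, all nilpotent forms of the
edge are. -/
theorem vanD (hFLT : SpecFLT) (R G V : Type) [Ring R] [StarRing R] [Group G] [MulAction G V]
    (T : SimpleGraph V) (v w : V) (hT : T.IsTree)
    (hact : ∀ (g : G) (x y : V), T.Adj x y → T.Adj (g • x) (g • y)) (hvw : T.Adj v w)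
    (hinv : ∀ g : G, ¬ (g • v = w ∧ g • w = v))
    (htwo : ∀ g : G, g * g = 1 → (g • v = v ↔ g • w = w))
    (hB : ∀ (x y : ℕ → V) (u : ℕ → G), Adm T v w x y u →
      (∃ i, DG.GC R ↥(Sb G (x i) (y i))) ∨
      ∃ i, 1 ≤ i ∧ RO.Blk R (La (Sb G (x i) (y i)) (u i))
        (La (Sb G (x (i + 1)) (y (i + 1))) (u (i + 1)))) :
    CR.Van R G {g | g • v = v ∧ g • w ≠ w} {g | g • v = w} {g | g • w = w ∧ g • v ≠ v} := by
  intro ε n ψ μ χ hψ hμ hχ hnil
  let F : FC (MonoidAlgebra R G) := fcSH (MonoidAlgebra R G)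
  have h := mem_of_dec (ε := ε) (P := PB (RO.Blk R) ε) (Ψ := UF ψ μ χ) ?_
    (thD hFLT R G V T v w hT hact hvw hinv htwo (RO.Blk R) hB ε n ψ μ χ hψ hμ hχ hnil)
  · exact h
  · rintro m ψ' χ' ⟨C, D, hCD, h1, h2, h3⟩
    exact hCD ε m ψ' χ' h1 h2 h3

/-- The forms with supports in `C`, `D` are zero in `L^p`. -/
def BlkP (R : Type) {G : Type} [Ring R] [StarRing R] [Group G] (C D : Set G) : Prop :=
  ∀ (ε : ℤˣ) (n : ℕ) (ψ χ : Matrix (Fin n) (Fin n) (MonoidAlgebra R G)),
    SuppIn C ψ → SuppIn D χ → IsNilpotent (nu ε (ψ + (ε : ℤ) • ψᴴ) 0 (χ + (ε : ℤ) • χᴴ)) →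
    SHp ε (UF ψ 0 χ)

/-- **Theorem D and vanishing in `L^p`.** -/
theorem shpD (hFLT : SpecFLT) (R G V : Type) [Ring R] [StarRing R] [Group G] [MulAction G V]
    (T : SimpleGraph V) (v w : V) (hT : T.IsTree)
    (hact : ∀ (g : G) (x y : V), T.Adj x y → T.Adj (g • x) (g • y)) (hvw : T.Adj v w)
    (hinv : ∀ g : G, ¬ (g • v = w ∧ g • w = v))
    (htwo : ∀ g : G, g * g = 1 → (g • v = v ↔ g • w = w))
    (hB : ∀ (x y : ℕ → V) (u : ℕ → G), Adm T v w x y u →
      (∃ i, DG.GC R ↥(Sb G (x i) (y i))) ∨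
      ∃ i, 1 ≤ i ∧ BlkP R (La (Sb G (x i) (y i)) (u i))
        (La (Sb G (x (i + 1)) (y (i + 1))) (u (i + 1))))
    (ε : ℤˣ) (n : ℕ) (ψ μ χ : Matrix (Fin n) (Fin n) (MonoidAlgebra R G))
    (hψ : SuppIn {g | g • v = v ∧ g • w ≠ w} ψ) (hμ : SuppIn {g | g • v = w} μ)
    (hχ : SuppIn {g | g • w = w ∧ g • v ≠ v} χ)
    (hnil : IsNilpotent (nu ε (ψ + (ε : ℤ) • ψᴴ) μ (χ + (ε : ℤ) • χᴴ))) : SHp ε (UF ψ μ χ) := by
  let F : FC (MonoidAlgebra R G) := fcSHp (MonoidAlgebra R G)
  have h := mem_of_dec (ε := ε) (P := PB (BlkP R) ε) (Ψ := UF ψ μ χ) ?_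
    (thD hFLT R G V T v w hT hact hvw hinv htwo (BlkP R) hB ε n ψ μ χ hψ hμ hχ hnil)
  · exact h
  · rintro m ψ' χ' ⟨C, D, hCD, h1, h2, h3⟩
    exact hCD ε m ψ' χ' h1 h2 h3

/-! ### Sequences -/

/-- A decreasing sequence is constant from some place on or has a strictly decreasing subsequence. -/
theorem const_or {α : Type} [PartialOrder α] (a : ℕ → α) (h : ∀ i, a (i + 1) ≤ a i) :
    (∃ N, ∀ i, N ≤ i → a i = a N) ∨
      ∃ φ : ℕ → ℕ, 1 ≤ φ 0 ∧ (∀ i, φ i < φ (i + 1)) ∧ ∀ i, a (φ (i + 1)) < a (φ i) := by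
  have hmono : ∀ i j, i ≤ j → a j ≤ a i := by
    intro i j hij
    induction hij with
    | refl => exact le_rfl
    | step _ ih => exact (h _).trans ih
  by_cases hc : ∃ N, ∀ i, N ≤ i → a i = a N
  · exact Or.inl hc
  · refine Or.inr ?_
    have h1 : ∀ N, ∃ i, N < i ∧ a i < a N := by
      intro N
      by_contra hN
      apply hc
      refine ⟨N, fun i hi => ?_⟩
      by_contra hne
      have h2 : a i < a N := lt_of_le_of_ne (hmono N i hi) hne
      have h3 : N < i := by
        rcases Nat.lt_or_ge N i with h | h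
        · exact h
        · have : i = N := le_antisymm h hi
          subst this
          exact absurd rfl hne
      exact hN ⟨i, h3, h2⟩
    choose f hf using h1
    refine ⟨fun k => Nat.rec 1 (fun _ m => f m) k, le_rfl, fun i => (hf _).1, fun i => (hf _).2⟩

section Lines

variable {G V : Type} [Group G] [MulAction G V] {d : V → V → ℕ}

/-- The paths increase. -/
theorem btw_le (hd : TM G d) {x y : ℕ → V}
    (h : ∀ i, d (x (i + 1)) (y (i + 1)) =
      d (x (i + 1)) (x i) + d (x i) (y i) + d (y i) (y (i + 1))) (i : ℕ) :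
    ∀ j, i ≤ j → d (x j) (y j) = d (x j) (x i) + d (x i) (y i) + d (y i) (y j) := by
  intro j hij
  induction hij with
  | refl => rw [(hd.d0 _ _).2 rfl, (hd.d0 _ _).2 rfl]; omega
  | @step j hij ih =>
    have e1 := h j
    have t1 := hd.tri (x (j + 1)) (x j) (x i)
    have t2 := hd.tri (y i) (y j) (y (j + 1))
    have t3 := hd.tri (x (j + 1)) (x i) (y (j + 1))
    have t4 := hd.tri (x i) (y i) (y (j + 1))
    simp only [Nat.succ_eq_add_one] at *
    omega

/-- The stabilizers decrease. -/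
theorem stab_le (hd : TM G d) {x y x' y' : V} (h : d x' y' = d x' x + d x y + d y y') :
    MulAction.stabilizer G x' ⊓ MulAction.stabilizer G y' ≤
      MulAction.stabilizer G x ⊓ MulAction.stabilizer G y := by
  intro g hg
  rw [Subgroup.mem_inf, MulAction.mem_stabilizer_iff, MulAction.mem_stabilizer_iff] at hg ⊢
  have t1 := hd.tri x' x y'
  have t2 := hd.tri x y y'
  have t3 := hd.tri x' y y'
  have t4 := hd.tri x' x y
  exact ⟨(specTFA G V d hd).1 g x' x y' (by omega) hg.1 hg.2,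
    (specTFA G V d hd).1 g x' y y' (by omega) hg.1 hg.2⟩

/-- An element which exchanges `x` and `y` normalizes the stabilizer. -/
theorem ns_of_exch {x y : V} {u : G} (h1 : u • x = y) (h2 : u • y = x) :
    Ns (MulAction.stabilizer G x ⊓ MulAction.stabilizer G y) u := by
  have h3 : u⁻¹ • y = x := by rw [← h1, inv_smul_smul]
  have h4 : u⁻¹ • x = y := by rw [← h2, inv_smul_smul]
  intro k hk
  rw [Subgroup.mem_inf, MulAction.mem_stabilizer_iff, MulAction.mem_stabilizer_iff] at hk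
  constructor
  · rw [Subgroup.mem_inf, MulAction.mem_stabilizer_iff, MulAction.mem_stabilizer_iff]
    simp only [mul_smul]
    rw [h3, h4, hk.1, hk.2]
    exact ⟨h2, h1⟩
  · rw [Subgroup.mem_inf, MulAction.mem_stabilizer_iff, MulAction.mem_stabilizer_iff]
    simp only [mul_smul]
    rw [h1, h2, hk.1, hk.2]
    exact ⟨h3, h4⟩

/-- **The line condition and the chain condition imply the barrier condition.** -/
theorem barrier_of_lines {T : SimpleGraph V} (hd : TM G (V := V) T.dist) (Q : Subgroup G → Prop)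
    (B : Set G → Set G → Prop) (v w : V) (hvw : T.dist v w = 1)
    (hline : ∀ (x y : V) (g f : G), T.dist x y = T.dist x v + 1 + T.dist w y → g • x = y →
      g • y = x → Ns (Sb G x y) f → f * f ∈ Sb G x y →
      T.dist y (f • y) = T.dist y x + T.dist x (f • y) → f • y ≠ x →
      (∀ h ∈ Sb G x y, h * g * (h * g) ≠ 1) → (∀ h ∈ Sb G x y, h * f * (h * f) ≠ 1) →
      Q (Sb G x y) ∨ B (La (Sb G x y) g) (La (Sb G x y) f))
    (hchain : ∀ x y : ℕ → V,
      (∀ i, T.dist (x i) (y i) = T.dist (x i) v + 1 + T.dist w (y i)) →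
      (∀ i, ∃ g : G, g • x i = y i ∧ g • y i = x i) →
      (∀ i, T.dist (x (i + 1)) (y (i + 1)) =
        T.dist (x (i + 1)) (x i) + T.dist (x i) (y i) + T.dist (y i) (y (i + 1))) →
      (∀ i, Sb G (x (i + 1)) (y (i + 1)) < Sb G (x i) (y i)) → ∃ i, Q (Sb G (x i) (y i)))
    (x y : ℕ → V) (u : ℕ → G) (hadm : Adm T v w x y u) :
    (∃ i, Q (Sb G (x i) (y i))) ∨ ∃ i, 1 ≤ i ∧ B (La (Sb G (x i) (y i)) (u i))
      (La (Sb G (x (i + 1)) (y (i + 1))) (u (i + 1))) := by
  obtain ⟨hx0, hy0, h1, h2, h3, h6, h4, h5⟩ := hadm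
  have hb := btw_le hd h1
  have hvi : ∀ i, T.dist (x i) (y i) = T.dist (x i) v + 1 + T.dist w (y i) := by
    intro i
    have e := hb 0 i (Nat.zero_le _)
    rw [hx0, hy0, hvw] at e
    exact e
  rcases const_or (fun i => MulAction.stabilizer G (x i) ⊓ MulAction.stabilizer G (y i))
    (fun i => stab_le hd (h1 i)) with ⟨N, hN⟩ | ⟨φ, hφ0, hφ, hlt⟩
  · -- the stabilizers are constant
    obtain ⟨M, hM1, hMN, hMy⟩ : ∃ M, 1 ≤ M ∧ N ≤ M ∧ y (M + 1) = y M := by
      rcases h4 (N + 1) (by omega) with hx | hy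
      · refine ⟨N + 2, by omega, by omega, ?_⟩
        rcases h4 (N + 2) (by omega) with hx2 | hy2
        · exfalso
          obtain ⟨k, hk, hu⟩ := h5 (N + 1) (by omega)
          have e1 := (h3 (N + 1 + 2) (by omega)).1
          have e2 := (h3 (N + 1) (by omega)).1
          rw [Subgroup.mem_inf, MulAction.mem_stabilizer_iff, MulAction.mem_stabilizer_iff] at hk
          have e3 : x (N + 1 + 2) = x (N + 1) := by
            rw [show N + 1 + 2 = N + 2 + 1 from rfl, hx2]
            exact hx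
          rw [hu, e3, mul_smul, e2, hk.2] at e1
          have e4 := h2 (N + 1)
          have e5 := h2 (N + 1 + 1)
          rw [show N + 1 + 1 + 1 = N + 1 + 2 from rfl, e3, ← e1] at e5
          omega
        · exact hy2
      · exact ⟨N + 1, by omega, by omega, hy⟩
    have hK : MulAction.stabilizer G (x (M + 1)) ⊓ MulAction.stabilizer G (y (M + 1)) =
        MulAction.stabilizer G (x M) ⊓ MulAction.stabilizer G (y M) :=
      (hN (M + 1) (by omega)).trans (hN M hMN).symm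
    have hu := h3 M hM1
    have hf := h3 (M + 1) (by omega)
    have hns := ns_of_exch hf.1 hf.2
    have hff : u (M + 1) * u (M + 1) ∈
        MulAction.stabilizer G (x (M + 1)) ⊓ MulAction.stabilizer G (y (M + 1)) := by
      rw [Subgroup.mem_inf, MulAction.mem_stabilizer_iff, MulAction.mem_stabilizer_iff, mul_smul,
        mul_smul, hf.1, hf.2, hf.1]
      exact ⟨rfl, rfl⟩
    rw [hK] at hns hff
    have hfy : u (M + 1) • y M = x (M + 1) := by rw [← hMy]; exact hf.2
    have hbt := h1 M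
    have hst := h2 M
    rw [hMy] at hbt hst
    have c0 : T.dist (y M) (y M) = 0 := (hd.d0 _ _).2 rfl
    have c1 := hd.cm (x (M + 1)) (y M)
    have c2 := hd.cm (x (M + 1)) (x M)
    have c3 := hd.cm (x M) (y M)
    have hK' : Sb G (x (M + 1)) (y (M + 1)) = Sb G (x M) (y M) := hK
    have h6' := h6 (M + 1) (by omega)
    rw [hK'] at h6'
    rcases hline (x M) (y M) (u M) (u (M + 1)) (hvi M) hu.1 hu.2 hns hff
      (by rw [hfy]; omega) (by
        rw [hfy]
        intro he
        rw [he] at hst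
        omega) (h6 M hM1) h6' with hq | hbb
    · exact Or.inl ⟨M, hq⟩
    · refine Or.inr ⟨M, hM1, ?_⟩
      rw [hK']
      exact hbb
  · -- a strictly decreasing subsequence
    have hφ1 : ∀ i, 1 ≤ φ i := by
      intro i
      induction i with
      | zero => exact hφ0
      | succ i ih => exact ih.trans (hφ i).le
    obtain ⟨i, hi⟩ := hchain (fun i => x (φ i)) (fun i => y (φ i)) (fun i => hvi _)
      (fun i => ⟨u (φ i), h3 _ (hφ1 i)⟩) (fun i => hb _ _ (hφ i).le) hlt
    exact Or.inl ⟨φ i, hi⟩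

end Lines

end Pool.Agent.Lib.MP8a3537.AR
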