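import Pool.Agent.Lib.MP_8a3537_gt.AR.SpecT

/-!
# Two forms with the same invertible polarization (MP_8a3537_gt, folder AR, helper76)
-/

set_option autoImplicit false
set_option linter.unusedSectionVars false

namespace Pool.Agent.Lib.MP8a3537.AR

open Matrix Pool.Agent.Lib.MP8a3537.UV

namespace TISM

variable {A : Type} [Ring A] [StarRing A]

theorem eo (ε : ℤˣ) {M N : Type} (X : Matrix M N A) : (ε : ℤ) • (ε : ℤ) • X = X := by
  rcases Int.units_eq_one_or ε with h | h <;> simp [h]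

theorem eh (ε : ℤˣ) {M N : Type} (X : Matrix M N A) : ((ε : ℤ) • X)ᴴ = (ε : ℤ) • Xᴴ := by
  rcases Int.units_eq_one_or ε with h | h <;> simp [h]

/-- The graph of the identity. -/
theorem graph (ε : ℤˣ) {ι : Type} [Fintype ι] [DecidableEq ι] (Ψ τ Θ : Matrix ι ι A)
    (h1 : (Ψ + (ε : ℤ) • Ψᴴ) * Θ = 1) (h2 : Θ * (Ψ + (ε : ℤ) • Ψᴴ) = 1) :
    Isometric ε (fromBlocks (Ψ + τ) 0 0 (-Ψ)) (fromBlocks τ 1 0 (-(Θᴴ * Ψ * Θ))) := by
  refine ⟨fromBlocks 1 0 1 (-Θ), fromBlocks 1 0 (Ψ + (ε : ℤ) • Ψᴴ) (-(Ψ + (ε : ℤ) • Ψᴴ)),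
    fromBlocks 0 ((ε : ℤ) • (Ψᴴ * Θ)) 0 0, ?_, ?_, ?_⟩
  · have e0 : -Θ * -(Ψ + (ε : ℤ) • Ψᴴ) = 1 := by
      rw [Matrix.neg_mul, Matrix.mul_neg, neg_neg, h2]
    have e3 : -Θ * (Ψ + (ε : ℤ) • Ψᴴ) = -1 := by
      rw [Matrix.neg_mul, h2]
    rw [fromBlocks_multiply, e0, e3]
    simp only [Matrix.mul_one, Matrix.mul_zero, Matrix.zero_mul, add_zero, zero_add,
      add_neg_cancel, fromBlocks_one]
  · have e0 : -(Ψ + (ε : ℤ) • Ψᴴ) * -Θ = 1 := by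
      rw [Matrix.neg_mul, Matrix.mul_neg, neg_neg, h1]
    rw [fromBlocks_multiply, e0]
    simp only [Matrix.mul_one, Matrix.mul_zero, Matrix.zero_mul, add_zero, zero_add,
      add_neg_cancel, fromBlocks_one]
  · have e1 : Ψ * Θ + (ε : ℤ) • (Ψᴴ * Θ) = 1 := by
      rw [← h1, Matrix.add_mul, Matrix.smul_mul]
    rw [fromBlocks_conjTranspose, fromBlocks_conjTranspose, fromBlocks_multiply,
      fromBlocks_multiply, fromBlocks_smul, sub_eq_add_neg, fromBlocks_neg, fromBlocks_add,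
      fromBlocks_add, fromBlocks_inj]
    refine ⟨?_, ?_, ?_, ?_⟩
    · simp [-zsmul_eq_mul]
    · simp [-zsmul_eq_mul, e1]
    · simp [eo, conjTranspose_mul, -zsmul_eq_mul]
    · simp [Matrix.mul_assoc, -zsmul_eq_mul]

/-- The complement. -/
theorem shift (ε : ℤˣ) {ι : Type} [Fintype ι] [DecidableEq ι] (τ θ : Matrix ι ι A)
    (hτ : Tate ε τ) : Isometric ε (fromBlocks τ 1 0 θ) (fromBlocks τ 1 0 (θ * τ * θᴴ)) := by
  refine ⟨fromBlocks 1 (-θᴴ) 0 1, fromBlocks 1 θᴴ 0 1, fromBlocks 0 0 (θ * τ) 0, ?_, ?_, ?_⟩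
  · rw [fromBlocks_multiply]
    simp [fromBlocks_one]
  · rw [fromBlocks_multiply]
    simp [fromBlocks_one]
  · have e1 : τ * θᴴ + (ε : ℤ) • (τᴴ * θᴴ) = 0 := by
      rw [← Matrix.smul_mul, ← Matrix.add_mul, hτ, Matrix.zero_mul]
    rw [fromBlocks_conjTranspose, fromBlocks_conjTranspose, fromBlocks_multiply,
      fromBlocks_multiply, fromBlocks_smul, sub_eq_add_neg, fromBlocks_neg, fromBlocks_add,
      fromBlocks_add, fromBlocks_inj]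
    refine ⟨?_, ?_, ?_, ?_⟩
    · simp [-zsmul_eq_mul]
    · have e2 : (ε : ℤ) • (τᴴ * θᴴ) = -(τ * θᴴ) := by
        rw [eq_neg_iff_add_eq_zero, add_comm]; exact e1
      simp [conjTranspose_mul, e2, -zsmul_eq_mul]
    · simp [-zsmul_eq_mul]
    · simp [Matrix.mul_assoc, -zsmul_eq_mul]

end TISM

theorem specTIS : SpecTIS := by
  intro A _ _ ε ι _ _ Ψ τ Θ hτ h1 h2
  refine ⟨-(Θᴴ * Ψ * Θ) * τ * (-(Θᴴ * Ψ * Θ))ᴴ, ?_, ?_⟩
  · unfold Tate at hτ ⊢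
    have e1 : (ε : ℤ) • τᴴ = -τ := by
      rw [eq_neg_iff_add_eq_zero, add_comm]; exact hτ
    rw [conjTranspose_mul, conjTranspose_mul, conjTranspose_conjTranspose, ← Matrix.mul_smul,
      ← Matrix.smul_mul, e1]
    simp [Matrix.mul_assoc]
  · have h := EMVAux.iso_trans ε (TISM.graph ε Ψ τ Θ h1 h2) (TISM.shift ε τ _ hτ)
    unfold UF
    simpa using h

end Pool.Agent.Lib.MP8a3537.AR
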