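import Pool.Agent.Lib.MP_8a3537_gt.AR.SpecT

/-!
# TPO: the class depends only on the polarization (MP_8a3537_gt, folder AR, helper21)
-/

set_option autoImplicit false
set_option linter.unusedSectionVars false

namespace Pool.Agent.Lib.MP8a3537.AR

open Matrix Pool.Agent.Lib.MP8a3537.UV

namespace TPOM

variable {A : Type} [Ring A] [StarRing A]

theorem comm (ε : ℤˣ) {ι κ : Type} [Fintype ι] [DecidableEq ι] [Fintype κ] [DecidableEq κ]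
    (Ψ : Matrix ι ι A) (Φ : Matrix κ κ A) :
    Isometric ε (fromBlocks Ψ 0 0 Φ) (fromBlocks Φ 0 0 Ψ) := by
  refine EMVAux.iso_equiv ε _ _ (Equiv.sumComm κ ι) ?_
  ext i j
  rcases i with i | i <;> rcases j with j | j <;> rfl

theorem uf_hyp (ε : ℤˣ) {ι : Type} [Fintype ι] [DecidableEq ι] (χ : Matrix ι ι A) :
    Isometric ε (UF 0 0 χ) (UV.hyp ι A) := by
  refine ⟨fromBlocks 1 (-χᴴ) 0 1, fromBlocks 1 χᴴ 0 1, 0, ?_, ?_, ?_⟩
  · rw [fromBlocks_multiply]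
    simp [fromBlocks_one]
  · rw [fromBlocks_multiply]
    simp [fromBlocks_one]
  · unfold UF UV.hyp
    rw [fromBlocks_conjTranspose, fromBlocks_multiply, fromBlocks_multiply]
    simp

end TPOM

theorem specTPO (hTIS : SpecTIS) (hTDI : SpecTDI) : SpecTPO := by
  intro R G _ _ _ _ hD ε ι _ _ Ψ Φ Θ hpol h1 h2 hΨ
  have hτ : Tate ε (Φ - Ψ) := by
    unfold Tate
    rw [conjTranspose_sub, smul_sub]
    calc Φ - Ψ + ((ε : ℤ) • Φᴴ - (ε : ℤ) • Ψᴴ)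
        = (Φ + (ε : ℤ) • Φᴴ) - (Ψ + (ε : ℤ) • Ψᴴ) := by abel
      _ = 0 := by rw [hpol, sub_self]
  obtain ⟨τ', hτ', hi⟩ := hTIS _ ε ι Ψ (Φ - Ψ) Θ hτ h1 h2
  rw [add_sub_cancel] at hi
  have s1 : SS ε (fromBlocks Φ 0 0 (-Ψ)) :=
    ss_of_isom hi (hTDI R G hD ε ι _ _ hτ hτ')
  have s2 := ss_sum s1 hΨ
  have h0 : Tate ε (0 : Matrix ι ι (MonoidAlgebra R G)) := by
    unfold Tate
    simp
  obtain ⟨τ'', -, hi'⟩ := hTIS _ ε ι Ψ 0 Θ h0 h1 h2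
  rw [add_zero] at hi'
  have s3 : Isometric ε (fromBlocks (-Ψ) 0 0 Ψ) (UV.hyp ι (MonoidAlgebra R G)) :=
    EMVAux.iso_trans ε (TPOM.comm ε _ _) (EMVAux.iso_trans ε hi' (TPOM.uf_hyp ε _))
  have s4 : Isometric ε (fromBlocks (fromBlocks Φ 0 0 (-Ψ)) 0 0 Ψ)
      (fromBlocks Φ 0 0 (UV.hyp ι (MonoidAlgebra R G))) :=
    EMVAux.iso_trans ε (EMVAux.iso_symm ε (EMVAux.iso_assoc ε Φ (-Ψ) Ψ))
      (EMVAux.iso_sum' ε Φ s3)
  exact ss_destab ι (ss_of_isom (EMVAux.iso_symm ε s4) s2)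

end Pool.Agent.Lib.MP8a3537.AR

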