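import Pool.Agent.Lib.MP_8a3537_gt.AR.TAD
import Pool.Agent.Lib.MP_8a3537_gt.AR.TDI
import Pool.Agent.Lib.MP_8a3537_gt.AR.Base
import Pool.Agent.Lib.MP_8a3537_gt.ROK.Defs
import Pool.Agent.Lib.MP_8a3537_gt.UV.NIL

/-!
# Groups with elements of order two (MP_8a3537_gt, folder AR, module TPP, helper30)

`(ψ, 1; 0, M)`, `M + ε M^* = 0`, for ping-pong data: the only places where the absence of elements of order two is used.
`DInfI`: the forms `(r t, 1; 0, s u)`, `t`, `u` of order two, `t u` of infinite order, are in the class.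
-/

set_option autoImplicit false
set_option linter.unusedSectionVars false
set_option linter.unusedSimpArgs false

namespace Pool.Agent.Lib.MP8a3537.AR

open Matrix Pool.Agent.Lib.MP8a3537.UV Pool.Agent.Lib.MP8a3537.RO Pool.Agent.Lib.MP8a3537.ROK

/-- The forms `(r t, 1; 0, s u)` of size `1 + 1`, `t t = u u = 1`, `t u` of infinite order, `r = - ε r^*`,
`s = - ε s^*`, are in the class. -/
def DInfI (R G : Type) [Ring R] [StarRing R] [Group G] [FC (MonoidAlgebra R G)] : Prop :=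
  ∀ (ε : ℤˣ) (r s : R) (t u : G), t * t = 1 → u * u = 1 → (∀ n : ℕ, 1 ≤ n → (t * u) ^ n ≠ 1) →
    r + (ε : ℤ) • star r = 0 → s + (ε : ℤ) • star s = 0 →
    SS ε (UF (Matrix.of fun _ _ : Fin 1 => MonoidAlgebra.single t r) 0
      (Matrix.of fun _ _ : Fin 1 => MonoidAlgebra.single u s))

/-- **TPP**: Tate matrices and ping-pong. -/
def SpecTPP : Prop :=
  ∀ (R G : Type) [Ring R] [StarRing R] [Group G] [FC (MonoidAlgebra R G)], DInfI R G →
    ∀ (L : Subgroup G) (X1 X2 Yp Ym : Set G), PPK L X1 X2 ∅ Yp Ym → ∀ (ε : ℤˣ) (n : ℕ)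
      (ψ M : Matrix (Fin n) (Fin n) (MonoidAlgebra R G)), SuppIn X1 ψ → SuppIn X2 M →
      M + (ε : ℤ) • Mᴴ = 0 → SS ε (UF ψ 0 M)

namespace TPPM

/-- `(M, 1; 0, ψ)` and `(M, 1; 0, ψ M ψ^*)`. -/
theorem iso {A : Type} [Ring A] [StarRing A] (ε : ℤˣ) {n : ℕ} (M ψ : Matrix (Fin n) (Fin n) A)
    (hM : M + (ε : ℤ) • Mᴴ = 0) : Isometric ε (UF M 0 ψ) (UF M 0 (ψ * M * ψᴴ)) := by
  have hε : (ε : ℤ) • Mᴴ = -M := (neg_eq_of_add_eq_zero_right hM).symm
  refine ⟨fromBlocks 1 (-ψᴴ) 0 1, fromBlocks 1 ψᴴ 0 1, fromBlocks 0 0 (ψ * M) 0, ?_, ?_, ?_⟩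
  · rw [fromBlocks_multiply]
    simp [fromBlocks_one]
  · rw [fromBlocks_multiply]
    simp [fromBlocks_one]
  · have e1 : (ε : ℤ) • (ψ * M)ᴴ = -(M * ψᴴ) := by
      rw [conjTranspose_mul, ← Matrix.smul_mul, hε, Matrix.neg_mul]
    unfold UF
    rw [fromBlocks_conjTranspose, Matrix.mul_assoc, fromBlocks_multiply, fromBlocks_multiply,
      fromBlocks_conjTranspose, fromBlocks_smul, fromBlocks_add, sub_eq_add_neg,
      fromBlocks_neg, fromBlocks_add]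
    congr 1
    · simp
    · rw [e1]
      simp only [conjTranspose_one, conjTranspose_zero, Matrix.one_mul,
        Matrix.mul_one, Matrix.zero_mul, Matrix.mul_zero, Matrix.mul_neg, Matrix.add_mul,
        add_zero, zero_add, neg_neg, Matrix.mul_zero]
      abel
    · simp
    · simp [Matrix.mul_assoc]

theorem tate {A : Type} [Ring A] [StarRing A] (ε : ℤˣ) {n : ℕ} (M ψ : Matrix (Fin n) (Fin n) A)
    (hM : M + (ε : ℤ) • Mᴴ = 0) : Tate ε (ψ * M * ψᴴ) := by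
  unfold Tate
  have h1 : (ψ * M * ψᴴ)ᴴ = ψ * Mᴴ * ψᴴ := by
    rw [conjTranspose_mul, conjTranspose_mul, conjTranspose_conjTranspose, Matrix.mul_assoc]
  have h2 : ψ * M * ψᴴ + (ε : ℤ) • (ψ * Mᴴ * ψᴴ) = ψ * (M + (ε : ℤ) • Mᴴ) * ψᴴ := by
    rw [Matrix.mul_add, Matrix.add_mul, Matrix.mul_smul, Matrix.smul_mul]
  rw [h1, h2, hM, Matrix.mul_zero, Matrix.zero_mul]

theorem infi {G : Type} [Group G] {L : Subgroup G} {X1 X2 Yp Ym : Set G}
    (P : PPK L X1 X2 ∅ Yp Ym) {t u : G} (ht : t ∈ X2) (htt : t * t = 1)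
    (hu : u ∈ {z | ∃ x ∈ X1, ∃ y ∈ X2, ∃ x' ∈ X1, z = x * y * x'}) (n : ℕ) (hn : 1 ≤ n) :
    (t * u) ^ n ≠ 1 := by
  obtain ⟨x, hx, y, hy, x', hx', rfl⟩ := hu
  have hup : ∀ p ∈ Yp, x * y * x' * p ∈ Ym := by
    intro p hp
    have h1 := P.X1Y x hx _ (P.X2Y y hy _ (P.X1Y x' hx' p hp))
    simpa only [mul_assoc] using h1
  have hpow : ∀ k : ℕ, (t * (x * y * x')) ^ k ∈ Yp := by
    intro k
    induction k with
    | zero =>
      rw [pow_zero]
      exact P.Yp1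
    | succ k ih =>
      rw [pow_succ', mul_assoc]
      exact P.X2Y t ht _ (hup _ ih)
  intro h
  obtain ⟨k, rfl⟩ : ∃ k, n = k + 1 := ⟨n - 1, by omega⟩
  rw [pow_succ', mul_assoc] at h
  have h2 : x * y * x' * (t * (x * y * x')) ^ k = t :=
    (eq_inv_of_mul_eq_one_right h).trans (inv_eq_of_mul_eq_one_right htt)
  have h3 : t ∈ Ym := by
    have h4 := hup _ (hpow k)
    rwa [h2] at h4
  have h5 : t ∈ Yp := by
    have h6 := P.X2Y t ht 1 P.Ym1
    rwa [mul_one] at h6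
  exact P.xh true false t ht (P.yy t h5 h3)

end TPPM

open TPPM in
/-- **Module TPP**. -/
theorem specTPP (hTDS : SpecTDS) : SpecTPP := by
  intro R G _ _ _ _ hD L X1 X2 Yp Ym P ε n ψ M hψ hM h0
  refine (specSwpP (MonoidAlgebra R G) ε n ψ 0 M).1 ?_
  rw [conjTranspose_zero]
  refine ss_of_isom (iso ε M ψ h0) ?_
  refine hTDS R G ε X2 {z | ∃ x ∈ X1, ∃ y ∈ X2, ∃ x' ∈ X1, z = x * y * x'} ?_ (Fin n) M
    (ψ * M * ψᴴ) hM ?_ h0 (tate ε M ψ h0)
  · intro r s t u ht hu htt huu hr hs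
    exact hD ε r s t u htt huu (infi P ht htt hu) hr hs
  · have h1 : SuppIn {z | ∃ x ∈ X1, ∃ y ∈ X2, z = x * y} (ψ * M) :=
      NILAux.supp_mul hψ hM fun x hx y hy => ⟨x, hx, y, hy, rfl⟩
    have h2 : SuppIn X1 ψᴴ := NILAux.supp_mono (NILAux.supp_star hψ) fun z hz => by
      have h3 : z⁻¹ ∈ X1 := hz
      have h4 := P.X1i _ h3
      rwa [inv_inv] at h4
    refine NILAux.supp_mul h1 h2 ?_
    rintro z ⟨x, hx, y, hy, rfl⟩ x' hx'
    exact ⟨x, hx, y, hy, x', hx', rfl⟩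

theorem mTPP : SpecTPP := specTPP (specTDS specTAD)

end Pool.Agent.Lib.MP8a3537.AR
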