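import Pool.Agent.Lib.MP_8a3537_gt.AR.LBK

/-!
# Every coefficient ring (MP_8a3537_gt, folder AR): twisted coefficients (helper28)

`VanP R G X B Y`: the forms of the edge with supports in `X`, `B`, `Y` are zero in `L^p`. Let `p : G → Q` be a homomorphism.
The map `g ↦ g · p g` from `R[G]` to the group ring of `Q` over the coefficient ring `R[G]` is a homomorphism of rings with
involution, and the augmentation of `Q` is a left inverse. So a vanishing theorem for `Q` and all coefficient rings
is a theorem for `G`, with the preimages of the supports (`vanP_quot`).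
-/

set_option autoImplicit false
set_option linter.unusedSectionVars false

namespace Pool.Agent.Lib.MP8a3537.AR

open Matrix Pool.Agent.Lib.MP8a3537.UV

/-- The forms with supports in `X`, `B`, `Y` are zero in `L^p`. -/
def VanP (R G : Type) [Ring R] [StarRing R] [Group G] (X B Y : Set G) : Prop :=
  ∀ (ε : ℤˣ) (n : ℕ) (ψ μ χ : Matrix (Fin n) (Fin n) (MonoidAlgebra R G)), SuppIn X ψ →
    SuppIn B μ → SuppIn Y χ → IsNilpotent (nu ε (ψ + (ε : ℤ) • ψᴴ) μ (χ + (ε : ℤ) • χᴴ)) →
    SHp ε (UF ψ μ χ)

namespace TRIM

variable {R G Q : Type} [Ring R] [StarRing R] [Group G] [Group Q] (p : G →* Q)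

/-- `g ↦ (p g) · g`. -/
noncomputable def gm : G →* MonoidAlgebra (MonoidAlgebra R G) Q where
  toFun g := MonoidAlgebra.single (p g) (MonoidAlgebra.single g (1 : R))
  map_one' := by rw [map_one]; rfl
  map_mul' g h := by
    rw [MonoidAlgebra.single_mul_single, MonoidAlgebra.single_mul_single, map_mul, one_mul]

/-- `R[G] → R[G][Q]`, `g ↦ (p g) · g`. -/
noncomputable def io : MonoidAlgebra R G →+* MonoidAlgebra (MonoidAlgebra R G) Q :=
  MonoidAlgebra.liftNCRingHom
    ((MonoidAlgebra.singleOneRingHom (R := MonoidAlgebra R G) (M := Q)).comp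
      (MonoidAlgebra.singleOneRingHom (R := R) (M := G))) (gm p) (by
    intro x y
    show MonoidAlgebra.single 1 (MonoidAlgebra.single 1 x) *
        MonoidAlgebra.single (p y) (MonoidAlgebra.single y (1 : R)) =
      MonoidAlgebra.single (p y) (MonoidAlgebra.single y (1 : R)) *
        MonoidAlgebra.single 1 (MonoidAlgebra.single 1 x)
    rw [MonoidAlgebra.single_mul_single, MonoidAlgebra.single_mul_single,
      MonoidAlgebra.single_mul_single, MonoidAlgebra.single_mul_single, one_mul, mul_one, one_mul,
      mul_one, mul_one, one_mul])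

theorem io_single (g : G) (r : R) : io p (MonoidAlgebra.single g r) =
    MonoidAlgebra.single (p g) (MonoidAlgebra.single g r) := by
  unfold io
  rw [MonoidAlgebra.liftNCRingHom_single]
  show MonoidAlgebra.single 1 (MonoidAlgebra.single 1 r) *
    MonoidAlgebra.single (p g) (MonoidAlgebra.single g (1 : R)) = _
  rw [MonoidAlgebra.single_mul_single, MonoidAlgebra.single_mul_single, one_mul, one_mul, mul_one]

/-- The augmentation of `Q`. -/
noncomputable def au : MonoidAlgebra (MonoidAlgebra R G) Q →+* MonoidAlgebra R G :=
  MonoidAlgebra.liftNCRingHom (RingHom.id _) (1 : Q →* MonoidAlgebra R G) (by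
    intro x y
    exact Commute.one_right _)

theorem au_single (q : Q) (x : MonoidAlgebra R G) :
    au (MonoidAlgebra.single q x) = x := by
  unfold au
  rw [MonoidAlgebra.liftNCRingHom_single]
  simp

theorem au_io (x : MonoidAlgebra R G) : au (io p x) = x := by
  induction x using MonoidAlgebra.induction_linear with
  | zero => simp
  | add x y hx hy => rw [map_add, map_add, hx, hy]
  | single g r => rw [io_single, au_single]

theorem io_star (x : MonoidAlgebra R G) : io p (star x) = star (io p x) := by
  induction x using MonoidAlgebra.induction_linear with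
  | zero => simp
  | add x y hx hy => rw [star_add, map_add, map_add, star_add, hx, hy]
  | single g r => rw [star_single, io_single, io_single, star_single, star_single, map_inv]

theorem au_star (x : MonoidAlgebra (MonoidAlgebra R G) Q) : au (star x) = star (au x) := by
  induction x using MonoidAlgebra.induction_linear with
  | zero => simp
  | add x y hx hy => rw [star_add, map_add, map_add, star_add, hx, hy]
  | single q y => rw [star_single, au_single, au_single]

theorem io_coeff (x : MonoidAlgebra R G) (q : Q) (h : (io p x).coeff q ≠ 0) :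
    ∃ g, p g = q ∧ x.coeff g ≠ 0 := by
  classical
  have key : ∀ g : G, ((io p x).coeff q).coeff g = if p g = q then x.coeff g else 0 := by
    intro g
    clear h
    induction x using MonoidAlgebra.induction_linear with
    | zero => simp
    | add x y hx hy =>
      rw [map_add, MonoidAlgebra.coeff_add, Finsupp.add_apply, MonoidAlgebra.coeff_add,
        Finsupp.add_apply, hx, hy, MonoidAlgebra.coeff_add, Finsupp.add_apply]
      split_ifs <;> simp
    | single a r =>
      rw [io_single, MonoidAlgebra.coeff_single, Finsupp.single_apply, MonoidAlgebra.coeff_single,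
        Finsupp.single_apply]
      by_cases h1 : p a = q
      · rw [if_pos h1, MonoidAlgebra.coeff_single, Finsupp.single_apply]
        by_cases h2 : a = g
        · rw [if_pos h2, if_pos (by rw [← h2]; exact h1)]
        · rw [if_neg h2]
          simp
      · rw [if_neg h1]
        by_cases h2 : a = g
        · rw [if_neg (by rw [← h2]; exact h1)]
          simp
        · rw [if_neg h2]
          simp
  by_contra hc
  push Not at hc
  apply h
  ext g
  rw [key g]
  by_cases h1 : p g = q
  · rw [if_pos h1, hc g h1]
    simp
  · rw [if_neg h1]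
    simp

theorem supp_io {m n : Type} {X : Set Q} {M : Matrix m n (MonoidAlgebra R G)}
    (h : SuppIn {g | p g ∈ X} M) : SuppIn X (M.map (io p)) := by
  intro i j q hq
  obtain ⟨g, hg, hg'⟩ := io_coeff p (M i j) q hq
  have h2 : p g ∈ X := h i j g hg'
  rwa [hg] at h2

end TRIM

open TRIM in
/-- **Twisted coefficients.** A vanishing theorem for `Q` and the coefficient ring `R[G]` gives the theorem for
`R[G]`, with the preimages of the supports. -/
theorem vanP_quot {R G Q : Type} [Ring R] [StarRing R] [Group G] [Group Q] (p : G →* Q)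
    (X B Y : Set Q) (h : VanP (MonoidAlgebra R G) Q X B Y) :
    VanP R G {g | p g ∈ X} {g | p g ∈ B} {g | p g ∈ Y} := by
  intro ε n ψ μ χ hψ hμ hχ hnil
  have hs := io_star (R := R) p
  have h1 := h ε n (ψ.map (io p)) (μ.map (io p)) (χ.map (io p)) (supp_io p hψ) (supp_io p hμ)
    (supp_io p hχ) (by
      have e1 : ∀ M : Matrix (Fin n) (Fin n) (MonoidAlgebra R G),
          M.map (io p) + (ε : ℤ) • (M.map (io p))ᴴ = (M + (ε : ℤ) • Mᴴ).map (io p) := by
        intro M
        rw [Matrix.map_add _ (fun a b => map_add (io p) a b), CR.map_zsmul', CR.map_conj (io p) hs]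
      rw [e1, e1, ← CR.map_nu (io p) hs]
      exact CR.map_nil (io p) hnil)
  have h2 := LBKM.shp_ring (au (R := R) (G := G) (Q := Q)) (au_star) h1
  have e2 : ∀ M : Matrix (Fin n) (Fin n) (MonoidAlgebra R G),
      (M.map (io p)).map (au (R := R) (G := G) (Q := Q)) = M := by
    intro M
    ext1 i j
    exact au_io p (M i j)
  rw [← CR.map_UF (io p) hs] at h2
  have e3 : ((UF ψ μ χ).map (io p)).map (au (R := R) (G := G) (Q := Q)) = UF ψ μ χ := by
    ext1 i j
    exact au_io p (UF ψ μ χ i j)
  rwa [e3] at h2

end Pool.Agent.Lib.MP8a3537.AR
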